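import Pool.Agent.Lib.MP_8a3537_gt.AUL.Spec

/-!
# ACH: `T_c` for the cohomology of a base change
-/

set_option autoImplicit false

namespace Pool.Agent.Lib.MP8a3537.AUL

open Matrix

namespace ACHM

variable {S : Type} [Ring S] [StarRing S] {S0 : Subring S}

theorem up_vecMul {I J : Type} [Fintype I] (x : I → S0) (m : Matrix I J S0) :
    (fun i => (x i : S)) ᵥ* m.map S0.subtype = fun j => ((x ᵥ* m) j : S) := by
  funext j
  exact (RingHom.map_vecMul S0.subtype m x j).symm

/-- Cocycles over `S0` are cocycles over `S`. -/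
theorem up_mem (D : FC S0) (q : ℤ) (x : D.I → S0) (hx : x ∈ D.Z q) :
    ((fun i => (x i : S)) : (bc D).I → S) ∈ (bc D).Z q := by
  obtain ⟨h1, h2⟩ := hx
  refine ⟨fun i hi => ?_, ?_⟩
  · have h3 : x i = 0 := h1 i hi
    show ((x i : S0) : S) = 0
    rw [h3]
    rfl
  · have h3 := up_vecMul x D.e
    rw [h2] at h3
    exact h3

/-- The inclusion of the cocycles over `S0`. -/
def up (D : FC S0) (q : ℤ) : D.Z q →ₗ[S0] (bc D).Z q where
  toFun y := ⟨fun i => (y.1 i : S), up_mem D q y.1 y.2⟩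
  map_add' x y := Subtype.ext (funext fun i => rfl)
  map_smul' a y := Subtype.ext (funext fun i => rfl)

/-- Coboundaries over `S0` are coboundaries over `S`. -/
theorem up_bd (D : FC S0) (q : ℤ) (x : D.I → S0) (hx : x ∈ D.B q) :
    ((fun i => (x i : S)) : (bc D).I → S) ∈ (bc D).B q := by
  obtain ⟨h1, y, h2⟩ := hx
  refine ⟨fun i hi => ?_, fun i => (y i : S), ?_⟩
  · have h3 : x i = 0 := h1 i hi
    show ((x i : S0) : S) = 0
    rw [h3]
    rfl
  · have h3 := up_vecMul y D.e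
    rw [← h2] at h3
    exact h3.symm

variable [StarSub S0]

/-- The coefficients of a cocycle over `S` are cocycles over `S0`. -/
theorem co_mem (hLAU : SpecLAU) (L : Lau S0) (D : FC S0) (q : ℤ) (x : (bc D).I → S)
    (hx : x ∈ (bc D).Z q) (k : ℤ) : (L.cor (x : D.I → S) k : D.I → S0) ∈ D.Z q := by
  obtain ⟨h1, h2⟩ := hx
  obtain ⟨-, -, -, -, h0, -, -, hm, -⟩ := hLAU S S0 L D.I D.I
  refine ⟨fun i hi => ?_, ?_⟩
  · have h3 : x i = 0 := h1 i hi
    show L.co (x i) k = 0
    rw [h3]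
    show (L.val.symm 0 : ℤ →₀ S0) k = 0
    rw [map_zero]
    rfl
  · have h3 := hm x D.e k
    have h4 : ((x : D.I → S) ᵥ* D.e.map (fun a : S0 => (a : S)) : D.I → S) = 0 := h2
    exact h3.symm.trans ((congrArg (fun z : D.I → S => L.cor z k) h4).trans (h0 k))

/-- A row is the sum of its coefficient rows. -/
theorem eq_sum (hLAU : SpecLAU) (L : Lau S0) {I : Type} [Fintype I] (x : I → S) :
    ∃ F : Finset ℤ, x = ∑ k ∈ F, ((L.t ^ k : Sˣ) : S) • (fun i => (L.cor x k i : S)) := by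
  classical
  obtain ⟨hf, -, -, -, -, -, -, -, -, -, -, hl⟩ := hLAU S S0 L I I
  have h := hl (I → S) (fun i => Pi.single i 1) x (hf x).toFinset
    (fun k hk => by rw [Set.Finite.mem_toFinset]; exact hk)
  have h1 : ∀ y : I → S, ∑ i, y i • (Pi.single i 1 : I → S) = y := by
    intro y
    funext j
    rw [Finset.sum_apply, Finset.sum_eq_single j]
    · simp
    · intro b _ hb
      rw [Pi.smul_apply, Pi.single_eq_of_ne (Ne.symm hb), smul_zero]
    · intro hj
      exact absurd (Finset.mem_univ j) hj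
  rw [h1] at h
  refine ⟨(hf x).toFinset, h.trans (Finset.sum_congr rfl fun k _ => ?_)⟩
  exact congrArg _ (h1 (fun i => (L.cor x k i : S)))

theorem main (hLAU : SpecLAU) (hTCS : SpecTCS) (hLOC : SpecLOC) (L : Lau S0) (d : ℕ)
    (hn0 : IsNoetherianRing S0) (hn : IsNoetherianRing S) (hF : FinRes S0 d) (D : FC S0) (c : ℤ)
    (hT : Tc S0 c (D.H c)) : Tc S c ((bc D).H c) := by
  have hfin : Module.Finite S ((bc D).H c) := by
    have h1 : Module.Finite S ((bc D).Z c) := inferInstance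
    exact inferInstance
  let j : D.Z c →ₗ[S0] (bc D).H c :=
    (((bc D).B c).submoduleOf ((bc D).Z c)).mkQ.restrictScalars S0 ∘ₗ up D c
  have hj : ∀ y, j y = Submodule.Quotient.mk (up D c y) := fun y => rfl
  refine hLOC S S0 L d hn0 hn hF ((bc D).H c) hfin (LinearMap.range j) ?_ ?_ c ?_
  · have h1 : Module.Finite S0 (D.Z c) := inferInstance
    have h2 := h1.1.map j
    rwa [Submodule.map_top] at h2
  · rw [Gen, eq_top_iff]
    rintro m -
    obtain ⟨x, rfl⟩ := Submodule.Quotient.mk_surjective _ m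
    obtain ⟨F, hx⟩ := eq_sum hLAU L (I := D.I) x.1
    have h1 : x = ∑ k ∈ F, ((L.t ^ k : Sˣ) : S) •
        up D c ⟨L.cor (I := D.I) x.1 k, co_mem hLAU L D c x.1 x.2 k⟩ := by
      apply Subtype.ext
      rw [Submodule.coe_sum]
      exact hx
    rw [h1]
    have h2 := map_sum (Submodule.mkQ (((bc D).B c).submoduleOf ((bc D).Z c)))
      (fun k => ((L.t ^ k : Sˣ) : S) •
        up D c ⟨L.cor (I := D.I) x.1 k, co_mem hLAU L D c x.1 x.2 k⟩) F
    rw [← Submodule.mkQ_apply, h2]
    refine Submodule.sum_mem _ fun k _ => ?_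
    rw [map_smul]
    exact Submodule.smul_mem _ _ (Submodule.subset_span ⟨_, rfl⟩)
  · have hker : (D.B c).submoduleOf (D.Z c) ≤ LinearMap.ker j.rangeRestrict := by
      intro y hy
      rw [LinearMap.mem_ker]
      apply Subtype.ext
      show j y = 0
      rw [hj, Submodule.Quotient.mk_eq_zero]
      exact up_bd D c y.1 hy
    refine (hTCS S0 c (D.H c) (LinearMap.range j)
      (((D.B c).submoduleOf (D.Z c)).liftQ j.rangeRestrict hker)).2.1 ?_ hT
    rintro ⟨_, y, rfl⟩
    exact ⟨Submodule.Quotient.mk y, Subtype.ext rfl⟩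

end ACHM

theorem specACH (hLAU : SpecLAU) (hTCS : SpecTCS) (hLOC : SpecLOC) : SpecACH := by
  intro S _ _ S0 _ L d hn0 hn hF C c hT
  exact ACHM.main hLAU hTCS hLOC L d hn0 hn hF C.dual c hT

end Pool.Agent.Lib.MP8a3537.AUL
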