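import Pool.Agent.Lib.MP_8a3537_gt.AUL.Spec

/-!
# ACQ: the Auslander condition for the Laurent extension
-/

set_option autoImplicit false

namespace Pool.Agent.Lib.MP8a3537.AUL

open Matrix

namespace ACQM

/-- A resolution of a module is a resolution of every isomorphic module. -/
def rEquiv {A : Type} [Ring A] {C : FC A} {X Y : Type} [AddCommGroup X] [Module A X]
    [AddCommGroup Y] [Module A Y] (e : X ≃ₗ[A] Y) (r : Res C X) : Res C Y where
  pi := e.toLinearMap.comp r.pi
  isRes := r.isRes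
  low q x hq hx := by
    rw [LinearMap.comp_apply, r.low q x hq hx, map_zero]
  surj := e.surjective.comp r.surj
  zero y := by
    rw [LinearMap.comp_apply, r.zero y, map_zero]
  ker x hx h := by
    rw [LinearMap.comp_apply] at h
    exact r.ker x hx (e.injective (by rw [map_zero]; exact h))

theorem fin_H {A : Type} [Ring A] (C : FC A) (hn : IsNoetherianRing A) (q : ℤ) :
    Module.Finite A (C.H q) := by
  have h1 : Module.Finite A (C.Z q) := inferInstance
  exact inferInstance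

/-- The cone of a lift of the inclusion of `P ≤ Q` (submodules of `M`) is a resolution. -/
theorem cone_isRes (hCON : SpecCON) {A M : Type} [Ring A] [AddCommGroup M] [Module A M]
    (P Q : Submodule A M) (hPQ : P ≤ Q) (C D : FC A) (r : Res C Q) (s : Res D P)
    (u : Matrix D.I C.I A) (hu : IsChain D C u)
    (h : ∀ x, ((r.pi (x ᵥ* u) : Q) : M) = ((s.pi x : P) : M)) : (cone C D u hu).IsRes := by
  obtain ⟨k⟩ := hCON A C D Q (P.submoduleOf Q) r
    (rEquiv (Submodule.submoduleOfEquivOfLe hPQ).symm s) u hu (fun x => Subtype.ext (h x))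
  exact k.isRes

variable {S : Type} [Ring S] [StarRing S] {S0 : Subring S}

theorem sg_symm_star [StarSub S0] (L : Lau S0) (a : S0) :
    L.sg.symm (star a) = star (L.sg.symm a) := by
  apply Subtype.ext
  have h1 : star ((L.t⁻¹ : Sˣ) : S) = (L.t : S) := by
    rw [← L.star_t, star_star]
  rw [coe_star, L.coe_sg_symm, L.coe_sg_symm, coe_star, star_mul, star_mul, h1, L.star_t,
    mul_assoc]

/-- The semilinear bijection `n ↦ t⁻¹ n`. -/
def shift (L : Lau S0) {M : Type} [AddCommGroup M] [Module S M] (N : Submodule S0 M) :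
    N ≃+ L.tr (-1) N where
  toFun n := ⟨((L.t⁻¹ : Sˣ) : S) • (n : M), by
    rw [L.mem_tr, neg_neg, zpow_one, smul_smul, Units.mul_inv, one_smul]
    exact n.2⟩
  invFun n := ⟨(L.t : S) • (n : M), by
    have h := n.2
    rw [L.mem_tr, neg_neg, zpow_one] at h
    exact h⟩
  left_inv n := Subtype.ext (by
    show (L.t : S) • ((L.t⁻¹ : Sˣ) : S) • (n : M) = n
    rw [smul_smul, Units.mul_inv, one_smul])
  right_inv n := Subtype.ext (by
    show ((L.t⁻¹ : Sˣ) : S) • (L.t : S) • (n : M) = n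
    rw [smul_smul, Units.inv_mul, one_smul])
  map_add' x y := Subtype.ext (smul_add _ _ _)

theorem shift_smul (L : Lau S0) {M : Type} [AddCommGroup M] [Module S M] (N : Submodule S0 M)
    (a : S0) (n : N) : shift L N (a • n) = L.sg.symm a • shift L N n := by
  apply Subtype.ext
  show ((L.t⁻¹ : Sˣ) : S) • ((a : S) • (n : M)) =
    ((L.sg.symm a : S0) : S) • (((L.t⁻¹ : Sˣ) : S) • (n : M))
  rw [L.coe_sg_symm, smul_smul, smul_smul, mul_assoc, mul_assoc, Units.mul_inv, mul_one]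

end ACQM

open ACQM in
theorem specACQ (hIND : SpecIND) (hCON : SpecCON) (hLES : SpecLES) (hRSM : SpecRSM)
    (hSEM : SpecSEM) (hTCS : SpecTCS) (hTCE : SpecTCE) (hTCZ : SpecTCZ) (hEXN : SpecEXN)
    (hMAK : SpecMAK) (hPHC : SpecPHC) (hCHR : SpecCHR) (hFNS : SpecFNS) (hACH : SpecACH)
    (hACX : SpecACX) : SpecACQ := by
  intro S _ _ S0 _ L d hA hn E hE c hc
  have hn0 := hA.noeth
  have hF0 := hA.fin
  have hF := hFNS S S0 L d hn0 hn hF0
  obtain ⟨M, _, _, hfin, ⟨rE⟩⟩ := hRSM S E hE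
  rcases eq_or_lt_of_le hc with h0 | h0
  · exact hTCZ S (d + 1) hn hF c (E.dual.H c) (fin_H E.dual hn c) (by omega)
  obtain ⟨N, hNfg, -, hGen, hPX⟩ := hEXN S S0 L hn M hfin ⊥ Submodule.fg_bot
  have hNf : Module.Finite S0 N := Module.Finite.iff_fg.mpr hNfg
  have hle1 : L.pr N ≤ N := inf_le_left
  have hle2 : L.pr N ≤ L.tr (-1) N := inf_le_right
  have hPf : Module.Finite S0 (L.pr N) := by
    have h1 : Module.Finite S0 ((L.pr N).submoduleOf N) := inferInstance
    exact Module.Finite.equiv (Submodule.submoduleOfEquivOfLe hle1)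
  obtain ⟨C, ⟨r⟩, -⟩ := hF0 N hNf
  obtain ⟨D, ⟨s⟩, -⟩ := hF0 (L.pr N) hPf
  obtain ⟨u, w, hD⟩ := hMAK S S0 L M N C D r s
  have hP := hPHC S S0 L C D u w hD.hu hD.hw
  obtain ⟨rK⟩ := hCHR S S0 L M N hGen hPX C D r s u w hD hP
  obtain ⟨e⟩ := (hIND S E (cone (bc C) (bc D) (L.phi u w) hP) M rE rK).2 c
  refine (hTCS S c _ _ e.toLinearMap).1 e.injective ?_
  obtain ⟨g, f, hgf, hg⟩ := (hLES S (bc C) (bc D) (L.phi u w) hP).2.2 c
  refine hTCE S (d + 1) hn hF c _ (LinearMap.ker f) (fin_H _ hn c) ?_ ?_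
  · rw [hgf]
    have hc1 : (cone C D u hD.hu).IsRes :=
      cone_isRes hCON (L.pr N) N hle1 C D r s u hD.hu hD.lu
    have hc2 : (cone (C.map (L.sg.symm : S0 →+* S0)) D w hD.hw).IsRes := by
      obtain ⟨r2, hr2⟩ := ((hSEM S0 S0 L.sg.symm (sg_symm_star L)).1 N (L.tr (-1) N)
        (shift L N) (shift_smul L N)).1 C r
      refine cone_isRes hCON (L.pr N) (L.tr (-1) N) hle2 (C.map (L.sg.symm : S0 →+* S0)) D r2 s
        w hD.hw (fun x => ?_)
      rw [hr2]
      have h1 := hD.lw x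
      show ((L.t⁻¹ : Sˣ) : S) • ((r.pi (fun j => L.sg ((x ᵥ* w) j)) : N) : M) = _
      rw [← h1, smul_smul, Units.inv_mul, one_smul]
    refine hACX S S0 L d hn0 hn hF0 C D u w hD.hu hD.hw c (hA.aus D s.isRes (c - 1) (by omega))
      (hA.aus _ hc1 c hc) (hA.aus _ hc2 c hc) (LinearMap.range g) g.rangeRestrict
      g.surjective_rangeRestrict (fun y => ?_)
    refine Iff.trans ?_ (hg y)
    constructor
    · intro h
      exact congrArg Subtype.val h
    · intro h
      exact Subtype.ext h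
  · exact (hTCS S c _ _ ((LinearMap.ker f).liftQ f le_rfl)).1
      (LinearMap.ker_eq_bot.mp (Submodule.ker_liftQ_eq_bot _ _ _ le_rfl))
      (hACH S S0 L d hn0 hn hF0 C c (hA.aus C r.isRes c hc))

end Pool.Agent.Lib.MP8a3537.AUL
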