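import Pool.Agent.Lib.MP_8a3537_gt.AUL.Spec

/-!
# AUL, module ACX: the condition for the cokernel
-/

set_option autoImplicit false

namespace Pool.Agent.Lib.MP8a3537.AUL

open Matrix

namespace ACXM

section General

variable {A : Type} [Ring A] [StarRing A]

theorem dual_mem (C D : FC A) (u : Matrix D.I C.I A) (hu : IsChain D C u) (q : ℤ) (z : C.I → A)
    (hz : z ∈ C.dual.Z q) : (z ᵥ* uᴴ : D.I → A) ∈ D.dual.Z q := by
  obtain ⟨h1, h2⟩ := hz
  constructor
  · intro i hi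
    show ∑ j, z j * star (u i j) = 0
    refine Finset.sum_eq_zero fun j _ => ?_
    by_cases hu0 : u i j = 0
    · rw [hu0, star_zero, mul_zero]
    · have h4 := hu.deg i j hu0
      have h3 : z j = 0 := h1 j (by
        show -C.deg j ≠ q
        intro h
        apply hi
        show -D.deg i = q
        omega)
      rw [h3, zero_mul]
  · show (z ᵥ* uᴴ) ᵥ* D.eᴴ = 0
    have h2' : z ᵥ* C.eᴴ = 0 := h2
    rw [vecMul_vecMul, ← conjTranspose_mul, hu.comm, conjTranspose_mul, ← vecMul_vecMul, h2',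
      zero_vecMul]

theorem b_mem (C : FC A) (q : ℤ) (b : C.I → A) (hb : b ∈ C.B q) : b ∈ C.Z q := by
  obtain ⟨h1, y, hy⟩ := hb
  refine ⟨h1, ?_⟩
  rw [hy, vecMul_vecMul, C.e_mul_e, vecMul_zero]

theorem tc_quot (hTCS : SpecTCS) (c : ℤ) {Z H Q : Type} [AddCommGroup Z] [Module A Z]
    [AddCommGroup H] [Module A H] [AddCommGroup Q] [Module A Q] (g : Z →ₗ[A] H) (h : Z →ₗ[A] Q)
    (hs : Function.Surjective h) (hk : LinearMap.ker g ≤ LinearMap.ker h) (hT : Tc A c H) :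
    Tc A c Q := by
  have h1 : Tc A c (Z ⧸ LinearMap.ker g) := by
    refine (hTCS A c _ _ ((LinearMap.ker g).liftQ g le_rfl)).1 ?_ hT
    rw [← LinearMap.ker_eq_bot]
    exact Submodule.ker_liftQ_eq_bot' _ _ rfl
  refine (hTCS A c _ _ ((LinearMap.ker g).liftQ h hk)).2.1 ?_ h1
  intro y
  obtain ⟨x, hx⟩ := hs y
  exact ⟨Submodule.Quotient.mk x, hx⟩

end General

section Laurent

variable {S : Type} [Ring S] [StarRing S] {S0 : Subring S}

/-- The row over `S`. -/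
def emb {I : Type} (y : I → S0) : I → S := fun i => (y i : S)

theorem emb_vecMul {I J : Type} [Fintype I] (y : I → S0) (m : Matrix I J S0) :
    emb y ᵥ* m.map (fun a : S0 => (a : S)) = emb (y ᵥ* m) := by
  funext j
  show ∑ i, (y i : S) * (m i j : S) = ((∑ i, y i * m i j : S0) : S)
  push_cast
  rfl

theorem emb_mem (C : FC S0) (q : ℤ) (y : C.I → S0) (hy : y ∈ C.Z q) :
    (emb y : (bc C).I → S) ∈ (bc C).Z q := by
  obtain ⟨h1, h2⟩ := hy
  constructor
  · intro i hi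
    show ((y i : S0) : S) = 0
    rw [h1 i hi]
    rfl
  · show emb y ᵥ* C.e.map (fun a : S0 => (a : S)) = 0
    rw [emb_vecMul, h2]
    rfl

variable [StarSub S0]

/-- The restriction of `g` to the rows over `S0`. -/
def lin {D : FC S0} {q : ℤ} {X : Type} [AddCommGroup X] [Module S X]
    (g : (bc D).dual.Z q →ₗ[S] X) : D.dual.Z q →ₗ[S0] X where
  toFun y := g ⟨emb y.1, emb_mem D.dual q y.1 y.2⟩
  map_add' x y := by
    rw [← map_add]
    rfl
  map_smul' a y := by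
    show g _ = (a : S) • g _
    rw [← map_smul]
    rfl

theorem lin_apply {D : FC S0} {q : ℤ} {X : Type} [AddCommGroup X] [Module S X]
    (g : (bc D).dual.Z q →ₗ[S] X) (y : D.dual.Z q) :
    lin g y = g ⟨emb y.1, emb_mem D.dual q y.1 y.2⟩ := rfl

theorem star_symm (L : Lau S0) (a : S0) : L.sg.symm (star a) = star (L.sg.symm a) := by
  apply Subtype.ext
  rw [L.coe_sg_symm, coe_star, coe_star, L.coe_sg_symm, star_mul, star_mul, L.star_t, ← mul_assoc]
  have h : star (((L.t⁻¹ : Sˣ) : S)) = (L.t : S) := by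
    rw [← L.star_t, star_star]
  rw [h]

theorem symm_mem (L : Lau S0) (C : FC S0) (q : ℤ) (z : C.I → S0) (hz : z ∈ C.dual.Z q) :
    ((fun i => L.sg.symm (z i)) : (C.map (L.sg.symm : S0 →+* S0)).I → S0) ∈
      (C.map (L.sg.symm : S0 →+* S0)).dual.Z q := by
  obtain ⟨h1, h2⟩ := hz
  constructor
  · intro i hi
    show L.sg.symm (z i) = 0
    rw [h1 i hi, map_zero]
  · funext j
    show ∑ i, L.sg.symm (z i) * star (L.sg.symm (C.e j i)) = 0
    have h3 : ∑ i, z i * star (C.e j i) = 0 := congrFun h2 j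
    have h4 := congrArg L.sg.symm h3
    rw [map_sum, map_zero] at h4
    rw [← h4]
    refine Finset.sum_congr rfl fun i _ => ?_
    rw [map_mul, star_symm]

theorem mem_symm (L : Lau S0) (C : FC S0) (q : ℤ)
    (z : (C.map (L.sg.symm : S0 →+* S0)).I → S0)
    (hz : z ∈ (C.map (L.sg.symm : S0 →+* S0)).dual.Z q) :
    ((fun i => L.sg (z i)) : C.I → S0) ∈ C.dual.Z q := by
  obtain ⟨h1, h2⟩ := hz
  constructor
  · intro i hi
    show L.sg (z i) = 0
    rw [h1 i hi, map_zero]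
  · funext j
    show ∑ i, L.sg (z i) * star (C.e j i) = 0
    have h3 : ∑ i, z i * star (L.sg.symm (C.e j i)) = 0 := congrFun h2 j
    apply L.sg.symm.injective
    rw [map_sum, map_zero, ← h3]
    refine Finset.sum_congr rfl fun i _ => ?_
    rw [map_mul, star_symm, RingEquiv.symm_apply_apply]

/-- `ι z ᵥ* Φᴴ = t ι(σ⁻¹(z) ᵥ* wᴴ) - ι(z ᵥ* uᴴ)`. -/
theorem phi_row (L : Lau S0) (C D : FC S0) (u w : Matrix D.I C.I S0) (z : C.I → S0) :
    (emb z ᵥ* (L.phi u w)ᴴ : D.I → S) =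
      (L.t : S) • emb ((fun i => L.sg.symm (z i)) ᵥ* wᴴ : D.I → S0) -
        emb (z ᵥ* uᴴ : D.I → S0) := by
  funext i
  show ∑ j, (z j : S) * star ((w i j : S) * ((L.t⁻¹ : Sˣ) : S) - (u i j : S)) =
    (L.t : S) * ((∑ j, L.sg.symm (z j) * star (w i j) : S0) : S) -
      ((∑ j, z j * star (u i j) : S0) : S)
  have h : star (((L.t⁻¹ : Sˣ) : S)) = (L.t : S) := by
    rw [← L.star_t, star_star]
  push_cast
  rw [Finset.mul_sum, ← Finset.sum_sub_distrib]
  refine Finset.sum_congr rfl fun j _ => ?_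
  rw [star_sub, star_mul, h, mul_sub, L.coe_sg_symm, coe_star, coe_star]
  simp [mul_assoc]

theorem key_eq (L : Lau S0) (C D : FC S0) (u w : Matrix D.I C.I S0) (hu : IsChain D C u)
    (hw : IsChain D (C.map (L.sg.symm : S0 →+* S0)) w) (q : ℤ) {X : Type} [AddCommGroup X]
    [Module S X] (g : (bc D).dual.Z q →ₗ[S] X)
    (hg : ∀ y : (bc D).dual.Z q, g y = 0 ↔
          ∃ (z : C.I → S) (b : D.I → S), z ∈ (bc C).dual.Z q ∧
            b ∈ (bc D).dual.B q ∧ y.1 = (z ᵥ* (L.phi u w)ᴴ + b : D.I → S))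
    (z : C.I → S0) (hz : z ∈ C.dual.Z q) :
    lin g ⟨z ᵥ* uᴴ, dual_mem C D u hu q z hz⟩ =
      (L.t : S) • lin g ⟨(fun i => L.sg.symm (z i)) ᵥ* wᴴ,
        dual_mem (C.map (L.sg.symm : S0 →+* S0)) D w hw q _ (symm_mem L C q z hz)⟩ := by
  symm
  rw [← sub_eq_zero, lin_apply, lin_apply, ← map_smul, ← map_sub, hg]
  refine ⟨emb z, 0, emb_mem C.dual q z hz, Submodule.zero_mem _, ?_⟩
  rw [phi_row, add_zero]
  rfl

theorem sum_single {I : Type} [Fintype I] [DecidableEq I] (y : I → S) :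
    ∑ i, y i • (Pi.single i 1 : I → S) = y := by
  funext j
  rw [Finset.sum_apply, Finset.sum_eq_single j]
  · simp
  · intro b _ hb'
    rw [Pi.smul_apply, Pi.single_eq_of_ne (Ne.symm hb'), smul_zero]
  · intro h
    exact absurd (Finset.mem_univ j) h

theorem sum_single' {I : Type} [Fintype I] [DecidableEq I] (y : I → S0) :
    ∑ i, y i • (Pi.single i 1 : I → S) = emb y := by
  funext j
  rw [Finset.sum_apply, Finset.sum_eq_single j]
  · show (y j : S) * (Pi.single j 1 : I → S) j = _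
    rw [Pi.single_eq_same, mul_one]
    rfl
  · intro b _ hb'
    rw [Pi.smul_apply, Pi.single_eq_of_ne (Ne.symm hb'), smul_zero]
  · intro h
    exact absurd (Finset.mem_univ j) h

theorem decomp (hLAU : SpecLAU) (L : Lau S0) {I : Type} [Fintype I] [DecidableEq I]
    (y : I → S) : ∃ F : Finset ℤ, y = ∑ k ∈ F, ((L.t ^ k : Sˣ) : S) • emb (L.cor y k) := by
  obtain ⟨hf, -, -, -, -, -, -, -, -, -, -, hsum⟩ := hLAU S S0 L I I
  refine ⟨(hf y).toFinset, ?_⟩
  have e2 := hsum (I → S) (fun i => Pi.single i 1) y (hf y).toFinset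
    (fun k hk => (hf y).mem_toFinset.2 hk)
  rw [sum_single] at e2
  refine e2.trans (Finset.sum_congr rfl fun k _ => ?_)
  rw [sum_single']

theorem cor_mem (hLAU : SpecLAU) (L : Lau S0) (D : FC S0) (q : ℤ) (y : D.I → S)
    (h1 : InDeg D.deg q y) (h2 : y ᵥ* (D.e.map (fun a : S0 => (a : S))) = 0) (k : ℤ) :
    L.cor y k ∈ D.Z q := by
  obtain ⟨-, -, -, -, h0, -, -, hmul, -, -, -, -⟩ := hLAU S S0 L D.I D.I
  constructor
  · intro i hi
    show L.co (y i) k = 0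
    rw [h1 i hi]
    show L.val.symm 0 k = 0
    rw [map_zero]
    rfl
  · have e1 := hmul y D.e k
    rw [h2, h0] at e1
    exact e1.symm

end Laurent

end ACXM

open ACXM in
theorem specACX (hLAU : SpecLAU) (hLES : SpecLES) (hTCS : SpecTCS) (hKEY : SpecKEY) :
    SpecACX := by
  intro S _ _ S0 _ L d hn0 hn hfin C D u w hu hw c hT1 hT2 hT3 X _ _ g hgs hg
  have i1 : IsNoetherian S ((bc D).dual.I → S) := isNoetherian_pi
  have i2 : IsNoetherian S0 (D.dual.I → S0) := isNoetherian_pi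
  have i3 : IsNoetherian S ((bc D).dual.Z (c - 1)) := inferInstance
  have i4 : IsNoetherian S0 (D.dual.Z (c - 1)) := inferInstance
  have hXf : Module.Finite S X := Module.Finite.of_surjective g hgs
  have hY : ∃ Y : Submodule S0 X, Y = LinearMap.range (lin g) := ⟨_, rfl⟩
  obtain ⟨Y, hY⟩ := hY
  have hmemY : ∀ y : D.dual.Z (c - 1), lin g y ∈ Y := fun y => by
    rw [hY]
    exact LinearMap.mem_range_self _ y
  have hYFG : Y.FG := by
    rw [hY, LinearMap.range_eq_map]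
    exact Submodule.FG.map _ (Module.Finite.fg_top)
  -- the map onto `Y`
  let h : D.dual.Z (c - 1) →ₗ[S0] Y := (lin g).codRestrict Y hmemY
  have hh : ∀ y, ((h y : Y) : X) = lin g y := fun y => rfl
  have hhs : Function.Surjective h := by
    rintro ⟨y, hy⟩
    rw [hY] at hy
    obtain ⟨x, hx⟩ := hy
    exact ⟨x, Subtype.ext hx⟩
  have hb : ∀ (y : D.dual.Z (c - 1)), y.1 ∈ D.dual.B (c - 1) → lin g y = 0 := by
    intro y hy
    rw [lin_apply, hg]
    refine ⟨0, emb y.1, Submodule.zero_mem _, ?_, ?_⟩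
    · obtain ⟨h1, x, hx⟩ := hy
      refine ⟨fun i hi => ?_, emb x, ?_⟩
      · show ((y.1 i : S0) : S) = 0
        rw [h1 i hi]
        rfl
      · show emb y.1 = emb x ᵥ* (D.dual.e.map (fun a : S0 => (a : S)))
        rw [emb_vecMul, hx]
    · rw [zero_vecMul, zero_add]
      rfl
  -- `Y` generates
  have hGen : Gen Y := by
    show Submodule.span S (Y : Set X) = ⊤
    rw [eq_top_iff]
    rintro m -
    obtain ⟨⟨y, hy⟩, rfl⟩ := hgs m
    obtain ⟨hy1, hy2⟩ := hy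
    have hc : ∀ k, L.cor y k ∈ D.dual.Z (c - 1) := cor_mem hLAU L D.dual (c - 1) y hy1 hy2
    obtain ⟨F, hF⟩ := decomp hLAU L (I := D.dual.I) y
    have e5 : (⟨y, hy1, hy2⟩ : (bc D).dual.Z (c - 1)) =
        ∑ k ∈ F, ((L.t ^ k : Sˣ) : S) •
          (⟨emb (L.cor y k), emb_mem D.dual (c - 1) _ (hc k)⟩ : (bc D).dual.Z (c - 1)) := by
      apply Subtype.ext
      rw [Submodule.coe_sum]
      exact hF
    rw [e5, map_sum]
    refine Submodule.sum_mem _ fun k _ => ?_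
    rw [map_smul]
    exact Submodule.smul_mem _ _ (Submodule.subset_span (hmemY ⟨L.cor y k, hc k⟩))
  -- `T_(c-1)`
  have hTY : Tc S0 (c - 1) Y := by
    refine (hTCS S0 (c - 1) _ _ (((D.dual.B (c - 1)).submoduleOf (D.dual.Z (c - 1))).liftQ h
      ?_)).2.1 ?_ hT1
    · intro y hy
      apply Subtype.ext
      exact hb y hy
    · intro y
      obtain ⟨x, hx⟩ := hhs y
      exact ⟨Submodule.Quotient.mk x, hx⟩
  have hQ1 : Tc S0 c (Y ⧸ (Y ⊓ L.tr 1 Y).submoduleOf Y) := by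
    obtain ⟨g', f', -, hg'⟩ := (hLES S0 C D u hu).2.2 c
    refine tc_quot hTCS c g' (((Y ⊓ L.tr 1 Y).submoduleOf Y).mkQ.comp h)
      ((Submodule.mkQ_surjective _).comp hhs) ?_ hT2
    intro y hy
    obtain ⟨z, b, hz, hb', hy'⟩ := (hg' y).1 hy
    show Submodule.Quotient.mk (h y) = 0
    apply (Submodule.Quotient.mk_eq_zero _).2
    show ((h y : Y) : X) ∈ Y ⊓ L.tr 1 Y
    refine Submodule.mem_inf.2 ⟨(h y).2, ?_⟩
    rw [L.mem_tr, hh]
    have hbZ : b ∈ D.dual.Z (c - 1) := b_mem D.dual (c - 1) b hb'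
    have e2 : y = (⟨z ᵥ* uᴴ, dual_mem C D u hu _ z hz⟩ : D.dual.Z (c - 1)) + ⟨b, hbZ⟩ :=
      Subtype.ext hy'
    rw [e2, map_add, hb ⟨b, hbZ⟩ hb', add_zero, key_eq L C D u w hu hw (c - 1) g hg z hz,
      smul_smul]
    have e3 : ((L.t ^ (-1 : ℤ) : Sˣ) : S) * (L.t : S) = 1 := by
      rw [_root_.zpow_neg, zpow_one, Units.inv_mul]
    rw [e3, one_smul]
    exact hmemY _
  have hQ2 : Tc S0 c (Y ⧸ (Y ⊓ L.tr (-1) Y).submoduleOf Y) := by
    obtain ⟨g', f', -, hg'⟩ := (hLES S0 (C.map (L.sg.symm : S0 →+* S0)) D w hw).2.2 c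
    refine tc_quot hTCS c g' (((Y ⊓ L.tr (-1) Y).submoduleOf Y).mkQ.comp h)
      ((Submodule.mkQ_surjective _).comp hhs) ?_ hT3
    intro y hy
    obtain ⟨z', b, hz', hb', hy'⟩ := (hg' y).1 hy
    show Submodule.Quotient.mk (h y) = 0
    apply (Submodule.Quotient.mk_eq_zero _).2
    show ((h y : Y) : X) ∈ Y ⊓ L.tr (-1) Y
    refine Submodule.mem_inf.2 ⟨(h y).2, ?_⟩
    rw [L.mem_tr, hh]
    have hbZ : b ∈ D.dual.Z (c - 1) := b_mem D.dual (c - 1) b hb'
    have e2 : y = (⟨z' ᵥ* wᴴ, dual_mem (C.map (L.sg.symm : S0 →+* S0)) D w hw _ z' hz'⟩ : D.dual.Z (c - 1)) + ⟨b, hbZ⟩ :=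
      Subtype.ext hy'
    have hz := mem_symm L C (c - 1) z' hz'
    have e4 := key_eq L C D u w hu hw (c - 1) g hg _ hz
    have e5 : lin g ⟨(fun i => L.sg.symm (L.sg (z' i))) ᵥ* wᴴ,
        dual_mem (C.map (L.sg.symm : S0 →+* S0)) D w hw (c - 1) _
          (symm_mem L C (c - 1) _ hz)⟩ =
        lin g ⟨z' ᵥ* wᴴ, dual_mem (C.map (L.sg.symm : S0 →+* S0)) D w hw _ z' hz'⟩ := by
      congr 1
      apply Subtype.ext
      have e6 : (fun i => L.sg.symm (L.sg (z' i))) = z' := by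
        funext i
        exact L.sg.symm_apply_apply (z' i)
      show (fun i => L.sg.symm (L.sg (z' i))) ᵥ* wᴴ = z' ᵥ* wᴴ
      rw [e6]
    obtain ⟨y1, hy1⟩ : ∃ y1 : D.dual.Z (c - 1), lin g y1 = (L.t : S) •
        lin g ⟨z' ᵥ* wᴴ, dual_mem (C.map (L.sg.symm : S0 →+* S0)) D w hw _ z' hz'⟩ :=
      ⟨_, e4.trans (congrArg (fun m => (L.t : S) • m) e5)⟩
    have e3 : ((L.t ^ (- -1 : ℤ) : Sˣ) : S) = (L.t : S) := by
      rw [neg_neg, zpow_one]
    rw [e2, map_add, hb ⟨b, hbZ⟩ hb', add_zero, e3, ← hy1]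
    exact hmemY _
  exact hKEY S S0 L d hn0 hn hfin X hXf Y hYFG hGen c hTY hQ1 hQ2

end Pool.Agent.Lib.MP8a3537.AUL
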