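import Pool.Agent.Lib.MP_8a3537_gt.AUL.Spec

/-!
# MP_8a3537_gt, folder AUL, module BCE: base change keeps exactness
-/

namespace Pool.Agent.Lib.MP8a3537.AUL

open Matrix

namespace BCEM

theorem sg_star {S : Type} [Ring S] [StarRing S] (S0 : Subring S) [StarSub S0] (L : Lau S0)
    (a : S0) : L.sg (star a) = star (L.sg a) := by
  apply Subtype.ext
  rw [L.coe_sg, coe_star, coe_star, L.coe_sg, star_mul, star_mul, L.star_t]
  have h : star ((L.t⁻¹ : Sˣ) : S) = (L.t : S) := by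
    rw [← L.star_t, star_star]
  rw [h, mul_assoc]

theorem exact (hLAU : SpecLAU) {S : Type} [Ring S] [StarRing S] (S0 : Subring S) [StarSub S0]
    (L : Lau S0) (C : FC S0) (q : ℤ) (h : C.ExactAt q) : (bc C).ExactAt q := by
  change ∀ x : C.I → S, InDeg C.deg q x → x ᵥ* (C.e.map (fun a : S0 => (a : S))) = 0 →
    ∃ y : C.I → S, x = y ᵥ* (C.e.map (fun a : S0 => (a : S)))
  intro x hx hxe
  obtain ⟨h1, h2, _, _, h5, h6, _, h8, _⟩ := hLAU S S0 L C.I C.I
  -- the coefficient rows are cocycles of degree q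
  have hdeg : ∀ k, InDeg C.deg q (L.cor x k) := by
    intro k i hi
    have h0 : x i = 0 := hx i hi
    change L.co (x i) k = 0
    rw [h0, Lau.co, map_zero]
    rfl
  have hcoc : ∀ k, L.cor x k ᵥ* C.e = 0 := by
    intro k
    rw [← h8 x C.e k, hxe]
    exact h5 k
  have hex : ∀ k, ∃ y : C.I → S0, L.cor x k = y ᵥ* C.e ∧ (L.cor x k = 0 → y = 0) := by
    intro k
    by_cases h0 : L.cor x k = 0
    · refine ⟨0, ?_, fun _ => rfl⟩
      rw [h0, Matrix.zero_vecMul]
    · obtain ⟨y, hy⟩ := h (L.cor x k) (hdeg k) (hcoc k)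
      exact ⟨y, hy, fun h' => absurd h' h0⟩
  choose f hf hf0 using hex
  have hfin : {k | f k ≠ 0}.Finite := by
    refine (h1 x).subset ?_
    intro k hk h0
    exact hk (hf0 k h0)
  obtain ⟨y, hy⟩ := h6 f hfin
  refine ⟨y, ?_⟩
  apply h2
  intro k
  rw [hf k, h8 y C.e k, hy k]

end BCEM

theorem specBCE (hLAU : SpecLAU) : SpecBCE := by
  intro S _ _ S0 _ L
  exact ⟨fun C q h => BCEM.exact hLAU S0 L C q h, fun a => BCEM.sg_star S0 L a⟩

end Pool.Agent.Lib.MP8a3537.AUL
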