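import Pool.Agent.Lib.MP_8a3537_gt.AUL.Spec

/-!
# BRA: the Auslander condition for right modules
-/

namespace Pool.Agent.Lib.MP8a3537.AUL

open Matrix

namespace BRAM

variable {A : Type} [Ring A]

theorem part_inDeg {I : Type} (deg : I → ℤ) (q : ℤ) (x : I → A) : InDeg deg q (part deg q x) := by
  intro i hi
  simp only [part]
  rw [if_neg hi]

theorem part_vecMul (C : FC A) (q : ℤ) (x : C.I → A) (hx : x ᵥ* C.e = 0) :
    part C.deg q x ᵥ* C.e = 0 := by
  ext j
  rw [Matrix.vecMul, dotProduct, Pi.zero_apply]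
  by_cases hj : C.deg j = q + 1
  · have h1 := congrFun hx j
    rw [Matrix.vecMul, dotProduct, Pi.zero_apply] at h1
    rw [← h1]
    refine Finset.sum_congr rfl fun i _ => ?_
    by_cases he : C.e i j = 0
    · rw [he, mul_zero, mul_zero]
    · have h2 := C.he i j he
      simp only [part]
      rw [if_pos (by omega)]
  · refine Finset.sum_eq_zero fun i _ => ?_
    by_cases he : C.e i j = 0
    · rw [he, mul_zero]
    · have h2 := C.he i j he
      simp only [part]
      rw [if_neg (by omega), zero_mul]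

theorem sum_vecMul' {I J : Type} [Fintype I] {K : Type} (s : Finset K) (y : K → I → A)
    (M : Matrix I J A) : (∑ q ∈ s, y q) ᵥ* M = ∑ q ∈ s, (y q ᵥ* M) := by
  classical
  induction s using Finset.induction_on with
  | empty => simp
  | insert a s ha ih => rw [Finset.sum_insert ha, Finset.sum_insert ha, Matrix.add_vecMul, ih]

/-- homogeneous parts -/
theorem exact_of (C : FC A) (S : ℤ → Prop) (hS : ∀ q, S q → C.ExactAt q) (x : C.I → A)
    (hx : ∀ i, x i ≠ 0 → S (C.deg i)) (h0 : x ᵥ* C.e = 0) : ∃ y : C.I → A, x = y ᵥ* C.e := by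
  classical
  have h1 : ∀ q : ℤ, ∃ y : C.I → A, part C.deg q x = y ᵥ* C.e := by
    intro q
    by_cases hq : S q
    · exact hS q hq _ (part_inDeg _ _ _) (part_vecMul C q x h0)
    · refine ⟨0, ?_⟩
      rw [Matrix.zero_vecMul]
      ext i
      simp only [part, Pi.zero_apply]
      split_ifs with h
      · by_contra h2
        exact hq (h ▸ hx i h2)
      · rfl
  choose y hy using h1
  refine ⟨∑ q ∈ Finset.univ.image C.deg, y q, ?_⟩
  rw [sum_vecMul']
  have h2 : ∑ q ∈ Finset.univ.image C.deg, (y q ᵥ* C.e) =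
      ∑ q ∈ Finset.univ.image C.deg, part C.deg q x :=
    Finset.sum_congr rfl fun q _ => (hy q).symm
  rw [h2]
  ext i
  rw [Finset.sum_apply]
  rw [Finset.sum_eq_single (C.deg i)]
  · simp [part]
  · intro q _ hq
    simp only [part]
    rw [if_neg (Ne.symm hq)]
  · intro h
    exact absurd (Finset.mem_image_of_mem _ (Finset.mem_univ i)) h

section Star

variable [StarRing A]

theorem sne {I : Type} (x : I → A) (i : I) (h : (star x) i ≠ 0) : x i ≠ 0 := by
  intro h1
  apply h
  rw [Pi.star_apply, h1, star_zero]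

theorem sne' {I : Type} (x : I → A) (i : I) (h : x i ≠ 0) : (star x) i ≠ 0 := by
  intro h1
  rw [Pi.star_apply] at h1
  exact h (star_eq_zero.1 h1)

theorem l0 {I J : Type} [Fintype J] (M : Matrix I J A) (x : J → A) :
    star (x ᵥ* Mᴴ) = M *ᵥ star x := by
  rw [Matrix.star_vecMul, conjTranspose_conjTranspose]

theorem l1 {I J : Type} [Fintype J] (M : Matrix I J A) (x : J → A) :
    x ᵥ* Mᴴ = 0 ↔ M *ᵥ star x = 0 := by
  rw [← l0]
  constructor
  · intro h
    rw [h, star_zero]
  · intro h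
    have h1 := congrArg star h
    rwa [star_star, star_zero] at h1

theorem l2 {I J : Type} [Fintype J] (M : Matrix I J A) (x : I → A) (y : J → A) :
    x = y ᵥ* Mᴴ ↔ star x = M *ᵥ star y := by
  rw [← l0]
  constructor
  · intro h
    rw [h]
  · intro h
    have h1 := congrArg star h
    rwa [star_star, star_star] at h1

theorem ofAU_isRes (P : AU.FC A) (hP : P.IsRes) : (ofAU P).IsRes := by
  refine ⟨hP.1, fun q hq x hx h0 => ?_⟩
  have h1 : P.d *ᵥ (star (show P.I → A from x)) = 0 := (l1 P.d x).1 h0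
  obtain ⟨y, hy⟩ := hP.2 (star (show P.I → A from x)) (fun i hi => by
    have h3 : (show P.I → A from x) i ≠ 0 := sne _ _ hi
    by_contra h4
    apply h3
    apply hx i
    intro h5
    apply h4
    have h6 : P.deg i = q := h5
    omega) h1
  exact ⟨star y, (l2 P.d x (star y)).2 (by rw [star_star]; exact hy)⟩

theorem mem_sR {m : Type} (Z : Submodule Aᵐᵒᵖ (m → A)) (x : m → A) : x ∈ sR Z ↔ star x ∈ Z :=
  Iff.rfl

theorem sR_mono {m : Type} {B Z : Submodule Aᵐᵒᵖ (m → A)} (h : B ≤ Z) : sR B ≤ sR Z :=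
  fun _ hx => h hx

theorem sR_Cy (P : AU.FC A) (c : ℤ) (x : P.I → A) (hx : x ∈ sR (P.dual.Cy c)) :
    x ∈ (ofAU P).dual.Z c := by
  obtain ⟨h1, h2⟩ := hx
  refine ⟨fun i hi => ?_, (l1 (P.dᴴ) x).2 h2⟩
  by_contra h3
  exact hi (h1 i (sne' x i h3))

theorem sR_Bd (P : AU.FC A) (c : ℤ) (x : P.I → A) :
    x ∈ sR (P.dual.Bd c) ↔ x ∈ (ofAU P).dual.B c := by
  constructor
  · rintro ⟨h1, y, hy⟩
    refine ⟨fun i hi => ?_, star (show P.I → A from y),
      (l2 (P.dᴴ) x (star (show P.I → A from y))).2 (by rw [star_star]; exact hy)⟩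
    by_contra h3
    exact hi (h1 i (sne' x i h3))
  · rintro ⟨h1, y, hy⟩
    refine ⟨fun i hi => ?_, star (show P.I → A from y), (l2 (P.dᴴ) x y).1 hy⟩
    by_contra h3
    exact sne x i hi (h1 i h3)

/-- transport of a resolution -/
def resEquiv {C : FC A} {X Y : Type} [AddCommGroup X] [Module A X] [AddCommGroup Y] [Module A Y]
    (r : Res C X) (f : X ≃ₗ[A] Y) : Res C Y where
  pi := f.toLinearMap ∘ₗ r.pi
  isRes := r.isRes
  low q x hq hx := by simp [r.low q x hq hx]
  surj := f.surjective.comp r.surj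
  zero y := by simp [r.zero y]
  ker x hx h := r.ker x hx (by simpa using h)

theorem toAU_dual_exBelow (C : FC A) (c : ℤ) (h : ∀ q < c, C.dual.ExactAt q) :
    (toAU C).dual.ExBelow c := by
  intro x hx h0
  have h1 : (star (show C.I → A from x)) ᵥ* C.eᴴ = 0 :=
    (l1 C.e (star (show C.I → A from x))).2 (by
      rw [star_star]
      have h2 : (C.eᴴ)ᴴ *ᵥ (show C.I → A from x) = 0 := h0
      rwa [conjTranspose_conjTranspose] at h2)
  obtain ⟨y, hy⟩ := exact_of C.dual (fun q => q < c) (fun q hq => h q hq)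
    (star (show C.I → A from x)) (fun i hi => hx i (sne _ i hi)) h1
  refine ⟨star (show C.I → A from y), ?_⟩
  have h4 : (show C.I → A from x) = C.e *ᵥ star (show C.I → A from y) := by
    have h5 := (l2 C.e (star (show C.I → A from x)) (show C.I → A from y)).1 hy
    rwa [star_star] at h5
  have h6 : (show C.I → A from x) = (C.eᴴ)ᴴ *ᵥ star (show C.I → A from y) := by
    rw [conjTranspose_conjTranspose]
    exact h4
  exact h6

end Star

end BRAM

open BRAM in
theorem specBRA (hBRL : SpecBRL) : SpecBRA := by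
  intro A _ _ d hA P hP c Z hB hZ
  have hD : (ofAU P).IsRes := ofAU_isRes P hP
  -- the map from the rows of Z to the cohomology
  let inc : sR Z →ₗ[A] (ofAU P).dual.Z c :=
    { toFun := fun z => ⟨z.1, sR_Cy P c z.1 (hZ z.2)⟩
      map_add' := fun _ _ => rfl
      map_smul' := fun _ _ => rfl }
  let mk : (ofAU P).dual.Z c →ₗ[A] (ofAU P).dual.H c :=
    (((ofAU P).dual.B c).submoduleOf ((ofAU P).dual.Z c)).mkQ
  let phi : sR Z →ₗ[A] (ofAU P).dual.H c := mk ∘ₗ inc
  have hker : LinearMap.ker phi = (sR (P.dual.Bd c)).submoduleOf (sR Z) := by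
    ext z
    rw [LinearMap.mem_ker]
    change Submodule.Quotient.mk (inc z) = 0 ↔ z.1 ∈ sR (P.dual.Bd c)
    rw [Submodule.Quotient.mk_eq_zero]
    exact (sR_Bd P c z.1).symm
  obtain ⟨C, ⟨r⟩, hC⟩ := hA.aus (ofAU P) hD (c : ℤ) (by positivity) (LinearMap.range phi)
  have e1 : (sR Z ⧸ LinearMap.ker phi) ≃ₗ[A] LinearMap.range phi := phi.quotKerEquivRange
  have e2 : (sR Z ⧸ LinearMap.ker phi) ≃ₗ[A] (sR Z ⧸ (sR (P.dual.Bd c)).submoduleOf (sR Z)) :=
    Submodule.quotEquivOfEq _ _ hker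
  have r2 : Res C (sR Z ⧸ (sR (P.dual.Bd c)).submoduleOf (sR Z)) :=
    resEquiv r (e1.symm.trans e2)
  obtain ⟨g, hg⟩ := hBRL A P.dual.I (P.dual.Bd c) Z hB C r2
  exact ⟨toAU C, g, hg, toAU_dual_exBelow C c hC⟩

end Pool.Agent.Lib.MP8a3537.AUL
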