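import Pool.Agent.Lib.MP_8a3537_gt.AUL.Spec

/-!
# BRF: finite free resolutions of cokernels, in the form of `AU`
-/

namespace Pool.Agent.Lib.MP8a3537.AUL

open Matrix

namespace BRFM

theorem fin_top (A : Type) [Ring A] [StarRing A] (m : ℕ) (B : Submodule Aᵐᵒᵖ (Fin m → A)) :
    Module.Finite A (sR (⊤ : Submodule Aᵐᵒᵖ (Fin m → A)) ⧸
      (sR B).submoduleOf (sR (⊤ : Submodule Aᵐᵒᵖ (Fin m → A)))) := by
  have h : ∀ x : Fin m → A, (LinearMap.id : (Fin m → A) →ₗ[A] (Fin m → A)) x ∈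
      sR (⊤ : Submodule Aᵐᵒᵖ (Fin m → A)) := fun x => Submodule.mem_top
  refine Module.Finite.of_surjective
    ((((sR B).submoduleOf (sR (⊤ : Submodule Aᵐᵒᵖ (Fin m → A)))).mkQ).comp
      (LinearMap.id.codRestrict (sR (⊤ : Submodule Aᵐᵒᵖ (Fin m → A))) h)) ?_
  rw [LinearMap.coe_comp]
  refine (Submodule.mkQ_surjective _).comp ?_
  rintro ⟨x, hx⟩
  exact ⟨x, rfl⟩

end BRFM

open BRFM in
/-- BRF -/
theorem specBRF (hBRL : SpecBRL) : SpecBRF := by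
  intro A _ _ d hF m n M
  obtain ⟨C, ⟨r⟩, _⟩ := hF _ (fin_top A m (AU.rng M))
  obtain ⟨g, hg⟩ := hBRL A (Fin m) (AU.rng M) ⊤ le_top C r
  exact ⟨toAU C, g, hg⟩

end Pool.Agent.Lib.MP8a3537.AUL
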