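import Pool.Agent.Lib.MP_8a3537_gt.AUL.Spec

/-!
# MP_8a3537_gt, AUL: module BRG

The bridge: `Aus A d` implies `AU.AuslanderRegular A`.
-/

namespace Pool.Agent.Lib.MP8a3537.AUL

theorem specBRG (hBRF : SpecBRF) (hBRI : SpecBRI) (hBRA : SpecBRA) : SpecBRG := by
  intro A _ _ d h
  exact
    { noeth := h.noeth
      ffr := fun m n M => hBRF A d h.fin m n M
      injdim := ⟨d, fun P hP => hBRI A d h P hP⟩
      auslander := fun P hP c Z hB hZ => hBRA A d h P hP c Z hB hZ }

end Pool.Agent.Lib.MP8a3537.AUL
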