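import Pool.Agent.Lib.MP_8a3537_gt.AUL.Spec

/-!
# Module BRI: finite injective dimension
-/

namespace Pool.Agent.Lib.MP8a3537.AUL

open Matrix

namespace BRIM

/-- The complex of rows of a resolution by columns is a resolution. -/
theorem isRes_ofAU {A : Type} [Ring A] [StarRing A] (P : AU.FC A) (hP : P.IsRes) :
    (ofAU P).IsRes := by
  refine ⟨hP.1, ?_⟩
  suffices key : ∀ q < 0, ∀ x : P.I → A, (∀ i : P.I, P.deg i ≠ q → x i = 0) →
      x ᵥ* P.dᴴ = 0 → ∃ y : P.I → A, x = y ᵥ* P.dᴴ from key
  intro q hq x hx hx0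
  have h1 : P.d *ᵥ star x = 0 := by
    have h2 := congrArg star hx0
    rw [star_vecMul, star_zero, conjTranspose_conjTranspose] at h2
    exact h2
  obtain ⟨y, hy⟩ := hP.2 (star x) (by
    intro i hi
    have h3 : P.deg i = q := by
      by_contra hne
      apply hi
      rw [Pi.star_apply, hx i hne, star_zero]
    rw [h3]
    exact hq) h1
  have h4 : x = star y ᵥ* P.dᴴ := by
    have h5 := congrArg star hy
    rw [star_star, star_mulVec] at h5
    exact h5
  exact ⟨star y, h4⟩

section Parts

variable {A : Type} [Ring A] {I : Type} [Fintype I] (deg : I → ℤ)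
  (e : Matrix I I A)

/-- The differential maps the part of degree `q` of a row to the part of degree `q + 1`. -/
theorem part_vecMul (he : ∀ i j, e i j ≠ 0 → deg j = deg i + 1) (q : ℤ) (y : I → A) :
    (part deg q y) ᵥ* e = part deg (q + 1) (y ᵥ* e) := by
  ext j
  simp only [part, vecMul, dotProduct]
  split_ifs with hj
  · refine Finset.sum_congr rfl fun i _ => ?_
    split_ifs with hi
    · rfl
    · rw [zero_mul]
      by_cases h0 : e i j = 0
      · rw [h0, mul_zero]
      · have := he i j h0
        exact absurd (by omega) hi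
  · refine Finset.sum_eq_zero fun i _ => ?_
    split_ifs with hi
    · by_cases h0 : e i j = 0
      · rw [h0, mul_zero]
      · have := he i j h0
        exact absurd (by omega) hj
    · rw [zero_mul]

/-- A row is the sum of its homogeneous parts. -/
theorem sum_part (x : I → A) :
    x = ∑ q ∈ Finset.univ.image deg, part deg q x := by
  ext i
  rw [Finset.sum_apply]
  simp only [part]
  rw [Finset.sum_ite_eq]
  simp

/-- If all the homogeneous parts are coboundaries, then so is the row. -/
theorem of_parts (x : I → A)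
    (h : ∀ q, ∃ y : I → A, part deg q x = y ᵥ* e) : ∃ y : I → A, x = y ᵥ* e := by
  choose y hy using h
  refine ⟨∑ q ∈ Finset.univ.image deg, y q, ?_⟩
  rw [Matrix.sum_vecMul]
  conv_lhs => rw [sum_part deg x]
  exact Finset.sum_congr rfl fun q _ => hy q

end Parts

end BRIM

open BRIM

theorem specBRI (hIND : SpecIND) (hRSM : SpecRSM) : SpecBRI := by
  intro A _ _ d hA P hP
  have hC := isRes_ofAU P hP
  obtain ⟨X, _, _, hfin, ⟨r⟩⟩ := hRSM A (ofAU P) hC
  obtain ⟨D, ⟨s⟩, hD⟩ := hA.fin X hfin
  have hDe : ∀ q : ℤ, (d : ℤ) < q → D.dual.ExactAt q := by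
    intro q hq x hx _
    refine ⟨0, ?_⟩
    rw [zero_vecMul]
    ext i
    apply hx i
    have h1 := hD i
    intro h2
    have h3 : D.dual.deg i = - D.deg i := rfl
    omega
  have he : (ofAU P).dual.e = P.d := conjTranspose_conjTranspose P.d
  have hCe : ∀ q : ℤ, (d : ℤ) < q → ∀ x : P.I → A, (∀ i, -P.deg i ≠ q → x i = 0) →
      x ᵥ* P.d = 0 → ∃ y : P.I → A, x = y ᵥ* P.d := by
    intro q hq x hx hx0
    have h1 := (hIND A D (ofAU P) X s r).1 q (hDe q hq) x hx
    rw [he] at h1
    exact h1 hx0
  suffices key : ∀ x : P.I → A, (∀ i : P.I, x i ≠ 0 → (d : ℤ) < -P.deg i) →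
      P.dᴴ *ᵥ x = 0 → ∃ y : P.I → A, x = P.dᴴ *ᵥ y from key
  intro x hx hx0
  have h1 : (star x) ᵥ* P.d = 0 := by
    have h2 := congrArg star hx0
    rw [star_mulVec, star_zero, conjTranspose_conjTranspose] at h2
    exact h2
  have hdeg : ∀ i j, P.d i j ≠ 0 → -P.deg j = -P.deg i + 1 := by
    intro i j hij
    have := P.hd i j hij
    omega
  obtain ⟨y, hy⟩ : ∃ y : P.I → A, star x = y ᵥ* P.d := by
    apply of_parts (fun i => -P.deg i) P.d (star x)
    intro q
    by_cases hq : (d : ℤ) < q
    · apply hCe q hq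
      · intro i hi
        simp [part, hi]
      · rw [part_vecMul (fun i => -P.deg i) P.d hdeg, h1]
        ext i
        simp [part]
    · refine ⟨0, ?_⟩
      rw [zero_vecMul]
      ext i
      simp only [part]
      split_ifs with hi
      · by_contra h0
        apply hq
        have h4 : x i ≠ 0 := by
          intro h5
          apply h0
          rw [Pi.star_apply, h5, star_zero]
          rfl
        have h6 := hx i h4
        omega
      · rfl
  have h8 : x = P.dᴴ *ᵥ star y := by
    have h9 := congrArg star hy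
    rw [star_star, star_vecMul] at h9
    exact h9
  exact ⟨star y, h8⟩

end Pool.Agent.Lib.MP8a3537.AUL
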