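import Pool.Agent.Lib.MP_8a3537_gt.AUL.Spec

/-!
# AUL, module BRL: resolutions of `Z / B`
-/

namespace Pool.Agent.Lib.MP8a3537.AUL

open Matrix

namespace BRLM

variable {A : Type} [Ring A]

theorem part_vecMul (C : FC A) (q : ℤ) (x : C.I → A) :
    part C.deg q x ᵥ* C.e = part C.deg (q + 1) (x ᵥ* C.e) := by
  ext j
  simp only [part, Matrix.vecMul, dotProduct]
  split_ifs with h
  · refine Finset.sum_congr rfl fun i _ => ?_
    by_cases hi : C.deg i = q
    · rw [if_pos hi]
    · rw [if_neg hi, zero_mul]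
      by_cases he : C.e i j = 0
      · rw [he, mul_zero]
      · exact absurd (by have := C.he i j he; omega) hi
  · refine Finset.sum_eq_zero fun i _ => ?_
    by_cases hi : C.deg i = q
    · rw [if_pos hi]
      by_cases he : C.e i j = 0
      · rw [he, mul_zero]
      · exact absurd (by have := C.he i j he; omega) h
    · rw [if_neg hi, zero_mul]

theorem sum_part (C : FC A) (x : C.I → A) :
    ∑ q ∈ Finset.univ.image C.deg, part C.deg q x = x := by
  ext i
  rw [Finset.sum_apply]
  simp only [part]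
  rw [Finset.sum_ite_eq]
  rw [if_pos (Finset.mem_image_of_mem _ (Finset.mem_univ i))]

theorem exact_neg (C : FC A) (hC : C.IsRes) (x : C.I → A) (hx : ∀ i, x i ≠ 0 → C.deg i < 0)
    (h0 : x ᵥ* C.e = 0) : ∃ y : C.I → A, x = y ᵥ* C.e := by
  have key : ∀ q : ℤ, ∃ y : C.I → A, part C.deg q x = y ᵥ* C.e := by
    intro q
    by_cases hq : q < 0
    · apply hC.2 q hq
      · intro i hi
        exact if_neg hi
      · rw [part_vecMul, h0]
        ext j
        simp [part]
    · refine ⟨0, ?_⟩
      rw [Matrix.zero_vecMul]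
      ext i
      simp only [part]
      split_ifs with hi
      · by_contra hne
        have := hx i hne
        omega
      · rfl
  choose y hy using key
  refine ⟨∑ q ∈ Finset.univ.image C.deg, y q, ?_⟩
  have h1 : (∑ q ∈ Finset.univ.image C.deg, y q) ᵥ* C.e
      = ∑ q ∈ Finset.univ.image C.deg, (y q ᵥ* C.e) := by
    exact map_sum ((Matrix.vecMulLinear C.e) : (C.I → A) →ₗ[A] (C.I → A)) _ _
  rw [h1, ← Finset.sum_congr rfl fun q _ => hy q, sum_part]

end BRLM

theorem specBRL : SpecBRL := by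
  intro A _ _ m _ B Z hBZ C r
  have hrep : ∀ j : C.I, ∃ g : sR Z, (C.deg j ≠ 0 → g = 0) ∧
      (Submodule.Quotient.mk g : sR Z ⧸ (sR B).submoduleOf (sR Z)) = r.pi (Pi.single j 1) := by
    intro j
    by_cases hj : C.deg j = 0
    · obtain ⟨g, hg⟩ := Submodule.Quotient.mk_surjective _ (r.pi (Pi.single j 1))
      exact ⟨g, fun h => absurd hj h, hg⟩
    · refine ⟨0, fun _ => rfl, ?_⟩
      rw [Submodule.Quotient.mk_zero]
      symm
      apply r.low (C.deg j) _ hj
      intro i hi
      rw [Pi.single_eq_of_ne]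
      rintro rfl
      exact hi rfl
  choose gg hgg0 hgg using hrep
  let G : (C.I → A) → sR Z := fun x => ∑ j, x j • gg j
  have hG : ∀ x : C.I → A,
      (Submodule.Quotient.mk (G x) : sR Z ⧸ (sR B).submoduleOf (sR Z)) = r.pi x := by
    intro x
    have h1 : x = ∑ j, x j • (Pi.single j (1 : A) : C.I → A) := by
      ext i
      rw [Finset.sum_apply]
      simp [Pi.single_apply]
    conv_rhs => rw [h1]
    rw [map_sum]
    change (Submodule.mkQ ((sR B).submoduleOf (sR Z))) (∑ j, x j • gg j) = _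
    rw [map_sum]
    refine Finset.sum_congr rfl fun j _ => ?_
    rw [map_smul, map_smul, ← hgg j]
    rfl
  let g : Matrix m C.I A := fun k j => star (((gg j : sR Z) : m → A) k)
  have hg : ∀ y : C.I → A, g *ᵥ y = star ((G (star y) : sR Z) : m → A) := by
    intro y
    ext k
    simp only [G, g, Matrix.mulVec, dotProduct, Pi.star_apply, Submodule.coe_sum,
      Submodule.coe_smul, Finset.sum_apply, Pi.smul_apply, smul_eq_mul, star_sum, star_mul,
      star_star]
  have hB : ∀ x : C.I → A, r.pi x = 0 → star ((G x : sR Z) : m → A) ∈ B := by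
    intro x hx
    rw [← hG x, Submodule.Quotient.mk_eq_zero] at hx
    exact hx
  have hB' : ∀ x : C.I → A, star ((G x : sR Z) : m → A) ∈ B → r.pi x = 0 := by
    intro x hx
    rw [← hG x, Submodule.Quotient.mk_eq_zero]
    exact hx
  have k1 : ∀ x : C.I → A, (∀ i, x i ≠ 0 → C.deg i < 0) → C.eᴴ *ᵥ x = 0 →
      ∃ y : C.I → A, x = C.eᴴ *ᵥ y := by
    intro x hx hx0
    have h1 : star x ᵥ* C.e = 0 := by
      have h2 := congrArg star hx0
      rwa [star_mulVec, conjTranspose_conjTranspose, star_zero] at h2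
    obtain ⟨y, hy⟩ := BRLM.exact_neg C r.isRes (star x) (by
      intro i hi
      apply hx i
      intro h0
      apply hi
      rw [Pi.star_apply, h0, star_zero]) h1
    refine ⟨star y, ?_⟩
    rw [← star_vecMul, ← hy, star_star]
  have k2 : ∀ i j, g i j ≠ 0 → C.deg j = 0 := by
    intro i j hij
    by_contra hj
    apply hij
    change star (((gg j : sR Z) : m → A) i) = 0
    rw [hgg0 j hj]
    simp
  have k3 : ∀ y : C.I → A, g *ᵥ y ∈ Z := by
    intro y
    rw [hg]
    exact (G (star y)).2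
  have k4 : ∀ z ∈ Z, ∃ y : C.I → A, z - g *ᵥ y ∈ B := by
    intro z hz
    obtain ⟨x, hx⟩ := r.surj (Submodule.Quotient.mk ⟨star z, by
      change star (star z) ∈ Z
      rwa [star_star]⟩)
    refine ⟨star x, ?_⟩
    rw [hg, star_star]
    rw [← hG x, Submodule.Quotient.eq] at hx
    have h1 : star (((G x : sR Z) : m → A) - star z) ∈ B := hx
    rw [star_sub, star_star] at h1
    have h2 := B.neg_mem h1
    rwa [neg_sub] at h2
  have k5 : ∀ x : C.I → A, g *ᵥ (C.eᴴ *ᵥ x) ∈ B := by
    intro x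
    rw [hg]
    apply hB
    rw [star_mulVec, conjTranspose_conjTranspose]
    exact r.zero _
  have k6 : ∀ y : C.I → A, (∀ j, y j ≠ 0 → C.deg j = 0) → g *ᵥ y ∈ B →
      ∃ x : C.I → A, y = C.eᴴ *ᵥ x := by
    intro y hy hyB
    rw [hg] at hyB
    have h1 := hB' _ hyB
    obtain ⟨x, hx⟩ := r.ker (star y) (by
      intro i hi
      rw [Pi.star_apply]
      by_cases h0 : y i = 0
      · rw [h0, star_zero]
      · exact absurd (hy i h0) hi) h1
    refine ⟨star x, ?_⟩
    rw [← star_vecMul, ← hx, star_star]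
  exact ⟨g, ⟨⟨r.isRes.1, k1⟩, k2, k3, k4, k5, k6⟩⟩

end Pool.Agent.Lib.MP8a3537.AUL
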