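import Pool.Agent.Lib.MP_8a3537_gt.AUL.Spec

/-! # AUL, module CHR: the characteristic resolution -/

namespace Pool.Agent.Lib.MP8a3537.AUL

open Matrix

namespace CHRM

section General

variable {A : Type} [Ring A]

theorem part_vecMul {I : Type} [Fintype I] (deg : I → ℤ) (e : Matrix I I A)
    (he : ∀ i j, e i j ≠ 0 → deg j = deg i + 1) (q : ℤ) (y : I → A) :
    part deg (q + 1) (y ᵥ* e) = part deg q y ᵥ* e := by
  funext j
  change (if deg j = q + 1 then ∑ i, y i * e i j else 0) =
    ∑ i, (if deg i = q then y i else 0) * e i j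
  split_ifs with hj
  · refine Finset.sum_congr rfl fun i _ => ?_
    by_cases h : e i j = 0
    · rw [h, mul_zero, mul_zero]
    · have := he i j h
      rw [if_pos (by omega)]
  · symm
    refine Finset.sum_eq_zero fun i _ => ?_
    by_cases h : e i j = 0
    · rw [h, mul_zero]
    · have := he i j h
      rw [if_neg (by omega), zero_mul]

theorem part_of_inDeg {I : Type} (deg : I → ℤ) (q : ℤ) (x : I → A) (h : InDeg deg q x) :
    part deg q x = x := by
  funext i
  change (if deg i = q then x i else 0) = x i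
  split_ifs with hi
  · rfl
  · exact (h i hi).symm

theorem inDeg_part {I : Type} (deg : I → ℤ) (q : ℤ) (x : I → A) : InDeg deg q (part deg q x) := by
  intro i hi
  change (if deg i = q then x i else 0) = 0
  rw [if_neg hi]

theorem inDeg_vecMul {I J : Type} [Fintype I] (dI : I → ℤ) (dJ : J → ℤ) (u : Matrix I J A)
    (hu : ∀ i j, u i j ≠ 0 → dJ j = dI i) (q : ℤ) (x : I → A) (hx : InDeg dI q x) :
    InDeg dJ q (x ᵥ* u) := by
  intro j hj
  change ∑ i, x i * u i j = 0
  refine Finset.sum_eq_zero fun i _ => ?_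
  by_cases h : u i j = 0
  · rw [h, mul_zero]
  · have := hu i j h
    rw [hx i (by omega), zero_mul]

theorem inDeg_add {I : Type} (deg : I → ℤ) (q : ℤ) (x y : I → A) (hx : InDeg deg q x)
    (hy : InDeg deg q y) : InDeg deg q (x + y) := by
  intro i hi
  rw [Pi.add_apply, hx i hi, hy i hi, add_zero]

theorem inDeg_sub {I : Type} (deg : I → ℤ) (q : ℤ) (x y : I → A) (hx : InDeg deg q x)
    (hy : InDeg deg q y) : InDeg deg q (x - y) := by
  intro i hi
  rw [Pi.sub_apply, hx i hi, hy i hi, sub_zero]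

/-- The unit row. -/
def un {I : Type} [DecidableEq I] (i : I) : I → A := fun j => if i = j then 1 else 0

theorem inDeg_un {I : Type} [DecidableEq I] (deg : I → ℤ) (i : I) :
    InDeg deg (deg i) (un i : I → A) := by
  intro j hj
  change (if i = j then (1 : A) else 0) = 0
  rw [if_neg]
  intro h
  exact hj (by rw [h])

variable {N : Type} [AddCommGroup N] [Module A N]

theorem pi_eq {C : FC A} (r : Res C N) (y : C.I → A) : r.pi y = ∑ i, y i • r.pi (un i) :=
  LinearMap.pi_apply_eq_sum_univ r.pi y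

theorem pi_un {C : FC A} (r : Res C N) (i : C.I) (h : C.deg i ≠ 0) : r.pi (un i) = 0 :=
  r.low _ _ h (inDeg_un C.deg i)

theorem pi_part {C : FC A} (r : Res C N) (y : C.I → A) : r.pi (part C.deg 0 y) = r.pi y := by
  rw [pi_eq r y, pi_eq r (part C.deg 0 y)]
  refine Finset.sum_congr rfl fun i _ => ?_
  by_cases h : C.deg i = 0
  · change (if C.deg i = 0 then y i else 0) • r.pi (un i) = _
    rw [if_pos h]
  · rw [pi_un r i h, smul_zero, smul_zero]

theorem smul_vecMul' {I J : Type} [Fintype I] [Fintype J] {M : Type} [AddCommGroup M] [Module A M]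
    (y : I → A) (m : Matrix I J A) (p : J → M) :
    ∑ j, (y ᵥ* m) j • p j = ∑ i, y i • ∑ j, m i j • p j := by
  change ∑ j, (∑ i, y i * m i j) • p j = _
  simp only [Finset.sum_smul, Finset.smul_sum, mul_smul]
  rw [Finset.sum_comm]

end General

section Laurent

variable {S : Type} [Ring S] [StarRing S] {S0 : Subring S} [StarSub S0]

theorem cor_phi (hLAU : SpecLAU) (L : Lau S0) {I J : Type} [Fintype I] [Fintype J]
    (u w : Matrix I J S0) (z : I → S) (k : ℤ) :
    L.cor (z ᵥ* L.phi u w) k =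
      (fun j => L.sg ((L.cor z (k + 1) ᵥ* w) j)) - L.cor z k ᵥ* u := by
  have h : z ᵥ* L.phi u w = (fun j => (z ᵥ* w.map (fun a : S0 => (a : S))) j *
      ((L.t⁻¹ : Sˣ) : S)) - z ᵥ* u.map (fun a : S0 => (a : S)) := by
    funext j
    change ∑ i, z i * ((w i j : S) * ((L.t⁻¹ : Sˣ) : S) - (u i j : S)) =
      (∑ i, z i * (w i j : S)) * ((L.t⁻¹ : Sˣ) : S) - ∑ i, z i * (u i j : S)
    simp only [mul_sub, Finset.sum_sub_distrib, Finset.sum_mul, mul_assoc]
  obtain ⟨_, _, _, h4, _, _, _, h8, h9, _, _, _⟩ := hLAU S S0 L I J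
  obtain ⟨_, _, _, h4', _, _, _, _, h9', _, _, _⟩ := hLAU S S0 L J J
  rw [h, h4', h9', h8, h8]

/-- If all coefficient rows are in the image then the row is in the image. -/
theorem lift_coef (hLAU : SpecLAU) (L : Lau S0) {I J : Type} [Fintype I] [Fintype J]
    (m : Matrix I J S0) (x : J → S) (h : ∀ k, ∃ y : I → S0, L.cor x k = y ᵥ* m) :
    ∃ y : I → S, x = y ᵥ* m.map (fun a : S0 => (a : S)) := by
  classical
  obtain ⟨_, _, _, _, _, h6, _, h8, _, _, _, _⟩ := hLAU S S0 L I J
  obtain ⟨h1, h2, _, _, _, _, _, _, _, _, _, _⟩ := hLAU S S0 L J J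
  choose y hy using h
  obtain ⟨y', hy'⟩ := h6 (fun k => if L.cor x k = 0 then 0 else y k) (by
    refine (h1 x).subset fun k hk h0 => hk ?_
    change (if L.cor x k = 0 then 0 else y k) = 0
    rw [if_pos h0])
  refine ⟨y', h2 _ _ fun k => ?_⟩
  rw [h8, hy']
  by_cases h0 : L.cor x k = 0
  · rw [if_pos h0, h0, Matrix.zero_vecMul]
  · rw [if_neg h0]
    exact hy k

omit [StarSub S0] in
theorem inDeg_cor (L : Lau S0) {I : Type} (deg : I → ℤ) (q : ℤ) (x : I → S)
    (hx : InDeg deg q x) (k : ℤ) : InDeg deg q (L.cor x k) := by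
  intro i hi
  change L.val.symm (x i) k = 0
  rw [hx i hi, map_zero]
  rfl

end Laurent

end CHRM

open CHRM in
theorem specCHR (hLAU : SpecLAU) (hBCE : SpecBCE) : SpecCHR := by
  classical
  intro S _ _ S0 _ L M _ _ N hgen hPX C D r s u w hd hP
  set P : C.I → M := fun i => ((r.pi (un i) : N) : M) with hPdef
  have hpi : ∀ y : C.I → S0, ((r.pi y : N) : M) = ∑ i, y i • P i := by
    intro y
    rw [pi_eq r y, AddSubmonoidClass.coe_finsetSum]
    rfl
  have hpiS : ∀ y : C.I → S0, ∑ i, ((y i : S0) : S) • P i = ((r.pi y : N) : M) := by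
    intro y
    rw [hpi y]
    rfl
  -- the values on the rows of the differential
  have hrow : ∀ i, ∑ j, ((C.e i j : S0) : S) • P j = 0 := by
    intro i
    rw [hpiS (fun j => C.e i j)]
    have h : (fun j => C.e i j) = un i ᵥ* C.e := by
      funext j
      change C.e i j = ∑ l, (if i = l then (1 : S0) else 0) * C.e l j
      simp
    rw [h, r.zero]
    rfl
  have hphi : ∀ i, ∑ j, L.phi u w i j • P j = 0 := by
    intro i
    have h1 : ∀ j, L.phi u w i j • P j = ((L.t⁻¹ : Sˣ) : S) • ((L.sg (w i j) : S0) : S) • P j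
        - ((u i j : S0) : S) • P j := by
      intro j
      rw [smul_smul, ← sub_smul]
      congr 1
      change (w i j : S) * ((L.t⁻¹ : Sˣ) : S) - (u i j : S) = _
      rw [L.coe_sg]
      simp [mul_assoc]
    have hu : (fun j => u i j) = un i ᵥ* u := by
      funext j
      change u i j = ∑ l, (if i = l then (1 : S0) else 0) * u l j
      simp
    have hw : (fun j => L.sg (w i j)) = fun j => L.sg ((un i ᵥ* w) j) := by
      funext j
      congr 1
      change w i j = ∑ l, (if i = l then (1 : S0) else 0) * w l j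
      simp
    have h2 : ∑ j, ((u i j : S0) : S) • P j = ((s.pi (un i) : L.pr N) : M) := by
      rw [hpiS (fun j => u i j), hu, hd.lu]
    have h3 : ∑ j, ((L.sg (w i j) : S0) : S) • P j = (L.t : S) • ((s.pi (un i) : L.pr N) : M) := by
      rw [hpiS (fun j => L.sg (w i j)), hw, hd.lw]
    simp only [h1]
    rw [Finset.sum_sub_distrib, ← Finset.smul_sum, h2, h3, smul_smul, Units.inv_mul, one_smul,
      sub_self]
  -- plain forms
  set eC : Matrix C.I C.I S := C.e.map (fun a : S0 => (a : S)) with heC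
  set eD : Matrix D.I D.I S := D.e.map (fun a : S0 => (a : S)) with heD
  set Φ : Matrix D.I C.I S := L.phi u w with hΦ
  have hPdeg : ∀ (i : D.I) (j : C.I), Φ i j ≠ 0 → C.deg j = D.deg i := hP.deg
  have hPcomm : eD * Φ = Φ * eC := hP.comm
  have hCex : ∀ q < 0, ∀ x : C.I → S, InDeg C.deg q x → x ᵥ* eC = 0 → ∃ y : C.I → S, x = y ᵥ* eC :=
    fun q hq => (hBCE S S0 L).1 C q (r.isRes.2 q hq)
  have hDex : ∀ q < 0, ∀ x : D.I → S, InDeg D.deg q x → x ᵥ* eD = 0 → ∃ y : D.I → S, x = y ᵥ* eD :=
    fun q hq => (hBCE S S0 L).1 D q (s.isRes.2 q hq)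
  have hDe : ∀ i j, eD i j ≠ 0 → D.deg j = D.deg i + 1 := (bc D).he
  have hDle : ∀ i, D.deg i ≤ 0 := s.isRes.1
  -- the augmentation
  let aug : (C.I ⊕ D.I → S) →ₗ[S] M :=
    { toFun := fun x => ∑ i, x (Sum.inl i) • P i
      map_add' := fun x y => by
        simp only [Pi.add_apply, add_smul, Finset.sum_add_distrib]
      map_smul' := fun a x => by
        simp only [Pi.smul_apply, smul_eq_mul, mul_smul, RingHom.id_apply, Finset.smul_sum] }
  have haug : ∀ x, aug x = ∑ i, x (Sum.inl i) • P i := fun x => rfl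
  -- the differential in components
  set E : Matrix (C.I ⊕ D.I) (C.I ⊕ D.I) S := fromBlocks eC 0 Φ (-eD) with hE
  have hmul : ∀ x : C.I ⊕ D.I → S, x ᵥ* E =
      Sum.elim ((x ∘ Sum.inl) ᵥ* eC + (x ∘ Sum.inr) ᵥ* Φ) (-((x ∘ Sum.inr) ᵥ* eD)) := by
    intro x
    rw [hE, Matrix.vecMul_fromBlocks, Matrix.vecMul_zero, Matrix.vecMul_neg, zero_add]
  have hcone : ∀ (q : ℤ) (x : C.I ⊕ D.I → S),
      InDeg (Sum.elim C.deg (fun i => D.deg i - 1)) q x →
      InDeg C.deg q (x ∘ Sum.inl) ∧ InDeg D.deg (q + 1) (x ∘ Sum.inr) := by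
    intro q x hx
    constructor
    · intro i hi
      exact hx (Sum.inl i) hi
    · intro i hi
      refine hx (Sum.inr i) ?_
      change D.deg i - 1 ≠ q
      omega
  -- coefficients and the augmentation
  have hcoef : ∀ (z : D.I → S) (k : ℤ), ((r.pi (L.cor (z ᵥ* Φ) k) : N) : M) =
      (L.t : S) • ((s.pi (L.cor z (k + 1)) : L.pr N) : M) - ((s.pi (L.cor z k) : L.pr N) : M) := by
    intro z k
    rw [hΦ, cor_phi hLAU, map_sub, AddSubgroupClass.coe_sub, ← hd.lw, hd.lu]
  obtain ⟨h1, h2, h3, h4, h5, h6, h7, h8, h9, h10, h11, h12⟩ := hLAU S S0 L C.I C.I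
  obtain ⟨g1, g2, g3, g4, g5, g6, g7, g8, g9, g10, g11, g12⟩ := hLAU S S0 L D.I D.I
  -- exactness below degree 0
  have F1 : ∀ q < 0, ∀ x : C.I ⊕ D.I → S, InDeg (Sum.elim C.deg (fun i => D.deg i - 1)) q x →
      x ᵥ* E = 0 → ∃ y : C.I ⊕ D.I → S, x = y ᵥ* E := by
    intro q hq x hx hxe
    obtain ⟨hx1, hx2⟩ := hcone q x hx
    rw [hmul x] at hxe
    have e1 : (x ∘ Sum.inl) ᵥ* eC + (x ∘ Sum.inr) ᵥ* Φ = 0 := by
      funext i
      exact congrFun hxe (Sum.inl i)
    have e2 : (x ∘ Sum.inr) ᵥ* eD = 0 := by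
      funext i
      have := congrFun hxe (Sum.inr i)
      exact neg_eq_zero.mp this
    have hz : ∃ z : D.I → S, x ∘ Sum.inr = z ᵥ* eD := by
      by_cases hq1 : q + 1 < 0
      · exact hDex (q + 1) hq1 _ hx2 e2
      · have hq0 : q + 1 = 0 := by omega
        rw [hq0] at hx2
        -- the images vanish
        have hA : ∀ k, ((s.pi (L.cor (x ∘ Sum.inr) k) : L.pr N) : M) =
            (L.t : S) • ((s.pi (L.cor (x ∘ Sum.inr) (k + 1)) : L.pr N) : M) := by
          intro k
          have hk := h3 ((x ∘ Sum.inl) ᵥ* eC) ((x ∘ Sum.inr) ᵥ* Φ) k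
          rw [e1, h5, heC, h8 (x ∘ Sum.inl) C.e k] at hk
          have hk3 := congrArg (fun v => ((r.pi v : N) : M)) hk
          simp only [map_add, map_zero, r.zero, zero_add] at hk3
          rw [hcoef] at hk3
          exact (sub_eq_zero.mp hk3.symm).symm
        have hfin := g1 (x ∘ Sum.inr)
        obtain ⟨K, hK⟩ : ∃ K : ℤ, ∀ k, K ≤ k → L.cor (x ∘ Sum.inr) k = 0 := by
          obtain ⟨K, hK⟩ := hfin.bddAbove
          refine ⟨K + 1, fun k hk => ?_⟩
          by_contra hne
          have := hK hne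
          omega
        have hzero : ∀ (n : ℕ), ((s.pi (L.cor (x ∘ Sum.inr) (K - n)) : L.pr N) : M) = 0 := by
          intro n
          induction n with
          | zero =>
            rw [hK _ (by simp), map_zero]
            rfl
          | succ n ih =>
            rw [hA]
            have : K - ((n + 1 : ℕ) : ℤ) + 1 = K - (n : ℤ) := by push_cast; ring
            rw [this, ih, smul_zero]
        have hall : ∀ k, s.pi (L.cor (x ∘ Sum.inr) k) = 0 := by
          intro k
          apply Subtype.ext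
          by_cases hk : K ≤ k
          · rw [hK k hk, map_zero]
          · have := hzero (K - k).toNat
            have h' : K - (((K - k).toNat : ℕ) : ℤ) = k := by
              rw [Int.toNat_of_nonneg (by omega)]; ring
            rw [h'] at this
            rw [this]
            rfl
        exact lift_coef hLAU L D.e _ fun k =>
          s.ker _ (inDeg_cor L D.deg 0 _ hx2 k) (hall k)
    obtain ⟨z, hz⟩ := hz
    -- reduce `z` to degree `q`
    have hzq : x ∘ Sum.inr = part D.deg q z ᵥ* eD := by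
      have := part_vecMul D.deg eD hDe q z
      rw [← hz, part_of_inDeg _ _ _ hx2] at this
      exact this
    set z' : D.I → S := part D.deg q z with hz'
    have hz'd : InDeg D.deg q z' := inDeg_part _ _ _
    have e3 : (x ∘ Sum.inl + z' ᵥ* Φ) ᵥ* eC = 0 := by
      rw [Matrix.add_vecMul, Matrix.vecMul_vecMul, ← hPcomm, ← Matrix.vecMul_vecMul, ← hzq, e1]
    obtain ⟨y, hy⟩ := hCex q hq (x ∘ Sum.inl + z' ᵥ* Φ)
      (inDeg_add _ _ _ _ hx1 (inDeg_vecMul D.deg C.deg Φ hPdeg q z' hz'd)) e3
    refine ⟨Sum.elim y (-z'), ?_⟩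
    rw [hmul]
    funext i
    rcases i with i | i
    · have h := congrFun hy i
      change x (Sum.inl i) + (z' ᵥ* Φ) i = (y ᵥ* eC) i at h
      change x (Sum.inl i) = (y ᵥ* eC) i + ((-z') ᵥ* Φ) i
      rw [Matrix.neg_vecMul, Pi.neg_apply, ← h]
      abel
    · have h := congrFun hzq i
      change x (Sum.inr i) = (z' ᵥ* eD) i at h
      change x (Sum.inr i) = -(((-z') ᵥ* eD) i)
      rw [Matrix.neg_vecMul, Pi.neg_apply, neg_neg, h]
  have F2 : ∀ (q : ℤ) (x : C.I ⊕ D.I → S), q ≠ 0 →
      InDeg (Sum.elim C.deg (fun i => D.deg i - 1)) q x → aug x = 0 := by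
    intro q x hq hx
    rw [haug]
    refine Finset.sum_eq_zero fun i _ => ?_
    by_cases h : C.deg i = 0
    · have : x (Sum.inl i) = 0 := (hcone q x hx).1 i (by omega)
      rw [this, zero_smul]
    · have : P i = 0 := by
        rw [hPdef]
        change ((r.pi (un i) : N) : M) = 0
        rw [pi_un r i h]
        rfl
      rw [this, smul_zero]
  have F3 : Function.Surjective aug := by
    rw [← LinearMap.range_eq_top, eq_top_iff, ← (show _ = _ from hgen)]
    apply Submodule.span_le.mpr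
    intro n hn
    obtain ⟨y, hy⟩ := r.surj ⟨n, hn⟩
    refine ⟨Sum.elim (fun i => (y i : S)) 0, ?_⟩
    rw [haug]
    change ∑ i, ((y i : S0) : S) • P i = n
    rw [hpiS, hy]
  have F4 : ∀ y : C.I ⊕ D.I → S, aug (y ᵥ* E) = 0 := by
    intro y
    rw [haug, hmul]
    change ∑ i, (((y ∘ Sum.inl) ᵥ* eC) i + ((y ∘ Sum.inr) ᵥ* Φ) i) • P i = 0
    simp only [add_smul]
    rw [Finset.sum_add_distrib, smul_vecMul', smul_vecMul']
    have a1 : ∑ i : C.I, (y ∘ Sum.inl) i • ∑ j, eC i j • P j = 0 := by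
      refine Finset.sum_eq_zero fun i _ => ?_
      rw [show ∑ j, eC i j • P j = 0 from hrow i, smul_zero]
    have a2 : ∑ i, (y ∘ Sum.inr) i • ∑ j, Φ i j • P j = 0 := by
      refine Finset.sum_eq_zero fun i _ => ?_
      rw [hphi i, smul_zero]
    rw [a1, a2, add_zero]
  have F5 : ∀ x : C.I ⊕ D.I → S, InDeg (Sum.elim C.deg (fun i => D.deg i - 1)) 0 x → aug x = 0 →
      ∃ y : C.I ⊕ D.I → S, x = y ᵥ* E := by
    intro x hx hx0
    obtain ⟨hx1, hx2⟩ := hcone 0 x hx
    have hxr : x ∘ Sum.inr = 0 := by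
      funext i
      exact hx2 i (by have := hDle i; omega)
    have hxl : ∀ k, ((r.pi (L.cor (x ∘ Sum.inl) k) : N) : M) =
        ∑ i, L.cor (x ∘ Sum.inl) k i • P i := fun k => hpi _
    have hfin := h1 (x ∘ Sum.inl)
    let n : ℤ →₀ M := Finsupp.onFinset hfin.toFinset
      (fun k => ((r.pi (L.cor (x ∘ Sum.inl) k) : N) : M)) (by
        intro k hk
        rw [Set.Finite.mem_toFinset]
        intro h0
        apply hk
        rw [h0, map_zero]
        rfl)
    have hn : ∀ k, n k = ((r.pi (L.cor (x ∘ Sum.inl) k) : N) : M) := fun k => rfl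
    have hsum : (n.sum fun k m => ((L.t ^ k : Sˣ) : S) • m) = 0 := by
      have hsub : n.sum (fun k m => ((L.t ^ k : Sˣ) : S) • m) =
          ∑ k ∈ hfin.toFinset, ((L.t ^ k : Sˣ) : S) • n k := by
        apply Finsupp.sum_of_support_subset
        · exact Finsupp.support_onFinset_subset
        · intro k _
          exact smul_zero _
      rw [hsub]
      have hk := h12 M P (x ∘ Sum.inl) hfin.toFinset (fun k hk => by
        rw [Set.Finite.mem_toFinset]
        exact hk)
      rw [← hx0, haug]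
      refine Eq.trans ?_ hk.symm
      refine Finset.sum_congr rfl fun k _ => ?_
      rw [hn, hxl]
    obtain ⟨n', hn', hnn'⟩ := hPX n (fun k => by rw [hn]; exact (r.pi _).2) hsum
    -- preimages
    have hzk : ∀ k, ∃ z : D.I → S0, InDeg D.deg 0 z ∧ ((s.pi z : L.pr N) : M) = n' k ∧
        (n' k = 0 → z = 0) := by
      intro k
      by_cases h0 : n' k = 0
      · refine ⟨0, fun _ _ => rfl, ?_, fun _ => rfl⟩
        rw [map_zero, h0]
        rfl
      · obtain ⟨z, hz⟩ := s.surj ⟨n' k, hn' k⟩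
        refine ⟨part D.deg 0 z, inDeg_part _ _ _, ?_, fun h => absurd h h0⟩
        rw [pi_part, hz]
    choose zk hz1 hz2 hz3 using hzk
    obtain ⟨z, hz⟩ := g6 zk (by
      refine (n'.support.finite_toSet).subset fun k hk => ?_
      rw [Finset.mem_coe, Finsupp.mem_support_iff]
      exact fun h0 => hk (hz3 k h0))
    have hzd : InDeg D.deg 0 z := by
      intro i hi
      have : (fun _ : D.I => z i) = 0 := by
        apply g2
        intro k
        rw [g5]
        funext _
        change L.cor z k i = 0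
        rw [hz]
        exact hz1 k i hi
      exact congrFun this i
    have hker : ∀ k, ∃ y : C.I → S0, L.cor (x ∘ Sum.inl - z ᵥ* Φ) k = y ᵥ* C.e := by
      intro k
      apply r.ker
      · exact inDeg_cor L C.deg 0 _ (inDeg_sub _ _ _ _ hx1
          (inDeg_vecMul D.deg C.deg Φ hPdeg 0 z hzd)) k
      · apply Subtype.ext
        rw [h4, map_sub, AddSubgroupClass.coe_sub, hcoef, hz, hz, hz2, hz2, ← hn, hnn']
        simp
    obtain ⟨y, hy⟩ := lift_coef hLAU L C.e _ hker
    refine ⟨Sum.elim y z, ?_⟩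
    rw [hmul]
    funext i
    rcases i with i | i
    · have h := congrFun hy i
      change x (Sum.inl i) - (z ᵥ* Φ) i = (y ᵥ* eC) i at h
      change x (Sum.inl i) = (y ᵥ* eC) i + (z ᵥ* Φ) i
      rw [← h]
      abel
    · have h := congrFun hxr i
      change x (Sum.inr i) = 0 at h
      change x (Sum.inr i) = -((z ᵥ* eD) i)
      rw [h]
      symm
      rw [neg_eq_zero]
      change ∑ l, z l * eD l i = 0
      refine Finset.sum_eq_zero fun l _ => ?_
      by_cases hl : D.deg l = 0
      · have : eD l i = 0 := by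
          by_contra hne
          have h1 := hDe l i hne
          have h2 := hDle i
          omega
        rw [this, mul_zero]
      · rw [hzd l hl, zero_mul]
  refine ⟨⟨aug, ⟨?_, F1⟩, F2, F3, F4, F5⟩⟩
  rintro (i | i)
  · exact r.isRes.1 i
  · have := hDle i
    change D.deg i - 1 ≤ 0
    omega

end Pool.Agent.Lib.MP8a3537.AUL
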