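import Pool.Agent.Lib.MP_8a3537_gt.AUL.Spec

/-!
# MP_8a3537_gt, folder AUL, module CON: the cone of a lift of an inclusion resolves the quotient
-/

namespace Pool.Agent.Lib.MP8a3537.AUL

open Matrix

namespace CONM

variable {A : Type} [Ring A]

theorem part_inDeg {I : Type} (deg : I → ℤ) (q : ℤ) (x : I → A) : InDeg deg q (part deg q x) :=
  fun i hi => if_neg hi

theorem part_eq {I : Type} {deg : I → ℤ} {q : ℤ} {x : I → A} (h : InDeg deg q x) :
    part deg q x = x := by
  funext i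
  unfold part
  split_ifs with hi
  · rfl
  · exact (h i hi).symm

/-- a matrix of degree `k` and the parts of a row -/
theorem part_vecMul {I J : Type} [Fintype I] {dI : I → ℤ} {dJ : J → ℤ} {k : ℤ}
    (M : Matrix I J A) (hM : ∀ i j, M i j ≠ 0 → dJ j = dI i + k) (q : ℤ) (y : I → A) :
    part dJ (q + k) (y ᵥ* M) = part dI q y ᵥ* M := by
  funext j
  simp only [part, Matrix.vecMul, dotProduct]
  split_ifs with hj
  · refine Finset.sum_congr rfl fun i _ => ?_
    by_cases h0 : M i j = 0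
    · rw [h0, mul_zero, mul_zero]
    · rw [if_pos (by have := hM i j h0; omega)]
  · symm
    refine Finset.sum_eq_zero fun i _ => ?_
    by_cases h0 : M i j = 0
    · rw [h0, mul_zero]
    · rw [if_neg (by have := hM i j h0; omega), zero_mul]

theorem inDeg_vecMul {I J : Type} [Fintype I] {dI : I → ℤ} {dJ : J → ℤ} {k : ℤ}
    (M : Matrix I J A) (hM : ∀ i j, M i j ≠ 0 → dJ j = dI i + k) {q : ℤ} {y : I → A}
    (hy : InDeg dI q y) : InDeg dJ (q + k) (y ᵥ* M) := by
  have h := part_vecMul M hM q y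
  rw [part_eq hy] at h
  rw [← h]
  exact part_inDeg _ _ _

/-- the augmentation sees only the part of degree `0` -/
theorem pi_part {C : FC A} {N : Type} [AddCommGroup N] [Module A N] (r : Res C N) (x : C.I → A) :
    r.pi (part C.deg 0 x) = r.pi x := by
  have h1 : ∀ y : C.I → A, y = ∑ i, Pi.single i (y i) := fun y => (Finset.univ_sum_single y).symm
  rw [h1 x, h1 (part C.deg 0 (∑ i, Pi.single i (x i))), map_sum, map_sum]
  refine Finset.sum_congr rfl fun i _ => ?_
  rw [← h1 x]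
  by_cases hi : C.deg i = 0
  · simp only [part, if_pos hi]
  · simp only [part, if_neg hi]
    rw [Pi.single_zero, map_zero]
    symm
    refine r.low (C.deg i) _ hi fun j hj => ?_
    have : j ≠ i := fun h => hj (by rw [h])
    exact Pi.single_eq_of_ne this _

theorem vecMul_cone {C D : FC A} (u : Matrix D.I C.I A) (z : C.I ⊕ D.I → A) :
    z ᵥ* fromBlocks C.e 0 u (-D.e) =
      Sum.elim ((z ∘ Sum.inl) ᵥ* C.e + (z ∘ Sum.inr) ᵥ* u) (-((z ∘ Sum.inr) ᵥ* D.e)) := by
  rw [vecMul_fromBlocks, vecMul_zero, zero_add, vecMul_neg]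

theorem elim_comp {I J : Type} (z : I ⊕ J → A) : Sum.elim (z ∘ Sum.inl) (z ∘ Sum.inr) = z := by
  funext i
  rcases i with i | i <;> rfl

end CONM

open CONM in
theorem specCON : SpecCON := by
  intro A _ C D X _ _ K r s u hu hr
  have hle : ∀ i, D.deg i ≤ 0 := s.isRes.1
  have hDe : ∀ (q : ℤ) (z : D.I → A), part D.deg (q + 1) (z ᵥ* D.e) = part D.deg q z ᵥ* D.e :=
    fun q z => part_vecMul D.e D.he q z
  have hud : ∀ i j, u i j ≠ 0 → C.deg j = D.deg i + 0 := fun i j h => by
    rw [hu.deg i j h, add_zero]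
  refine ⟨{ pi := K.mkQ ∘ₗ r.pi ∘ₗ (LinearMap.funLeft A A (Sum.inl : C.I → C.I ⊕ D.I))
            isRes := ⟨?_, ?_⟩
            low := ?_
            surj := ?_
            zero := ?_
            ker := ?_ }⟩
  · rintro (i | i)
    · exact r.isRes.1 i
    · have := hle i
      show D.deg i - 1 ≤ 0
      omega
  · intro q hq (z : C.I ⊕ D.I → A) hz hz0
    change z ᵥ* fromBlocks C.e 0 u (-D.e) = 0 at hz0
    rw [vecMul_cone] at hz0
    have hx : InDeg C.deg q (z ∘ Sum.inl) := fun i hi => hz (Sum.inl i) hi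
    have hx' : InDeg D.deg (q + 1) (z ∘ Sum.inr) := fun i hi => hz (Sum.inr i) (by
      show D.deg i - 1 ≠ q
      omega)
    have h1 : (z ∘ Sum.inl) ᵥ* C.e + (z ∘ Sum.inr) ᵥ* u = 0 := by
      funext i
      exact congrFun hz0 (Sum.inl i)
    have h2 : (z ∘ Sum.inr) ᵥ* D.e = 0 := by
      funext i
      have := congrFun hz0 (Sum.inr i)
      simpa using this
    obtain ⟨z', hz'⟩ : ∃ z' : D.I → A, z ∘ Sum.inr = z' ᵥ* D.e := by
      rcases lt_or_ge (q + 1) 0 with hlt | hge
      · exact s.isRes.2 (q + 1) hlt _ hx' h2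
      · have hq1 : q + 1 = 0 := by omega
        rw [hq1] at hx'
        refine s.ker _ hx' (Subtype.ext ?_)
        rw [← hr, ← neg_eq_of_add_eq_zero_right h1, map_neg, r.zero, neg_zero]
        rfl
    set w := part D.deg q z' with hw
    have hw' : z ∘ Sum.inr = w ᵥ* D.e := by
      rw [hw, ← hDe, ← hz', part_eq hx']
    have hwd : InDeg D.deg q w := part_inDeg _ _ _
    obtain ⟨y, hy⟩ := r.isRes.2 q hq (z ∘ Sum.inl + w ᵥ* u) (by
      intro i hi
      have := inDeg_vecMul u hud hwd i (by rwa [add_zero])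
      rw [Pi.add_apply, hx i hi, this, add_zero]) (by
      rw [add_vecMul, vecMul_vecMul, ← hu.comm, ← vecMul_vecMul, ← hw', h1])
    refine ⟨Sum.elim y (-w), ?_⟩
    show z = Sum.elim y (-w) ᵥ* fromBlocks C.e 0 u (-D.e)
    rw [vecMul_cone, Sum.elim_comp_inl, Sum.elim_comp_inr, neg_vecMul, neg_vecMul, neg_neg, ← hw',
      ← hy, add_neg_cancel_right]
    exact (elim_comp z).symm
  · intro q (x : C.I ⊕ D.I → A) hq hx
    show K.mkQ (r.pi (x ∘ Sum.inl)) = 0
    rw [r.low q (x ∘ Sum.inl) hq (fun i hi => hx (Sum.inl i) hi), map_zero]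
  · intro n
    obtain ⟨m, rfl⟩ := K.mkQ_surjective n
    obtain ⟨x, rfl⟩ := r.surj m
    exact ⟨Sum.elim x 0, rfl⟩
  · intro (y : C.I ⊕ D.I → A)
    show K.mkQ (r.pi ((y ᵥ* fromBlocks C.e 0 u (-D.e)) ∘ Sum.inl)) = 0
    rw [vecMul_cone, Sum.elim_comp_inl, map_add, r.zero, zero_add, hr]
    rw [Submodule.mkQ_apply, Submodule.Quotient.mk_eq_zero]
    exact (s.pi (y ∘ Sum.inr)).2
  · intro (z : C.I ⊕ D.I → A) hz hz0
    change K.mkQ (r.pi (z ∘ Sum.inl)) = 0 at hz0
    rw [Submodule.mkQ_apply, Submodule.Quotient.mk_eq_zero] at hz0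
    have hx : InDeg C.deg 0 (z ∘ Sum.inl) := fun i hi => hz (Sum.inl i) hi
    have hx' : z ∘ Sum.inr = 0 := by
      funext i
      refine hz (Sum.inr i) ?_
      have := hle i
      show D.deg i - 1 ≠ 0
      omega
    obtain ⟨z', hz'⟩ := s.surj ⟨_, hz0⟩
    set w := part D.deg 0 z' with hw
    have hwpi : (s.pi w : X) = r.pi (z ∘ Sum.inl) := by
      rw [hw, pi_part, hz']
    have hwd : InDeg D.deg 0 w := part_inDeg _ _ _
    have hwe : w ᵥ* D.e = 0 := by
      funext i
      refine inDeg_vecMul D.e D.he hwd i ?_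
      have := hle i
      omega
    obtain ⟨y, hy⟩ := r.ker (z ∘ Sum.inl - w ᵥ* u) (by
      intro i hi
      have := inDeg_vecMul u hud hwd i (by rwa [add_zero])
      rw [Pi.sub_apply, hx i hi, this, sub_zero]) (by
      rw [map_sub, hr, hwpi, sub_self])
    refine ⟨Sum.elim y w, ?_⟩
    show z = Sum.elim y w ᵥ* fromBlocks C.e 0 u (-D.e)
    rw [vecMul_cone, Sum.elim_comp_inl, Sum.elim_comp_inr, hwe, neg_zero, ← hy, sub_add_cancel,
      ← hx']
    exact (elim_comp z).symm

end Pool.Agent.Lib.MP8a3537.AUL
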