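import Pool.Agent.Lib.MP_8a3537_gt.AUL.Spec
import Pool.Agent.Lib.MP_8a3537_gt.AUL.LAU

/-! # AUL, module EXN: existence of `N` with the property `(X)` -/

namespace Pool.Agent.Lib.MP8a3537.AUL

open Matrix

namespace EXNM

variable {S : Type} [Ring S] [StarRing S] {S0 : Subring S}

theorem cjm (L : Lau S0) (k : ℤ) : ∀ a ∈ S0,
    ((L.t ^ k : Sˣ) : S) * a * ((L.t ^ (-k) : Sˣ) : S) ∈ S0 := by
  induction k using Int.induction_on with
  | zero => intro a ha; simpa using ha
  | succ n ih =>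
    intro a ha
    have h := L.conj_mem _ (ih a ha)
    have e1 : L.t ^ ((n : ℤ) + 1) = L.t * L.t ^ (n : ℤ) := by
      rw [add_comm, _root_.zpow_one_add]
    have e2 : L.t ^ (-((n : ℤ) + 1)) = L.t ^ (-(n : ℤ)) * L.t⁻¹ := by
      rw [show -((n : ℤ) + 1) = -(n : ℤ) - 1 by ring, _root_.zpow_sub_one]
    rw [e1, e2, Units.val_mul, Units.val_mul]
    simpa only [mul_assoc] using h
  | pred n ih =>
    intro a ha
    have h := L.conj_mem' _ (ih a ha)
    have e1 : L.t ^ (-(n : ℤ) - 1) = L.t⁻¹ * L.t ^ (-(n : ℤ)) := by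
      rw [show -(n : ℤ) - 1 = -1 + -(n : ℤ) by ring, _root_.zpow_add, _root_.zpow_neg_one]
    have e2 : L.t ^ (-(-(n : ℤ) - 1)) = L.t ^ (-(-(n : ℤ))) * L.t := by
      rw [show -(-(n : ℤ) - 1) = -(-(n : ℤ)) + 1 by ring, _root_.zpow_add_one]
    rw [e1, e2, Units.val_mul, Units.val_mul]
    simpa only [mul_assoc] using h

/-- `t^k a t^-k`. -/
def cj (L : Lau S0) (k : ℤ) (a : S0) : S0 := ⟨_, cjm L k a a.2⟩

theorem coe_cj (L : Lau S0) (k : ℤ) (a : S0) :
    ((cj L k a : S0) : S) = ((L.t ^ k : Sˣ) : S) * a * ((L.t ^ (-k) : Sˣ) : S) := rfl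

theorem cj_mul (L : Lau S0) (k : ℤ) (a : S0) :
    ((cj L k a : S0) : S) * ((L.t ^ k : Sˣ) : S) = ((L.t ^ k : Sˣ) : S) * a := by
  rw [coe_cj, mul_assoc, ← Units.val_mul, ← _root_.zpow_add, neg_add_cancel, zpow_zero,
    Units.val_one, mul_one]

theorem cj_neg (L : Lau S0) (k : ℤ) (a : S0) :
    ((L.t ^ k : Sˣ) : S) * ((cj L (-k) a : S0) : S) = (a : S) * ((L.t ^ k : Sˣ) : S) := by
  rw [coe_cj, neg_neg, ← mul_assoc, ← mul_assoc, ← Units.val_mul, ← _root_.zpow_add,
    add_neg_cancel, zpow_zero, Units.val_one, one_mul]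

theorem cj_cj (L : Lau S0) (k : ℤ) (a : S0) : cj L (-k) (cj L k a) = a := by
  apply Subtype.ext
  rw [coe_cj, neg_neg, mul_assoc, cj_mul, ← mul_assoc, ← Units.val_mul, ← _root_.zpow_add,
    neg_add_cancel, zpow_zero, Units.val_one, one_mul]

theorem co_mul_left (L : Lau S0) (a : S0) (s : S) (k : ℤ) :
    L.co ((a : S) * s) k = cj L (-k) a * L.co s k := by
  refine LAUM.ind L (fun s => L.co ((a : S) * s) k = cj L (-k) a * L.co s k) ?_ ?_ ?_ s
  · simp [LAUM.co_zero]
  · intro x y hx hy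
    rw [mul_add, LAUM.co_add, LAUM.co_add, Finsupp.add_apply, Finsupp.add_apply, hx, hy, mul_add]
  · intro j b
    have h : (a : S) * (((L.t ^ j : Sˣ) : S) * (b : S)) =
        ((L.t ^ j : Sˣ) : S) * ((cj L (-j) a * b : S0) : S) := by
      rw [Subring.coe_mul, ← mul_assoc, ← mul_assoc, cj_neg]
    rw [h, LAUM.co_single, LAUM.co_single, Finsupp.single_apply, Finsupp.single_apply]
    by_cases hj : j = k
    · rw [if_pos hj, if_pos hj, hj]
    · rw [if_neg hj, if_neg hj, mul_zero]

theorem co_zpow_mul (L : Lau S0) (j : ℤ) (s : S) (k : ℤ) :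
    L.co (((L.t ^ j : Sˣ) : S) * s) k = L.co s (k - j) := by
  refine LAUM.ind L (fun s => L.co (((L.t ^ j : Sˣ) : S) * s) k = L.co s (k - j)) ?_ ?_ ?_ s
  · simp [LAUM.co_zero]
  · intro x y hx hy
    rw [mul_add, LAUM.co_add, LAUM.co_add, Finsupp.add_apply, Finsupp.add_apply, hx, hy]
  · intro i b
    have h : ((L.t ^ j : Sˣ) : S) * (((L.t ^ i : Sˣ) : S) * (b : S)) =
        ((L.t ^ (j + i) : Sˣ) : S) * (b : S) := by
      rw [← mul_assoc, ← Units.val_mul, ← _root_.zpow_add]
    rw [h, LAUM.co_single, LAUM.co_single, Finsupp.single_apply, Finsupp.single_apply]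
    by_cases hj : j + i = k
    · rw [if_pos hj, if_pos (by omega)]
    · rw [if_neg hj, if_neg (by omega)]

variable {M : Type} [AddCommGroup M] [Module S M]

/-- The families for which `n'` exists. -/
def W (L : Lau S0) (N : Submodule S0 M) : AddSubgroup (ℤ → M) where
  carrier := {n | ∃ n' : ℤ → M, (Function.support n').Finite ∧ (∀ k, n' k ∈ L.pr N) ∧
    ∀ k, n k = (L.t : S) • n' (k + 1) - n' k}
  add_mem' := by
    rintro a b ⟨a', ha1, ha2, ha3⟩ ⟨b', hb1, hb2, hb3⟩
    refine ⟨a' + b', (ha1.union hb1).subset (Function.support_add _ _),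
      fun k => (L.pr N).add_mem (ha2 k) (hb2 k), fun k => ?_⟩
    rw [Pi.add_apply, ha3, hb3, Pi.add_apply, Pi.add_apply, smul_add]
    abel
  zero_mem' := ⟨0, by simp, fun k => (L.pr N).zero_mem, fun k => by simp⟩
  neg_mem' := by
    rintro a ⟨a', ha1, ha2, ha3⟩
    refine ⟨-a', by simpa [Function.support_neg] using ha1, fun k => (L.pr N).neg_mem (ha2 k),
      fun k => ?_⟩
    rw [Pi.neg_apply, ha3, Pi.neg_apply, Pi.neg_apply, smul_neg]
    abel

theorem mem_W {L : Lau S0} {N : Submodule S0 M} {n : ℤ → M} : n ∈ W L N ↔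
    ∃ n' : ℤ → M, (Function.support n').Finite ∧ (∀ k, n' k ∈ L.pr N) ∧
    ∀ k, n k = (L.t : S) • n' (k + 1) - n' k := Iff.rfl

theorem fin_shift {n : ℤ → M} (h : (Function.support n).Finite) (j : ℤ) :
    (Function.support (fun k => n (k - j))).Finite := by
  refine (h.image (fun k => k + j)).subset ?_
  intro k hk
  exact ⟨k - j, hk, by simp⟩

theorem W_shift {L : Lau S0} {N : Submodule S0 M} {n : ℤ → M} (h : n ∈ W L N) (j : ℤ) :
    (fun k => n (k - j)) ∈ W L N := by
  obtain ⟨n', h1, h2, h3⟩ := h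
  refine ⟨fun k => n' (k - j), fin_shift h1 j, fun k => h2 _, fun k => ?_⟩
  change n (k - j) = (L.t : S) • n' (k + 1 - j) - n' (k - j)
  rw [h3, show k + 1 - j = k - j + 1 by ring]

theorem W_tw {L : Lau S0} {N : Submodule S0 M} {n : ℤ → M} (h : n ∈ W L N) (a : S0) :
    (fun k => cj L (-k) a • n k) ∈ W L N := by
  obtain ⟨n', h1, h2, h3⟩ := h
  refine ⟨fun k => cj L (-k) a • n' k, h1.subset ?_, fun k => (L.pr N).smul_mem _ (h2 k),
    fun k => ?_⟩
  · intro k hk hk'
    apply hk
    change cj L (-k) a • n' k = 0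
    rw [hk', smul_zero]
  · change cj L (-k) a • n k = (L.t : S) • (cj L (-(k + 1)) a • n' (k + 1)) - cj L (-k) a • n' k
    rw [h3, smul_sub]
    congr 1
    rw [Subring.smul_def, Subring.smul_def, smul_smul, smul_smul]
    congr 1
    rw [coe_cj, coe_cj, neg_neg, neg_neg, ← mul_assoc, ← mul_assoc]
    have e1 : (L.t : S) * ((L.t ^ (-(k + 1)) : Sˣ) : S) = ((L.t ^ (-k) : Sˣ) : S) := by
      rw [← Units.val_mul, ← _root_.zpow_one_add]
      congr 2
      ring
    have e2 : ((L.t ^ k : Sˣ) : S) * (L.t : S) = ((L.t ^ (k + 1) : Sˣ) : S) := by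
      rw [← Units.val_mul, ← _root_.zpow_add_one]
    rw [e1, ← e2]
    simp only [mul_assoc]

theorem W_fin {L : Lau S0} {N : Submodule S0 M} {n : ℤ → M} (h : n ∈ W L N) :
    (Function.support n).Finite := by
  obtain ⟨n', h1, h2, h3⟩ := h
  have h4 := fin_shift h1 (-1)
  refine (h4.union h1).subset ?_
  intro k hk
  by_contra hcon
  rw [Set.mem_union, not_or, Function.notMem_support, Function.notMem_support] at hcon
  apply hk
  rw [h3, hcon.2, sub_zero]
  have : n' (k + 1) = 0 := by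
    have := hcon.1
    rwa [sub_neg_eq_add] at this
  rw [this, smul_zero]

omit [StarRing S] in
theorem fin_smul {n : ℤ → M} (h : (Function.support n).Finite) (c : ℤ → S) :
    (Function.support (fun k => c k • n k)).Finite := by
  refine h.subset ?_
  intro k hk hk'
  apply hk
  change c k • n k = 0
  rw [hk', smul_zero]

/-- The sum `∑ t^k n_k`. -/
noncomputable def sig (L : Lau S0) (n : ℤ → M) : M := ∑ᶠ k, ((L.t ^ k : Sˣ) : S) • n k

theorem sig_sub (L : Lau S0) {a b : ℤ → M} (ha : (Function.support a).Finite)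
    (hb : (Function.support b).Finite) : sig L (a - b) = sig L a - sig L b := by
  rw [sig, sig, sig, ← finsum_sub_distrib (fin_smul ha _) (fin_smul hb _)]
  exact finsum_congr fun k => smul_sub _ _ _

theorem sig_W {L : Lau S0} {N : Submodule S0 M} {n : ℤ → M} (h : n ∈ W L N) : sig L n = 0 := by
  obtain ⟨n', h1, h2, h3⟩ := h
  have h4 : n = (fun k => (L.t : S) • n' (k - (-1))) - n' := by
    funext k
    rw [h3, Pi.sub_apply, sub_neg_eq_add]
  have h5 := fin_shift h1 (-1)
  rw [h4, sig_sub L (fin_smul h5 _) h1, sub_eq_zero, sig, sig]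
  rw [← finsum_comp_equiv (Equiv.addRight (1 : ℤ)) (f := fun k => ((L.t ^ k : Sˣ) : S) • n' k)]
  refine finsum_congr fun k => ?_
  rw [smul_smul, ← Units.val_mul, ← _root_.zpow_add_one, sub_neg_eq_add]
  rfl

theorem W_step {L : Lau S0} {N : Submodule S0 M} (k : ℤ) (m : M) (h0 : m ∈ N)
    (h1 : (L.t : S) • m ∈ N) :
    (Pi.single k ((L.t : S) • m) - Pi.single (k + 1) m : ℤ → M) ∈ W L N := by
  refine ⟨Pi.single (k + 1) m, ?_, ?_, ?_⟩
  · exact (Set.finite_singleton (k + 1)).subset Pi.support_single_subset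
  · intro j
    have hm : m ∈ L.pr N := by
      refine ⟨h0, ?_⟩
      rw [SetLike.mem_coe, Lau.mem_tr, neg_neg, zpow_one]
      exact h1
    by_cases hj : j = k + 1
    · rw [hj, Pi.single_eq_same]; exact hm
    · rw [Pi.single_eq_of_ne hj]; exact (L.pr N).zero_mem
  · intro j
    rw [Pi.sub_apply]
    congr 1
    by_cases hj : j = k
    · rw [hj, Pi.single_eq_same, Pi.single_eq_same]
    · rw [Pi.single_eq_of_ne hj, Pi.single_eq_of_ne (by omega), smul_zero]

theorem W_up {L : Lau S0} {N : Submodule S0 M} (m : M) (w : ℕ)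
    (h : ∀ j : ℤ, |j| ≤ w → ((L.t ^ j : Sˣ) : S) • m ∈ N) (n : ℕ) :
    n ≤ w → ∀ k : ℤ, (Pi.single k (((L.t ^ (n : ℤ) : Sˣ) : S) • m) -
      Pi.single (k + n) m : ℤ → M) ∈ W L N := by
  induction n with
  | zero =>
    intro _ k
    simp only [Nat.cast_zero, zpow_zero, Units.val_one, one_smul, add_zero, sub_self]
    exact zero_mem _
  | succ n ih =>
    intro hn k
    have h1 := W_step (L := L) (N := N) k (((L.t ^ (n : ℤ) : Sˣ) : S) • m)
      (h _ (by rw [abs_of_nonneg (by positivity)]; exact_mod_cast (by omega : n ≤ w))) (by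
        rw [smul_smul, ← Units.val_mul, ← _root_.zpow_one_add]
        apply h
        rw [abs_of_nonneg (by positivity)]
        have : ((n + 1 : ℕ) : ℤ) ≤ w := by exact_mod_cast hn
        push_cast at this
        linarith)
    have h2 := ih (by omega) (k + 1)
    have h3 := add_mem h1 h2
    rw [smul_smul, ← Units.val_mul, ← _root_.zpow_one_add, sub_add_sub_cancel] at h3
    have e1 : (1 + (n : ℤ)) = ((n + 1 : ℕ) : ℤ) := by push_cast; ring
    have e2 : k + 1 + (n : ℤ) = k + ((n + 1 : ℕ) : ℤ) := by push_cast; ring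
    rwa [e1, e2] at h3

theorem W_down {L : Lau S0} {N : Submodule S0 M} (m : M) (w : ℕ)
    (h : ∀ j : ℤ, |j| ≤ w → ((L.t ^ j : Sˣ) : S) • m ∈ N) (n : ℕ) :
    n ≤ w → ∀ k : ℤ, (Pi.single k (((L.t ^ (-(n : ℤ)) : Sˣ) : S) • m) -
      Pi.single (k + -(n : ℤ)) m : ℤ → M) ∈ W L N := by
  induction n with
  | zero =>
    intro _ k
    simp only [Nat.cast_zero, neg_zero, zpow_zero, Units.val_one, one_smul, add_zero, sub_self]
    exact zero_mem _
  | succ n ih =>
    intro hn k
    have e0 : (L.t : S) • (((L.t ^ (-((n + 1 : ℕ) : ℤ)) : Sˣ) : S) • m) =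
        ((L.t ^ (-(n : ℤ)) : Sˣ) : S) • m := by
      rw [smul_smul, ← Units.val_mul, ← _root_.zpow_one_add]
      congr 3
      push_cast
      ring
    have h1 := W_step (L := L) (N := N) (k - 1) (((L.t ^ (-((n + 1 : ℕ) : ℤ)) : Sˣ) : S) • m)
      (h _ (by rw [abs_neg, abs_of_nonneg (by positivity)]; exact_mod_cast hn)) (by
        rw [e0]
        apply h
        rw [abs_neg, abs_of_nonneg (by positivity)]
        exact_mod_cast (by omega : n ≤ w))
    have h2 := ih (by omega) (k - 1)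
    have h3 := add_mem (neg_mem h1) h2
    rw [e0, neg_sub, sub_add_cancel, sub_add_sub_cancel] at h3
    have e2 : k - 1 + -(n : ℤ) = k + -((n + 1 : ℕ) : ℤ) := by push_cast; ring
    rwa [e2] at h3

theorem W_all {L : Lau S0} {N : Submodule S0 M} (m : M) (w : ℕ)
    (h : ∀ j : ℤ, |j| ≤ w → ((L.t ^ j : Sˣ) : S) • m ∈ N) (j : ℤ) (hj : |j| ≤ w) (k : ℤ) :
    (Pi.single k (((L.t ^ j : Sˣ) : S) • m) - Pi.single (k + j) m : ℤ → M) ∈ W L N := by
  rcases Int.eq_nat_or_neg j with ⟨n, hn | hn⟩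
  · subst hn
    apply W_up m w h
    rw [abs_of_nonneg (by positivity)] at hj
    exact_mod_cast hj
  · subst hn
    apply W_down m w h
    rw [abs_neg, abs_of_nonneg (by positivity)] at hj
    exact_mod_cast hj

/-- The family `∑_i x_(i,k) p_i`. -/
noncomputable def nx (L : Lau S0) {I : Type} [Fintype I] (p : I → M) (x : I → S) : ℤ → M :=
  fun k => ∑ i, L.co (x i) k • p i

section nx

variable (L : Lau S0) {I : Type} [Fintype I] (p : I → M)

theorem nx_zero : nx L p 0 = 0 := by
  funext k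
  refine Finset.sum_eq_zero fun i _ => ?_
  rw [Pi.zero_apply, LAUM.co_zero, Finsupp.coe_zero, Pi.zero_apply, zero_smul]

theorem nx_add (x y : I → S) : nx L p (x + y) = nx L p x + nx L p y := by
  funext k
  change ∑ i, L.co (x i + y i) k • p i = ∑ i, L.co (x i) k • p i + ∑ i, L.co (y i) k • p i
  rw [← Finset.sum_add_distrib]
  refine Finset.sum_congr rfl fun i _ => ?_
  rw [LAUM.co_add, Finsupp.add_apply, add_smul]

theorem nx_smul (a : S0) (x : I → S) :
    nx L p ((a : S) • x) = fun k => cj L (-k) a • nx L p x k := by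
  funext k
  change ∑ i, L.co ((a : S) * x i) k • p i = cj L (-k) a • ∑ i, L.co (x i) k • p i
  rw [Finset.smul_sum]
  refine Finset.sum_congr rfl fun i _ => ?_
  rw [co_mul_left, mul_smul]

theorem nx_zpow (j : ℤ) (x : I → S) :
    nx L p (((L.t ^ j : Sˣ) : S) • x) = fun k => nx L p x (k - j) := by
  funext k
  change ∑ i, L.co (((L.t ^ j : Sˣ) : S) * x i) k • p i = ∑ i, L.co (x i) (k - j) • p i
  refine Finset.sum_congr rfl fun i _ => ?_
  rw [co_zpow_mul]

theorem nx_fin (x : I → S) : (Function.support (nx L p x)).Finite := by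
  refine Set.Finite.subset (Set.finite_iUnion fun i : I => (L.co (x i)).support.finite_toSet) ?_
  intro k hk
  by_contra hcon
  apply hk
  refine Finset.sum_eq_zero fun i _ => ?_
  have : L.co (x i) k = 0 := by
    by_contra h0
    exact hcon (Set.mem_iUnion.mpr ⟨i, Finset.mem_coe.mpr (Finsupp.mem_support_iff.mpr h0)⟩)
  rw [this, zero_smul]

theorem sum_nx (x : I → S) (F : Finset ℤ) (hF : ∀ i k, L.co (x i) k ≠ 0 → k ∈ F) :
    ∑ k ∈ F, ((L.t ^ k : Sˣ) : S) • nx L p x k = ∑ i, x i • p i := by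
  have h1 : ∀ i, x i • p i = ∑ k ∈ F, ((L.t ^ k : Sˣ) : S) • (L.co (x i) k • p i) := by
    intro i
    conv_lhs => rw [LAUM.eq_sum L (x i) F (hF i)]
    rw [Finset.sum_smul]
    refine Finset.sum_congr rfl fun k _ => ?_
    rw [mul_smul, Subring.smul_def]
  rw [Finset.sum_congr rfl fun i _ => h1 i, Finset.sum_comm]
  refine Finset.sum_congr rfl fun k _ => ?_
  rw [nx, Finset.smul_sum]

theorem sig_nx (x : I → S) : sig L (nx L p x) = ∑ i, x i • p i := by
  classical
  let F : Finset ℤ := Finset.univ.biUnion fun i : I => (L.co (x i)).support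
  have hF : ∀ i k, L.co (x i) k ≠ 0 → k ∈ F := by
    intro i k h
    exact Finset.mem_biUnion.mpr ⟨i, Finset.mem_univ i, Finsupp.mem_support_iff.mpr h⟩
  rw [← sum_nx L p x F hF, sig]
  apply finsum_eq_sum_of_support_subset
  intro k hk
  by_contra hcon
  apply hk
  have h0 : nx L p x k = 0 := by
    refine Finset.sum_eq_zero fun i _ => ?_
    have : L.co (x i) k = 0 := by
      by_contra h0
      exact hcon (Finset.mem_coe.mpr (hF i k h0))
    rw [this, zero_smul]
  change ((L.t ^ k : Sˣ) : S) • nx L p x k = 0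
  rw [h0, smul_zero]

theorem nx_single [DecidableEq I] (i : I) (k : ℤ) :
    nx L p (Pi.single i ((L.t ^ k : Sˣ) : S)) = Pi.single k (p i) := by
  funext j
  change ∑ i', L.co ((Pi.single i ((L.t ^ k : Sˣ) : S) : I → S) i') j • p i' = _
  rw [Finset.sum_eq_single i]
  · have h := LAUM.co_single L k 1
    rw [Subring.coe_one, mul_one] at h
    rw [Pi.single_eq_same, h, Finsupp.single_apply]
    by_cases hj : k = j
    · rw [if_pos hj, one_smul, hj, Pi.single_eq_same]
    · rw [if_neg hj, zero_smul, Pi.single_eq_of_ne (Ne.symm hj)]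
  · intro i' _ hi'
    rw [Pi.single_eq_of_ne hi', LAUM.co_zero, Finsupp.coe_zero, Pi.zero_apply, zero_smul]
  · intro h
    exact absurd (Finset.mem_univ i) h

end nx

theorem core (L : Lau S0) (hS : IsNoetherianRing S) {I : Type} [Fintype I] (p : I → M) :
    ∃ N : Submodule S0 M, N.FG ∧ (∀ i, p i ∈ N) ∧ L.PX N := by
  classical
  -- the relations
  let φ : (I → S) →ₗ[S] M := Fintype.linearCombination S p
  have hφ : ∀ x, φ x = ∑ i, x i • p i := fun x => Fintype.linearCombination_apply S p x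
  obtain ⟨T, hT⟩ := (inferInstance : IsNoetherian S (I → S)).noetherian (LinearMap.ker φ)
  -- the bound
  let F : Finset ℤ := T.biUnion fun κ => Finset.univ.biUnion fun i : I => (L.co (κ i)).support
  obtain ⟨w, hw⟩ : ∃ w : ℕ, ∀ k ∈ F, |k| ≤ w := by
    refine ⟨F.sup fun k => k.natAbs, fun k hk => ?_⟩
    rw [Int.abs_eq_natAbs]
    exact_mod_cast Finset.le_sup (f := fun k : ℤ => k.natAbs) hk
  have hF : ∀ κ ∈ T, ∀ i k, L.co (κ i) k ≠ 0 → k ∈ Finset.Icc (-(w : ℤ)) w := by
    intro κ hκ i k h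
    have h1 : k ∈ F := Finset.mem_biUnion.mpr ⟨κ, hκ, Finset.mem_biUnion.mpr
      ⟨i, Finset.mem_univ i, Finsupp.mem_support_iff.mpr h⟩⟩
    have h2 := abs_le.mp (hw k h1)
    exact Finset.mem_Icc.mpr h2
  -- the module
  let G : Finset M := (Finset.Icc (-(w : ℤ)) w ×ˢ (Finset.univ : Finset I)).image
    fun q => ((L.t ^ q.1 : Sˣ) : S) • p q.2
  let N : Submodule S0 M := Submodule.span S0 (G : Set M)
  have hG : ∀ j : ℤ, |j| ≤ w → ∀ i, ((L.t ^ j : Sˣ) : S) • p i ∈ N := by
    intro j hj i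
    apply Submodule.subset_span
    rw [Finset.mem_coe, Finset.mem_image]
    exact ⟨(j, i), Finset.mem_product.mpr ⟨Finset.mem_Icc.mpr (abs_le.mp hj), Finset.mem_univ i⟩,
      rfl⟩
  have hG2 : ∀ (a : I → S0) (j : ℤ), |j| ≤ w → ((L.t ^ j : Sˣ) : S) • ∑ i, a i • p i ∈ N := by
    intro a j hj
    rw [Finset.smul_sum]
    refine N.sum_mem fun i _ => ?_
    have : ((L.t ^ j : Sˣ) : S) • (a i • p i) = cj L j (a i) • (((L.t ^ j : Sˣ) : S) • p i) := by
      rw [Subring.smul_def, Subring.smul_def, smul_smul, smul_smul, cj_mul]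
    rw [this]
    exact N.smul_mem _ (hG j hj i)
  refine ⟨N, ⟨G, rfl⟩, ?_, ?_⟩
  · intro i
    have := hG 0 (by simp) i
    simpa using this
  -- Claim B
  have hB : ∀ x : I → S, φ x = 0 → nx L p x ∈ W L N := by
    intro x hx
    have hx2 : x ∈ Submodule.span S (T : Set (I → S)) := by
      rw [hT]; exact hx
    induction hx2 using Submodule.span_induction with
    | mem κ hκ =>
      have h1 : nx L p κ = ∑ k ∈ Finset.Icc (-(w : ℤ)) w, Pi.single k (nx L p κ k) := by
        funext j
        rw [Finset.sum_apply]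
        by_cases hj : j ∈ Finset.Icc (-(w : ℤ)) w
        · rw [Finset.sum_eq_single j, Pi.single_eq_same]
          · intro k _ hk
            rw [Pi.single_eq_of_ne (Ne.symm hk)]
          · intro h; exact absurd hj h
        · rw [Finset.sum_eq_zero]
          · refine Finset.sum_eq_zero fun i _ => ?_
            have : L.co (κ i) j = 0 := by
              by_contra h0
              exact hj (hF κ hκ i j h0)
            rw [this, zero_smul]
          · intro k hk
            rw [Pi.single_eq_of_ne]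
            rintro rfl
            exact hj hk
      have h2 : (∑ k ∈ Finset.Icc (-(w : ℤ)) w,
          (Pi.single 0 (((L.t ^ k : Sˣ) : S) • nx L p κ k) - Pi.single (0 + k) (nx L p κ k) :
            ℤ → M)) ∈ W L N := by
        refine sum_mem fun k hk => ?_
        refine W_all (nx L p κ k) w (fun j hj => hG2 _ j hj) k ?_ 0
        exact abs_le.mpr (Finset.mem_Icc.mp hk)
      rw [Finset.sum_sub_distrib] at h2
      simp only [zero_add] at h2
      rw [← h1] at h2
      have h3 : (∑ k ∈ Finset.Icc (-(w : ℤ)) w,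
          (Pi.single 0 (((L.t ^ k : Sˣ) : S) • nx L p κ k) : ℤ → M)) = 0 := by
        have h4 : ∑ k ∈ Finset.Icc (-(w : ℤ)) w, ((L.t ^ k : Sˣ) : S) • nx L p κ k = 0 := by
          rw [sum_nx L p κ _ (hF κ hκ), ← hφ]
          exact hx
        funext j
        rw [Finset.sum_apply]
        by_cases hj : j = 0
        · subst hj
          simp only [Pi.single_eq_same]
          exact h4
        · refine Finset.sum_eq_zero fun k _ => ?_
          rw [Pi.single_eq_of_ne hj]
      rw [h3, zero_sub] at h2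
      simpa using neg_mem h2
    | zero => rw [nx_zero]; exact zero_mem _
    | add x y hx' hy' ihx ihy =>
      have e1 : x ∈ LinearMap.ker φ := by rw [← hT]; exact hx'
      have e2 : y ∈ LinearMap.ker φ := by rw [← hT]; exact hy'
      rw [nx_add]
      exact add_mem (ihx e1) (ihy e2)
    | smul s x hx' ih =>
      have e1 : x ∈ LinearMap.ker φ := by rw [← hT]; exact hx'
      have e2 := ih e1
      refine LAUM.ind L (fun s => nx L p (s • x) ∈ W L N) ?_ ?_ ?_ s
      · rw [zero_smul, nx_zero]; exact zero_mem _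
      · intro s s' h h'
        rw [add_smul, nx_add]
        exact add_mem h h'
      · intro k a
        rw [mul_smul, nx_zpow]
        apply W_shift (n := nx L p ((a : S) • x))
        rw [nx_smul]
        exact W_tw e2 a
  -- Claim A
  have hA : ∀ m ∈ N, ∀ k : ℤ, ∃ x : I → S, Pi.single k m - nx L p x ∈ W L N := by
    intro m hm
    induction hm using Submodule.span_induction with
    | mem m hm =>
      intro k
      rw [Finset.mem_coe, Finset.mem_image] at hm
      obtain ⟨⟨j, i⟩, hq, rfl⟩ := hm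
      have hj : |j| ≤ w := abs_le.mpr (Finset.mem_Icc.mp (Finset.mem_product.mp hq).1)
      refine ⟨Pi.single i ((L.t ^ (k + j) : Sˣ) : S), ?_⟩
      rw [nx_single]
      exact W_all (p i) w (fun j hj => hG j hj i) j hj k
    | zero =>
      intro k
      refine ⟨0, ?_⟩
      rw [nx_zero, Pi.single_zero, sub_zero]
      exact zero_mem _
    | add m m' _ _ ih ih' =>
      intro k
      obtain ⟨x, hx⟩ := ih k
      obtain ⟨x', hx'⟩ := ih' k
      refine ⟨x + x', ?_⟩
      rw [nx_add, Pi.single_add, add_sub_add_comm]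
      exact add_mem hx hx'
    | smul a m _ ih =>
      intro k
      obtain ⟨x, hx⟩ := ih k
      refine ⟨((cj L k a : S0) : S) • x, ?_⟩
      have h1 := W_tw hx (cj L k a)
      rw [nx_smul]
      convert h1 using 1
      funext j
      rw [Pi.sub_apply, Pi.sub_apply, smul_sub]
      congr 1
      by_cases hj : j = k
      · rw [hj, Pi.single_eq_same, Pi.single_eq_same, cj_cj]
      · rw [Pi.single_eq_of_ne hj, Pi.single_eq_of_ne hj, smul_zero]
  -- the property
  intro n hn hsum
  have hA2 : ∀ E : Finset ℤ, ∃ x : I → S, (∑ k ∈ E, Pi.single k (n k)) - nx L p x ∈ W L N := by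
    intro E
    induction E using Finset.induction_on with
    | empty =>
      refine ⟨0, ?_⟩
      rw [nx_zero, Finset.sum_empty, sub_zero]
      exact zero_mem _
    | insert k E hk ih =>
      obtain ⟨x, hx⟩ := ih
      obtain ⟨y, hy⟩ := hA (n k) (hn k) k
      refine ⟨y + x, ?_⟩
      rw [nx_add, Finset.sum_insert hk, add_sub_add_comm]
      exact add_mem hy hx
  obtain ⟨x, hx⟩ := hA2 n.support
  have hn2 : (∑ k ∈ n.support, Pi.single k (n k) : ℤ → M) = n := by
    funext j
    rw [Finset.sum_apply]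
    by_cases hj : j ∈ n.support
    · rw [Finset.sum_eq_single j, Pi.single_eq_same]
      · intro k _ hk
        rw [Pi.single_eq_of_ne (Ne.symm hk)]
      · intro h; exact absurd hj h
    · rw [Finset.sum_eq_zero]
      · exact (Finsupp.notMem_support_iff.mp hj).symm
      · intro k hk
        rw [Pi.single_eq_of_ne]
        rintro rfl
        exact hj hk
  rw [hn2] at hx
  have hnf : (Function.support (n : ℤ → M)).Finite := by
    rw [Finsupp.fun_support_eq]
    exact n.support.finite_toSet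
  have hs1 := sig_W hx
  rw [sig_sub L hnf (nx_fin L p x)] at hs1
  have hs2 : sig L (n : ℤ → M) = 0 := by
    rw [← hsum, sig, Finsupp.sum]
    apply finsum_eq_sum_of_support_subset
    intro k hk
    rw [Finset.mem_coe, Finsupp.mem_support_iff]
    intro h0
    apply hk
    change ((L.t ^ k : Sˣ) : S) • n k = 0
    rw [h0, smul_zero]
  rw [hs2, zero_sub, neg_eq_zero, sig_nx] at hs1
  have hfin := add_mem hx (hB x (by rw [hφ]; exact hs1))
  rw [sub_add_cancel] at hfin
  obtain ⟨n', h1, h2, h3⟩ := mem_W.mp hfin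
  refine ⟨Finsupp.onFinset h1.toFinset n' ?_, ?_, ?_⟩
  · intro k hk
    rw [Set.Finite.mem_toFinset]
    exact hk
  · intro k
    exact h2 k
  · intro k
    exact h3 k

end EXNM

open EXNM in
theorem specEXN (_hLAU : SpecLAU) : SpecEXN := by
  classical
  intro S _ _ S0 _ L hS M _ _ hM Y hY
  obtain ⟨G, hG⟩ := hM.fg_top
  obtain ⟨Q, hQ⟩ := hY
  obtain ⟨N, h1, h2, h3⟩ := core L hS (fun g : {g // g ∈ G ∪ Q} => (g : M))
  refine ⟨N, h1, ?_, ?_, h3⟩
  · rw [← hQ, Submodule.span_le]
    intro y hy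
    exact h2 ⟨y, Finset.mem_union_right _ hy⟩
  · rw [Gen, eq_top_iff, ← hG]
    apply Submodule.span_mono
    intro g hg
    exact h2 ⟨g, Finset.mem_union_left _ hg⟩

end Pool.Agent.Lib.MP8a3537.AUL
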