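import Pool.Agent.Lib.MP_8a3537_gt.AUL.Spec

namespace Pool.Agent.Lib.MP8a3537.AUL

theorem specFNS (hEXN : SpecEXN) (hMAK : SpecMAK) (hPHC : SpecPHC) (hCHR : SpecCHR) :
    SpecFNS := by
  intro S _ _ S0 _ L d hN0 hN hF M _ _ hfin
  obtain ⟨N, hNfg, -, hgen, hpx⟩ := hEXN S S0 L hN M hfin ⊥ Submodule.fg_bot
  have hfN : Module.Finite S0 N := Module.Finite.iff_fg.2 hNfg
  have hle : L.pr N ≤ N := inf_le_left
  have hfP : Module.Finite S0 (L.pr N) := Module.Finite.iff_fg.2 (Submodule.FG.of_le hNfg hle)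
  obtain ⟨C, ⟨r⟩, hCd⟩ := hF N hfN
  obtain ⟨D, ⟨s⟩, hDd⟩ := hF (L.pr N) hfP
  obtain ⟨u, w, hd⟩ := hMAK S S0 L M N C D r s
  have hP := hPHC S S0 L C D u w hd.hu hd.hw
  refine ⟨cone (bc C) (bc D) (L.phi u w) hP, hCHR S S0 L M N hgen hpx C D r s u w hd hP, ?_⟩
  rintro (i | i)
  · have h : -(d : ℤ) ≤ C.deg i := hCd i
    change -((d + 1 : ℕ) : ℤ) ≤ C.deg i
    push_cast
    omega
  · have h : -(d : ℤ) ≤ D.deg i := hDd i
    change -((d + 1 : ℕ) : ℤ) ≤ D.deg i - 1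
    push_cast
    omega

end Pool.Agent.Lib.MP8a3537.AUL
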