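import Pool.Agent.Lib.MP_8a3537_gt.AUL.Spec
import Pool.Agent.Lib.MP_8a3537_gt.UV.RES

/-! # AUL, module GRP: group rings are Laurent extensions -/

namespace Pool.Agent.Lib.MP8a3537.AUL

open Matrix

namespace GRPM

open UV

variable {R H : Type} [Ring R] [Group H]

theorem star_emb [StarRing R] (N : Subgroup H) (x : MonoidAlgebra R N) :
    star (emb R N x) = emb R N (star x) := by
  induction x using MonoidAlgebra.induction_linear with
  | zero => simp
  | add x y hx hy => rw [map_add, star_add, hx, hy, star_add, map_add]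
  | single h r =>
    rw [RESAux.emb_single, star_single, star_single, RESAux.emb_single]
    rfl

theorem emb_mem (N : Subgroup H) (x : MonoidAlgebra R N) : emb R N x ∈ gsub R N := ⟨x, rfl⟩

theorem single_mem (N : Subgroup H) (n : H) (hn : n ∈ N) (r : R) :
    (MonoidAlgebra.single n r : MonoidAlgebra R H) ∈ gsub R N :=
  ⟨MonoidAlgebra.single ⟨n, hn⟩ r, RESAux.emb_single N _ _⟩

theorem coeff_not_mem (N : Subgroup H) (a : MonoidAlgebra R H) (ha : a ∈ gsub R N) (g : H)
    (hg : g ∉ N) : a.coeff g = 0 := by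
  obtain ⟨x, rfl⟩ := ha
  exact RESAux.emb_coeff_not_mem N x g hg

/-- The unit. -/
noncomputable def un (R : Type) {H : Type} [Ring R] [Group H] (t : H) : (MonoidAlgebra R H)ˣ :=
  Units.map (MonoidAlgebra.of R H) (toUnits t)

theorem un_zpow (t : H) (k : ℤ) :
    (((un R t) ^ k : (MonoidAlgebra R H)ˣ) : MonoidAlgebra R H) = MonoidAlgebra.single (t ^ k) 1 := by
  rw [un, ← map_zpow, ← map_zpow, Units.coe_map]
  rfl

theorem un_val (t : H) : ((un R t : (MonoidAlgebra R H)ˣ) : MonoidAlgebra R H) =
    MonoidAlgebra.single t 1 := rfl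

theorem un_inv (t : H) : (((un R t)⁻¹ : (MonoidAlgebra R H)ˣ) : MonoidAlgebra R H) =
    MonoidAlgebra.single t⁻¹ 1 := by
  have h := un_zpow (R := R) t (-1)
  rwa [_root_.zpow_neg_one, _root_.zpow_neg_one] at h

theorem conj_in (N : Subgroup H) (hN : N.Normal) (t : H) (a : MonoidAlgebra R H)
    (ha : a ∈ gsub R N) :
    (MonoidAlgebra.single t 1 * a * MonoidAlgebra.single t⁻¹ 1 : MonoidAlgebra R H) ∈
      gsub R N := by
  obtain ⟨x, rfl⟩ := ha
  induction x using MonoidAlgebra.induction_linear with
  | zero => rw [map_zero, mul_zero, zero_mul]; exact zero_mem _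
  | add x y hx hy => rw [map_add, mul_add, add_mul]; exact add_mem hx hy
  | single h r =>
    rw [RESAux.emb_single, MonoidAlgebra.single_mul_single, MonoidAlgebra.single_mul_single,
      one_mul, mul_one]
    exact single_mem N _ (hN.conj_mem _ h.2 t) r

theorem coeff_sum (N : Subgroup H) (t : H) (ht : ∀ k : ℤ, t ^ k ∈ N → k = 0)
    (f : ℤ →₀ gsub R N) (k : ℤ) (n : H) (hn : n ∈ N) :
    (f.sum fun k a => (((un R t) ^ k : (MonoidAlgebra R H)ˣ) : MonoidAlgebra R H) *
      (a : MonoidAlgebra R H)).coeff (t ^ k * n) = (f k : MonoidAlgebra R H).coeff n := by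
  classical
  rw [Finsupp.sum, MonoidAlgebra.coeff_sum, Finsupp.finsetSum_apply]
  have h1 : ∀ j : ℤ, ((((un R t) ^ j : (MonoidAlgebra R H)ˣ) : MonoidAlgebra R H) *
      (f j : MonoidAlgebra R H)).coeff (t ^ k * n) =
      if j = k then (f k : MonoidAlgebra R H).coeff n else 0 := by
    intro j
    rw [un_zpow, MonoidAlgebra.coeff_single_mul_apply, one_mul]
    by_cases hj : j = k
    · rw [if_pos hj, hj, ← mul_assoc, inv_mul_cancel, one_mul]
    · rw [if_neg hj]
      apply coeff_not_mem N _ (f j).2
      intro hmem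
      rw [← mul_assoc, N.mul_mem_cancel_right hn, ← _root_.zpow_neg, ← _root_.zpow_add] at hmem
      have := ht _ hmem
      omega
  rw [Finset.sum_congr rfl fun j _ => h1 j, Finset.sum_ite_eq']
  split_ifs with h
  · rfl
  · rw [Finsupp.notMem_support_iff.mp h]
    simp

end GRPM

open GRPM UV in
theorem specGRP : SpecGRP := by
  classical
  intro R H _ _ _ N t hext
  obtain ⟨hN, h1, h2⟩ := hext
  have hss : StarSub (gsub R N) := ⟨by
    rintro a ⟨x, rfl⟩
    exact ⟨star x, (star_emb N x).symm⟩⟩
  refine ⟨hss, ⟨?_⟩, ?_⟩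
  · refine
      { t := un R t
        star_t := ?_
        conj_mem := ?_
        conj_mem' := ?_
        bij := ⟨?_, ?_⟩ }
    · rw [un_val, un_inv, star_single, star_one]
    · intro a ha
      rw [un_val, un_inv]
      exact conj_in N hN t a ha
    · intro a ha
      rw [un_val, un_inv]
      have := conj_in N hN t⁻¹ a ha
      rwa [inv_inv] at this
    · intro f g hfg
      ext1 k
      apply Subtype.ext
      ext n
      by_cases hn : n ∈ N
      · rw [← coeff_sum N t h2 f k n hn, ← coeff_sum N t h2 g k n hn]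
        exact congrArg (fun z : MonoidAlgebra R H => z.coeff (t ^ k * n)) hfg
      · rw [coeff_not_mem N _ (f k).2 n hn, coeff_not_mem N _ (g k).2 n hn]
    · intro x
      induction x using MonoidAlgebra.induction_linear with
      | zero => exact ⟨0, Finsupp.sum_zero_index⟩
      | add x y hx hy =>
        obtain ⟨f, hf⟩ := hx
        obtain ⟨g, hg⟩ := hy
        refine ⟨f + g, ?_⟩
        rw [← hf, ← hg]
        exact Finsupp.sum_add_index' (fun k => by simp) (fun k a b => by simp [mul_add])
      | single h r =>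
        obtain ⟨k, hk⟩ := h1 h
        refine ⟨Finsupp.single k ⟨MonoidAlgebra.single (t ^ (-k) * h) r,
          single_mem N _ hk r⟩, ?_⟩
        change (Finsupp.single k _).sum _ = _
        rw [Finsupp.sum_single_index (by simp), un_zpow, MonoidAlgebra.single_mul_single,
          one_mul, ← mul_assoc, ← _root_.zpow_add, add_neg_cancel, zpow_zero, one_mul]
  · refine ⟨RingEquiv.ofBijective (emb R N).rangeRestrict ⟨?_, ?_⟩, ?_⟩
    · intro x y hxy
      have h3 : emb R N x = emb R N y := congrArg Subtype.val hxy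
      ext n
      rw [← RESAux.emb_coeff_mem N x n, ← RESAux.emb_coeff_mem N y n, h3]
    · exact RingHom.rangeRestrict_surjective _
    · intro a
      apply Subtype.ext
      exact (star_emb N a).symm

end Pool.Agent.Lib.MP8a3537.AUL
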