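import Pool.Agent.Lib.MP_8a3537_gt.AUL.Spec

/-!
# Module HTP: a chain map which induces zero is null-homotopic (helper33)
-/

namespace Pool.Agent.Lib.MP8a3537.AUL

open Matrix

namespace HTPM

variable {A : Type} [Ring A]

/-- A row `v` of degree `q` which is a boundary is the boundary of a row of degree `q - 1`. -/
theorem part_bd (D : FC A) (q : ℤ) (v y : D.I → A) (hv : InDeg D.deg q v) (h : v = y ᵥ* D.e) :
    v = part D.deg (q - 1) y ᵥ* D.e := by
  funext j
  by_cases hj : D.deg j = q
  · rw [h]
    change ∑ k, y k * D.e k j = ∑ k, (if D.deg k = q - 1 then y k else 0) * D.e k j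
    refine Finset.sum_congr rfl fun k _ => ?_
    by_cases h0 : D.e k j = 0
    · rw [h0, mul_zero, mul_zero]
    · have := D.he k j h0
      rw [if_pos (by omega)]
  · rw [hv j hj]
    change 0 = ∑ k, (if D.deg k = q - 1 then y k else 0) * D.e k j
    symm
    refine Finset.sum_eq_zero fun k _ => ?_
    by_cases h0 : D.e k j = 0
    · rw [h0, mul_zero]
    · have := D.he k j h0
      rw [if_neg (by omega), zero_mul]

theorem step (C D : FC A) {Y : Type} [AddCommGroup Y] [Module A Y] (s : Res D Y)
    (u : Matrix C.I D.I A) (hu : IsChain C D u) (hC : ∀ i, C.deg i ≤ 0)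
    (hpi : ∀ x, s.pi (x ᵥ* u) = 0) (n : ℕ) :
    ∃ h : Matrix C.I D.I A, (∀ i j, h i j ≠ 0 → D.deg j = C.deg i - 1) ∧
      ∀ i, -(n : ℤ) < C.deg i → ∀ j, u i j = (C.e * h + h * D.e) i j := by
  classical
  induction n with
  | zero =>
    refine ⟨0, fun i j h => absurd rfl h, fun i hi => ?_⟩
    have := hC i
    push_cast at hi
    omega
  | succ n ih =>
    obtain ⟨h, hd, hh⟩ := ih
    -- the row to be killed
    have key : ∀ i, ∃ y : D.I → A, C.deg i = -(n : ℤ) →
        (∀ j, y j ≠ 0 → D.deg j = C.deg i - 1) ∧ ∀ j, u i j - (C.e * h) i j = (y ᵥ* D.e) j := by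
      intro i
      by_cases hi : C.deg i = -(n : ℤ)
      swap
      · exact ⟨0, fun h => absurd h hi⟩
      set v : D.I → A := fun j => u i j - (C.e * h) i j with hv
      have hvdeg : InDeg D.deg (C.deg i) v := by
        intro j hj
        have h1 : u i j = 0 := by
          by_contra h0
          exact hj (hu.deg i j h0)
        have h2 : (C.e * h) i j = 0 := by
          rw [mul_apply]
          refine Finset.sum_eq_zero fun k _ => ?_
          by_contra h0
          have h3 : C.e i k ≠ 0 := fun h => h0 (by rw [h, zero_mul])
          have h4 : h k j ≠ 0 := fun h => h0 (by rw [h, mul_zero])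
          have := C.he i k h3
          have := hd k j h4
          omega
        simp only [hv]
        rw [h1, h2, sub_zero]
      have hvcy : v ᵥ* D.e = 0 := by
        have h1 : ∀ j, (C.e * (h * D.e)) i j = (C.e * u) i j := by
          intro j
          have h2 : (C.e * (h * D.e)) i j = (C.e * (u - C.e * h)) i j := by
            rw [mul_apply, mul_apply]
            refine Finset.sum_congr rfl fun k _ => ?_
            by_cases h0 : C.e i k = 0
            · rw [h0, zero_mul, zero_mul]
            · have h3 := C.he i k h0
              have h4 := hh k (by omega) j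
              rw [Matrix.sub_apply, h4, Matrix.add_apply, add_sub_cancel_left]
          rw [h2, Matrix.mul_sub, ← Matrix.mul_assoc, C.e_mul_e, Matrix.zero_mul, sub_zero]
        funext j
        have h5 : (v ᵥ* D.e) j = (u * D.e) i j - (C.e * h * D.e) i j := by
          change ∑ k, v k * D.e k j = _
          rw [mul_apply, mul_apply, ← Finset.sum_sub_distrib]
          refine Finset.sum_congr rfl fun k _ => ?_
          simp only [hv]
          rw [sub_mul]
        rw [h5, Matrix.mul_assoc, h1, hu.comm, sub_self, Pi.zero_apply]
      have hex : ∃ y : D.I → A, v = y ᵥ* D.e := by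
        rcases lt_or_eq_of_le (hC i) with hlt | heq
        · exact s.isRes.2 (C.deg i) hlt v hvdeg hvcy
        · rw [heq] at hvdeg
          refine s.ker v hvdeg ?_
          have h6 : v = Pi.single i 1 ᵥ* u := by
            funext j
            rw [single_one_vecMul]
            simp only [hv]
            have : (C.e * h) i j = 0 := by
              rw [mul_apply]
              refine Finset.sum_eq_zero fun k _ => ?_
              by_contra h0
              have h3 : C.e i k ≠ 0 := fun h => h0 (by rw [h, zero_mul])
              have := C.he i k h3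
              have := hC k
              omega
            rw [this, sub_zero]
            rfl
          rw [h6]
          exact hpi _
      obtain ⟨y, hy⟩ := hex
      have hy' := part_bd D (C.deg i) v y hvdeg hy
      refine ⟨part D.deg (C.deg i - 1) y, fun _ => ⟨fun j hj => ?_, fun j => ?_⟩⟩
      · by_contra h0
        exact hj (by simp only [part]; rw [if_neg h0])
      · exact congrFun hy' j
    choose y hy using key
    obtain ⟨h', hh'⟩ : ∃ h' : Matrix C.I D.I A,
        ∀ i j, h' i j = if C.deg i = -(n : ℤ) then y i j else h i j :=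
      ⟨Matrix.of fun i j => if C.deg i = -(n : ℤ) then y i j else h i j, fun _ _ => rfl⟩
    have hC' : ∀ i, -((n + 1 : ℕ) : ℤ) < C.deg i → ∀ j, (C.e * h') i j = (C.e * h) i j := by
      intro i hi j
      rw [mul_apply, mul_apply]
      refine Finset.sum_congr rfl fun k _ => ?_
      by_cases h0 : C.e i k = 0
      · rw [h0, zero_mul, zero_mul]
      · have h3 := C.he i k h0
        push_cast at hi
        rw [hh', if_neg (by omega)]
    refine ⟨h', ?_, ?_⟩
    · intro i j hij
      rw [hh'] at hij
      by_cases hi : C.deg i = -(n : ℤ)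
      · rw [if_pos hi] at hij
        exact (hy i hi).1 j hij
      · rw [if_neg hi] at hij
        exact hd i j hij
    · intro i hi j
      rw [Matrix.add_apply, hC' i hi j]
      by_cases hi' : C.deg i = -(n : ℤ)
      · have h1 := (hy i hi').2 j
        have h2 : (h' * D.e) i j = (y i ᵥ* D.e) j := by
          rw [mul_apply]
          change _ = ∑ k, y i k * D.e k j
          refine Finset.sum_congr rfl fun k _ => ?_
          rw [hh', if_pos hi']
        rw [h2, ← h1]
        abel
      · have h1 := hh i (by push_cast at hi; omega) j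
        have h2 : (h' * D.e) i j = (h * D.e) i j := by
          rw [mul_apply, mul_apply]
          refine Finset.sum_congr rfl fun k _ => ?_
          rw [hh', if_neg hi']
        rw [h2, h1, Matrix.add_apply]

end HTPM

theorem specHTP : SpecHTP := by
  intro A _ C D Y _ _ s u hu hC hpi
  obtain ⟨N, hN⟩ : ∃ N : ℕ, ∀ i, (C.deg i).natAbs ≤ N :=
    ⟨∑ i, (C.deg i).natAbs, fun i =>
      Finset.single_le_sum (f := fun i => (C.deg i).natAbs) (fun _ _ => Nat.zero_le _)
        (Finset.mem_univ i)⟩
  obtain ⟨h, hd, hh⟩ := HTPM.step C D s u hu hC hpi (N + 1)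
  refine ⟨h, hd, ?_⟩
  ext i j
  refine hh i ?_ j
  have h1 := hN i
  push_cast
  omega

end Pool.Agent.Lib.MP8a3537.AUL
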