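import Pool.Agent.Lib.MP_8a3537_gt.AUL.Spec

/-!
# IND: two resolutions of the same module have the same dual cohomology
-/

set_option autoImplicit false

namespace Pool.Agent.Lib.MP8a3537.AUL

open Matrix

namespace INDM

/-- The lift of the identity composed with the lift back is homotopic to the identity. -/
theorem homotopy (hHTP : SpecHTP) {A : Type} [Ring A] {C D : FC A} {X : Type} [AddCommGroup X]
    [Module A X] (r : Res C X) (s : Res D X) {u : Matrix C.I D.I A} {v : Matrix D.I C.I A}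
    (hu : IsChain C D u) (hv : IsChain D C v) (hpu : ∀ x, s.pi (x ᵥ* u) = r.pi x)
    (hpv : ∀ x, r.pi (x ᵥ* v) = s.pi x) :
    ∃ h : Matrix D.I D.I A, v * u = 1 + (D.e * h + h * D.e) := by
  have hw : IsChain D D (v * u - 1) := by
    refine ⟨?_, ?_⟩
    · intro i j hij
      by_cases hd : i = j
      · rw [hd]
      · have h1 : (v * u) i j ≠ 0 := by
          intro h0
          apply hij
          rw [Matrix.sub_apply, h0, Matrix.one_apply_ne hd, sub_zero]
        rw [Matrix.mul_apply] at h1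
        obtain ⟨k, _, hk⟩ := Finset.exists_ne_zero_of_sum_ne_zero h1
        have h2 : v i k ≠ 0 := left_ne_zero_of_mul hk
        have h3 : u k j ≠ 0 := right_ne_zero_of_mul hk
        rw [hu.deg k j h3, hv.deg i k h2]
    · rw [Matrix.mul_sub, Matrix.sub_mul, Matrix.mul_one, Matrix.one_mul, ← Matrix.mul_assoc,
        hv.comm, Matrix.mul_assoc, hu.comm, Matrix.mul_assoc]
  have hz : ∀ x, s.pi (x ᵥ* (v * u - 1)) = 0 := by
    intro x
    rw [Matrix.vecMul_sub, Matrix.vecMul_one, map_sub, ← Matrix.vecMul_vecMul, hpu, hpv, sub_self]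
  obtain ⟨h, -, hh⟩ := hHTP A D D X s (v * u - 1) hw s.isRes.1 hz
  exact ⟨h, by rw [← hh]; abel⟩

variable {A : Type} [Ring A] [StarRing A] {C D : FC A}

/-- The dual of a matrix on rows. -/
def bw {C D : FC A} (u : Matrix C.I D.I A) (y : D.I → A) : C.I → A := y ᵥ* uᴴ

/-- The differential of the dual complex. -/
def dd (C : FC A) (y : C.I → A) : C.I → A := y ᵥ* C.eᴴ

theorem dd_bw {u : Matrix C.I D.I A} (hu : IsChain C D u) (y : D.I → A) :
    dd C (bw u y) = bw u (dd D y) := by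
  unfold dd bw
  rw [Matrix.vecMul_vecMul, Matrix.vecMul_vecMul, ← Matrix.conjTranspose_mul,
    ← Matrix.conjTranspose_mul, hu.comm]

theorem bw_zero (u : Matrix C.I D.I A) : bw u 0 = 0 := Matrix.zero_vecMul _

theorem bw_add (u : Matrix C.I D.I A) (y z : D.I → A) : bw u (y + z) = bw u y + bw u z :=
  Matrix.add_vecMul _ _ _

theorem bw_smul (u : Matrix C.I D.I A) (a : A) (y : D.I → A) : bw u (a • y) = a • bw u y :=
  Matrix.smul_vecMul _ _ _

theorem dd_sub (y z : C.I → A) : dd C (y - z) = dd C y - dd C z := Matrix.sub_vecMul _ _ _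

theorem bw_inDeg {u : Matrix C.I D.I A} (hu : IsChain C D u) (q : ℤ) (y : D.I → A)
    (hy : InDeg (fun i => - D.deg i) q y) : InDeg (fun i => - C.deg i) q (bw u y) := by
  intro i hi
  show ∑ j, y j * uᴴ j i = 0
  refine Finset.sum_eq_zero fun j _ => ?_
  by_cases h : u i j = 0
  · rw [Matrix.conjTranspose_apply, h, star_zero, mul_zero]
  · have h1 : y j = 0 := by
      apply hy j
      have := hu.deg i j h
      beta_reduce at hi ⊢
      omega
    rw [h1, zero_mul]

theorem mem_Z {q : ℤ} {y : D.I → A} (h1 : InDeg (fun i => - D.deg i) q y) (h2 : dd D y = 0) :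
    y ∈ D.dual.Z q := ⟨h1, h2⟩

theorem dd_coe {q : ℤ} (y : D.dual.Z q) : dd D y.1 = 0 := y.2.2

theorem bw_mem {u : Matrix C.I D.I A} (hu : IsChain C D u) (q : ℤ) (y : D.dual.Z q) :
    bw u y.1 ∈ C.dual.Z q :=
  mem_Z (bw_inDeg hu q _ y.2.1) (by rw [dd_bw hu, dd_coe, bw_zero])

/-- The dual map on cocycles. -/
def dmap {u : Matrix C.I D.I A} (hu : IsChain C D u) (q : ℤ) :
    D.dual.Z q →ₗ[A] C.dual.Z q where
  toFun y := ⟨bw u y.1, bw_mem hu q y⟩
  map_add' y z := Subtype.ext (bw_add u y.1 z.1)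
  map_smul' a y := Subtype.ext (bw_smul u a y.1)

theorem dmap_mem {u : Matrix C.I D.I A} (hu : IsChain C D u) (q : ℤ) :
    (D.dual.B q).submoduleOf (D.dual.Z q) ≤
      ((C.dual.B q).submoduleOf (C.dual.Z q)).comap (dmap hu q) := by
  rintro y ⟨hy, z, hz⟩
  refine ⟨(dmap hu q y).2.1, bw u z, ?_⟩
  have h1 : y.1 = dd D z := hz
  show bw u y.1 = dd C (bw u z)
  rw [dd_bw hu, ← h1]

/-- The dual map on cohomology. -/
def hmap {u : Matrix C.I D.I A} (hu : IsChain C D u) (q : ℤ) : D.dual.H q →ₗ[A] C.dual.H q :=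
  Submodule.mapQ _ _ (dmap hu q) (dmap_mem hu q)

/-- The dual of a composition homotopic to the identity. -/
theorem comp_eq {u : Matrix C.I D.I A} {v : Matrix D.I C.I A} {h : Matrix D.I D.I A}
    (hh : v * u = 1 + (D.e * h + h * D.e)) (y : D.I → A) (hy : dd D y = 0) :
    bw v (bw u y) = y + dd D (bw h y) := by
  unfold dd at hy
  unfold bw dd
  rw [Matrix.vecMul_vecMul, ← Matrix.conjTranspose_mul, hh, Matrix.conjTranspose_add,
    Matrix.conjTranspose_add, Matrix.conjTranspose_mul, Matrix.conjTranspose_mul,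
    Matrix.conjTranspose_one, Matrix.vecMul_add, Matrix.vecMul_add, Matrix.vecMul_one,
    ← Matrix.vecMul_vecMul, ← Matrix.vecMul_vecMul, hy, Matrix.zero_vecMul, add_zero]

theorem hmap_hmap {u : Matrix C.I D.I A} {v : Matrix D.I C.I A} (hu : IsChain C D u)
    (hv : IsChain D C v) {h : Matrix D.I D.I A} (hh : v * u = 1 + (D.e * h + h * D.e)) (q : ℤ)
    (x : D.dual.H q) : hmap hv q (hmap hu q x) = x := by
  obtain ⟨y, rfl⟩ := Submodule.Quotient.mk_surjective _ x
  show Submodule.Quotient.mk (dmap hv q (dmap hu q y)) = Submodule.Quotient.mk y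
  rw [Submodule.Quotient.eq]
  refine ⟨(dmap hv q (dmap hu q y) - y).2.1, bw h y.1, ?_⟩
  exact sub_eq_of_eq_add' (comp_eq hh y.1 (dd_coe y))

/-- Exactness of the dual. -/
theorem exact {u : Matrix C.I D.I A} {v : Matrix D.I C.I A} (hu : IsChain C D u)
    (hv : IsChain D C v) {h : Matrix D.I D.I A} (hh : v * u = 1 + (D.e * h + h * D.e)) (q : ℤ)
    (hC : C.dual.ExactAt q) : D.dual.ExactAt q := by
  intro y hy hy0
  have h1 : dd D y = 0 := hy0
  obtain ⟨z, hz⟩ := hC (bw u y) (bw_inDeg hu q y hy)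
    (by show dd C (bw u y) = 0; rw [dd_bw hu, h1, bw_zero])
  have h2 : bw u y = dd C z := hz
  have h3 := comp_eq hh y h1
  rw [h2, ← dd_bw hv] at h3
  refine ⟨bw v z - bw h y, ?_⟩
  show y = dd D (bw v z - bw h y)
  rw [dd_sub, h3]
  exact (add_sub_cancel_right _ _).symm

end INDM

theorem specIND (hLFT : SpecLFT) (hHTP : SpecHTP) : SpecIND := by
  intro A _ _ C D X _ _ r s
  obtain ⟨u, hu, hpu⟩ := hLFT A C D X X r s LinearMap.id
  obtain ⟨v, hv, hpv⟩ := hLFT A D C X X s r LinearMap.id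
  obtain ⟨h, hh⟩ := INDM.homotopy hHTP r s hu hv (fun x => hpu x) (fun x => hpv x)
  obtain ⟨k, hk⟩ := INDM.homotopy hHTP s r hv hu (fun x => hpv x) (fun x => hpu x)
  refine ⟨fun q hC => INDM.exact hu hv hh q hC, fun q => ⟨?_⟩⟩
  exact LinearEquiv.ofLinearMap (INDM.hmap hv q) (INDM.hmap hu q)
      (LinearMap.ext fun x => INDM.hmap_hmap hu hv hh q x)
      (LinearMap.ext fun x => INDM.hmap_hmap hv hu hk q x)

end Pool.Agent.Lib.MP8a3537.AUL
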