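import Pool.Agent.Lib.MP_8a3537_gt.AUL.Spec

/-!
# Module KEY: the key lemma of the Laurent extension
-/

namespace Pool.Agent.Lib.MP8a3537.AUL

open Matrix

namespace KEYM

/-- A resolution is transported along a linear equivalence. -/
def resEquiv {A : Type} [Ring A] {C : FC A} {X Y : Type} [AddCommGroup X] [Module A X]
    [AddCommGroup Y] [Module A Y] (r : Res C X) (f : X ≃ₗ[A] Y) : Res C Y where
  pi := f.toLinearMap ∘ₗ r.pi
  isRes := r.isRes
  low := by
    intro q x hq hx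
    rw [LinearMap.comp_apply, r.low q x hq hx, map_zero]
  surj := f.surjective.comp r.surj
  zero := by
    intro y
    rw [LinearMap.comp_apply, r.zero, map_zero]
  ker := by
    intro x hx h
    refine r.ker x hx ?_
    rw [LinearMap.comp_apply] at h
    exact f.map_eq_zero_iff.mp h

theorem resEquiv_pi {A : Type} [Ring A] {C : FC A} {X Y : Type} [AddCommGroup X] [Module A X]
    [AddCommGroup Y] [Module A Y] (r : Res C X) (f : X ≃ₗ[A] Y) (x : C.I → A) :
    (resEquiv r f).pi x = f (r.pi x) := rfl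

theorem Gr.equiv {A : Type} [Ring A] [StarRing A] {c : ℤ} {X Y : Type} [AddCommGroup X]
    [Module A X] [AddCommGroup Y] [Module A Y] (h : Gr A c X) (f : X ≃ₗ[A] Y) : Gr A c Y := by
  obtain ⟨C, ⟨r⟩, hC⟩ := h
  exact ⟨C, ⟨resEquiv r f⟩, hC⟩

theorem Tc.gr {A : Type} [Ring A] [StarRing A] {c : ℤ} {X : Type} [AddCommGroup X]
    [Module A X] (h : Tc A c X) : Gr A c X :=
  Gr.equiv (h ⊤) Submodule.topEquiv

theorem Gr.exact (hIND : SpecIND) {A : Type} [Ring A] [StarRing A] {c : ℤ} {X : Type}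
    [AddCommGroup X] [Module A X] (h : Gr A c X) {C : FC A} (r : Res C X) :
    ∀ q < c, C.dual.ExactAt q := by
  obtain ⟨D, ⟨s⟩, hD⟩ := h
  intro q hq
  exact (hIND A D C X s r).1 q (hD q hq)

end KEYM

open KEYM

theorem specKEY (hIND : SpecIND) (hCON : SpecCON) (hTCS : SpecTCS) (hMAK : SpecMAK)
    (hPHC : SpecPHC) (hCHR : SpecCHR) (hKYA : SpecKYA) (hKYB : SpecKYB) : SpecKEY := by
  intro S _ _ S0 _ L d hn0 hn hfin M _ _ hM Y hYfg hYgen c hT1 hT2 hT3 X
  obtain ⟨N, hNfg, hNgen, hNX, hNT, hNQ⟩ :=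
    hKYA S S0 L d hn0 hn hfin M hM Y hYfg hYgen c hT1 hT2 hT3 X
  have hNfin : Module.Finite S0 N := Module.Finite.iff_fg.mpr hNfg
  have hNnoe : IsNoetherian S0 N := isNoetherian_of_isNoetherianRing_of_finite S0 N
  have hle : L.pr N ≤ N := inf_le_left
  have hPnoe : IsNoetherian S0 (L.pr N) := isNoetherian_of_le hle
  have hPfin : Module.Finite S0 (L.pr N) := inferInstance
  obtain ⟨C, ⟨r⟩, -⟩ := hfin N hNfin
  obtain ⟨D, ⟨s⟩, -⟩ := hfin (L.pr N) hPfin
  obtain ⟨u, w, hD⟩ := hMAK S S0 L X N C D r s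
  have hPh : IsChain (bc D) (bc C) (L.phi u w) := hPHC S S0 L C D u w hD.hu hD.hw
  let φ : ↥(L.pr N) ≃ₗ[S0] ↥((L.pr N).submoduleOf N) :=
    (Submodule.submoduleOfEquivOfLe hle).symm
  obtain ⟨rc⟩ := hCON S0 C D N ((L.pr N).submoduleOf N) r (resEquiv s φ) u hD.hu (by
    intro x
    apply Subtype.ext
    rw [hD.lu x, resEquiv_pi]
    rfl)
  have h1 : ∀ q < c, (cone C D u hD.hu).dual.ExactAt q := Gr.exact hIND (Tc.gr hNQ) rc
  have h2 : Tc S0 (c - 1) (L.pr N) :=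
    (hTCS S0 (c - 1) (L.pr N) N (Submodule.inclusion hle)).1
      (Submodule.inclusion_injective hle) hNT
  have h3 : ∀ q < c - 1, D.dual.ExactAt q := Gr.exact hIND (Tc.gr h2) s
  refine ⟨cone (bc C) (bc D) (L.phi u w) hPh,
    hCHR S S0 L X N hNgen hNX C D r s u w hD hPh, ?_⟩
  intro q hq
  exact hKYB S S0 L C D u w hD.hu hD.hw hPh q (h1 q hq) (h3 (q - 1) (by omega))

end Pool.Agent.Lib.MP8a3537.AUL
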