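import Pool.Agent.Lib.MP_8a3537_gt.AUL.Spec

/-!
# AUL, module KYB: the complex part of the key lemma
-/

namespace Pool.Agent.Lib.MP8a3537.AUL

open Matrix

namespace KYBM

section gen

variable {A : Type} [Ring A]

theorem part_vecMul (C : FC A) (q : ℤ) (x : C.I → A) :
    part C.deg q x ᵥ* C.e = part C.deg (q + 1) (x ᵥ* C.e) := by
  ext j
  simp only [part, Matrix.vecMul, dotProduct]
  split_ifs with h
  · refine Finset.sum_congr rfl fun i _ => ?_
    by_cases hi : C.deg i = q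
    · rw [if_pos hi]
    · rw [if_neg hi, zero_mul]
      by_cases he : C.e i j = 0
      · rw [he, mul_zero]
      · exact absurd (by have := C.he i j he; omega) hi
  · refine Finset.sum_eq_zero fun i _ => ?_
    by_cases hi : C.deg i = q
    · rw [if_pos hi]
      by_cases he : C.e i j = 0
      · rw [he, mul_zero]
      · exact absurd (by have := C.he i j he; omega) h
    · rw [if_neg hi, zero_mul]

theorem part_of_inDeg {I : Type} (deg : I → ℤ) (q : ℤ) (x : I → A) (h : InDeg deg q x) :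
    part deg q x = x := by
  ext i
  simp only [part]
  split_ifs with hi
  · rfl
  · exact (h i hi).symm

theorem inDeg_part {I : Type} (deg : I → ℤ) (q : ℤ) (x : I → A) :
    InDeg deg q (part deg q x) := fun _ hi => if_neg hi

variable [StarRing A]

/-- The degrees of the dual. -/
def nd (C : FC A) : C.I → ℤ := fun i => - C.deg i

/-- The differential of the dual. -/
def de (C : FC A) : Matrix C.I C.I A := C.eᴴ

/-- In the dual complex: `(part (q-1) z) C.eᴴ = x` if `z C.eᴴ = x` is in degree `q`. -/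
theorem part_dual (C : FC A) (q : ℤ) (x z : C.I → A) (hx : InDeg (nd C) q x)
    (h : x = z ᵥ* de C) : x = part (nd C) (q - 1) z ᵥ* de C := by
  have h1 : part (nd C) (q - 1) z ᵥ* de C = part (nd C) (q - 1 + 1) (z ᵥ* de C) :=
    part_vecMul C.dual (q - 1) z
  rw [h1, ← h, sub_add_cancel]
  exact (part_of_inDeg _ _ _ hx).symm

theorem exd (C : FC A) (q : ℤ) (h : C.dual.ExactAt q) (x : C.I → A) (hx : InDeg (nd C) q x)
    (h0 : x ᵥ* de C = 0) : ∃ y : C.I → A, x = y ᵥ* de C := h x hx h0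

theorem cone_vecMul (C D : FC A) (u : Matrix D.I C.I A) (y : C.I → A) (y' : D.I → A) :
    (Sum.elim y y' : C.I ⊕ D.I → A) ᵥ* (fromBlocks C.e 0 u (-D.e))ᴴ =
      Sum.elim (y ᵥ* de C) (y ᵥ* uᴴ - y' ᵥ* de D) := by
  rw [fromBlocks_conjTranspose, vecMul_fromBlocks]
  simp [Matrix.vecMul_neg, sub_eq_add_neg, de]

theorem dual_deg (C D : FC A) (u : Matrix D.I C.I A) (hu : IsChain D C u) (q : ℤ)
    (x : C.I → A) (hx : InDeg (nd C) q x) : InDeg (nd D) q (x ᵥ* uᴴ) := by
  intro j hj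
  simp only [Matrix.vecMul, dotProduct]
  refine Finset.sum_eq_zero fun i _ => ?_
  by_cases h0 : u j i = 0
  · rw [conjTranspose_apply, h0, star_zero, mul_zero]
  · rw [hx i ?_, zero_mul]
    intro h1
    apply hj
    have := hu.deg j i h0
    simp only [nd] at h1 ⊢
    omega

/-- From a cocycle of the dual of the cone of degree `q` (`x` in degree `q`, `x uᴴ` a coboundary)
to a primitive of `x`, if the dual of the cone is exact there. -/
theorem prim (C D : FC A) (u : Matrix D.I C.I A) (hu : IsChain D C u) (q : ℤ)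
    (hex : (cone C D u hu).dual.ExactAt q) (x : C.I → A) (v : D.I → A)
    (hx : InDeg (nd C) q x) (hx0 : x ᵥ* de C = 0) (hv : x ᵥ* uᴴ = v ᵥ* de D) :
    ∃ z : C.I → A, x = z ᵥ* de C := by
  have h1 := part_dual D q _ v (dual_deg C D u hu q x hx) hv
  have h2 : (Sum.elim x (part (nd D) (q - 1) v) : C.I ⊕ D.I → A) ᵥ*
      (fromBlocks C.e 0 u (-D.e))ᴴ = 0 := by
    rw [cone_vecMul, hx0, ← h1, sub_self]
    ext (i | i) <;> rfl
  obtain ⟨z, hz⟩ : ∃ z : C.I ⊕ D.I → A, (Sum.elim x (part (nd D) (q - 1) v) : C.I ⊕ D.I → A) =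
      z ᵥ* (fromBlocks C.e 0 u (-D.e))ᴴ := hex (Sum.elim x (part (nd D) (q - 1) v)) (by
    rintro (i | i) hi
    · exact hx i hi
    · apply inDeg_part
      intro h3
      apply hi
      change -(D.deg i - 1) = q
      change -D.deg i = q - 1 at h3
      omega) h2
  rw [← Sum.elim_comp_inl_inr z, cone_vecMul] at hz
  refine ⟨z ∘ Sum.inl, ?_⟩
  ext i
  exact congrFun hz (Sum.inl i)

/-- From `x = z C.eᴴ` to a primitive of `(x, x')`. -/
theorem final (C D : FC A) (u : Matrix D.I C.I A) (hu : IsChain D C u) (q : ℤ)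
    (hD : D.dual.ExactAt (q - 1)) (x : C.I ⊕ D.I → A) (z : C.I → A)
    (hx : InDeg (nd C) q (x ∘ Sum.inl))
    (hx' : InDeg (nd D) (q - 1) (x ∘ Sum.inr)) (hz : x ∘ Sum.inl = z ᵥ* de C)
    (h : (x ∘ Sum.inl) ᵥ* uᴴ - (x ∘ Sum.inr) ᵥ* de D = 0) :
    ∃ y : C.I ⊕ D.I → A, x = y ᵥ* (fromBlocks C.e 0 u (-D.e))ᴴ := by
  have h1 := part_dual C q _ z hx hz
  have h2 : InDeg (nd D) (q - 1) (part (nd C) (q - 1) z ᵥ* uᴴ) :=
    dual_deg C D u hu (q - 1) _ (inDeg_part _ _ _)
  have hcom : uᴴ * de D = de C * uᴴ := by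
    simp only [de]
    rw [← conjTranspose_mul, hu.comm, conjTranspose_mul]
  obtain ⟨z', hz'⟩ := exd D (q - 1) hD (x ∘ Sum.inr - part (nd C) (q - 1) z ᵥ* uᴴ) (by
    intro i hi
    rw [Pi.sub_apply, hx' i hi, h2 i hi, sub_zero]) (by
    rw [Matrix.sub_vecMul, Matrix.vecMul_vecMul, hcom, ← Matrix.vecMul_vecMul, ← h1, ← neg_sub, h,
      neg_zero])
  refine ⟨Sum.elim (part (nd C) (q - 1) z) (-z'), ?_⟩
  rw [cone_vecMul, ← h1, Matrix.neg_vecMul, sub_neg_eq_add, ← hz', add_sub_cancel,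
    Sum.elim_comp_inl_inr]

theorem coc (C D : FC A) (u : Matrix D.I C.I A) (x : C.I ⊕ D.I → A)
    (hx : x ᵥ* (fromBlocks C.e 0 u (-D.e))ᴴ = 0) :
    (x ∘ Sum.inl) ᵥ* de C = 0 ∧ (x ∘ Sum.inl) ᵥ* uᴴ - (x ∘ Sum.inr) ᵥ* de D = 0 := by
  rw [← Sum.elim_comp_inl_inr x, cone_vecMul] at hx
  constructor
  · ext i
    exact congrFun hx (Sum.inl i)
  · ext i
    exact congrFun hx (Sum.inr i)

end gen

end KYBM

open KYBM in
theorem specKYB (hLAU : SpecLAU) (hBCE : SpecBCE) : SpecKYB := by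
  intro S _ _ S0 _ L C D u w hu hw hP q hcone hD
  have hsg := (hBCE S S0 L).2
  have hsg' : ∀ a : S0, L.sg.symm (star a) = star (L.sg.symm a) := by
    intro a
    apply L.sg.injective
    rw [hsg, L.sg.apply_symm_apply, L.sg.apply_symm_apply]
  obtain ⟨-, -, -, -, -, -, -, lCC, -, -, -, -⟩ := hLAU S S0 L C.I C.I
  obtain ⟨cfin, cext, -, -, -, cex, -, lCD, -, lt, -, -⟩ := hLAU S S0 L C.I D.I
  obtain ⟨-, -, -, dsub, -, -, -, lDD, -, -, -, -⟩ := hLAU S S0 L D.I D.I
  have hst : star ((L.t⁻¹ : Sˣ) : S) = (L.t : S) := by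
    rw [← L.star_t, star_star]
  -- the matrix of the dual of `Φ`
  have hphi : ∀ y : C.I → S, y ᵥ* (L.phi u w)ᴴ =
      (fun i => y i * (L.t : S)) ᵥ* wᴴ.map (fun a : S0 => (a : S)) -
        y ᵥ* uᴴ.map (fun a : S0 => (a : S)) := by
    intro y
    ext j
    simp only [Matrix.vecMul, dotProduct, Pi.sub_apply, Matrix.map_apply, conjTranspose_apply,
      Lau.phi, star_sub, star_mul, hst]
    rw [← Finset.sum_sub_distrib]
    refine Finset.sum_congr rfl fun i _ => ?_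
    rw [mul_sub, mul_assoc]
    rfl
  have hcor : ∀ (y : C.I → S) (k : ℤ), L.cor (y ᵥ* (L.phi u w)ᴴ) k =
      (fun i => L.sg.symm (L.cor y (k - 1) i)) ᵥ* wᴴ - L.cor y k ᵥ* uᴴ := by
    intro y k
    rw [hphi, dsub, lCD, lCD, lt]
  intro x hx hx0
  obtain ⟨hc0, hc1⟩ := coc (bc C) (bc D) (L.phi u w) x hx0
  obtain ⟨y, hy⟩ : ∃ y : C.I → S, y = x ∘ Sum.inl := ⟨_, rfl⟩
  obtain ⟨y', hy'⟩ : ∃ y' : D.I → S, y' = x ∘ Sum.inr := ⟨_, rfl⟩
  have hy0 : y ᵥ* C.eᴴ.map (fun a : S0 => (a : S)) = 0 := by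
    rw [hy]
    exact hc0
  have hy1 : y ᵥ* (L.phi u w)ᴴ - y' ᵥ* D.eᴴ.map (fun a : S0 => (a : S)) = 0 := by
    rw [hy, hy']
    exact hc1
  have hyd : InDeg (nd C) q y := by
    intro i hi
    rw [hy]
    exact hx (Sum.inl i) hi
  have hyd' : InDeg (nd D) (q - 1) y' := by
    intro i hi
    rw [hy']
    apply hx (Sum.inr i)
    intro h
    apply hi
    change -(D.deg i - 1) = q at h
    change -D.deg i = q - 1
    omega
  -- the coefficient rows
  have hck : ∀ k, L.cor y k ᵥ* C.eᴴ = 0 := by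
    intro k
    rw [← lCC, hy0]
    ext i
    change ((L.co (0 : S) k : S0) : S) = 0
    rw [show L.co (0 : S) = 0 from map_zero L.val.symm]
    rfl
  have hcd : ∀ k, InDeg (nd C) q (L.cor y k) := by
    intro k i hi
    change L.co (y i) k = 0
    rw [hyd i hi, show L.co (0 : S) = 0 from map_zero L.val.symm]
    rfl
  have hrel : ∀ k, (fun i => L.sg.symm (L.cor y (k - 1) i)) ᵥ* wᴴ - L.cor y k ᵥ* uᴴ =
      L.cor y' k ᵥ* D.eᴴ := by
    intro k
    rw [← hcor, ← lDD, sub_eq_zero.mp hy1]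
  have hstep : ∀ k, (∃ z : C.I → S0, L.cor y (k - 1) = z ᵥ* C.eᴴ) →
      ∃ z : C.I → S0, L.cor y k = z ᵥ* C.eᴴ := by
    rintro k ⟨z, hz⟩
    have h1 : (fun i => L.sg.symm (L.cor y (k - 1) i)) =
        (fun i => L.sg.symm (z i)) ᵥ* (C.e.map L.sg.symm)ᴴ := by
      ext i
      rw [hz]
      simp only [Matrix.vecMul, dotProduct, map_sum, map_mul, conjTranspose_apply,
        Matrix.map_apply, hsg']
    have h2 : (fun i => L.sg.symm (L.cor y (k - 1) i)) ᵥ* wᴴ =
        ((fun i => L.sg.symm (z i)) ᵥ* wᴴ) ᵥ* D.eᴴ := by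
      rw [h1, Matrix.vecMul_vecMul, Matrix.vecMul_vecMul, ← conjTranspose_mul,
        ← conjTranspose_mul]
      have h3 : D.e * w = w * C.e.map L.sg.symm := hw.comm
      rw [h3]
    have h3 := hrel k
    rw [h2] at h3
    apply prim C D u hu q hcone (L.cor y k)
      (((fun i => L.sg.symm (z i)) ᵥ* wᴴ) - L.cor y' k) (hcd k) (hck k)
    simp only [de]
    rw [Matrix.sub_vecMul, ← h3, sub_sub_cancel]
  have hall : ∀ k, ∃ z : C.I → S0, L.cor y k = z ᵥ* C.eᴴ := by
    intro k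
    by_contra hk
    have h1 : ∀ n : ℕ, ¬ ∃ z : C.I → S0, L.cor y (k - n) = z ᵥ* C.eᴴ := by
      intro n
      induction n with
      | zero => simpa using hk
      | succ n ih =>
        intro h
        apply ih
        apply hstep
        have h4 : k - (n : ℤ) - 1 = k - ((n + 1 : ℕ) : ℤ) := by push_cast; ring
        rwa [h4]
    apply Set.infinite_of_injective_forall_mem (f := fun n : ℕ => k - (n : ℤ)) (s := {k | L.cor y k ≠ 0})
      (fun a b h => by simpa using h) ?_ (cfin y)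
    intro n h0
    exact h1 n ⟨0, by rw [h0, Matrix.zero_vecMul]⟩
  -- a primitive of `y`
  classical
  choose z0 hz0 using hall
  obtain ⟨z, hz⟩ := cex (fun k => if L.cor y k = 0 then 0 else z0 k) (by
    apply (cfin y).subset
    intro k hk h0
    apply hk
    change (if L.cor y k = 0 then 0 else z0 k) = 0
    rw [if_pos h0])
  have hyz : y = z ᵥ* C.eᴴ.map (fun a : S0 => (a : S)) := by
    apply cext
    intro k
    rw [lCC, hz k]
    by_cases h0 : L.cor y k = 0
    · rw [if_pos h0, h0, Matrix.zero_vecMul]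
    · rw [if_neg h0]
      exact hz0 k
  rw [hy] at hyd hyz
  rw [hy'] at hyd'
  exact final (bc C) (bc D) (L.phi u w) hP q ((hBCE S S0 L).1 D.dual (q - 1) hD) x z
    hyd hyd' hyz hc1

end Pool.Agent.Lib.MP8a3537.AUL
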