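import Pool.Agent.Lib.MP_8a3537_gt.AUL.Spec

/-!
# AUL, module LAT (helper47): finitely generated `S0`-submodules of `M`
-/

set_option linter.all false

namespace Pool.Agent.Lib.MP8a3537.AUL

namespace LATM

variable {S : Type} [Ring S] [StarRing S] {S0 : Subring S}
variable {M : Type} [AddCommGroup M] [Module S M]

theorem mem_tr_smul (L : Lau S0) (k : ℤ) (N : Submodule S0 M) (m : M) (hm : m ∈ N) :
    ((L.t ^ k : Sˣ) : S) • m ∈ L.tr k N := by
  rw [L.mem_tr, smul_smul, ← Units.val_mul, ← zpow_add]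
  simpa using hm

theorem tr_mono (L : Lau S0) (k : ℤ) {N N' : Submodule S0 M} (h : N ≤ N') :
    L.tr k N ≤ L.tr k N' := by
  intro m hm
  rw [L.mem_tr] at hm ⊢
  exact h hm

theorem tr_tr (L : Lau S0) (k l : ℤ) (N : Submodule S0 M) :
    L.tr k (L.tr l N) = L.tr (k + l) N := by
  ext m
  rw [L.mem_tr, L.mem_tr, L.mem_tr, smul_smul, ← Units.val_mul, ← zpow_add]
  have : -l + -k = -(k + l) := by ring
  rw [this]

theorem tr_zero (L : Lau S0) (N : Submodule S0 M) : L.tr 0 N = N := by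
  ext m
  rw [L.mem_tr]
  simp

theorem smul_mem_tr (L : Lau S0) (k l : ℤ) (N : Submodule S0 M) (m : M) (hm : m ∈ L.tr l N) :
    ((L.t ^ k : Sˣ) : S) • m ∈ L.tr (k + l) N := by
  rw [← tr_tr]
  exact mem_tr_smul L k _ m hm

theorem tr_fg (L : Lau S0) (k : ℤ) (N : Submodule S0 M) (h : N.FG) : (L.tr k N).FG := by
  classical
  obtain ⟨s, hs⟩ := h
  refine ⟨s.image fun y => ((L.t ^ k : Sˣ) : S) • y, le_antisymm ?_ ?_⟩
  · rw [Submodule.span_le]
    intro x hx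
    rw [Finset.coe_image] at hx
    obtain ⟨y, hy, rfl⟩ := hx
    refine mem_tr_smul L k N y ?_
    rw [← hs]
    exact Submodule.subset_span hy
  · have h1 : N ≤ L.tr (-k) (Submodule.span S0
        ((s.image fun y => ((L.t ^ k : Sˣ) : S) • y : Finset M) : Set M)) := by
      rw [← hs, Submodule.span_le]
      intro y hy
      rw [SetLike.mem_coe, L.mem_tr, neg_neg]
      refine Submodule.subset_span ?_
      rw [Finset.coe_image]
      exact ⟨y, hy, rfl⟩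
    have h2 := tr_mono L k h1
    rwa [tr_tr, add_neg_cancel, tr_zero] at h2

/-- The chain `U_n = ⨆_(|j| ≤ n) t^j Y`. -/
def U (L : Lau S0) (Y : Submodule S0 M) : ℕ → Submodule S0 M
  | 0 => Y
  | n + 1 => (U L Y n ⊔ L.tr ((n : ℤ) + 1) Y) ⊔ L.tr (-((n : ℤ) + 1)) Y

theorem U_succ (L : Lau S0) (Y : Submodule S0 M) (n : ℕ) :
    U L Y (n + 1) = (U L Y n ⊔ L.tr ((n : ℤ) + 1) Y) ⊔ L.tr (-((n : ℤ) + 1)) Y := rfl

theorem U_le_succ (L : Lau S0) (Y : Submodule S0 M) (n : ℕ) : U L Y n ≤ U L Y (n + 1) := by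
  rw [U_succ]
  exact le_sup_left.trans le_sup_left

theorem U_mono (L : Lau S0) (Y : Submodule S0 M) : Monotone (U L Y) :=
  monotone_nat_of_le_succ (U_le_succ L Y)

theorem tr_le_U (L : Lau S0) (Y : Submodule S0 M) (n : ℕ) :
    ∀ j : ℤ, j.natAbs ≤ n → L.tr j Y ≤ U L Y n := by
  induction n with
  | zero =>
    intro j hj
    have : j = 0 := by omega
    subst this
    rw [tr_zero]
    exact le_refl _
  | succ n ih =>
    intro j hj
    by_cases h1 : j.natAbs ≤ n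
    · exact (ih j h1).trans (U_le_succ L Y n)
    · rw [U_succ]
      rcases (by omega : j = (n : ℤ) + 1 ∨ j = -((n : ℤ) + 1)) with h | h
      · rw [h]
        exact le_sup_right.trans le_sup_left
      · rw [h]
        exact le_sup_right

theorem U_fg (L : Lau S0) (Y : Submodule S0 M) (hY : Y.FG) (n : ℕ) : (U L Y n).FG := by
  induction n with
  | zero => exact hY
  | succ n ih =>
    rw [U_succ]
    exact (ih.sup (tr_fg L _ Y hY)).sup (tr_fg L _ Y hY)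

theorem smul_U (L : Lau S0) (Y : Submodule S0 M) (k : ℤ) (n : ℕ) :
    ∀ x ∈ U L Y n, ((L.t ^ k : Sˣ) : S) • x ∈ U L Y (n + k.natAbs) := by
  induction n with
  | zero =>
    intro x hx
    exact tr_le_U L Y _ k (by omega) (mem_tr_smul L k Y x hx)
  | succ n ih =>
    intro x hx
    rw [U_succ] at hx
    obtain ⟨x', hx', w, hw, rfl⟩ := Submodule.mem_sup.1 hx
    obtain ⟨u, hu, v, hv, rfl⟩ := Submodule.mem_sup.1 hx'
    rw [smul_add, smul_add]
    refine Submodule.add_mem _ (Submodule.add_mem _ ?_ ?_) ?_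
    · exact U_mono L Y (by omega) (ih u hu)
    · exact tr_le_U L Y _ _ (by omega) (smul_mem_tr L k _ Y v hv)
    · exact tr_le_U L Y _ _ (by omega) (smul_mem_tr L k _ Y w hw)

theorem exists_U (L : Lau S0) (Y : Submodule S0 M) (hG : Gen Y) (m : M) :
    ∃ n, m ∈ U L Y n := by
  have hm : m ∈ Submodule.span S (Y : Set M) := by
    rw [show Submodule.span S (Y : Set M) = ⊤ from hG]
    exact Submodule.mem_top
  induction hm using Submodule.span_induction with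
  | mem x hx => exact ⟨0, hx⟩
  | zero => exact ⟨0, Submodule.zero_mem _⟩
  | add x y _ _ hx hy =>
    obtain ⟨a, ha⟩ := hx
    obtain ⟨b, hb⟩ := hy
    exact ⟨max a b, Submodule.add_mem _ (U_mono L Y (le_max_left a b) ha)
      (U_mono L Y (le_max_right a b) hb)⟩
  | smul s x _ hx =>
    obtain ⟨n, hn⟩ := hx
    obtain ⟨f, hf⟩ := L.bij.2 s
    refine ⟨n + f.support.sup Int.natAbs, ?_⟩
    rw [← hf]
    show (f.sum fun k a => ((L.t ^ k : Sˣ) : S) * (a : S)) • x ∈ _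
    rw [Finsupp.sum, Finset.sum_smul]
    refine Submodule.sum_mem _ fun k hk => ?_
    rw [mul_smul]
    have h1 : ((f k : S0) : S) • x ∈ U L Y n := (U L Y n).smul_mem (f k) hn
    have h2 : k.natAbs ≤ f.support.sup Int.natAbs := Finset.le_sup hk
    exact U_mono L Y (by omega) (smul_U L Y k n _ h1)

theorem le_U (L : Lau S0) (Y : Submodule S0 M) (hG : Gen Y) (N : Submodule S0 M) (hN : N.FG) :
    ∃ n, N ≤ U L Y n := by
  obtain ⟨s, hs⟩ := hN
  choose g hg using exists_U L Y hG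
  refine ⟨s.sup g, ?_⟩
  rw [← hs, Submodule.span_le]
  intro x hx
  exact U_mono L Y (Finset.le_sup (Finset.mem_coe.1 hx)) (hg x)

variable [StarSub S0]

/-- `B / K ↠ B / K'` for `K ≤ K'`. -/
theorem quot_mono (hTCS : SpecTCS) (c : ℤ) (B K K' : Submodule S0 M) (hK : K ≤ K')
    (h : Tc S0 c (B ⧸ K.submoduleOf B)) : Tc S0 c (B ⧸ K'.submoduleOf B) := by
  have hle : K.submoduleOf B ≤ (K'.submoduleOf B).comap LinearMap.id := by
    intro x hx
    exact hK hx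
  refine (hTCS S0 c (B ⧸ K.submoduleOf B) (B ⧸ K'.submoduleOf B)
    (Submodule.mapQ _ _ LinearMap.id hle)).2.1 ?_ h
  intro y
  obtain ⟨b, rfl⟩ := Submodule.Quotient.mk_surjective _ y
  exact ⟨Submodule.Quotient.mk b, rfl⟩

theorem sup_step (hTCS : SpecTCS) (hTCE : SpecTCE) (d : ℕ) (hn : IsNoetherianRing S0)
    (hd : FinRes S0 d) (c : ℤ) (A B : Submodule S0 M) (hA : A.FG) (hB : B.FG)
    (h1 : Tc S0 c A) (h2 : Tc S0 c B) : Tc S0 c (A ⊔ B : Submodule S0 M) := by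
  haveI : Module.Finite S0 (A ⊔ B : Submodule S0 M) := Module.Finite.iff_fg.2 (hA.sup hB)
  refine hTCE S0 d hn hd c (A ⊔ B : Submodule S0 M) (A.submoduleOf (A ⊔ B)) inferInstance ?_ ?_
  · obtain ⟨e, he⟩ : ∃ e : A.submoduleOf (A ⊔ B) →ₗ[S0] A,
        ∀ x, ((e x : A) : M) = ((x : (A ⊔ B : Submodule S0 M)) : M) :=
      ⟨{ toFun := fun x => ⟨((x : (A ⊔ B : Submodule S0 M)) : M), x.2⟩
         map_add' := fun x y => rfl
         map_smul' := fun r x => rfl }, fun x => rfl⟩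
    refine (hTCS S0 c (A.submoduleOf (A ⊔ B)) A e).1 ?_ h1
    intro x y hxy
    have := congrArg (fun z : A => (z : M)) hxy
    simp only [he] at this
    exact Subtype.ext (Subtype.ext this)
  · refine (hTCS S0 c B ((A ⊔ B : Submodule S0 M) ⧸ A.submoduleOf (A ⊔ B))
      ((A.submoduleOf (A ⊔ B)).mkQ.comp (Submodule.inclusion le_sup_right))).2.1 ?_ h2
    intro y
    obtain ⟨⟨x, hx⟩, rfl⟩ := Submodule.Quotient.mk_surjective _ y
    obtain ⟨a, ha, b, hb, rfl⟩ := Submodule.mem_sup.1 hx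
    refine ⟨⟨b, hb⟩, ?_⟩
    rw [LinearMap.comp_apply, Submodule.mkQ_apply, Submodule.Quotient.eq]
    show ((Submodule.inclusion le_sup_right ⟨b, hb⟩ : (A ⊔ B : Submodule S0 M)) : M) -
      (a + b) ∈ A
    have : ((Submodule.inclusion le_sup_right ⟨b, hb⟩ : (A ⊔ B : Submodule S0 M)) : M) = b := rfl
    rw [this]
    have h3 : b - (a + b) = -a := by abel
    rw [h3]
    exact A.neg_mem ha

theorem quot_step (hTCS : SpecTCS) (hTCE : SpecTCE) (d : ℕ) (hn : IsNoetherianRing S0)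
    (hd : FinRes S0 d) (c : ℤ) (Y A B : Submodule S0 M) (hYA : Y ≤ A) (hA : A.FG) (hB : B.FG)
    (h1 : Tc S0 c (A ⧸ Y.submoduleOf A)) (h2 : Tc S0 c (B ⧸ A.submoduleOf B)) :
    Tc S0 c ((A ⊔ B : Submodule S0 M) ⧸ Y.submoduleOf (A ⊔ B)) := by
  haveI : Module.Finite S0 (A ⊔ B : Submodule S0 M) := Module.Finite.iff_fg.2 (hA.sup hB)
  obtain ⟨g, hg⟩ : ∃ g : A →ₗ[S0] ((A ⊔ B : Submodule S0 M) ⧸ Y.submoduleOf (A ⊔ B)),
      g = (Y.submoduleOf (A ⊔ B)).mkQ.comp (Submodule.inclusion le_sup_left) := ⟨_, rfl⟩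
  have hgv : ∀ a, g a = Submodule.Quotient.mk (Submodule.inclusion le_sup_left a) := by
    intro a; rw [hg]; rfl
  refine hTCE S0 d hn hd c _ (LinearMap.range g) inferInstance ?_ ?_
  · have hk : Y.submoduleOf A ≤ LinearMap.ker g.rangeRestrict := by
      intro a ha
      rw [LinearMap.mem_ker]
      refine Subtype.ext ?_
      show g a = 0
      rw [hgv, Submodule.Quotient.mk_eq_zero]
      exact ha
    refine (hTCS S0 c (A ⧸ Y.submoduleOf A) (LinearMap.range g)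
      (Submodule.liftQ _ g.rangeRestrict hk)).2.1 ?_ h1
    intro y
    obtain ⟨a, rfl⟩ := g.surjective_rangeRestrict y
    exact ⟨Submodule.Quotient.mk a, rfl⟩
  · obtain ⟨r, hr⟩ : ∃ r : B →ₗ[S0] (((A ⊔ B : Submodule S0 M) ⧸ Y.submoduleOf (A ⊔ B)) ⧸
        LinearMap.range g), r = (LinearMap.range g).mkQ.comp
        ((Y.submoduleOf (A ⊔ B)).mkQ.comp (Submodule.inclusion le_sup_right)) := ⟨_, rfl⟩
    have hrv : ∀ b, r b = Submodule.Quotient.mk (Submodule.Quotient.mk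
        (Submodule.inclusion le_sup_right b)) := by
      intro b; rw [hr]; rfl
    have hk : A.submoduleOf B ≤ LinearMap.ker r := by
      intro b hb
      rw [LinearMap.mem_ker, hrv, Submodule.Quotient.mk_eq_zero]
      exact ⟨⟨b, hb⟩, by rw [hgv]; rfl⟩
    refine (hTCS S0 c (B ⧸ A.submoduleOf B) _ (Submodule.liftQ _ r hk)).2.1 ?_ h2
    intro y
    obtain ⟨x, rfl⟩ := Submodule.Quotient.mk_surjective _ y
    obtain ⟨⟨m, hm⟩, rfl⟩ := Submodule.Quotient.mk_surjective _ x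
    obtain ⟨a, ha, b, hb, rfl⟩ := Submodule.mem_sup.1 hm
    refine ⟨Submodule.Quotient.mk ⟨b, hb⟩, ?_⟩
    show r ⟨b, hb⟩ = _
    rw [hrv, Submodule.Quotient.eq]
    refine ⟨⟨-a, A.neg_mem ha⟩, ?_⟩
    rw [hgv, ← Submodule.Quotient.mk_sub]
    congr 1
    refine Subtype.ext ?_
    show -a = b - (a + b)
    abel

theorem sub_quot (hTCS : SpecTCS) (c : ℤ) (Y N A : Submodule S0 M) (hNA : N ≤ A)
    (h : Tc S0 c (A ⧸ Y.submoduleOf A)) : Tc S0 c (N ⧸ Y.submoduleOf N) := by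
  have hle : Y.submoduleOf N ≤ (Y.submoduleOf A).comap (Submodule.inclusion hNA) := by
    intro x hx
    exact hx
  refine (hTCS S0 c (N ⧸ Y.submoduleOf N) (A ⧸ Y.submoduleOf A)
    (Submodule.mapQ _ _ (Submodule.inclusion hNA) hle)).1 ?_ h
  rw [injective_iff_map_eq_zero]
  intro x hx
  obtain ⟨n, rfl⟩ := Submodule.Quotient.mk_surjective _ x
  rw [Submodule.mapQ_apply, Submodule.Quotient.mk_eq_zero] at hx
  rw [Submodule.Quotient.mk_eq_zero]
  exact hx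

theorem U_tc (hTCS : SpecTCS) (hTCE : SpecTCE) (hTWI : SpecTWI) (L : Lau S0) (d : ℕ)
    (hn : IsNoetherianRing S0) (hd : FinRes S0 d) (c : ℤ) (Y : Submodule S0 M) (hY : Y.FG)
    (h : Tc S0 c Y) (n : ℕ) : Tc S0 c (U L Y n) := by
  induction n with
  | zero => exact h
  | succ n ih =>
    rw [U_succ]
    have h1 := sup_step hTCS hTCE d hn hd c _ _ (U_fg L Y hY n) (tr_fg L ((n : ℤ) + 1) Y hY) ih
      ((hTWI S S0 L M Y Y ((n : ℤ) + 1) c).1 h)
    exact sup_step hTCS hTCE d hn hd c _ _ ((U_fg L Y hY n).sup (tr_fg L ((n : ℤ) + 1) Y hY))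
      (tr_fg L _ Y hY) h1 ((hTWI S S0 L M Y Y (-((n : ℤ) + 1)) c).1 h)

theorem U_quot (hTCS : SpecTCS) (hTCE : SpecTCE) (hTWI : SpecTWI) (L : Lau S0) (d : ℕ)
    (hn : IsNoetherianRing S0) (hd : FinRes S0 d) (c : ℤ) (Y : Submodule S0 M) (hY : Y.FG)
    (h1 : Tc S0 c (Y ⧸ (Y ⊓ L.tr 1 Y).submoduleOf Y))
    (h2 : Tc S0 c (Y ⧸ (Y ⊓ L.tr (-1) Y).submoduleOf Y)) (n : ℕ) :
    Tc S0 c (U L Y n ⧸ Y.submoduleOf (U L Y n)) := by
  induction n with
  | zero => exact quot_mono hTCS c Y (Y ⊓ L.tr 1 Y) Y inf_le_left h1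
  | succ n ih =>
    have hYU : Y ≤ U L Y n := U_mono L Y (Nat.zero_le n)
    have h3 := (hTWI S S0 L M Y (Y ⊓ L.tr (-1) Y) ((n : ℤ) + 1) c).2 inf_le_left h2
    have h4 := (hTWI S S0 L M Y (Y ⊓ L.tr 1 Y) (-((n : ℤ) + 1)) c).2 inf_le_left h1
    have h5 : L.tr ((n : ℤ) + 1) (Y ⊓ L.tr (-1) Y) ≤ U L Y n := by
      refine (tr_mono L _ inf_le_right).trans ?_
      rw [tr_tr]
      exact tr_le_U L Y n _ (by omega)
    have h6 : L.tr (-((n : ℤ) + 1)) (Y ⊓ L.tr 1 Y) ≤ U L Y n ⊔ L.tr ((n : ℤ) + 1) Y := by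
      refine (tr_mono L _ inf_le_right).trans ?_
      rw [tr_tr]
      exact (tr_le_U L Y n _ (by omega)).trans le_sup_left
    have h7 := quot_step hTCS hTCE d hn hd c Y (U L Y n) (L.tr ((n : ℤ) + 1) Y) hYU
      (U_fg L Y hY n) (tr_fg L _ Y hY) ih (quot_mono hTCS c _ _ _ h5 h3)
    have h8 := quot_step hTCS hTCE d hn hd c Y (U L Y n ⊔ L.tr ((n : ℤ) + 1) Y)
      (L.tr (-((n : ℤ) + 1)) Y) (hYU.trans le_sup_left)
      ((U_fg L Y hY n).sup (tr_fg L _ Y hY)) (tr_fg L _ Y hY) h7 (quot_mono hTCS c _ _ _ h6 h4)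
    exact h8

end LATM

open LATM in
theorem specLAT (hTCS : SpecTCS) (hTCE : SpecTCE) (hTWI : SpecTWI) : SpecLAT := by
  intro S _ _ S0 _ L d hn hd M _ _ Y hY hG c N hN
  obtain ⟨n, hNU⟩ := le_U L Y hG N hN
  refine ⟨fun h => ?_, fun hYN h1 h2 => ?_⟩
  · exact (hTCS S0 c N (U L Y n) (Submodule.inclusion hNU)).1
      (Submodule.inclusion_injective hNU) (U_tc hTCS hTCE hTWI L d hn hd c Y hY h n)
  · exact sub_quot hTCS c Y N (U L Y n) hNU (U_quot hTCS hTCE hTWI L d hn hd c Y hY h1 h2 n)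

end Pool.Agent.Lib.MP8a3537.AUL
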