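import Pool.Agent.Lib.MP_8a3537_gt.AUL.Spec

/-!
# AUL, module LES (helper87): the dual of a cone
-/

namespace Pool.Agent.Lib.MP8a3537.AUL

open Matrix

namespace LESM

section

variable {A : Type} [Ring A]

theorem inDeg_e (C : FC A) {q : ℤ} {x : C.I → A} (hx : InDeg C.deg q x) :
    InDeg C.deg (q + 1) (x ᵥ* C.e) := by
  intro j hj
  show ∑ i, x i * C.e i j = 0
  apply Finset.sum_eq_zero
  intro i _
  by_cases h : C.e i j = 0
  · rw [h, mul_zero]
  · have := C.he i j h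
    rw [hx i (by omega), zero_mul]

theorem part_e (C : FC A) (q : ℤ) (y : C.I → A) :
    part C.deg q (y ᵥ* C.e) = part C.deg (q - 1) y ᵥ* C.e := by
  funext j
  show (if C.deg j = q then ∑ i, y i * C.e i j else 0) =
    ∑ i, (if C.deg i = q - 1 then y i else 0) * C.e i j
  split_ifs with h
  · refine Finset.sum_congr rfl fun i _ => ?_
    by_cases h0 : C.e i j = 0
    · rw [h0, mul_zero, mul_zero]
    · have := C.he i j h0
      rw [if_pos (by omega)]
  · symm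
    apply Finset.sum_eq_zero
    intro i _
    by_cases h0 : C.e i j = 0
    · rw [h0, mul_zero]
    · have := C.he i j h0
      rw [if_neg (by omega), zero_mul]

theorem pre (C : FC A) {q : ℤ} {x y : C.I → A} (hx : InDeg C.deg q x) (h : x = y ᵥ* C.e) :
    ∃ z : C.I → A, InDeg C.deg (q - 1) z ∧ x = z ᵥ* C.e := by
  refine ⟨part C.deg (q - 1) y, fun i hi => if_neg hi, ?_⟩
  rw [← part_e, ← h]
  funext i
  show x i = if C.deg i = q then x i else 0
  split_ifs with h1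
  · rfl
  · exact hx i h1

theorem inDeg_sub {I : Type} {deg : I → ℤ} {q : ℤ} {x y : I → A} (hx : InDeg deg q x)
    (hy : InDeg deg q y) : InDeg deg q (x - y) := by
  intro i hi
  rw [Pi.sub_apply, hx i hi, hy i hi, sub_zero]

end

variable {A : Type} [Ring A] [StarRing A]

theorem preD (C : FC A) {q : ℤ} {x y : C.I → A} (hx : InDeg C.dual.deg q x)
    (h : x = y ᵥ* C.eᴴ) : ∃ z : C.I → A, InDeg C.dual.deg (q - 1) z ∧ x = z ᵥ* C.eᴴ :=
  pre C.dual hx h

theorem exD {C : FC A} {q : ℤ} (h : C.dual.ExactAt q) (x : C.I → A)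
    (hx : InDeg C.dual.deg q x) (h0 : x ᵥ* C.eᴴ = 0) : ∃ y : C.I → A, x = y ᵥ* C.eᴴ :=
  h x hx h0

variable {C D : FC A} {u : Matrix D.I C.I A} (hu : IsChain D C u)

theorem inDeg_u (C D : FC A) {u : Matrix D.I C.I A} {q : ℤ} {y : C.I → A}
    (hy : InDeg C.dual.deg q y) (hu : IsChain D C u) :
    InDeg D.dual.deg q (y ᵥ* uᴴ : D.I → A) := by
  intro i hi
  show ∑ j, y j * uᴴ j i = 0
  apply Finset.sum_eq_zero
  intro j _
  by_cases h : u i j = 0
  · rw [conjTranspose_apply, h, star_zero, mul_zero]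
  · have h1 := hu.deg i j h
    have h2 : C.dual.deg j ≠ q := by
      intro h3
      apply hi
      show - D.deg i = q
      rw [← h1]
      exact h3
    rw [hy j h2, zero_mul]

theorem comm' (hu : IsChain D C u) : C.eᴴ * uᴴ = uᴴ * D.eᴴ := by
  rw [← conjTranspose_mul, ← conjTranspose_mul, hu.comm]

/-- a row of the dual of the cone -/
def row (hu : IsChain D C u) (y : C.I → A) (y' : D.I → A) : (cone C D u hu).dual.I → A :=
  Sum.elim y y'

/-- the differential of the dual of the cone -/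
theorem row_vm (y : C.I → A) (y' : D.I → A) :
    row hu y y' ᵥ* (cone C D u hu).dual.e =
      row hu (y ᵥ* C.eᴴ) (y ᵥ* uᴴ - y' ᵥ* D.eᴴ) := by
  have h : (fromBlocks C.e 0 u (-D.e))ᴴ = fromBlocks C.eᴴ uᴴ 0 (-D.eᴴ) := by
    rw [fromBlocks_conjTranspose, conjTranspose_zero, conjTranspose_neg]
  have h2 : (Sum.elim y y' : C.I ⊕ D.I → A) ᵥ* (fromBlocks C.e 0 u (-D.e))ᴴ =
      Sum.elim (y ᵥ* C.eᴴ) (y ᵥ* uᴴ - y' ᵥ* D.eᴴ) := by
    rw [h, vecMul_fromBlocks]
    have h3 : (Sum.elim y y' : C.I ⊕ D.I → A) ∘ Sum.inl = y := rfl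
    have h4 : (Sum.elim y y' : C.I ⊕ D.I → A) ∘ Sum.inr = y' := rfl
    rw [h3, h4, vecMul_zero, add_zero, vecMul_neg, sub_eq_add_neg]
  exact h2

theorem row_inDeg {q : ℤ} {y : C.I → A} {y' : D.I → A} :
    InDeg (cone C D u hu).dual.deg q (row hu y y') ↔
      InDeg C.dual.deg q y ∧ InDeg D.dual.deg (q - 1) y' := by
  constructor
  · intro h
    refine ⟨fun i hi => h (Sum.inl i) hi, fun i hi => h (Sum.inr i) ?_⟩
    intro h1
    apply hi
    have h2 : -(D.deg i - 1) = q := h1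
    show - D.deg i = q - 1
    omega
  · rintro ⟨h1, h2⟩ (i | i) hi
    · exact h1 i hi
    · apply h2 i
      intro h3
      apply hi
      have h4 : - D.deg i = q - 1 := h3
      show -(D.deg i - 1) = q
      omega

theorem row_eta (x : (cone C D u hu).dual.I → A) :
    ∃ (y : C.I → A) (y' : D.I → A), x = row hu y y' := by
  refine ⟨fun i => x (Sum.inl i), fun i => x (Sum.inr i), ?_⟩
  funext i
  rcases i with i | i <;> rfl

theorem row_inj {x x' : C.I → A} {y y' : D.I → A} (h : row hu x y = row hu x' y') :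
    x = x' ∧ y = y' := by
  constructor
  · funext i
    exact congrFun h (Sum.inl i)
  · funext i
    exact congrFun h (Sum.inr i)

theorem row_zero : row hu (0 : C.I → A) 0 = 0 := by
  funext i
  rcases i with i | i <;> rfl

theorem row_add (x x' : C.I → A) (y y' : D.I → A) :
    row hu (x + x') (y + y') = row hu x y + row hu x' y' := by
  funext i
  rcases i with i | i <;> rfl

theorem row_sub (x x' : C.I → A) (y y' : D.I → A) :
    row hu x y - row hu x' y' = row hu (x - x') (y - y') := by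
  funext i
  rcases i with i | i <;> rfl

theorem row_smul (a : A) (x : C.I → A) (y : D.I → A) :
    row hu (a • x) (a • y) = a • row hu x y := by
  funext i
  rcases i with i | i <;> rfl

/-- the main computation: a cocycle `(y, y')` with `y = z ᵥ* C.eᴴ` -/
theorem cocyc {q : ℤ} {y z : C.I → A} {y' : D.I → A} (hy' : InDeg D.dual.deg (q - 1) y')
    (hz : InDeg C.dual.deg (q - 1) z) (h1 : y = z ᵥ* C.eᴴ)
    (h2 : (y ᵥ* uᴴ - y' ᵥ* D.eᴴ : D.I → A) = 0) (hu : IsChain D C u) :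
    InDeg D.dual.deg (q - 1) (y' - z ᵥ* uᴴ : D.I → A) ∧
      (y' - z ᵥ* uᴴ : D.I → A) ᵥ* D.eᴴ = 0 := by
  refine ⟨inDeg_sub hy' (inDeg_u C D hz hu), ?_⟩
  rw [sub_vecMul, vecMul_vecMul, ← comm' hu, ← vecMul_vecMul, ← h1, ← neg_sub, h2, neg_zero]

theorem part1 (q : ℤ) (hC : C.dual.ExactAt q) (hD : D.dual.ExactAt (q - 1)) :
    (cone C D u hu).dual.ExactAt q := by
  intro x hx hx0
  obtain ⟨y, y', rfl⟩ := row_eta hu x
  rw [row_inDeg] at hx
  rw [row_vm, ← row_zero hu] at hx0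
  obtain ⟨h1, h2⟩ := row_inj hu hx0
  obtain ⟨z0, hz0⟩ := exD hC y hx.1 h1
  obtain ⟨z, hz, hz'⟩ := preD C hx.1 hz0
  obtain ⟨h3, h4⟩ := cocyc hx.2 hz hz' h2 hu
  obtain ⟨w, hw⟩ := exD hD _ h3 h4
  refine ⟨row hu z (-w), ?_⟩
  rw [row_vm, ← hz', neg_vecMul, sub_neg_eq_add, ← hw]
  congr 1
  abel

theorem part2 (q : ℤ) (hE : (cone C D u hu).dual.ExactAt q) (hD : D.dual.ExactAt q) :
    C.dual.ExactAt q := by
  have key : ∀ y : C.I → A, InDeg C.dual.deg q y → y ᵥ* C.eᴴ = 0 →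
      ∃ z : C.I → A, y = z ᵥ* C.eᴴ := by
    intro y hy e0
    have hyu := inDeg_u C D hy hu
    obtain ⟨z0, hz0⟩ := exD hD (y ᵥ* uᴴ : D.I → A) hyu (by
      rw [vecMul_vecMul, ← comm' hu, ← vecMul_vecMul, e0, zero_vecMul])
    obtain ⟨z, hz, e1⟩ := preD D hyu hz0
    obtain ⟨w, hw⟩ := hE (row hu y z) ((row_inDeg hu).2 ⟨hy, hz⟩) (by
      rw [row_vm, e0, e1, sub_self, row_zero])
    obtain ⟨w1, w2, rfl⟩ := row_eta hu w
    rw [row_vm] at hw
    exact ⟨_, (row_inj hu hw).1⟩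
  exact key

/-- `y' ↦ (0, y')` on cocycles -/
def gZ (q : ℤ) : D.dual.Z (q - 1) →ₗ[A] (cone C D u hu).dual.Z q where
  toFun y := ⟨row hu 0 y.1, (row_inDeg hu).2 ⟨fun _ _ => rfl, y.2.1⟩, by
    have e : (show D.I → A from y.1) ᵥ* D.eᴴ = 0 := y.2.2
    refine (row_vm hu 0 y.1).trans ?_
    rw [zero_vecMul, zero_vecMul]
    refine Eq.trans ?_ (row_zero hu)
    congr 1
    exact (congrArg (fun v : D.I → A => 0 - v) e).trans (sub_zero 0)⟩
  map_add' x y := by
    apply Subtype.ext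
    funext i
    rcases i with i | i
    · exact (add_zero (0 : A)).symm
    · rfl
  map_smul' a x := by
    apply Subtype.ext
    funext i
    rcases i with i | i
    · exact (mul_zero a).symm
    · rfl

/-- `(y, y') ↦ y` -/
def fst (x : (cone C D u hu).dual.I → A) : C.I → A := fun i => x (Sum.inl i)

theorem fst_row (y : C.I → A) (y' : D.I → A) : fst hu (row hu y y') = y := rfl

/-- `(y, y') ↦ y` on cocycles -/
def fZ (q : ℤ) : (cone C D u hu).dual.Z q →ₗ[A] C.dual.Z q where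
  toFun x := ⟨(fst (C := C) (D := D) (u := u) hu x.1 : C.I → A), by
    obtain ⟨x, h1, h2⟩ := x
    obtain ⟨y, y', rfl⟩ := row_eta hu x
    rw [row_inDeg] at h1
    rw [row_vm, ← row_zero hu] at h2
    exact ⟨h1.1, (row_inj hu h2).1⟩⟩
  map_add' x y := rfl
  map_smul' a x := rfl

theorem fZ_B (q : ℤ) : ((cone C D u hu).dual.B q).submoduleOf ((cone C D u hu).dual.Z q) ≤
    ((C.dual.B q).submoduleOf (C.dual.Z q)).comap (fZ hu q) := by
  intro x hx
  obtain ⟨h1, w, hw⟩ : x.1 ∈ (cone C D u hu).dual.B q := hx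
  show fst hu x.1 ∈ C.dual.B q
  obtain ⟨w1, w2, rfl⟩ := row_eta hu w
  rw [row_vm] at hw
  rw [hw, row_inDeg] at h1
  rw [hw, fst_row]
  exact ⟨h1.1, w1, rfl⟩

theorem mem_B_iff (q : ℤ) (y : D.I → A) (hy : InDeg D.dual.deg (q - 1) y) :
    row hu 0 y ∈ (cone C D u hu).dual.B q ↔
        ∃ (z : C.I → A) (b : D.I → A), z ∈ C.dual.Z (q - 1) ∧ b ∈ D.dual.B (q - 1) ∧
          y = (z ᵥ* uᴴ + b : D.I → A) := by
  constructor
  · rintro ⟨h1, w0, hw0⟩
    obtain ⟨w, hw, hw'⟩ := pre (cone C D u hu).dual h1 hw0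
    obtain ⟨w1, w2, rfl⟩ := row_eta hu w
    rw [row_inDeg] at hw
    rw [row_vm] at hw'
    obtain ⟨e1, e2⟩ := row_inj hu hw'
    refine ⟨w1, -(w2 ᵥ* D.eᴴ), ⟨hw.1, e1.symm⟩, ⟨?_, ?_⟩, ?_⟩
    · intro i hi
      have h5 : InDeg D.dual.deg (q - 1 - 1 + 1) (w2 ᵥ* D.eᴴ) := inDeg_e D.dual hw.2
      have h6 : q - 1 - 1 + 1 = q - 1 := by ring
      rw [h6] at h5
      exact neg_eq_zero.2 (h5 i hi)
    · refine ⟨-w2, ?_⟩
      exact (neg_vecMul w2 D.eᴴ).symm
    · rw [e2, sub_eq_add_neg]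
  · rintro ⟨z, b, hz, ⟨hb, b', hb'⟩, hy'⟩
    refine ⟨(row_inDeg hu).2 ⟨fun _ _ => rfl, hy⟩, row hu z (-(show D.I → A from b')), ?_⟩
    have e1 : z ᵥ* C.eᴴ = 0 := hz.2
    have e2 : b = (show D.I → A from b') ᵥ* D.eᴴ := hb'
    rw [row_vm, e1, neg_vecMul, sub_neg_eq_add, ← e2, ← hy']

theorem part3 (q : ℤ) : ∃ (g : D.dual.Z (q - 1) →ₗ[A] (cone C D u hu).dual.H q)
      (f : (cone C D u hu).dual.H q →ₗ[A] C.dual.H q),
      LinearMap.ker f = LinearMap.range g ∧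
      ∀ y : D.dual.Z (q - 1), g y = 0 ↔
        ∃ (z : C.I → A) (b : D.I → A), z ∈ C.dual.Z (q - 1) ∧ b ∈ D.dual.B (q - 1) ∧
          y.1 = (z ᵥ* uᴴ + b : D.I → A) := by
  refine ⟨(Submodule.mkQ _).comp (gZ hu q), Submodule.mapQ _ _ (fZ hu q) (fZ_B hu q), ?_, ?_⟩
  · apply le_antisymm
    · intro x hx
      obtain ⟨⟨x0, hx1, hx2⟩, rfl⟩ := Submodule.Quotient.mk_surjective _ x
      rw [LinearMap.mem_ker, Submodule.mapQ_apply, Submodule.Quotient.mk_eq_zero] at hx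
      obtain ⟨y, y', rfl⟩ := row_eta hu x0
      obtain ⟨-, z0, hz0⟩ : y ∈ C.dual.B q := hx
      have hc1 := (row_inDeg hu).1 hx1
      have hc2 := hx2
      rw [row_vm, ← row_zero hu] at hc2
      have h2 := (row_inj hu hc2).2
      obtain ⟨z, hz, e1⟩ := preD C hc1.1 hz0
      obtain ⟨h3, h4⟩ := cocyc hc1.2 hz e1 h2 hu
      refine ⟨⟨(y' - z ᵥ* uᴴ : D.I → A), h3, h4⟩, ?_⟩
      rw [LinearMap.comp_apply, Submodule.mkQ_apply, Submodule.Quotient.eq]
      show row hu 0 (y' - z ᵥ* uᴴ : D.I → A) - row hu y y' ∈ (cone C D u hu).dual.B q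
      have e2 : row hu 0 (y' - z ᵥ* uᴴ : D.I → A) - row hu y y' =
          row hu (-y) (-(z ᵥ* uᴴ) : D.I → A) := by
        rw [row_sub, zero_sub]
        congr 1
        abel
      rw [e2]
      refine ⟨(row_inDeg hu).2 ⟨fun i hi => ?_, fun i hi => ?_⟩, row hu (-z) 0, ?_⟩
      · rw [Pi.neg_apply, hc1.1 i hi, neg_zero]
      · rw [Pi.neg_apply, inDeg_u C D hz hu i hi, neg_zero]
      · rw [row_vm, neg_vecMul, neg_vecMul, zero_vecMul, sub_zero, ← e1]
    · rintro _ ⟨y, rfl⟩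
      rw [LinearMap.mem_ker, LinearMap.comp_apply, Submodule.mkQ_apply, Submodule.mapQ_apply,
        Submodule.Quotient.mk_eq_zero]
      exact (C.dual.B q).zero_mem
  · intro y
    rw [LinearMap.comp_apply, Submodule.mkQ_apply, Submodule.Quotient.mk_eq_zero]
    exact mem_B_iff hu q y.1 y.2.1

end LESM

theorem specLES : SpecLES := by
  intro A _ _ C D u hu
  exact ⟨fun q h1 h2 => LESM.part1 hu q h1 h2, fun q h1 h2 => LESM.part2 hu q h1 h2,
    fun q => LESM.part3 hu q⟩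

end Pool.Agent.Lib.MP8a3537.AUL
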