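import Pool.Agent.Lib.MP_8a3537_gt.AUL.Spec

/-!
# The Auslander condition for Laurent extensions: module LOC
-/

namespace Pool.Agent.Lib.MP8a3537.AUL

open Matrix

namespace LOCM

/-- Transport of a resolution along a linear equivalence. -/
def resCongr {A : Type} [Ring A] {C : FC A} {X Y : Type} [AddCommGroup X] [Module A X]
    [AddCommGroup Y] [Module A Y] (r : Res C X) (f : X ≃ₗ[A] Y) : Res C Y where
  pi := f.toLinearMap ∘ₗ r.pi
  isRes := r.isRes
  low := fun q x hq hx => by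
    rw [LinearMap.comp_apply, r.low q x hq hx, map_zero]
  surj := by
    intro y
    obtain ⟨x, hx⟩ := r.surj (f.symm y)
    exact ⟨x, by rw [LinearMap.comp_apply, hx]; exact f.apply_symm_apply y⟩
  zero := fun y => by
    rw [LinearMap.comp_apply, r.zero y, map_zero]
  ker := fun x hx h => by
    refine r.ker x hx ?_
    have h1 : f (r.pi x) = 0 := h
    exact (LinearEquiv.map_eq_zero_iff f).1 h1

/-- `T_c` gives the grade condition for the module itself. -/
theorem gr_of_tc {A : Type} [Ring A] [StarRing A] {c : ℤ} {X : Type} [AddCommGroup X] [Module A X]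
    (h : Tc A c X) : Gr A c X := by
  obtain ⟨C, ⟨r⟩, hC⟩ := h ⊤
  exact ⟨C, ⟨resCongr r Submodule.topEquiv⟩, hC⟩

end LOCM

open LOCM in
theorem specLOC (hLES : SpecLES) (hBCE : SpecBCE) (hEXN : SpecEXN) (hMAK : SpecMAK)
    (hPHC : SpecPHC) (hCHR : SpecCHR) (hTCS : SpecTCS) (hLAT : SpecLAT) : SpecLOC := by
  intro S _ _ S0 _ L d hn0 hn hfr M _ _ hM Y hY hGY c hTY X
  have : IsNoetherianRing S := hn
  have : Module.Finite S M := hM
  have : IsNoetherian S M := isNoetherian_of_isNoetherianRing_of_finite S M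
  have hX : Module.Finite S X := Module.IsNoetherian.finite S X
  obtain ⟨N, hNfg, -, hNG, hNX⟩ := hEXN S S0 L hn X hX ⊥ Submodule.fg_bot
  let ι : X →ₗ[S0] M :=
    { toFun := fun x => (x : M)
      map_add' := fun _ _ => rfl
      map_smul' := fun _ _ => rfl }
  have hι : Function.Injective ι := fun a b h => Subtype.ext h
  have hTN' : Tc S0 c (N.map ι) :=
    ((hLAT S S0 L d hn0 hfr M Y hY hGY c (N.map ι) (hNfg.map ι)).1) hTY
  have hTN : Tc S0 c N := by
    refine (hTCS S0 c N (N.map ι) (ι.submoduleMap N)).1 ?_ hTN'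
    intro a b h
    have h1 := congrArg (Subtype.val) h
    exact Subtype.ext (hι h1)
  have hTP : Tc S0 c (L.pr N) :=
    (hTCS S0 c (L.pr N) N (Submodule.inclusion inf_le_left)).1
      (Submodule.inclusion_injective _) hTN
  obtain ⟨C, ⟨r⟩, hC⟩ := gr_of_tc hTN
  obtain ⟨D, ⟨s⟩, hD⟩ := gr_of_tc hTP
  obtain ⟨u, w, hdata⟩ := hMAK S S0 L X N C D r s
  have hP := hPHC S S0 L C D u w hdata.hu hdata.hw
  obtain ⟨res⟩ := hCHR S S0 L X N hNG hNX C D r s u w hdata hP
  refine ⟨cone (bc C) (bc D) (L.phi u w) hP, ⟨res⟩, fun q hq => ?_⟩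
  refine (hLES S (bc C) (bc D) (L.phi u w) hP).1 q ?_ ?_
  · rw [bc_dual]
    exact (hBCE S S0 L).1 C.dual q (hC q hq)
  · rw [bc_dual]
    exact (hBCE S S0 L).1 D.dual (q - 1) (hD (q - 1) (by omega))

end Pool.Agent.Lib.MP8a3537.AUL
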