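import Pool.Agent.Lib.MP_8a3537_gt.AUL.Spec

/-!
AUL, module MAK: existence of the chain maps `u` and `w`.
-/

namespace Pool.Agent.Lib.MP8a3537.AUL

open Matrix

namespace MAKM

variable {S : Type} [Ring S] [StarRing S] {S0 : Subring S} (L : Lau S0)

theorem star_t_inv : star ((L.t⁻¹ : Sˣ) : S) = (L.t : S) := by
  have h := congrArg star L.star_t
  rw [star_star] at h
  exact h.symm

theorem sg_symm_star [StarSub S0] (a : S0) : L.sg.symm (star a) = star (L.sg.symm a) := by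
  apply Subtype.ext
  rw [coe_star, L.coe_sg_symm, L.coe_sg_symm, coe_star, star_mul, star_mul, L.star_t,
    star_t_inv L, mul_assoc]

variable {M : Type} [AddCommGroup M] [Module S M] (N : Submodule S0 M)

theorem zpow_one' : ((L.t ^ (-(-1 : ℤ)) : Sˣ) : S) = (L.t : S) := by
  norm_num

theorem t_smul_inv (m : M) : (L.t : S) • (((L.t⁻¹ : Sˣ) : S) • m) = m := by
  rw [smul_smul, Units.mul_inv, one_smul]

theorem t_inv_smul (m : M) : ((L.t⁻¹ : Sˣ) : S) • ((L.t : S) • m) = m := by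
  rw [smul_smul, Units.inv_mul, one_smul]

/-- multiplication by `t⁻¹` -/
def tinv : N ≃+ L.tr (-1) N where
  toFun n := ⟨((L.t⁻¹ : Sˣ) : S) • (n : M), by
    rw [L.mem_tr, zpow_one', t_smul_inv]
    exact n.2⟩
  invFun n := ⟨(L.t : S) • (n : M), by
    have h := n.2
    rw [L.mem_tr, zpow_one'] at h
    exact h⟩
  left_inv n := Subtype.ext (t_smul_inv L (n : M))
  right_inv n := Subtype.ext (t_inv_smul L (n : M))
  map_add' x y := Subtype.ext (smul_add _ (x : M) (y : M))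

theorem tinv_coe (n : N) : ((tinv L N n : L.tr (-1) N) : M) = ((L.t⁻¹ : Sˣ) : S) • (n : M) := rfl

theorem tinv_smul (a : S0) (n : N) : tinv L N (a • n) = L.sg.symm a • tinv L N n := by
  apply Subtype.ext
  rw [tinv_coe, Submodule.coe_smul, Submodule.coe_smul, tinv_coe, Subring.smul_def,
    Subring.smul_def, L.coe_sg_symm, smul_smul, smul_smul]
  congr 1
  rw [mul_assoc, Units.mul_inv, mul_one]

end MAKM

open MAKM in
theorem specMAK (hLFT : SpecLFT) (hSEM : SpecSEM) : SpecMAK := by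
  intro S _ _ S0 _ L M _ _ N C D r s
  obtain ⟨u, hu, lu⟩ := hLFT S0 D C (L.pr N) N s r (Submodule.inclusion inf_le_left)
  obtain ⟨r', hr'⟩ := ((hSEM S0 S0 L.sg.symm (sg_symm_star L)).1 N (L.tr (-1) N) (tinv L N)
    (tinv_smul L N)).1 C r
  obtain ⟨w, hw, lw⟩ := hLFT S0 D (C.map (L.sg.symm : S0 →+* S0)) (L.pr N) (L.tr (-1) N) s r'
    (Submodule.inclusion inf_le_right)
  refine ⟨u, w, hu, hw, fun x => ?_, fun x => ?_⟩
  · rw [lu x]
    rfl
  · have h1 := congrArg (fun z : L.tr (-1) N => (z : M)) (lw x)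
    have h2 : ((r'.pi (x ᵥ* w) : L.tr (-1) N) : M) =
        ((L.t⁻¹ : Sˣ) : S) • ((r.pi (fun j => L.sg ((x ᵥ* w) j)) : N) : M) := by
      rw [hr']
      rfl
    have h3 : ((r'.pi (x ᵥ* w) : L.tr (-1) N) : M) = ((s.pi x : L.pr N) : M) := h1
    rw [← h3, h2, t_smul_inv]
    rfl

end Pool.Agent.Lib.MP8a3537.AUL
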