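import Pool.Agent.Lib.MP_8a3537_gt.AUL.Spec

/-!
# NOE: Hilbert's basis theorem for Laurent extensions
-/

set_option autoImplicit false

namespace Pool.Agent.Lib.MP8a3537.AUL

namespace NOEM

variable {S : Type} [Ring S] [StarRing S] {S0 : Subring S}

theorem conj_pow (L : Lau S0) (k : ℕ) : ∀ b ∈ S0,
    (L.t : S) ^ k * b * ((L.t⁻¹ : Sˣ) : S) ^ k ∈ S0 ∧
      ((L.t⁻¹ : Sˣ) : S) ^ k * b * (L.t : S) ^ k ∈ S0 := by
  induction k with
  | zero => intro b hb; simpa using hb
  | succ k ih =>
    intro b hb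
    constructor
    · have h := (ih _ (L.conj_mem b hb)).1
      rw [pow_succ, pow_succ']
      simpa only [mul_assoc] using h
    · have h := (ih _ (L.conj_mem' b hb)).2
      rw [pow_succ, pow_succ']
      simpa only [mul_assoc] using h

theorem inv_pow_mul (L : Lau S0) (k : ℕ) :
    ((L.t⁻¹ : Sˣ) : S) ^ k * (L.t : S) ^ k = 1 := by
  rw [← Units.val_pow_eq_pow_val, ← Units.val_pow_eq_pow_val, ← Units.val_mul, inv_pow,
    inv_mul_cancel, Units.val_one]

theorem pow_mul_inv (L : Lau S0) (k : ℕ) :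
    (L.t : S) ^ k * ((L.t⁻¹ : Sˣ) : S) ^ k = 1 := by
  rw [← Units.val_pow_eq_pow_val, ← Units.val_pow_eq_pow_val, ← Units.val_mul, inv_pow,
    mul_inv_cancel, Units.val_one]

/-- Polynomials of degree `< k`. -/
def P (L : Lau S0) (k : ℕ) : Submodule S0 S :=
  Submodule.span S0 {s | ∃ j < k, s = (L.t : S) ^ j}

theorem P_mono (L : Lau S0) {k l : ℕ} (h : k ≤ l) : P L k ≤ P L l :=
  Submodule.span_mono (by rintro s ⟨j, hj, rfl⟩; exact ⟨j, by omega, rfl⟩)

theorem P_fg (L : Lau S0) (k : ℕ) : (P L k).FG := by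
  classical
  refine ⟨(Finset.range k).image (fun j => (L.t : S) ^ j), ?_⟩
  unfold P
  congr 1
  ext s
  simp only [Finset.coe_image, Finset.coe_range, Set.mem_image, Set.mem_Iio, Set.mem_ofPred_eq]
  constructor
  · rintro ⟨j, hj, rfl⟩; exact ⟨j, hj, rfl⟩
  · rintro ⟨j, hj, rfl⟩; exact ⟨j, hj, rfl⟩

theorem tpow_mul_mem (L : Lau S0) {k j : ℕ} (hj : j < k) (a : S) (ha : a ∈ S0) :
    (L.t : S) ^ j * a ∈ P L k := by
  have h1 : (L.t : S) ^ j * a =
      (⟨(L.t : S) ^ j * a * ((L.t⁻¹ : Sˣ) : S) ^ j, (conj_pow L j a ha).1⟩ : S0) • (L.t : S) ^ j := by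
    rw [Subring.smul_def]
    simp only [smul_eq_mul]
    rw [mul_assoc _ (((L.t⁻¹ : Sˣ) : S) ^ j), inv_pow_mul, mul_one]
  rw [h1]
  exact Submodule.smul_mem _ _ (Submodule.subset_span ⟨j, hj, rfl⟩)

theorem t_mul_mem (L : Lau S0) {k : ℕ} {p : S} (hp : p ∈ P L k) : (L.t : S) * p ∈ P L (k + 1) := by
  unfold P at hp
  induction hp using Submodule.span_induction with
  | mem x hx =>
    obtain ⟨j, hj, rfl⟩ := hx
    exact Submodule.subset_span ⟨j + 1, by omega, by rw [pow_succ']⟩
  | zero => rw [mul_zero]; exact Submodule.zero_mem _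
  | add x y _ _ hx hy => rw [mul_add]; exact Submodule.add_mem _ hx hy
  | smul a x _ hx =>
    have h1 : (L.t : S) * (a • x) = (L.sg a) • ((L.t : S) * x) := by
      rw [Subring.smul_def, Subring.smul_def, L.coe_sg]
      simp only [smul_eq_mul, mul_assoc, Units.inv_mul_cancel_left]
    rw [h1]
    exact Submodule.smul_mem _ _ hx

theorem tpow_P (L : Lau S0) (n : ℕ) {k : ℕ} {p : S} (hp : p ∈ P L k) :
    (L.t : S) ^ n * p ∈ P L (k + n) := by
  induction n with
  | zero => simpa using hp
  | succ n ih =>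
    rw [pow_succ', mul_assoc]
    exact t_mul_mem L ih

theorem exists_pow (L : Lau S0) (s : S) : ∃ n k : ℕ, (L.t : S) ^ n * s ∈ P L k := by
  obtain ⟨f, rfl⟩ := L.bij.2 s
  simp only
  induction f using Finsupp.induction_linear with
  | zero => exact ⟨0, 0, by simp⟩
  | add f g hf hg =>
    obtain ⟨n, k, h⟩ := hf
    obtain ⟨n', k', h'⟩ := hg
    refine ⟨n + n', max (k + n') (k' + n), ?_⟩
    rw [Finsupp.sum_add_index' (fun k => by simp) (fun k a b => by simp [mul_add]), mul_add]
    refine Submodule.add_mem _ ?_ ?_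
    · rw [add_comm n n', pow_add, mul_assoc]
      exact P_mono L (le_max_left _ _) (tpow_P L n' h)
    · rw [pow_add, mul_assoc]
      exact P_mono L (le_max_right _ _) (tpow_P L n h')
  | single i a =>
    rw [Finsupp.sum_single_index (by simp)]
    rcases Int.eq_nat_or_neg i with ⟨m, hm | hm⟩
    · refine ⟨0, m + 1, ?_⟩
      rw [pow_zero, one_mul, hm, zpow_natCast, Units.val_pow_eq_pow_val]
      exact tpow_mul_mem L (Nat.lt_succ_self m) a a.2
    · refine ⟨m, 1, ?_⟩
      have h1 : (L.t : S) ^ m * (((L.t ^ i : Sˣ) : S) * (a : S)) = (L.t : S) ^ 0 * (a : S) := by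
        rw [← mul_assoc, ← Units.val_pow_eq_pow_val, ← Units.val_mul, hm, ← zpow_natCast, ← zpow_add,
          add_neg_cancel, zpow_zero, Units.val_one, pow_zero]
      rw [h1]
      exact tpow_mul_mem L Nat.one_pos a a.2

theorem P_succ (L : Lau S0) {k : ℕ} {l : S} (hl : l ∈ P L (k + 1)) :
    ∃ a : S0, ∃ m ∈ P L k, l = (L.t : S) ^ k * (a : S) + m := by
  unfold P at hl
  induction hl using Submodule.span_induction with
  | mem x hx =>
    obtain ⟨j, hj, rfl⟩ := hx
    rcases Nat.lt_succ_iff_lt_or_eq.mp hj with h | rfl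
    · exact ⟨0, (L.t : S) ^ j, Submodule.subset_span ⟨j, h, rfl⟩, by simp⟩
    · exact ⟨1, 0, Submodule.zero_mem _, by simp⟩
  | zero => exact ⟨0, 0, Submodule.zero_mem _, by simp⟩
  | add x y _ _ hx hy =>
    obtain ⟨a, m, hm, rfl⟩ := hx
    obtain ⟨b, m', hm', rfl⟩ := hy
    refine ⟨a + b, m + m', Submodule.add_mem _ hm hm', ?_⟩
    rw [Subring.coe_add, mul_add]
    abel
  | smul c x _ hx =>
    obtain ⟨a, m, hm, rfl⟩ := hx
    refine ⟨⟨((L.t⁻¹ : Sˣ) : S) ^ k * (c : S) * (L.t : S) ^ k, (conj_pow L k c c.2).2⟩ * a, c • m,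
      Submodule.smul_mem _ _ hm, ?_⟩
    have h1 := pow_mul_inv L k
    rw [smul_add, Subring.coe_mul, Subring.smul_def, Subring.smul_def]
    simp only [smul_eq_mul]
    congr 1
    simp only [← mul_assoc]
    rw [h1, one_mul]

end NOEM

open NOEM in
theorem specNOE : SpecNOE := by
  intro S _ _ S0 _ L hN
  rw [isNoetherianRing_iff_ideal_fg]
  intro J
  -- the leading coefficients
  let Λ : ℕ →o Submodule S0 S0 :=
    { toFun := fun k =>
        { carrier := {a | ∃ m ∈ P L k, (L.t : S) ^ k * (a : S) + m ∈ J}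
          add_mem' := by
            rintro a b ⟨m, hm, h⟩ ⟨m', hm', h'⟩
            refine ⟨m + m', Submodule.add_mem _ hm hm', ?_⟩
            have := J.add_mem h h'
            rw [Subring.coe_add, mul_add]
            convert this using 1
            abel
          zero_mem' := ⟨0, Submodule.zero_mem _, by simp⟩
          smul_mem' := by
            rintro c a ⟨m, hm, h⟩
            have hc := (conj_pow L k c c.2).1
            refine ⟨(⟨_, hc⟩ : S0) • m, Submodule.smul_mem _ _ hm, ?_⟩
            have h1 := inv_pow_mul L k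
            have h2 := J.mul_mem_left ((L.t : S) ^ k * (c : S) * ((L.t⁻¹ : Sˣ) : S) ^ k) h
            convert h2 using 1
            rw [mul_add, Subring.smul_def]
            simp only [smul_eq_mul, Subring.coe_mul]
            congr 1
            rw [← mul_assoc, mul_assoc _ (((L.t⁻¹ : Sˣ) : S) ^ k) _, ← mul_assoc _ _ (a : S), h1,
              one_mul] }
      monotone' := by
        apply monotone_nat_of_le_succ
        rintro k a ⟨m, hm, h⟩
        refine ⟨(L.t : S) * m, t_mul_mem L hm, ?_⟩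
        have := J.mul_mem_left (L.t : S) h
        rwa [mul_add, ← mul_assoc, ← pow_succ'] at this }
  obtain ⟨K, hK⟩ := monotone_stabilizes_iff_noetherian.mpr hN Λ
  let Q : Submodule S0 S := (J.restrictScalars S0) ⊓ P L (K + 1)
  have hQ : Q.FG := by
    have : IsNoetherian S0 (P L (K + 1)) := isNoetherian_of_fg_of_noetherian _ (P_fg L _)
    have := (isNoetherian_submodule.mp this) Q inf_le_right
    exact this
  obtain ⟨G, hG⟩ := hQ
  refine ⟨G, le_antisymm ?_ ?_⟩
  · rw [Submodule.span_le]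
    intro g hg
    have : g ∈ Q := by rw [← hG]; exact Submodule.subset_span hg
    exact this.1
  · -- the span contains `J ⊓ P k`
    set T : Submodule S S := Submodule.span S (G : Set S) with hT
    have hQT : ∀ s ∈ Q, s ∈ T := by
      intro s hs
      rw [← hG] at hs
      have : Submodule.span S0 (G : Set S) ≤ T.restrictScalars S0 :=
        Submodule.span_le.mpr (fun g hg => Submodule.subset_span hg)
      exact this hs
    have key : ∀ k : ℕ, ∀ s ∈ J, s ∈ P L (K + 1 + k) → s ∈ T := by
      intro k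
      induction k with
      | zero => intro s hs hs'; exact hQT s ⟨hs, hs'⟩
      | succ k ih =>
        intro l hl hl'
        obtain ⟨a, m, hm, rfl⟩ := P_succ L hl'
        have ha : a ∈ Λ (K + 1 + k) := ⟨m, hm, hl⟩
        have hKK : Λ (K + 1 + k) = Λ (K + k) :=
          (hK (K + 1 + k) (by omega)).symm.trans (hK (K + k) (by omega))
        rw [hKK] at ha
        obtain ⟨m', hm', hl2⟩ := ha
        replace hl : (L.t : S) ^ (K + 1 + k) * (a : S) + m ∈ J := hl
        change (L.t : S) ^ (K + 1 + k) * (a : S) + m ∈ T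
        have e1 : K + 1 + k = K + k + 1 := by omega
        have h3 : (L.t : S) ^ (K + k) * (a : S) + m' ∈ T := by
          refine ih _ hl2 (Submodule.add_mem _ ?_ ?_)
          · exact tpow_mul_mem L (by omega) a a.2
          · exact P_mono L (by omega) hm'
        have h4 : m - (L.t : S) * m' ∈ T := by
          refine ih _ ?_ (Submodule.sub_mem _ hm (by rw [e1]; exact t_mul_mem L hm'))
          have h5 := J.sub_mem hl (J.mul_mem_left (L.t : S) hl2)
          convert h5 using 1
          rw [mul_add, ← mul_assoc, ← pow_succ', e1]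
          abel
        have h6 := T.add_mem h4 (T.smul_mem (L.t : S) h3)
        convert h6 using 1
        rw [smul_eq_mul, mul_add, ← mul_assoc, ← pow_succ', e1]
        abel
    intro s hs
    obtain ⟨n, k, h⟩ := exists_pow L s
    have h1 := key k _ (J.mul_mem_left _ hs) (P_mono L (by omega) h)
    have h2 := T.smul_mem (((L.t⁻¹ : Sˣ) : S) ^ n) h1
    rw [smul_eq_mul, ← mul_assoc, inv_pow_mul, one_mul] at h2
    exact h2

end Pool.Agent.Lib.MP8a3537.AUL
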