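import Pool.Agent.Lib.MP_8a3537_gt.AUL.Spec

/-!
# PHC: the matrix `w t⁻¹ - u` is a chain map
-/

namespace Pool.Agent.Lib.MP8a3537.AUL

open Matrix

namespace PHCM

variable {S : Type} [Ring S] [StarRing S] {S0 : Subring S}

/-- `t⁻¹ a = σ⁻¹(a) t⁻¹`. -/
theorem inv_mul_coe (L : Lau S0) (a : S0) :
    ((L.t⁻¹ : Sˣ) : S) * (a : S) = ((L.sg.symm a : S0) : S) * ((L.t⁻¹ : Sˣ) : S) := by
  rw [L.coe_sg_symm]
  simp [mul_assoc]

end PHCM

theorem specPHC : SpecPHC := by
  intro S _ _ S0 _ L C D u w hu hw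
  constructor
  · intro i j h
    by_cases h1 : u i j = 0
    · by_cases h2 : w i j = 0
      · exfalso
        apply h
        simp [Lau.phi, h1, h2]
      · exact hw.deg i j h2
    · exact hu.deg i j h1
  · have e1 : ∀ i k, ∑ j, D.e i j * w j k = ∑ j, w i j * L.sg.symm (C.e j k) := by
      intro i k
      exact congrFun (congrFun hw.comm i) k
    have e2 : ∀ i k, ∑ j, D.e i j * u j k = ∑ j, u i j * C.e j k := by
      intro i k
      have h := congrFun (congrFun hu.comm i) k
      rw [Matrix.mul_apply, Matrix.mul_apply] at h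
      exact h
    ext i k
    rw [Matrix.mul_apply, Matrix.mul_apply]
    have l1 : ∑ j, (bc D).e i j * L.phi u w j k =
        ((∑ j, D.e i j * w j k : S0) : S) * ((L.t⁻¹ : Sˣ) : S) -
          ((∑ j, D.e i j * u j k : S0) : S) := by
      rw [AddSubmonoidClass.coe_finsetSum, AddSubmonoidClass.coe_finsetSum, Finset.sum_mul,
        ← Finset.sum_sub_distrib]
      refine Finset.sum_congr rfl fun j _ => ?_
      show ((D.e i j : S0) : S) * ((w j k : S) * ((L.t⁻¹ : Sˣ) : S) - (u j k : S)) = _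
      rw [mul_sub, ← mul_assoc]
      rfl
    have l2 : ∑ j, L.phi u w i j * (bc C).e j k =
        ((∑ j, w i j * L.sg.symm (C.e j k) : S0) : S) * ((L.t⁻¹ : Sˣ) : S) -
          ((∑ j, u i j * C.e j k : S0) : S) := by
      rw [AddSubmonoidClass.coe_finsetSum, AddSubmonoidClass.coe_finsetSum, Finset.sum_mul,
        ← Finset.sum_sub_distrib]
      refine Finset.sum_congr rfl fun j _ => ?_
      show ((w i j : S) * ((L.t⁻¹ : Sˣ) : S) - (u i j : S)) * ((C.e j k : S0) : S) = _
      rw [sub_mul, mul_assoc, PHCM.inv_mul_coe, ← mul_assoc]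
      rfl
    exact l1.trans (by rw [e1, e2]; exact l2.symm)

end Pool.Agent.Lib.MP8a3537.AUL
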