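import Pool.Agent.Lib.MP_8a3537_gt.AUL.Spec

/-!
# AUL, module PID: a principal ideal domain is Auslander regular
-/

set_option autoImplicit false

namespace Pool.Agent.Lib.MP8a3537.AUL

open Matrix

namespace PIDM

/-- The zero complex. -/
def zc (A : Type) [Ring A] : FC A where
  I := Empty
  fin := inferInstance
  dec := inferInstance
  deg := fun i => i.elim
  e := 0
  he := fun i => i.elim
  hee := fun i => i.elim

theorem gr_of_subsingleton {A : Type} [Ring A] [StarRing A] (c : ℤ) (N : Type) [AddCommGroup N]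
    [Module A N] [Subsingleton N] : Gr A c N := by
  refine ⟨zc A, ⟨{ pi := 0
                   isRes := ⟨fun i => i.elim, fun q _ x _ _ => ⟨x, funext fun i => i.elim⟩⟩
                   low := fun _ _ _ _ => Subsingleton.elim _ _
                   surj := fun y => ⟨0, Subsingleton.elim _ _⟩
                   zero := fun _ => Subsingleton.elim _ _
                   ker := fun x _ _ => ⟨x, funext fun i => i.elim⟩ }⟩,
    fun q _ x _ _ => ⟨x, funext fun i => i.elim⟩⟩

theorem two_row {R : Type} [Ring R] {m n : ℕ} (E : Matrix (Fin m) (Fin n) R)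
    (y : Fin n ⊕ Fin m → R) :
    (y ᵥ* (two E).e : Fin n ⊕ Fin m → R) = Sum.elim ((y ∘ Sum.inr) ᵥ* E) 0 := by
  show y ᵥ* fromBlocks 0 0 E 0 = _
  rw [vecMul_fromBlocks]
  simp

theorem two_dual_row {R : Type} [Ring R] [StarRing R] {m n : ℕ} (E : Matrix (Fin m) (Fin n) R)
    (y : Fin n ⊕ Fin m → R) :
    (y ᵥ* (two E).dual.e : Fin n ⊕ Fin m → R) =
      Sum.elim (0 : Fin n → R) ((y ∘ Sum.inl) ᵥ* Eᴴ) := by
  show y ᵥ* (fromBlocks 0 0 E 0)ᴴ = _
  rw [fromBlocks_conjTranspose, vecMul_fromBlocks]
  simp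

theorem subs_two {R : Type} [Ring R] [StarRing R] {m n : ℕ} (E : Matrix (Fin m) (Fin n) R)
    (c : ℤ) (hc : 2 ≤ c) : Subsingleton ((two E).dual.H c) := by
  have h0 : ∀ x : (two E).dual.Z c, x = 0 := by
    rintro ⟨x, hx, -⟩
    apply Subtype.ext
    funext i
    apply hx i
    rcases i with i | i
    · show -(0 : ℤ) ≠ c
      omega
    · show -(-1 : ℤ) ≠ c
      omega
  refine ⟨fun a b => ?_⟩
  obtain ⟨x, rfl⟩ := Submodule.Quotient.mk_surjective _ a
  obtain ⟨y, rfl⟩ := Submodule.Quotient.mk_surjective _ b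
  rw [h0 x, h0 y]

theorem kill {R : Type} [CommRing R] [IsDomain R] [StarRing R] {m n : ℕ}
    (E : Matrix (Fin m) (Fin n) R) (r : R)
    (hr : ∀ y : Fin m → R, ∃ x : Fin n → R, r • y = x ᵥ* Eᴴ) (a : (two E).dual.H 1) :
    r • a = 0 := by
  obtain ⟨x, rfl⟩ := Submodule.Quotient.mk_surjective _ a
  rw [← Submodule.Quotient.mk_smul]
  apply (Submodule.Quotient.mk_eq_zero _).2
  show r • (x : (two E).dual.I → R) ∈ (two E).dual.B 1
  obtain ⟨x, hx, hx'⟩ := x
  obtain ⟨z, hz⟩ := hr (fun j => x (Sum.inr j))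
  refine ⟨fun i hi => ?_, (Sum.elim z 0 : Fin n ⊕ Fin m → R), ?_⟩
  · show r • x i = 0
    rw [hx i hi, smul_zero]
  · refine Eq.trans ?_ (two_dual_row E (Sum.elim z 0)).symm
    funext i
    rcases i with i | i
    · show r • x (Sum.inl i) = 0
      rw [hx (Sum.inl i) (by show -(0 : ℤ) ≠ 1; omega), smul_zero]
    · show r • x (Sum.inr i) = ((Sum.elim z 0 ∘ Sum.inl) ᵥ* Eᴴ) i
      exact congrFun hz i

theorem gr_one {R : Type} [CommRing R] [IsDomain R] [StarRing R] {m n : ℕ}
    (F : Matrix (Fin m) (Fin n) R) (N : Type) [AddCommGroup N] [Module R N]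
    (s : Res (two F) N) (r : R) (hr0 : r ≠ 0) (hr : ∀ a : N, r • a = 0) : Gr R 1 N := by
  refine ⟨two F, ⟨s⟩, fun q hq x hx hx' => ?_⟩
  have hx2 : ∀ i : Fin m, x (Sum.inr i) = 0 := fun i =>
    hx (Sum.inr i) (by show -(-1 : ℤ) ≠ q; omega)
  have hx1 : ∀ i : Fin n, x (Sum.inl i) = 0 := by
    intro i
    by_cases h0 : q = 0
    · obtain ⟨w, hw⟩ : ∃ w : (two F).I → R,
          w = (Pi.single (Sum.inl i) 1 : Fin n ⊕ Fin m → R) := ⟨_, rfl⟩
      have e1 := s.ker (r • w) (by
        rintro (j | j) hj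
        · exact absurd rfl hj
        · rw [hw]
          show r • (Pi.single (Sum.inl i) 1 : Fin n ⊕ Fin m → R) (Sum.inr j) = 0
          rw [Pi.single_eq_of_ne (by simp), smul_zero]) ((s.pi.map_smul r w).trans (hr _))
      obtain ⟨y, hy⟩ := e1
      have hy := hy.trans (two_row F y)
      rw [hw] at hy
      have e2 : ∀ j : Fin n, r * (if j = i then 1 else 0) = ∑ k, y (Sum.inr k) * F k j := by
        intro j
        have := congrFun hy (Sum.inl j)
        have e3 : (r • (Pi.single (Sum.inl i) 1 : Fin n ⊕ Fin m → R)) (Sum.inl j) =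
            r * (if j = i then 1 else 0) := by
          rw [Pi.smul_apply, smul_eq_mul, Pi.single_apply]
          simp
        exact e3.symm.trans this
      have hx'' : Sum.elim (0 : Fin n → R) ((x ∘ Sum.inl) ᵥ* Fᴴ) = (0 : Fin n ⊕ Fin m → R) :=
        (two_dual_row F x).symm.trans hx'
      have e4 : ∀ k : Fin m, ∑ j, F k j * star (x (Sum.inl j)) = 0 := by
        intro k
        have h1 := congrArg star (congrFun hx'' (Sum.inr k))
        have h2 : star ((Sum.elim (0 : Fin n → R) ((x ∘ Sum.inl) ᵥ* Fᴴ) : Fin n ⊕ Fin m → R) (Sum.inr k)) =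
            ∑ j, F k j * star (x (Sum.inl j)) := by
          show star (∑ j, x (Sum.inl j) * star (F k j)) = _
          rw [star_sum]
          refine Finset.sum_congr rfl fun j _ => ?_
          rw [star_mul, star_star]
        rw [h2] at h1
        rw [h1]
        exact star_zero _
      have e5 : r * star (x (Sum.inl i)) = 0 := by
        calc r * star (x (Sum.inl i)) = ∑ j, (r * (if j = i then 1 else 0)) * star (x (Sum.inl j)) := by
              rw [Finset.sum_eq_single i]
              · simp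
              · intro b _ hb
                simp [hb]
              · intro h
                exact absurd (Finset.mem_univ i) h
          _ = ∑ j, ∑ k, y (Sum.inr k) * (F k j * star (x (Sum.inl j))) := by
              refine Finset.sum_congr rfl fun j _ => ?_
              rw [e2 j, Finset.sum_mul]
              refine Finset.sum_congr rfl fun k _ => ?_
              rw [mul_assoc]
          _ = ∑ k, y (Sum.inr k) * ∑ j, F k j * star (x (Sum.inl j)) := by
              rw [Finset.sum_comm]
              refine Finset.sum_congr rfl fun k _ => ?_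
              rw [Finset.mul_sum]
          _ = 0 := by
              refine Finset.sum_eq_zero fun k _ => ?_
              rw [e4 k, mul_zero]
      have e6 := (mul_eq_zero.1 e5).resolve_left hr0
      have := congrArg star e6
      rwa [star_star, star_zero] at this
    · exact hx (Sum.inl i) (by show -(0 : ℤ) ≠ q; omega)
  have hx0 : x = 0 := by
    funext i
    rcases i with i | i
    · exact hx1 i
    · exact hx2 i
  exact ⟨0, by rw [hx0, zero_vecMul]⟩

end PIDM

open PIDM in
theorem specPID (hIND : SpecIND) (hRSM : SpecRSM) (hTCZ : SpecTCZ) (hPIF : SpecPIF)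
    (hPIT : SpecPIT) : SpecPID := by
  intro R _ _ _ _
  have hnoeth : IsNoetherianRing R := inferInstance
  have hfin : FinRes R 1 := by
    intro N _ _ hN
    obtain ⟨n, m, E, -, hres⟩ := hPIF R N hN
    refine ⟨two E, hres, ?_⟩
    rintro (i | i)
    · show -((1 : ℕ) : ℤ) ≤ 0
      omega
    · show -((1 : ℕ) : ℤ) ≤ -1
      omega
  refine ⟨hnoeth, hfin, ?_⟩
  intro C hC c hc
  obtain ⟨X, _, _, hX, ⟨rX⟩⟩ := hRSM R C hC
  obtain ⟨n, m, E, hE, ⟨sX⟩⟩ := hPIF R X hX
  obtain ⟨ψ⟩ := (hIND R C (two E) X rX sX).2 c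
  have : IsNoetherian R (C.dual.I → R) := isNoetherian_pi
  have : IsNoetherian R (C.dual.H c) := inferInstance
  rcases lt_trichotomy c 1 with h | h | h
  · exact hTCZ R 1 hnoeth hfin c (C.dual.H c) inferInstance (by omega)
  · subst h
    obtain ⟨r, hr0, hr⟩ := hPIT R m n E hE
    intro N'
    obtain ⟨n', m', F, -, ⟨s⟩⟩ := hPIF R N' inferInstance
    refine gr_one F N' s r hr0 fun a => ?_
    apply Subtype.ext
    show r • (a : C.dual.H 1) = 0
    apply ψ.injective
    rw [map_smul, map_zero]
    exact kill E r hr _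
  · have := subs_two E c (by omega)
    intro N'
    have : Subsingleton (C.dual.H c) := ψ.injective.subsingleton
    exact gr_of_subsingleton c N'

end Pool.Agent.Lib.MP8a3537.AUL
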