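import Pool.Agent.Lib.MP_8a3537_gt.AUL.Spec

/-!
# AUL, module PIF: resolutions of length one over a principal ideal domain
-/

namespace Pool.Agent.Lib.MP8a3537.AUL

open Matrix

namespace PIFM

lemma vecMul_two {R : Type} [Ring R] {m n : ℕ} (E : Matrix (Fin m) (Fin n) R)
    (x : Fin n ⊕ Fin m → R) :
    x ᵥ* (fromBlocks 0 0 E 0 : Matrix (Fin n ⊕ Fin m) (Fin n ⊕ Fin m) R) =
      Sum.elim ((fun i => x (Sum.inr i)) ᵥ* E) 0 := by
  rw [vecMul_fromBlocks]
  simp only [Matrix.vecMul_zero, zero_add, add_zero]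
  rfl

lemma vecMul_rows {R : Type} [CommRing R] {m n : ℕ} {K : Submodule R (Fin n → R)}
    (b : Module.Basis (Fin m) R K) (z : Fin m → R) :
    z ᵥ* (Matrix.of fun i j => (b i : Fin n → R) j) = ((b.equivFun.symm z : K) : Fin n → R) := by
  rw [b.equivFun_symm_apply]
  ext j
  simp [Matrix.vecMul, dotProduct]

/-- the data in plain form -/
lemma plain {R : Type} [CommRing R] {N : Type} [AddCommGroup N] [Module R N] {n m : ℕ}
    (p : (Fin n → R) →ₗ[R] N) (hp : Function.Surjective p) (E : Matrix (Fin m) (Fin n) R)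
    (hinj : ∀ z : Fin m → R, z ᵥ* E = 0 → z = 0) (h0 : ∀ z : Fin m → R, p (z ᵥ* E) = 0)
    (hk : ∀ v : Fin n → R, p v = 0 → ∃ z : Fin m → R, v = z ᵥ* E) :
    Nonempty (Res (two E) N) := by
  refine ⟨?_⟩
  exact
    { pi := (p ∘ₗ LinearMap.funLeft R R (Sum.inl : Fin n → Fin n ⊕ Fin m) :
        (Fin n ⊕ Fin m → R) →ₗ[R] N)
      isRes := by
        refine ⟨?_, ?_⟩
        · rintro (i | i)
          · exact le_refl (0 : ℤ)
          · exact (by norm_num : (-1 : ℤ) ≤ 0)
        · intro q hq x hx hx0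
          have hx' : ∀ i : Fin n, (x : Fin n ⊕ Fin m → R) (Sum.inl i) = 0 := fun i =>
            hx (Sum.inl i) (by
              change (0 : ℤ) ≠ q
              omega)
          have h1 : Sum.elim ((fun i => (x : Fin n ⊕ Fin m → R) (Sum.inr i)) ᵥ* E)
              (0 : Fin m → R) = 0 :=
            (vecMul_two E (x : Fin n ⊕ Fin m → R)).symm.trans hx0
          have h2 : (fun i => (x : Fin n ⊕ Fin m → R) (Sum.inr i)) ᵥ* E = 0 := by
            funext j
            exact congrFun h1 (Sum.inl j)
          have h3 := hinj _ h2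
          refine ⟨0, ?_⟩
          have h4 : (x : Fin n ⊕ Fin m → R) = 0 := by
            funext i
            rcases i with i | i
            · exact hx' i
            · exact congrFun h3 i
          exact h4.trans (Matrix.zero_vecMul _).symm
      low := by
        intro q x hq hx
        have hx' : (fun i : Fin n => (x : Fin n ⊕ Fin m → R) (Sum.inl i)) = 0 := by
          funext i
          exact hx (Sum.inl i) (by
            change (0 : ℤ) ≠ q
            omega)
        exact (congrArg p hx').trans (map_zero p)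
      surj := by
        intro y
        obtain ⟨v, hv⟩ := hp y
        exact ⟨(Sum.elim v 0 : Fin n ⊕ Fin m → R), hv⟩
      zero := by
        intro y
        have h1 : (fun i : Fin n => ((y : Fin n ⊕ Fin m → R) ᵥ*
            (fromBlocks 0 0 E 0 : Matrix (Fin n ⊕ Fin m) (Fin n ⊕ Fin m) R)) (Sum.inl i)) =
            (fun i => (y : Fin n ⊕ Fin m → R) (Sum.inr i)) ᵥ* E := by
          funext i
          exact congrFun (vecMul_two E y) (Sum.inl i)
        exact (congrArg p h1).trans (h0 _)
      ker := by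
        intro x hx hx0
        have hx' : ∀ i : Fin m, (x : Fin n ⊕ Fin m → R) (Sum.inr i) = 0 := fun i =>
          hx (Sum.inr i) (by
            change (-1 : ℤ) ≠ 0
            norm_num)
        obtain ⟨z, hz⟩ := hk (fun i : Fin n => (x : Fin n ⊕ Fin m → R) (Sum.inl i)) hx0
        refine ⟨(Sum.elim 0 z : Fin n ⊕ Fin m → R), ?_⟩
        have h1 : (x : Fin n ⊕ Fin m → R) = Sum.elim (z ᵥ* E) 0 := by
          funext i
          rcases i with i | i
          · exact congrFun hz i
          · exact hx' i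
        exact h1.trans (vecMul_two E (Sum.elim 0 z)).symm }

end PIFM

/-- **PIF**. -/
theorem specPIF : SpecPIF := by
  intro R _ _ _ N _ _ hN
  obtain ⟨n, p, hp⟩ := Module.Finite.exists_fin' R N
  obtain ⟨m, ⟨b⟩⟩ := Submodule.nonempty_basis_of_pid (Pi.basisFun R (Fin n)) (LinearMap.ker p)
  let E : Matrix (Fin m) (Fin n) R := Matrix.of fun i j => (b i : Fin n → R) j
  have hE : ∀ z : Fin m → R, z ᵥ* E = ((b.equivFun.symm z : LinearMap.ker p) : Fin n → R) :=
    fun z => PIFM.vecMul_rows b z
  have hinj : ∀ z : Fin m → R, z ᵥ* E = 0 → z = 0 := by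
    intro z hz
    rw [hE] at hz
    have h1 : b.equivFun.symm z = 0 := Subtype.ext hz
    exact (LinearEquiv.map_eq_zero_iff b.equivFun.symm).1 h1
  refine ⟨n, m, E, hinj, PIFM.plain p hp E hinj ?_ ?_⟩
  · intro z
    rw [hE]
    exact (b.equivFun.symm z).2
  · intro v hv
    refine ⟨b.equivFun ⟨v, hv⟩, ?_⟩
    rw [hE, LinearEquiv.symm_apply_apply]

end Pool.Agent.Lib.MP8a3537.AUL
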