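import Pool.Agent.Lib.MP_8a3537_gt.AUL.Spec

/-!
# AUL, module PIT: the cokernel of the dual of an injective matrix is torsion
-/

namespace Pool.Agent.Lib.MP8a3537.AUL

open Matrix

namespace PITM

variable {R : Type} [CommRing R] [IsDomain R]

/-- the rows stay independent over the fraction field -/
lemma inj_frac {m n : ℕ} (E : Matrix (Fin m) (Fin n) R)
    (hE : ∀ z : Fin m → R, z ᵥ* E = 0 → z = 0) (z : Fin m → FractionRing R)
    (hz : z ᵥ* (E.map (algebraMap R (FractionRing R))) = 0) : z = 0 := by
  obtain ⟨b, hb⟩ := IsLocalization.exist_integer_multiples_of_finite (nonZeroDivisors R) z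
  choose z' hz' using hb
  have h1 : z' ᵥ* E = 0 := by
    ext j
    apply IsFractionRing.injective R (FractionRing R)
    have h2 := congrFun hz j
    simp only [Matrix.vecMul, dotProduct, Matrix.map_apply, Pi.zero_apply] at h2
    simp only [Matrix.vecMul, dotProduct, Pi.zero_apply, map_zero, map_sum, map_mul]
    have h3 : ∀ i, algebraMap R (FractionRing R) (z' i) * algebraMap R (FractionRing R) (E i j) =
        (b : R) • (z i * algebraMap R (FractionRing R) (E i j)) := by
      intro i
      rw [hz' i, smul_mul_assoc]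
    rw [Finset.sum_congr rfl fun i _ => h3 i, ← Finset.smul_sum, h2, smul_zero]
  have h4 := hE z' h1
  ext i
  have h5 := hz' i
  rw [h4, Pi.zero_apply, map_zero] at h5
  have h6 : algebraMap R (FractionRing R) (b : R) ≠ 0 := by
    intro h0
    rw [← map_zero (algebraMap R (FractionRing R))] at h0
    exact nonZeroDivisors.ne_zero b.2 (IsFractionRing.injective R (FractionRing R) h0)
  rw [Algebra.smul_def] at h5
  exact (mul_eq_zero.1 h5.symm).resolve_left h6

/-- a right inverse up to a non-zero scalar -/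
lemma right_inv {m n : ℕ} (E : Matrix (Fin m) (Fin n) R)
    (hE : ∀ z : Fin m → R, z ᵥ* E = 0 → z = 0) :
    ∃ (r : R) (F : Matrix (Fin n) (Fin m) R), r ≠ 0 ∧ E * F = r • (1 : Matrix (Fin m) (Fin m) R) := by
  let K := FractionRing R
  let EK : Matrix (Fin m) (Fin n) K := E.map (algebraMap R K)
  have hinj : LinearMap.ker (EK.vecMulLinear) = ⊥ := by
    rw [LinearMap.ker_eq_bot']
    intro z hz
    exact inj_frac E hE z hz
  obtain ⟨g, hg⟩ := LinearMap.exists_leftInverse_of_injective EK.vecMulLinear hinj
  let F : Fin n × Fin m → K := fun p => g (Pi.single p.1 1) p.2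
  obtain ⟨b, hb⟩ := IsLocalization.exist_integer_multiples_of_finite (nonZeroDivisors R) F
  choose F' hF' using hb
  refine ⟨b, Matrix.of fun k j => F' (k, j), nonZeroDivisors.ne_zero b.2, ?_⟩
  ext i j
  apply IsFractionRing.injective R K
  have h1 : ∀ k, algebraMap R K (E i k * F' (k, j)) = (b : R) • (EK i k * F (k, j)) := by
    intro k
    rw [map_mul, hF' (k, j), mul_smul_comm]
    rfl
  have h2 : ∑ k, EK i k * F (k, j) = g (EK i) j := by
    have h3 : EK i = ∑ k, EK i k • (Pi.single k 1 : Fin n → K) := by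
      ext l
      simp [Finset.sum_apply, Pi.single_apply]
    conv_rhs => rw [h3]
    rw [map_sum, Finset.sum_apply]
    refine Finset.sum_congr rfl fun k _ => ?_
    rw [map_smul]
    rfl
  have h4 : g (EK i) = Pi.single i 1 := by
    have h5 : EK.vecMulLinear (Pi.single i 1) = EK i := by
      ext l
      simp [Matrix.vecMulLinear, Matrix.vecMul, dotProduct, Pi.single_apply]
    have h6 := LinearMap.congr_fun hg (Pi.single i 1)
    rw [LinearMap.comp_apply, h5] at h6
    exact h6
  rw [Matrix.mul_apply, map_sum]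
  simp only [Matrix.of_apply]
  rw [Finset.sum_congr rfl fun k _ => h1 k, ← Finset.smul_sum, h2, h4, Matrix.smul_apply,
    Algebra.smul_def, smul_eq_mul, map_mul]
  congr 1
  by_cases hij : i = j
  · subst hij
    simp
  · rw [Pi.single_eq_of_ne (Ne.symm hij), Matrix.one_apply_ne hij, map_zero]

end PITM

/-- **PIT**. -/
theorem specPIT : SpecPIT := by
  intro R _ _ _ m n E hE
  obtain ⟨b, F, hb, hF⟩ := PITM.right_inv E hE
  refine ⟨star b, ?_, ?_⟩
  · intro h
    exact hb (star_eq_zero.1 h)
  · intro y
    refine ⟨y ᵥ* Fᴴ, ?_⟩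
    rw [Matrix.vecMul_vecMul, ← Matrix.conjTranspose_mul, hF, Matrix.conjTranspose_smul,
      Matrix.conjTranspose_one, Matrix.vecMul_smul, Matrix.vecMul_one]

end Pool.Agent.Lib.MP8a3537.AUL
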