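import Pool.Agent.Lib.MP_8a3537_gt.AUL.Spec

/-! # AUL, module RSM: a resolution is a resolution of a finite module -/

set_option autoImplicit false

namespace Pool.Agent.Lib.MP8a3537.AUL

open Matrix

namespace RSMM

variable {A : Type} [Ring A]

/-- the part of degree `q` as a linear map -/
def partL {I : Type} (deg : I → ℤ) (q : ℤ) : (I → A) →ₗ[A] (I → A) where
  toFun := part deg q
  map_add' x y := by
    funext i
    simp only [part, Pi.add_apply]
    split_ifs
    · rfl
    · rw [add_zero]
  map_smul' a x := by
    funext i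
    simp only [part, Pi.smul_apply, RingHom.id_apply, smul_eq_mul]
    split_ifs
    · rfl
    · rw [mul_zero]

/-- the differential as a linear map -/
def dL (C : FC A) : (C.I → A) →ₗ[A] (C.I → A) where
  toFun x := x ᵥ* C.e
  map_add' x y := Matrix.add_vecMul _ _ _
  map_smul' a x := Matrix.smul_vecMul _ _ _

theorem part_vecMul (C : FC A) (y : C.I → A) :
    part C.deg 0 (y ᵥ* C.e) = (part C.deg (-1) y) ᵥ* C.e := by
  funext j
  simp only [part, Matrix.vecMul, dotProduct]
  by_cases hj : C.deg j = 0
  · rw [if_pos hj]
    refine Finset.sum_congr rfl fun i _ => ?_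
    by_cases hi : C.deg i = -1
    · rw [if_pos hi]
    · rw [if_neg hi, zero_mul]
      have : C.e i j = 0 := by
        by_contra h
        have := C.he i j h
        omega
      rw [this, mul_zero]
  · rw [if_neg hj]
    symm
    refine Finset.sum_eq_zero fun i _ => ?_
    by_cases hi : C.deg i = -1
    · have : C.e i j = 0 := by
        by_contra h
        have := C.he i j h
        omega
      rw [this, mul_zero]
    · rw [if_neg hi, zero_mul]

/-- the relations -/
def W (C : FC A) : Submodule A (C.I → A) :=
  (LinearMap.range ((partL C.deg 0).comp (dL C))).comap (partL C.deg 0)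

theorem mem_W (C : FC A) (x : C.I → A) :
    x ∈ W C ↔ ∃ y : C.I → A, part C.deg 0 (y ᵥ* C.e) = part C.deg 0 x := by
  rw [W, Submodule.mem_comap, LinearMap.mem_range]
  rfl

end RSMM

open RSMM

theorem specRSM : SpecRSM := by
  intro A _ C hC
  refine ⟨(C.I → A) ⧸ W C, inferInstance, inferInstance, inferInstance, ⟨?_⟩⟩
  refine
    { pi := (W C).mkQ
      isRes := hC
      low := ?_
      surj := Submodule.mkQ_surjective _
      zero := ?_
      ker := ?_ }
  · intro q x hq hx
    rw [Submodule.mkQ_apply, Submodule.Quotient.mk_eq_zero, mem_W]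
    refine ⟨0, ?_⟩
    rw [Matrix.zero_vecMul]
    funext i
    simp only [part, Pi.zero_apply]
    split_ifs with h
    · exact (hx i (by omega)).symm
    · rfl
  · intro y
    rw [Submodule.mkQ_apply, Submodule.Quotient.mk_eq_zero, mem_W]
    exact ⟨y, rfl⟩
  · intro x hx h
    rw [Submodule.mkQ_apply, Submodule.Quotient.mk_eq_zero, mem_W] at h
    obtain ⟨y, hy⟩ := h
    refine ⟨part C.deg (-1) y, ?_⟩
    rw [← part_vecMul, hy]
    funext i
    simp only [part]
    split_ifs with h
    · rfl
    · exact hx i h

end Pool.Agent.Lib.MP8a3537.AUL
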