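import Pool.Agent.Lib.MP_8a3537_gt.AUL.Spec

namespace Pool.Agent.Lib.MP8a3537.AUL

open Matrix

namespace SEMM

variable {A B : Type} [Ring A] [Ring B]

theorem up_vecMul (σ : A ≃+* B) {I J : Type} [Fintype I] (x : I → A) (E : Matrix I J A) :
    (fun i => σ (x i)) ᵥ* E.map (σ : A →+* B) = fun j => σ ((x ᵥ* E) j) := by
  funext j
  simp only [Matrix.vecMul, dotProduct, Matrix.map_apply, map_sum, map_mul]
  rfl

theorem dn_vecMul (σ : A ≃+* B) {I J : Type} [Fintype I] (y : I → B) (E : Matrix I J A) :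
    (fun j => σ.symm ((y ᵥ* E.map (σ : A →+* B)) j)) = (fun i => σ.symm (y i)) ᵥ* E := by
  have h := up_vecMul σ (fun i => σ.symm (y i)) E
  simp only [RingEquiv.apply_symm_apply] at h
  have h2 : (fun i => y i) = y := rfl
  funext j
  have h3 := congrFun h j
  rw [h3, RingEquiv.symm_apply_apply]

/-- Exactness for plain data. -/
def Ex {I : Type} [Fintype I] (deg : I → ℤ) (E : Matrix I I A) (q : ℤ) : Prop :=
  ∀ x : I → A, InDeg deg q x → x ᵥ* E = 0 → ∃ y : I → A, x = y ᵥ* E

theorem ex_map (σ : A ≃+* B) {I : Type} [Fintype I] (deg : I → ℤ) (E : Matrix I I A) (q : ℤ)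
    (h : Ex deg E q) : Ex deg (E.map (σ : A →+* B)) q := by
  intro x hx hx0
  obtain ⟨y, hy⟩ := h (fun i => σ.symm (x i)) (fun i hi => by
    show σ.symm (x i) = 0
    rw [hx i hi, map_zero]) (by
    rw [← dn_vecMul σ x E, hx0]
    funext j
    simp)
  refine ⟨fun i => σ (y i), ?_⟩
  rw [up_vecMul, ← hy]
  funext j
  simp

theorem map_exactAt (σ : A ≃+* B) (C : FC A) (q : ℤ) (h : C.ExactAt q) :
    (C.map (σ : A →+* B)).ExactAt q := ex_map σ C.deg C.e q h

theorem map_dual_exactAt [StarRing A] [StarRing B] (σ : A ≃+* B)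
    (hs : ∀ a, σ (star a) = star (σ a)) (C : FC A) (q : ℤ) (h : C.dual.ExactAt q) :
    (C.map (σ : A →+* B)).dual.ExactAt q := by
  have h1 := ex_map σ C.dual.deg C.dual.e q h
  have h2 : C.dual.e.map (σ : A →+* B) = (C.e.map (σ : A →+* B))ᴴ := by
    ext i j
    exact hs _
  rw [h2] at h1
  exact h1

section Plain

variable (σ : A ≃+* B) {X Y : Type} [AddCommGroup X] [Module A X] [AddCommGroup Y] [Module B Y]
    (f : X ≃+ Y) (C : FC A) (r : Res C X)

theorem p_add (y z : C.I → B) : f (r.pi (fun i => σ.symm ((y + z) i))) =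
    f (r.pi (fun i => σ.symm (y i))) + f (r.pi (fun i => σ.symm (z i))) := by
  rw [← map_add f, ← map_add r.pi]
  congr 2
  funext i
  exact map_add σ.symm _ _

theorem p_smul (hf : ∀ (a : A) (x : X), f (a • x) = σ a • f x) (b : B) (y : C.I → B) :
    f (r.pi (fun i => σ.symm ((b • y) i))) = b • f (r.pi (fun i => σ.symm (y i))) := by
  have h : (fun i => σ.symm ((b • y) i)) = σ.symm b • (fun i => σ.symm (y i)) := by
    funext i
    exact map_mul σ.symm _ _
  rw [h, map_smul, hf, RingEquiv.apply_symm_apply]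

theorem p_low (q : ℤ) (y : C.I → B) (hq : q ≠ 0) (hy : InDeg C.deg q y) :
    f (r.pi (fun i => σ.symm (y i))) = 0 := by
  rw [r.low q _ hq (fun i hi => by rw [hy i hi, map_zero]), map_zero]

theorem p_surj (z : Y) : ∃ y : C.I → B, f (r.pi (fun i => σ.symm (y i))) = z := by
  obtain ⟨x, hx⟩ := r.surj (f.symm z)
  refine ⟨fun i => σ (x i), ?_⟩
  simp only [RingEquiv.symm_apply_apply]
  rw [hx, AddEquiv.apply_symm_apply]

theorem p_zero (y : C.I → B) :
    f (r.pi (fun i => σ.symm ((y ᵥ* C.e.map (σ : A →+* B)) i))) = 0 := by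
  rw [dn_vecMul, r.zero, map_zero]

theorem p_ker (y : C.I → B) (hy : InDeg C.deg 0 y)
    (hy0 : f (r.pi (fun i => σ.symm (y i))) = 0) :
    ∃ z : C.I → B, y = z ᵥ* C.e.map (σ : A →+* B) := by
  have h0 : r.pi (fun i => σ.symm (y i)) = 0 := by
    apply f.injective
    rw [map_zero]
    exact hy0
  obtain ⟨z, hz⟩ := r.ker (fun i => σ.symm (y i)) (fun i hi => by
    show σ.symm (y i) = 0
    rw [hy i hi, map_zero]) h0
  refine ⟨fun i => σ (z i), ?_⟩
  rw [up_vecMul, ← hz]
  funext j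
  simp

end Plain

/-- The transported resolution. -/
def resMap (σ : A ≃+* B) {X Y : Type} [AddCommGroup X] [Module A X] [AddCommGroup Y] [Module B Y]
    (f : X ≃+ Y) (hf : ∀ (a : A) (x : X), f (a • x) = σ a • f x) (C : FC A) (r : Res C X) :
    Res (C.map (σ : A →+* B)) Y where
  pi :=
    { toFun := fun y => f (r.pi (fun i => σ.symm (y i)))
      map_add' := fun y z => p_add σ f C r y z
      map_smul' := fun b y => p_smul σ f C r hf b y }
  isRes := ⟨r.isRes.1, fun q hq => map_exactAt σ C q (r.isRes.2 q hq)⟩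
  low := fun q y hq hy => p_low σ f C r q y hq hy
  surj := fun z => p_surj σ f C r z
  zero := fun y => p_zero σ f C r y
  ker := fun y hy hy0 => p_ker σ f C r y hy hy0

theorem tc_map [StarRing A] [StarRing B] (σ : A ≃+* B)
    (hs : ∀ a, σ (star a) = star (σ a))
    {X Y : Type} [AddCommGroup X] [Module A X] [AddCommGroup Y] [Module B Y]
    (f : X ≃+ Y) (hf : ∀ (a : A) (x : X), f (a • x) = σ a • f x) (c : ℤ) (h : Tc A c X) :
    Tc B c Y := by
  intro N'
  let N : Submodule A X :=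
    { carrier := {x | f x ∈ N'}
      add_mem' := by
        intro x y hx hy
        show f (x + y) ∈ N'
        rw [map_add]
        exact N'.add_mem hx hy
      zero_mem' := by
        show f 0 ∈ N'
        rw [map_zero]
        exact N'.zero_mem
      smul_mem' := by
        intro a x hx
        show f (a • x) ∈ N'
        rw [hf]
        exact N'.smul_mem _ hx }
  let g : N ≃+ N' :=
    { toFun := fun x => ⟨f x.1, x.2⟩
      invFun := fun y => ⟨f.symm y.1, by
        show f (f.symm y.1) ∈ N'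
        rw [AddEquiv.apply_symm_apply]
        exact y.2⟩
      left_inv := fun x => Subtype.ext (f.symm_apply_apply x.1)
      right_inv := fun y => Subtype.ext (f.apply_symm_apply y.1)
      map_add' := fun x y => Subtype.ext (map_add f x.1 y.1) }
  obtain ⟨C, ⟨r⟩, hC⟩ := h N
  exact ⟨C.map (σ : A →+* B), ⟨resMap σ g (fun a x => Subtype.ext (hf a x.1)) C r⟩,
    fun q hq => map_dual_exactAt σ hs C q (hC q hq)⟩

theorem finite_of (σ : A ≃+* B) (N : Type) [AddCommGroup N] [Module A N] [Module B N]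
    (h : ∀ (a : A) (n : N), a • n = σ a • n) (hN : Module.Finite B N) : Module.Finite A N := by
  obtain ⟨s, hs⟩ := hN.fg_top
  refine ⟨⟨s, ?_⟩⟩
  rw [eq_top_iff]
  intro x _
  have hx : x ∈ Submodule.span B (s : Set N) := by rw [hs]; trivial
  refine Submodule.span_induction (p := fun x _ => x ∈ Submodule.span A (s : Set N))
    (fun y hy => Submodule.subset_span hy) (Submodule.zero_mem _)
    (fun y z _ _ hy hz => Submodule.add_mem _ hy hz) (fun b y _ hy => ?_) hx
  have : b • y = σ.symm b • y := by rw [h, RingEquiv.apply_symm_apply]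
  rw [this]
  exact Submodule.smul_mem _ _ hy

section Plain2

variable [StarRing A] [StarRing B] (τ : B ≃+* A) (hs : ∀ b, τ (star b) = star (τ b))
  {I : Type} [Fintype I] (E : Matrix I I B)

include hs

theorem conjT : (E.map (τ : B →+* A))ᴴ = Eᴴ.map (τ : B →+* A) := by
  ext i j
  exact (hs _).symm

theorem zUp (x : I → B) (h : x ᵥ* Eᴴ = 0) :
    (fun i => τ (x i)) ᵥ* (E.map (τ : B →+* A))ᴴ = 0 := by
  rw [conjT τ hs, up_vecMul, h]
  funext j
  simp

theorem zDn (x : I → A) (h : x ᵥ* (E.map (τ : B →+* A))ᴴ = 0) :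
    (fun i => τ.symm (x i)) ᵥ* Eᴴ = 0 := by
  rw [conjT τ hs] at h
  rw [← dn_vecMul, h]
  funext j
  simp

theorem bUp (x y : I → B) (h : x = y ᵥ* Eᴴ) :
    (fun i => τ (x i)) = (fun i => τ (y i)) ᵥ* (E.map (τ : B →+* A))ᴴ := by
  rw [conjT τ hs, up_vecMul, h]

theorem bDn (x y : I → A) (h : x = y ᵥ* (E.map (τ : B →+* A))ᴴ) :
    (fun i => τ.symm (x i)) = (fun i => τ.symm (y i)) ᵥ* Eᴴ := by
  rw [conjT τ hs] at h
  rw [← dn_vecMul, h]

end Plain2

theorem upDeg (τ : B ≃+* A) {I : Type} (deg : I → ℤ) (q : ℤ) (x : I → B) (h : InDeg deg q x) :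
    InDeg deg q (fun i => τ (x i)) := fun i hi => by
  show τ (x i) = 0
  rw [h i hi, map_zero]

theorem dnDeg (τ : B ≃+* A) {I : Type} (deg : I → ℤ) (q : ℤ) (x : I → A) (h : InDeg deg q x) :
    InDeg deg q (fun i => τ.symm (x i)) := fun i hi => by
  show τ.symm (x i) = 0
  rw [h i hi, map_zero]

/-- The map on cocycles of the dual. -/
def zMap [StarRing A] [StarRing B] (τ : B ≃+* A)
    (hs : ∀ b, τ (star b) = star (τ b)) (C : FC B) (q : ℤ) :
    C.dual.Z q →ₛₗ[(τ : B →+* A)] (C.map (τ : B →+* A)).dual.Z q where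
  toFun x := ⟨fun i => τ (x.1 i), ⟨upDeg τ C.dual.deg q x.1 x.2.1, zUp τ hs C.e x.1 x.2.2⟩⟩
  map_add' x y := Subtype.ext (funext fun i => map_add τ _ _)
  map_smul' b x := Subtype.ext (funext fun i => map_mul τ _ _)

/-- The inverse map on cocycles of the dual. -/
def zInv [StarRing A] [StarRing B] (τ : B ≃+* A)
    (hs : ∀ b, τ (star b) = star (τ b)) (C : FC B) (q : ℤ) :
    (C.map (τ : B →+* A)).dual.Z q →ₛₗ[(τ.symm : A →+* B)] C.dual.Z q where
  toFun x := ⟨fun i => τ.symm (x.1 i),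
    ⟨dnDeg τ C.dual.deg q x.1 x.2.1, zDn τ hs C.e x.1 x.2.2⟩⟩
  map_add' x y := Subtype.ext (funext fun i => map_add τ.symm _ _)
  map_smul' b x := Subtype.ext (funext fun i => map_mul τ.symm _ _)

theorem zMap_B [StarRing A] [StarRing B] (τ : B ≃+* A)
    (hs : ∀ b, τ (star b) = star (τ b)) (C : FC B) (q : ℤ) (x : C.dual.Z q)
    (hx : x.1 ∈ C.dual.B q) : (zMap τ hs C q x).1 ∈ (C.map (τ : B →+* A)).dual.B q := by
  obtain ⟨h1, y, hy⟩ := hx
  exact ⟨(zMap τ hs C q x).2.1, fun i => τ (y i), bUp τ hs C.e x.1 y hy⟩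

theorem zInv_B [StarRing A] [StarRing B] (τ : B ≃+* A)
    (hs : ∀ b, τ (star b) = star (τ b)) (C : FC B) (q : ℤ)
    (x : (C.map (τ : B →+* A)).dual.Z q)
    (hx : x.1 ∈ (C.map (τ : B →+* A)).dual.B q) : (zInv τ hs C q x).1 ∈ C.dual.B q := by
  obtain ⟨h1, y, hy⟩ := hx
  exact ⟨(zInv τ hs C q x).2.1, fun i => τ.symm (y i), bDn τ hs C.e x.1 y hy⟩

/-- The cohomology of the dual of a transported complex. -/
def hEquiv [StarRing A] [StarRing B] (τ : B ≃+* A)
    (hs : ∀ b, τ (star b) = star (τ b)) (C : FC B) (q : ℤ) :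
    (C.map (τ : B →+* A)).dual.H q ≃+ C.dual.H q where
  toFun := Submodule.mapQ (((C.map (τ : B →+* A)).dual.B q).submoduleOf
      ((C.map (τ : B →+* A)).dual.Z q))
    ((C.dual.B q).submoduleOf (C.dual.Z q)) (zInv τ hs C q) (fun x hx => zInv_B τ hs C q x hx)
  invFun := Submodule.mapQ ((C.dual.B q).submoduleOf (C.dual.Z q))
    (((C.map (τ : B →+* A)).dual.B q).submoduleOf
      ((C.map (τ : B →+* A)).dual.Z q)) (zMap τ hs C q) (fun x hx => zMap_B τ hs C q x hx)
  left_inv := by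
    intro x
    obtain ⟨x, rfl⟩ := Submodule.Quotient.mk_surjective _ x
    rw [Submodule.mapQ_apply, Submodule.mapQ_apply]
    congr 1
    apply Subtype.ext
    funext i
    exact RingEquiv.apply_symm_apply τ _
  right_inv := by
    intro x
    obtain ⟨x, rfl⟩ := Submodule.Quotient.mk_surjective _ x
    rw [Submodule.mapQ_apply, Submodule.mapQ_apply]
    congr 1
    apply Subtype.ext
    funext i
    exact RingEquiv.symm_apply_apply τ _
  map_add' := fun x y => map_add _ x y

theorem hEquiv_smul [StarRing A] [StarRing B] (τ : B ≃+* A)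
    (hs : ∀ b, τ (star b) = star (τ b)) (C : FC B) (q : ℤ) (a : A)
    (x : (C.map (τ : B →+* A)).dual.H q) :
    hEquiv τ hs C q (a • x) = τ.symm a • hEquiv τ hs C q x := by
  exact LinearMap.map_smulₛₗ (Submodule.mapQ (((C.map (τ : B →+* A)).dual.B q).submoduleOf
      ((C.map (τ : B →+* A)).dual.Z q))
    ((C.dual.B q).submoduleOf (C.dual.Z q)) (zInv τ hs C q)
    (fun x hx => zInv_B τ hs C q x hx)) a x

theorem aus_map [StarRing A] [StarRing B] (σ : A ≃+* B)
    (hs : ∀ a, σ (star a) = star (σ a)) (d : ℕ) (h : Aus A d) : Aus B d where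
  noeth := by
    haveI := h.noeth
    exact isNoetherianRing_of_ringEquiv A σ
  fin := by
    intro N _ _ hN
    letI : Module A N := Module.compHom N (σ : A →+* B)
    have hAB : ∀ (a : A) (n : N), a • n = σ a • n := fun a n => rfl
    obtain ⟨C, ⟨r⟩, hd⟩ := h.fin N (finite_of σ N hAB hN)
    exact ⟨C.map (σ : A →+* B), ⟨resMap σ (AddEquiv.refl N) hAB C r⟩, hd⟩
  aus := by
    intro C hC c hc
    have hs' : ∀ b, σ.symm (star b) = star (σ.symm b) := by
      intro b
      apply σ.injective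
      rw [hs, RingEquiv.apply_symm_apply, RingEquiv.apply_symm_apply]
    have h1 := h.aus (C.map (σ.symm : B →+* A))
      ⟨hC.1, fun q hq => map_exactAt σ.symm C q (hC.2 q hq)⟩ c hc
    exact tc_map σ hs (hEquiv σ.symm hs' C c) (fun a x => hEquiv_smul σ.symm hs' C c a x) c h1

end SEMM

/-- **SEM**. -/
theorem specSEM : SpecSEM := by
  intro A B _ _ _ _ σ hs
  refine ⟨?_, fun d => SEMM.aus_map σ hs d⟩
  intro X Y _ _ _ _ f hf
  exact ⟨fun C r => ⟨SEMM.resMap σ f hf C r, fun _ => rfl⟩, fun c => SEMM.tc_map σ hs f hf c⟩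

end Pool.Agent.Lib.MP8a3537.AUL
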