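import Pool.Agent.Lib.MP_8a3537_gt.AUL.Spec

/-!
# Module STP: the step from `S0` to the Laurent extension `S`
-/

namespace Pool.Agent.Lib.MP8a3537.AUL

theorem specSTP (hNOE : SpecNOE) (hFNS : SpecFNS) (hACQ : SpecACQ) : SpecSTP := by
  intro S _ _ S0 _ L d hA
  have hS : IsNoetherianRing S := hNOE S S0 L hA.noeth
  exact ⟨hS, hFNS S S0 L d hA.noeth hS hA.fin, fun E hE c hc => hACQ S S0 L d hA hS E hE c hc⟩

end Pool.Agent.Lib.MP8a3537.AUL
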