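import Pool.Agent.Lib.MP_8a3537_gt.AUL.Spec

/-!
# MP_8a3537_gt, folder AUL, module TCE: `T_c` is closed under extensions
-/

namespace Pool.Agent.Lib.MP8a3537.AUL

open Matrix

namespace TCEM

variable {A : Type} [Ring A]

/-- a resolution of an isomorphic module -/
def congr {C : FC A} {N N' : Type} [AddCommGroup N] [Module A N] [AddCommGroup N'] [Module A N']
    (r : Res C N) (f : N ≃ₗ[A] N') : Res C N' where
  pi := f.toLinearMap ∘ₗ r.pi
  isRes := r.isRes
  low := fun q x hq hx => by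
    show f (r.pi x) = 0
    rw [r.low q x hq hx, map_zero]
  surj := f.surjective.comp r.surj
  zero := fun y => by
    show f (r.pi _) = 0
    rw [r.zero, map_zero]
  ker := fun x hx h => r.ker x hx (by
    have h1 : f (r.pi x) = 0 := h
    exact (map_eq_zero_iff f f.injective).1 h1)

/-- `T_c` for the module itself -/
theorem gr_self [StarRing A] {c : ℤ} {N : Type} [AddCommGroup N] [Module A N] (h : Tc A c N) :
    Gr A c N := by
  obtain ⟨C, ⟨r⟩, hC⟩ := h ⊤
  exact ⟨C, ⟨congr r Submodule.topEquiv⟩, hC⟩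

end TCEM

theorem specTCE (hLFT : SpecLFT) (hCON : SpecCON) (hLES : SpecLES) (hIND : SpecIND)
    (hTCS : SpecTCS) : SpecTCE := by
  intro A _ _ d hN hF c X _ _ K hfin hK hQ X'
  -- the submodule
  have h1 : Tc A c (K.submoduleOf X') := by
    refine (hTCS A c _ _ (LinearMap.codRestrict K
      (X'.subtype ∘ₗ (K.submoduleOf X').subtype) (fun x => x.2))).1 ?_ hK
    intro x y hxy
    have h := congrArg (fun z : K => (z : X)) hxy
    exact Subtype.ext (Subtype.ext h)
  -- the quotient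
  have h2 : Tc A c (X' ⧸ K.submoduleOf X') := by
    refine (hTCS A c _ _ ((K.submoduleOf X').mapQ K X'.subtype (fun x hx => hx))).1 ?_ hQ
    intro x y hxy
    obtain ⟨x, rfl⟩ := Submodule.mkQ_surjective _ x
    obtain ⟨y, rfl⟩ := Submodule.mkQ_surjective _ y
    rw [Submodule.mkQ_apply, Submodule.mkQ_apply, Submodule.mapQ_apply, Submodule.mapQ_apply,
      Submodule.Quotient.eq] at hxy
    rw [Submodule.mkQ_apply, Submodule.mkQ_apply, Submodule.Quotient.eq]
    exact hxy
  obtain ⟨D, ⟨s⟩, hD⟩ := TCEM.gr_self h1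
  obtain ⟨E, ⟨rE⟩, hE⟩ := TCEM.gr_self h2
  have hNX : IsNoetherian A X := isNoetherian_of_isNoetherianRing_of_finite A X
  have hX' : Module.Finite A X' := inferInstance
  obtain ⟨C, ⟨r⟩, -⟩ := hF X' hX'
  obtain ⟨u, hu, hr⟩ := hLFT A D C (K.submoduleOf X') X' s r (K.submoduleOf X').subtype
  obtain ⟨t⟩ := hCON A C D X' (K.submoduleOf X') r s u hu hr
  exact ⟨C, ⟨r⟩, fun q hq => (hLES A C D u hu).2.1 q ((hIND A E _ _ rE t).1 q (hE q hq)) (hD q hq)⟩

end Pool.Agent.Lib.MP8a3537.AUL
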