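import Pool.Agent.Lib.MP_8a3537_gt.AUL.Spec

/-!
# TCS: `T_c` passes to submodules, quotients and isomorphic modules
-/

set_option autoImplicit false

namespace Pool.Agent.Lib.MP8a3537.AUL

open Matrix

namespace TCSM

/-- A resolution of a module is a resolution of every isomorphic module. -/
def resEquiv {A : Type} [Ring A] {C : FC A} {X Y : Type} [AddCommGroup X] [Module A X]
    [AddCommGroup Y] [Module A Y] (e : X ≃ₗ[A] Y) (r : Res C X) : Res C Y where
  pi := e.toLinearMap.comp r.pi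
  isRes := r.isRes
  low q x hq hx := by
    rw [LinearMap.comp_apply, r.low q x hq hx, map_zero]
  surj := e.surjective.comp r.surj
  zero y := by
    rw [LinearMap.comp_apply, r.zero y, map_zero]
  ker x hx h := by
    rw [LinearMap.comp_apply] at h
    exact r.ker x hx (e.injective (by rw [map_zero]; exact h))

theorem gr_equiv {A : Type} [Ring A] [StarRing A] {c : ℤ} {X Y : Type} [AddCommGroup X]
    [Module A X] [AddCommGroup Y] [Module A Y] (e : X ≃ₗ[A] Y) (h : Gr A c X) : Gr A c Y := by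
  obtain ⟨C, ⟨r⟩, h⟩ := h
  exact ⟨C, ⟨resEquiv e r⟩, h⟩

theorem gr_quot (hL : SpecLFT) (hC : SpecCON) (hE : SpecLES) {A : Type} [Ring A] [StarRing A]
    {c : ℤ} {X : Type} [AddCommGroup X] [Module A X] (K : Submodule A X) (hX : Gr A c X)
    (hK : Gr A c K) : Gr A c (X ⧸ K) := by
  obtain ⟨C, ⟨r⟩, hC'⟩ := hX
  obtain ⟨D, ⟨s⟩, hD'⟩ := hK
  obtain ⟨u, hu, hpi⟩ := hL A D C K X s r K.subtype
  refine ⟨cone C D u hu, hC A C D X K r s u hu (fun x => hpi x), fun q hq => ?_⟩
  exact (hE A C D u hu).1 q (hC' q hq) (hD' (q - 1) (by omega))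

end TCSM

theorem specTCS (hL : SpecLFT) (hC : SpecCON) (hE : SpecLES) : SpecTCS := by
  intro A _ _ c X Y _ _ _ _ f
  refine ⟨fun hf hY X' => ?_, fun hf hX Y' => ?_, fun c' hc hX X' => ?_⟩
  · exact TCSM.gr_equiv (Submodule.equivMapOfInjective f hf X').symm (hY (X'.map f))
  · set X' : Submodule A X := Y'.comap f with hX'
    let g : X' →ₗ[A] Y' := f.restrict (fun x hx => hx)
    have hg : Function.Surjective g := by
      rintro ⟨y, hy⟩
      obtain ⟨x, rfl⟩ := hf y
      exact ⟨⟨x, hy⟩, rfl⟩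
    have hK : Gr A c (LinearMap.ker g) :=
      TCSM.gr_equiv (Submodule.equivSubtypeMap X' (LinearMap.ker g)).symm (hX _)
    exact TCSM.gr_equiv (LinearMap.quotKerEquivOfSurjective g hg)
      (TCSM.gr_quot hL hC hE (LinearMap.ker g) (hX X') hK)
  · obtain ⟨C, r, h⟩ := hX X'
    exact ⟨C, r, fun q hq => h q (by omega)⟩

end Pool.Agent.Lib.MP8a3537.AUL
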