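import Pool.Agent.Lib.MP_8a3537_gt.AUL.Spec

/-!
# TCZ: `T_c` for `c ≤ 0` is no condition
-/

namespace Pool.Agent.Lib.MP8a3537.AUL

open Matrix

theorem specTCZ : SpecTCZ := by
  intro A _ _ d hN hF c X _ _ hX hc N'
  have := hN
  have := hX
  obtain ⟨C, ⟨r⟩, -⟩ := hF N' inferInstance
  refine ⟨C, ⟨r⟩, fun q hq x hx _ => ⟨0, ?_⟩⟩
  rw [Matrix.zero_vecMul]
  funext i
  refine hx i ?_
  have h1 : C.deg i ≤ 0 := r.isRes.1 i
  have h2 : C.dual.deg i = -C.deg i := rfl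
  rw [h2]
  omega

end Pool.Agent.Lib.MP8a3537.AUL
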