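import Pool.Agent.Lib.MP_8a3537_gt.AUL.Spec

/-!
# MP_8a3537_gt, folder AUL: module TWI (translates)
-/

set_option linter.all false

namespace Pool.Agent.Lib.MP8a3537.AUL



namespace TWIM

variable {S : Type} [Ring S] [StarRing S] {S0 : Subring S} [StarSub S0]

theorem conj_zpow (L : Lau S0) (k : ℤ) : ∀ a ∈ S0,
    ((L.t ^ k : Sˣ) : S) * a * (((L.t ^ k)⁻¹ : Sˣ) : S) ∈ S0 := by
  induction k using Int.induction_on with
  | zero => intro a ha; simpa using ha
  | succ k ih =>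
    intro a ha
    have h := L.conj_mem _ (ih a ha)
    have e : ((L.t ^ ((k : ℤ) + 1) : Sˣ) : S) * a * (((L.t ^ ((k : ℤ) + 1))⁻¹ : Sˣ) : S) =
        (L.t : S) * (((L.t ^ (k : ℤ) : Sˣ) : S) * a * (((L.t ^ (k : ℤ))⁻¹ : Sˣ) : S)) *
          ((L.t⁻¹ : Sˣ) : S) := by
      have e1 : L.t ^ ((k : ℤ) + 1) = L.t * L.t ^ (k : ℤ) := by rw [add_comm, zpow_add, zpow_one]
      rw [e1, mul_inv_rev, Units.val_mul, Units.val_mul]
      simp only [mul_assoc]
    rw [e]
    exact h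
  | pred k ih =>
    intro a ha
    have h := L.conj_mem' _ (ih a ha)
    have e : ((L.t ^ (-(k : ℤ) - 1) : Sˣ) : S) * a * (((L.t ^ (-(k : ℤ) - 1))⁻¹ : Sˣ) : S) =
        ((L.t⁻¹ : Sˣ) : S) * (((L.t ^ (-(k : ℤ)) : Sˣ) : S) * a *
          (((L.t ^ (-(k : ℤ)))⁻¹ : Sˣ) : S)) * (L.t : S) := by
      have e1 : L.t ^ (-(k : ℤ) - 1) = L.t⁻¹ * L.t ^ (-(k : ℤ)) := by
        rw [sub_eq_add_neg, add_comm, zpow_add, zpow_neg_one]
      rw [e1, mul_inv_rev, inv_inv, Units.val_mul, Units.val_mul]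
      simp only [mul_assoc]
    rw [e]
    exact h

/-- Conjugation by `t^k`. -/
def sgk (L : Lau S0) (k : ℤ) : S0 ≃+* S0 where
  toFun a := ⟨((L.t ^ k : Sˣ) : S) * a * (((L.t ^ k)⁻¹ : Sˣ) : S), conj_zpow L k a a.2⟩
  invFun a := ⟨(((L.t ^ k)⁻¹ : Sˣ) : S) * a * ((L.t ^ k : Sˣ) : S), by
    have h := conj_zpow L (-k) a a.2
    rw [zpow_neg, inv_inv] at h
    exact h⟩
  left_inv a := Subtype.ext (by simp only [mul_assoc, Units.inv_mul_cancel_left]; simp)
  right_inv a := Subtype.ext (by simp only [mul_assoc, Units.mul_inv_cancel_left]; simp)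
  map_mul' a b := Subtype.ext (by simp [mul_assoc])
  map_add' a b := Subtype.ext (by simp [mul_add, add_mul])

theorem coe_sgk (L : Lau S0) (k : ℤ) (a : S0) :
    ((sgk L k a : S0) : S) = ((L.t ^ k : Sˣ) : S) * a * (((L.t ^ k)⁻¹ : Sˣ) : S) := rfl

theorem star_t_zpow (L : Lau S0) (k : ℤ) :
    star ((L.t ^ k : Sˣ) : S) = (((L.t ^ k)⁻¹ : Sˣ) : S) := by
  have h : star (L.t) = L.t⁻¹ := Units.ext L.star_t
  rw [← Units.coe_star, star_zpow, h, inv_zpow]

theorem sgk_star (L : Lau S0) (k : ℤ) (a : S0) : sgk L k (star a) = star (sgk L k a) := by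
  apply Subtype.ext
  rw [coe_sgk, coe_star, coe_star, coe_sgk, star_mul, star_mul, star_t_zpow, mul_assoc]
  have : star (((L.t ^ k)⁻¹ : Sˣ) : S) = ((L.t ^ k : Sˣ) : S) := by
    rw [← star_t_zpow, star_star]
  rw [this]

variable {M : Type} [AddCommGroup M] [Module S M]

theorem mem_tr' (L : Lau S0) (k : ℤ) (N : Submodule S0 M) (m : M) :
    ((L.t ^ k : Sˣ) : S) • m ∈ L.tr k N ↔ m ∈ N := by
  rw [Lau.mem_tr, smul_smul, ← Units.val_mul, ← zpow_add, neg_add_cancel, zpow_zero,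
    Units.val_one, one_smul]

/-- `m ↦ t^k m`. -/
def fk (L : Lau S0) (k : ℤ) (N : Submodule S0 M) : N ≃+ L.tr k N where
  toFun m := ⟨((L.t ^ k : Sˣ) : S) • (m : M), (mem_tr' L k N m).2 m.2⟩
  invFun m := ⟨((L.t ^ (-k) : Sˣ) : S) • (m : M), (Lau.mem_tr L k N m).1 m.2⟩
  left_inv m := Subtype.ext (by
    show ((L.t ^ (-k) : Sˣ) : S) • ((L.t ^ k : Sˣ) : S) • (m : M) = m
    rw [smul_smul, ← Units.val_mul, ← zpow_add, neg_add_cancel, zpow_zero, Units.val_one, one_smul])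
  right_inv m := Subtype.ext (by
    show ((L.t ^ k : Sˣ) : S) • ((L.t ^ (-k) : Sˣ) : S) • (m : M) = m
    rw [smul_smul, ← Units.val_mul, ← zpow_add, add_neg_cancel, zpow_zero, Units.val_one, one_smul])
  map_add' a b := Subtype.ext (smul_add _ _ _)

theorem fk_coe (L : Lau S0) (k : ℤ) (N : Submodule S0 M) (m : N) :
    ((fk L k N m : L.tr k N) : M) = ((L.t ^ k : Sˣ) : S) • (m : M) := rfl

theorem fk_smul (L : Lau S0) (k : ℤ) (N : Submodule S0 M) (a : S0) (m : N) :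
    fk L k N (a • m) = sgk L k a • fk L k N m := by
  apply Subtype.ext
  rw [fk_coe, Submodule.coe_smul, Submodule.coe_smul, fk_coe, Subring.smul_def, Subring.smul_def,
    smul_smul, smul_smul, coe_sgk, Units.inv_mul_cancel_right]

/-- An additive equivalence induces one between quotients. -/
theorem quot {A : Type} [Ring A] {X Y : Type} [AddCommGroup X] [Module A X] [AddCommGroup Y]
    [Module A Y] (σ : A ≃+* A) (f : X ≃+ Y) (hf : ∀ (a : A) (x : X), f (a • x) = σ a • f x)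
    (p : Submodule A X) (q : Submodule A Y) (h : ∀ x, x ∈ p ↔ f x ∈ q) :
    ∃ g : (X ⧸ p) ≃+ (Y ⧸ q), ∀ (a : A) (x : X ⧸ p), g (a • x) = σ a • g x := by
  let g1 : (X ⧸ p) →+ (Y ⧸ q) := QuotientAddGroup.map p.toAddSubgroup q.toAddSubgroup
    (f : X →+ Y) (fun x hx => (h x).1 hx)
  have hg1 : ∀ x : X, g1 (Submodule.Quotient.mk x) = Submodule.Quotient.mk (f x) := fun x => rfl
  have hinj : Function.Injective g1 := by
    rw [injective_iff_map_eq_zero]
    intro a
    induction a using Submodule.Quotient.induction_on with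
    | _ x =>
      intro hx
      rw [hg1, Submodule.Quotient.mk_eq_zero] at hx
      rw [Submodule.Quotient.mk_eq_zero]
      exact (h x).2 hx
  have hsur : Function.Surjective g1 := by
    intro b
    induction b using Submodule.Quotient.induction_on with
    | _ y => exact ⟨Submodule.Quotient.mk (f.symm y), by rw [hg1, f.apply_symm_apply]⟩
  refine ⟨AddEquiv.ofBijective g1 ⟨hinj, hsur⟩, ?_⟩
  intro a x
  induction x using Submodule.Quotient.induction_on with
  | _ x =>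
    show g1 (a • Submodule.Quotient.mk x) = σ a • g1 (Submodule.Quotient.mk x)
    rw [← Submodule.Quotient.mk_smul, hg1, hg1, hf, Submodule.Quotient.mk_smul]

end TWIM

open TWIM

theorem specTWI (hSEM : SpecSEM) (_ : SpecBCE) : SpecTWI := by
  intro S _ _ S0 _ L M _ _ N N0 k c
  have hs := hSEM S0 S0 (sgk L k) (sgk_star L k)
  constructor
  · exact (hs.1 N (L.tr k N) (fk L k N) (fk_smul L k N)).2 c
  · intro hN
    obtain ⟨g, hg⟩ := quot (sgk L k) (fk L k N) (fk_smul L k N) (N0.submoduleOf N)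
      ((L.tr k N0).submoduleOf (L.tr k N)) (by
        intro x
        show (x : M) ∈ N0 ↔ ((L.t ^ k : Sˣ) : S) • (x : M) ∈ L.tr k N0
        exact (mem_tr' L k N0 x).symm)
    exact (hs.1 _ _ g hg).2 c

end Pool.Agent.Lib.MP8a3537.AUL
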