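import Pool.Agent.Lib.MP_8a3537_gt.AUL.LFT
import Pool.Agent.Lib.MP_8a3537_gt.AUL.HTP
import Pool.Agent.Lib.MP_8a3537_gt.AUL.IND
import Pool.Agent.Lib.MP_8a3537_gt.AUL.CNE
import Pool.Agent.Lib.MP_8a3537_gt.AUL.LES
import Pool.Agent.Lib.MP_8a3537_gt.AUL.RSM
import Pool.Agent.Lib.MP_8a3537_gt.AUL.SEM
import Pool.Agent.Lib.MP_8a3537_gt.AUL.TCS
import Pool.Agent.Lib.MP_8a3537_gt.AUL.TCE
import Pool.Agent.Lib.MP_8a3537_gt.AUL.TCZ
import Pool.Agent.Lib.MP_8a3537_gt.AUL.LAU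
import Pool.Agent.Lib.MP_8a3537_gt.AUL.BCE
import Pool.Agent.Lib.MP_8a3537_gt.AUL.TWI
import Pool.Agent.Lib.MP_8a3537_gt.AUL.NOE
import Pool.Agent.Lib.MP_8a3537_gt.AUL.EXN
import Pool.Agent.Lib.MP_8a3537_gt.AUL.MAK
import Pool.Agent.Lib.MP_8a3537_gt.AUL.PHC
import Pool.Agent.Lib.MP_8a3537_gt.AUL.CHR
import Pool.Agent.Lib.MP_8a3537_gt.AUL.FNS
import Pool.Agent.Lib.MP_8a3537_gt.AUL.LAT
import Pool.Agent.Lib.MP_8a3537_gt.AUL.LOC
import Pool.Agent.Lib.MP_8a3537_gt.AUL.KYA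
import Pool.Agent.Lib.MP_8a3537_gt.AUL.KYB
import Pool.Agent.Lib.MP_8a3537_gt.AUL.KEY
import Pool.Agent.Lib.MP_8a3537_gt.AUL.ACH
import Pool.Agent.Lib.MP_8a3537_gt.AUL.ACX
import Pool.Agent.Lib.MP_8a3537_gt.AUL.ACQ
import Pool.Agent.Lib.MP_8a3537_gt.AUL.STP
import Pool.Agent.Lib.MP_8a3537_gt.AUL.PIF
import Pool.Agent.Lib.MP_8a3537_gt.AUL.PIT
import Pool.Agent.Lib.MP_8a3537_gt.AUL.PID
import Pool.Agent.Lib.MP_8a3537_gt.AUL.GRP
import Pool.Agent.Lib.MP_8a3537_gt.AUL.POLG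
import Pool.Agent.Lib.MP_8a3537_gt.AUL.BRL
import Pool.Agent.Lib.MP_8a3537_gt.AUL.BRF
import Pool.Agent.Lib.MP_8a3537_gt.AUL.BRI
import Pool.Agent.Lib.MP_8a3537_gt.AUL.BRA
import Pool.Agent.Lib.MP_8a3537_gt.AUL.BRG

/-!
# Auslander regularity of group rings of poly-infinite-cyclic groups: assembly
-/

namespace Pool.Agent.Lib.MP8a3537.AUL

theorem mIND : SpecIND := specIND specLFT specHTP

theorem mTCS : SpecTCS := specTCS specLFT specCON specLES

theorem mTCE : SpecTCE := specTCE specLFT specCON specLES mIND mTCS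

theorem mBCE : SpecBCE := specBCE specLAU

theorem mTWI : SpecTWI := specTWI specSEM mBCE

theorem mEXN : SpecEXN := specEXN specLAU

theorem mMAK : SpecMAK := specMAK specLFT specSEM

theorem mCHR : SpecCHR := specCHR specLAU mBCE

theorem mFNS : SpecFNS := specFNS mEXN mMAK specPHC mCHR

theorem mLAT : SpecLAT := specLAT mTCS mTCE mTWI

theorem mLOC : SpecLOC := specLOC specLES mBCE mEXN mMAK specPHC mCHR mTCS mLAT

theorem mKYA : SpecKYA := specKYA mTCS mTCE mEXN mLAT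

theorem mKYB : SpecKYB := specKYB specLAU mBCE

theorem mKEY : SpecKEY := specKEY mIND specCON mTCS mMAK specPHC mCHR mKYA mKYB

theorem mACH : SpecACH := specACH specLAU mTCS mLOC

theorem mACX : SpecACX := specACX specLAU specLES mTCS mKEY

theorem mACQ : SpecACQ :=
  specACQ mIND specCON specLES specRSM specSEM mTCS mTCE specTCZ mEXN mMAK specPHC mCHR mFNS mACH
    mACX

/-- **The step**: the Auslander condition passes from `S0` to `S0[t, 1/t; σ]`. -/
theorem mSTP : SpecSTP := specSTP specNOE mFNS mACQ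

/-- Principal ideal domains. -/
theorem mPID : SpecPID := specPID mIND specRSM specTCZ specPIF specPIT

/-- Group rings of poly-infinite-cyclic groups over any ring with `Aus`. -/
theorem aus_group (R H : Type) [Ring R] [StarRing R] [Group H] (d0 : ℕ) (h0 : Aus R d0)
    (hH : PolyZ H) : ∃ d, Aus (MonoidAlgebra R H) d :=
  polG specSEM mSTP specGRP R H d0 h0 hH

theorem mBRG : SpecBRG := specBRG (specBRF specBRL) (specBRI mIND specRSM) (specBRA specBRL)

/-- `R[H]` is Auslander regular if `R` is (in the form `Aus R d`) and `H` is poly-infinite-cyclic. -/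
theorem auslanderRegular_group (R H : Type) [Ring R] [StarRing R] [Group H] (d0 : ℕ)
    (h0 : Aus R d0) (hH : PolyZ H) : AU.AuslanderRegular (MonoidAlgebra R H) := by
  obtain ⟨d, hd⟩ := aus_group R H d0 h0 hH
  exact mBRG _ d hd

/-- **The final statement.** -/
theorem specFinal : SpecFinal := by
  intro R H _ _ _ _ _ hH
  exact auslanderRegular_group R H 1 (mPID R) hH

end Pool.Agent.Lib.MP8a3537.AUL
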