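import Pool.Agent.Lib.MP_8a3537_gt.AUL.Spec

/-!
# MP_8a3537_gt, folder AUL: module LFT, lifting of a module map to the resolutions
-/

namespace Pool.Agent.Lib.MP8a3537.AUL

open Matrix

namespace LFTM

variable {A : Type} [Ring A]

theorem map_vecMul {I J N : Type} [Fintype I] [AddCommGroup N] [Module A N]
    (g : (J → A) →ₗ[A] N) (x : I → A) (u : Matrix I J A) :
    g (x ᵥ* u) = ∑ k, x k • g (u k) := by
  rw [vecMul_eq_sum, map_sum]
  refine Finset.sum_congr rfl fun k _ => ?_
  rw [map_smul]

theorem map_single {I N : Type} [Fintype I] [DecidableEq I] [AddCommGroup N] [Module A N]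
    (g : (I → A) →ₗ[A] N) (x : I → A) :
    g x = ∑ k, x k • g (Pi.single k 1) := by
  conv_lhs => rw [← Finset.univ_sum_single x, map_sum]
  refine Finset.sum_congr rfl fun k _ => ?_
  rw [← map_smul]
  congr 1
  funext j
  by_cases h : j = k
  · subst h
    simp
  · simp [Pi.single_eq_of_ne h]

theorem inDeg_single {I : Type} [DecidableEq I] (deg : I → ℤ) (k : I) (a : A) :
    InDeg deg (deg k) (Pi.single k a : I → A) := by
  intro i hi
  have : i ≠ k := by
    rintro rfl
    exact hi rfl
  exact Pi.single_eq_of_ne (M := fun _ : I => A) this a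

theorem pi_part {D : FC A} {Y : Type} [AddCommGroup Y] [Module A Y] (s : Res D Y)
    (x : D.I → A) : s.pi (part D.deg 0 x) = s.pi x := by
  rw [map_single s.pi x, map_single s.pi (part D.deg 0 x)]
  refine Finset.sum_congr rfl fun k _ => ?_
  by_cases h : D.deg k = 0
  · have : part D.deg 0 x k = x k := if_pos h
    rw [this]
  · rw [s.low (D.deg k) _ h (inDeg_single D.deg k 1), smul_zero, smul_zero]

theorem inDeg_part {I : Type} (deg : I → ℤ) (q : ℤ) (x : I → A) :
    InDeg deg q (part deg q x) := fun _ hi => if_neg hi

theorem part_of_inDeg {I : Type} (deg : I → ℤ) (q : ℤ) (x : I → A) (hx : InDeg deg q x) :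
    part deg q x = x := by
  funext i
  by_cases h : deg i = q
  · exact if_pos h
  · rw [hx i h]
    exact if_neg h

theorem part_vecMul (D : FC A) (q : ℤ) (y : D.I → A) :
    (part D.deg q y) ᵥ* D.e = part D.deg (q + 1) (y ᵥ* D.e) := by
  funext j
  simp only [part, vecMul, dotProduct]
  by_cases h : D.deg j = q + 1
  · rw [if_pos h]
    refine Finset.sum_congr rfl fun k _ => ?_
    by_cases hk : D.deg k = q
    · rw [if_pos hk]
    · have : D.e k j = 0 := by
        by_contra h0
        have := D.he k j h0
        omega
      rw [this, mul_zero, mul_zero]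
  · rw [if_neg h]
    refine Finset.sum_eq_zero fun k _ => ?_
    by_cases hk : D.deg k = q
    · have : D.e k j = 0 := by
        by_contra h0
        have := D.he k j h0
        omega
      rw [this, mul_zero]
    · rw [if_neg hk, zero_mul]

theorem vecMul_congr_rows {I J : Type} [Fintype I] (x : I → A) (u v : Matrix I J A)
    (h : ∀ k, x k ≠ 0 → u k = v k) : x ᵥ* u = x ᵥ* v := by
  rw [vecMul_eq_sum, vecMul_eq_sum]
  refine Finset.sum_congr rfl fun k _ => ?_
  by_cases hk : x k = 0
  · rw [hk, zero_smul, zero_smul]
  · have := h k hk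
    change x k • u k = x k • v k
    rw [this]

end LFTM

open LFTM in
theorem specLFT : SpecLFT := by
  intro A _ C D X Y _ _ _ _ r s f
  -- the inductive claim
  have claim : ∀ n : ℕ, ∃ u : Matrix C.I D.I A, (∀ i j, u i j ≠ 0 → D.deg j = C.deg i) ∧
      (∀ i, -(n : ℤ) ≤ C.deg i → C.e i ᵥ* u = u i ᵥ* D.e) ∧
      (∀ i, C.deg i = 0 → s.pi (u i) = f (r.pi (Pi.single i 1))) := by
    intro n
    induction n with
    | zero =>
      have h1 : ∀ i : C.I, ∃ y : D.I → A, s.pi y = f (r.pi (Pi.single i 1)) :=
        fun i => s.surj _
      choose y hy using h1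
      refine ⟨fun i => if C.deg i = 0 then part D.deg 0 (y i) else 0, ?_, ?_, ?_⟩
      · intro i j hij
        by_cases hi : C.deg i = 0
        · simp only [hi, if_true] at hij ⊢
          by_contra h0
          exact hij (if_neg h0)
        · simp only [hi, if_false] at hij
          exact absurd rfl hij
      · intro i hi
        have hi0 : C.deg i = 0 := le_antisymm (r.isRes.1 i) (by simpa using hi)
        have hCe : C.e i = 0 := by
          funext j
          by_contra h0
          have h2 := C.he i j h0
          have h3 := r.isRes.1 j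
          omega
        rw [hCe, zero_vecMul]
        simp only [hi0, if_true]
        rw [part_vecMul]
        funext j
        have h3 := s.isRes.1 j
        have h4 : ¬ D.deg j = 0 + 1 := by omega
        exact (if_neg h4).symm
      · intro i hi
        simp only [hi, if_true]
        rw [pi_part, hy]
    | succ n ih =>
      obtain ⟨u, hu1, hu2, hu3⟩ := ih
      -- the rows to be lifted
      have hv1 : ∀ i, C.deg i = -(n : ℤ) - 1 → InDeg D.deg (-(n : ℤ)) (C.e i ᵥ* u) := by
        intro i hi j hj
        simp only [vecMul, dotProduct]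
        refine Finset.sum_eq_zero fun k _ => ?_
        by_cases h0 : C.e i k = 0
        · rw [h0, zero_mul]
        · by_cases h1 : u k j = 0
          · rw [h1, mul_zero]
          · exfalso
            have h2 := C.he i k h0
            have h3 := hu1 k j h1
            omega
      have hv2 : ∀ i, C.deg i = -(n : ℤ) - 1 → (C.e i ᵥ* u) ᵥ* D.e = 0 := by
        intro i hi
        rw [vecMul_vecMul]
        have h1 : C.e i ᵥ* (u * D.e) = C.e i ᵥ* (C.e * u) := by
          refine vecMul_congr_rows _ _ _ fun k hk => ?_
          have h2 := C.he i k hk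
          have h3 := hu2 k (by omega)
          exact h3.symm
        rw [h1, ← vecMul_vecMul]
        have h4 : C.e i ᵥ* C.e = 0 := by
          have := congrFun C.e_mul_e i
          exact this
        rw [h4, zero_vecMul]
      have hv3 : ∀ i, ∃ y : D.I → A, C.deg i = -(n : ℤ) - 1 → C.e i ᵥ* u = y ᵥ* D.e := by
        intro i
        by_cases hi : C.deg i = -(n : ℤ) - 1
        · rcases Nat.eq_zero_or_pos n with hn | hn
          · subst hn
            have h1 : s.pi (C.e i ᵥ* u) = 0 := by
              rw [map_vecMul]
              have h2 : ∑ k, C.e i k • s.pi (u k) = f (r.pi (C.e i)) := by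
                rw [map_single r.pi (C.e i), map_sum]
                refine Finset.sum_congr rfl fun k _ => ?_
                by_cases h0 : C.e i k = 0
                · rw [h0, zero_smul, zero_smul, map_zero]
                · have h3 := C.he i k h0
                  rw [hu3 k (by push_cast at hi; omega), map_smul]
              rw [h2]
              have h4 : r.pi (C.e i) = 0 := by
                have h5 := r.zero (Pi.single i 1)
                rwa [single_one_vecMul] at h5
              rw [h4, map_zero]
            obtain ⟨y, hy⟩ := s.ker (C.e i ᵥ* u) (by simpa using hv1 i hi) h1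
            exact ⟨y, fun _ => hy⟩
          · obtain ⟨y, hy⟩ := s.isRes.2 (-(n : ℤ)) (by omega) (C.e i ᵥ* u) (hv1 i hi) (hv2 i hi)
            exact ⟨y, fun _ => hy⟩
        · exact ⟨0, fun h => absurd h hi⟩
      choose y hy using hv3
      have hu' : ∀ i, C.deg i ≠ -(n : ℤ) - 1 →
          (fun i => if C.deg i = -(n : ℤ) - 1 then part D.deg (-(n : ℤ) - 1) (y i) else u i :
            Matrix C.I D.I A) i = u i := fun i hi => if_neg hi
      have hu'' : ∀ i, C.deg i = -(n : ℤ) - 1 →
          (fun i => if C.deg i = -(n : ℤ) - 1 then part D.deg (-(n : ℤ) - 1) (y i) else u i :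
            Matrix C.I D.I A) i = part D.deg (-(n : ℤ) - 1) (y i) := fun i hi => if_pos hi
      generalize (fun i => if C.deg i = -(n : ℤ) - 1 then part D.deg (-(n : ℤ) - 1) (y i) else u i :
            Matrix C.I D.I A) = w at hu' hu''
      have hCw : ∀ i, -(n : ℤ) - 1 ≤ C.deg i → C.e i ᵥ* w = C.e i ᵥ* u := by
        intro i hi
        refine vecMul_congr_rows _ _ _ fun k hk => ?_
        have h2 := C.he i k hk
        exact hu' k (by omega)
      refine ⟨w, ?_, ?_, ?_⟩
      · intro i j hij
        by_cases hi : C.deg i = -(n : ℤ) - 1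
        · rw [hu'' i hi] at hij
          by_contra h0
          apply hij
          refine if_neg ?_
          rw [← hi]
          exact h0
        · rw [hu' i hi] at hij
          exact hu1 i j hij
      · intro i hi
        push_cast at hi
        rw [hCw i (by omega)]
        by_cases hi' : C.deg i = -(n : ℤ) - 1
        · rw [hu'' i hi', part_vecMul, ← hy i hi', sub_add_cancel]
          exact (part_of_inDeg _ _ _ (hv1 i hi')).symm
        · rw [hu' i hi']
          exact hu2 i (by omega)
      · intro i hi
        rw [hu' i (by omega)]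
        exact hu3 i hi
  -- a lower bound of the degrees
  obtain ⟨n, hn⟩ : ∃ n : ℕ, ∀ i, -(n : ℤ) ≤ C.deg i := by
    refine ⟨∑ i, (C.deg i).natAbs, fun i => ?_⟩
    have h1 : (C.deg i).natAbs ≤ ∑ i, (C.deg i).natAbs :=
      Finset.single_le_sum (f := fun i => (C.deg i).natAbs) (fun _ _ => Nat.zero_le _)
        (Finset.mem_univ i)
    omega
  obtain ⟨u, hu1, hu2, hu3⟩ := claim n
  refine ⟨u, ⟨hu1, ?_⟩, ?_⟩
  · ext i j
    have := congrFun (hu2 i (hn i)) j
    exact this
  · intro x
    rw [map_vecMul, map_single r.pi x, map_sum]
    refine Finset.sum_congr rfl fun k _ => ?_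
    rw [map_smul]
    congr 1
    by_cases hk : C.deg k = 0
    · exact hu3 k hk
    · rw [r.low (C.deg k) _ hk (inDeg_single C.deg k 1), map_zero]
      refine s.low (C.deg k) _ hk ?_
      intro j hj
      by_contra h0
      exact hj (hu1 k j h0)

end Pool.Agent.Lib.MP8a3537.AUL
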