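import Pool.Agent.Lib.MP_8a3537_gt.AUL.Spec

namespace Pool.Agent.Lib.MP8a3537.AUL

namespace POLM

theorem bij (R H : Type) [Ring R] [Group H] [Subsingleton H] :
    Function.Bijective (MonoidAlgebra.singleOneRingHom : R →+* MonoidAlgebra R H) := by
  classical
  constructor
  · intro a b hab
    have h := congrArg (fun x : MonoidAlgebra R H => x.coeff 1) hab
    simpa [MonoidAlgebra.singleOneRingHom] using h
  · intro x
    refine ⟨x.coeff 1, ?_⟩
    ext h
    rw [Subsingleton.elim h 1]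
    simp [MonoidAlgebra.singleOneRingHom]

end POLM

theorem specPOL (hSEM : SpecSEM) (hSTP : SpecSTP) (hPID : SpecPID) (hGRP : SpecGRP) :
    SpecPOL := by
  intro R H _ _ _ _ _ hH
  induction hH with
  | one H hs =>
    refine ⟨1, ?_⟩
    refine (hSEM R (MonoidAlgebra R H) (RingEquiv.ofBijective _ (POLM.bij R H)) ?_).2 1 (hPID R)
    intro a
    change MonoidAlgebra.single (1 : H) (star a) = star (MonoidAlgebra.single (1 : H) a)
    rw [UV.star_single, inv_one]
  | step H N t hN hext ih =>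
    obtain ⟨d, hd⟩ := ih
    obtain ⟨hss, ⟨L⟩, σ, hσ⟩ := hGRP R H N t hext
    exact ⟨d + 1, hSTP (MonoidAlgebra R H) (gsub R N) L d
      ((hSEM (MonoidAlgebra R N) (gsub R N) σ hσ).2 d hd)⟩

end Pool.Agent.Lib.MP8a3537.AUL
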