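import Mathlib

/-!
# The Auslander condition for Laurent extensions (MP_8a3537_gt, folder AUL): definitions

Rings with involution; LEFT modules, rows: a matrix `e` over `A` acts on rows by `x ↦ x ᵥ* e`.
-/

namespace Pool.Agent.Lib.MP8a3537.AUL

open Matrix

/-! ### Finite free complexes -/

/-- A finite free complex over `A`: rows `x : I → A`, the differential `x ↦ x ᵥ* e` raises the
degree by one. -/
structure FC (A : Type) [Ring A] where
  /-- the index set -/
  I : Type
  /-- it is finite -/
  fin : Fintype I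
  /-- with decidable equality -/
  dec : DecidableEq I
  /-- the degrees -/
  deg : I → ℤ
  /-- the differential -/
  e : Matrix I I A
  /-- the differential has degree one -/
  he : ∀ i j, e i j ≠ 0 → deg j = deg i + 1
  /-- it is a differential -/
  hee : ∀ i k, ∑ j, e i j * e j k = 0

attribute [instance] FC.fin FC.dec

section Complexes

variable {A : Type} [Ring A]

/-- The row `x` is supported in degree `q`. -/
def InDeg {I : Type} (deg : I → ℤ) (q : ℤ) (x : I → A) : Prop := ∀ i, deg i ≠ q → x i = 0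

/-- The part of degree `q` of a row. -/
def part {I : Type} (deg : I → ℤ) (q : ℤ) (x : I → A) : I → A := fun i => if deg i = q then x i else 0

theorem FC.e_mul_e (C : FC A) : C.e * C.e = 0 := by
  ext i k
  rw [Matrix.mul_apply]
  exact C.hee i k

/-- Exactness in degree `q`. -/
def FC.ExactAt (C : FC A) (q : ℤ) : Prop :=
  ∀ x : C.I → A, InDeg C.deg q x → x ᵥ* C.e = 0 → ∃ y : C.I → A, x = y ᵥ* C.e

/-- The complex is a resolution (of something): degrees `≤ 0`, exact in degrees `< 0`. -/
def FC.IsRes (C : FC A) : Prop := (∀ i, C.deg i ≤ 0) ∧ ∀ q < 0, C.ExactAt q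

/-- The cocycles of degree `q`. -/
def FC.Z (C : FC A) (q : ℤ) : Submodule A (C.I → A) where
  carrier := {x | InDeg C.deg q x ∧ x ᵥ* C.e = 0}
  add_mem' := by
    rintro x y ⟨hx, hx'⟩ ⟨hy, hy'⟩
    refine ⟨fun i hi => by rw [Pi.add_apply, hx i hi, hy i hi, add_zero], ?_⟩
    rw [Matrix.add_vecMul, hx', hy', add_zero]
  zero_mem' := ⟨fun _ _ => rfl, Matrix.zero_vecMul _⟩
  smul_mem' := by
    rintro a x ⟨hx, hx'⟩
    refine ⟨fun i hi => by rw [Pi.smul_apply, hx i hi, smul_zero], ?_⟩
    rw [Matrix.smul_vecMul, hx', smul_zero]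

/-- The coboundaries of degree `q`. -/
def FC.B (C : FC A) (q : ℤ) : Submodule A (C.I → A) where
  carrier := {x | InDeg C.deg q x ∧ ∃ y : C.I → A, x = y ᵥ* C.e}
  add_mem' := by
    rintro x y ⟨hx, x', hx'⟩ ⟨hy, y', hy'⟩
    refine ⟨fun i hi => by rw [Pi.add_apply, hx i hi, hy i hi, add_zero], x' + y', ?_⟩
    rw [Matrix.add_vecMul, ← hx', ← hy']
  zero_mem' := ⟨fun _ _ => rfl, 0, (Matrix.zero_vecMul _).symm⟩
  smul_mem' := by
    rintro a x ⟨hx, x', hx'⟩
    refine ⟨fun i hi => by rw [Pi.smul_apply, hx i hi, smul_zero], a • x', ?_⟩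
    rw [Matrix.smul_vecMul, ← hx']

/-- The cohomology module in degree `q`. -/
abbrev FC.H (C : FC A) (q : ℤ) : Type := C.Z q ⧸ (C.B q).submoduleOf (C.Z q)

/-- The dual complex. -/
def FC.dual [StarRing A] (C : FC A) : FC A where
  I := C.I
  fin := C.fin
  dec := C.dec
  deg := fun i => - C.deg i
  e := C.eᴴ
  he := by
    intro i j h
    have h1 : C.e j i ≠ 0 := by
      intro h0
      apply h
      rw [Matrix.conjTranspose_apply, h0, star_zero]
    have := C.he j i h1
    omega
  hee := by
    intro i k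
    have h := C.hee k i
    have h2 := congrArg star h
    rw [star_zero, star_sum] at h2
    rw [← h2]
    refine Finset.sum_congr rfl fun j _ => ?_
    rw [Matrix.conjTranspose_apply, Matrix.conjTranspose_apply, star_mul]

/-- The complex obtained by a ring homomorphism. -/
def FC.map {A B : Type} [Ring A] [Ring B] (C : FC A) (f : A →+* B) : FC B where
  I := C.I
  fin := C.fin
  dec := C.dec
  deg := C.deg
  e := C.e.map f
  he := by
    intro i j h
    apply C.he i j
    intro h0
    apply h
    rw [Matrix.map_apply, h0, map_zero]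
  hee := by
    intro i k
    have h := congrArg f (C.hee i k)
    rw [map_zero, map_sum] at h
    rw [← h]
    refine Finset.sum_congr rfl fun j _ => ?_
    rw [Matrix.map_apply, Matrix.map_apply, map_mul]

/-- `u` is a chain map `D → C` of degree zero (rows `x ↦ x ᵥ* u`). -/
structure IsChain (D C : FC A) (u : Matrix D.I C.I A) : Prop where
  deg : ∀ i j, u i j ≠ 0 → C.deg j = D.deg i
  comm : D.e * u = u * C.e

/-- The cone of a chain map `u : D → C`: `(x, x') ↦ (x e + x' u, - x' e')`, the degrees of `D` are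
lowered by one. -/
def cone (C D : FC A) (u : Matrix D.I C.I A) (hu : IsChain D C u) : FC A where
  I := C.I ⊕ D.I
  fin := inferInstance
  dec := inferInstance
  deg := Sum.elim C.deg (fun i => D.deg i - 1)
  e := fromBlocks C.e 0 u (-D.e)
  he := by
    rintro (i | i) (j | j) h
    · exact C.he i j h
    · exact absurd rfl h
    · have := hu.deg i j h
      simp only [Sum.elim_inl, Sum.elim_inr]
      omega
    · have h1 : D.e i j ≠ 0 := by
        intro h0
        apply h
        rw [fromBlocks_apply₂₂, Matrix.neg_apply, h0, neg_zero]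
      have := D.he i j h1
      simp only [Sum.elim_inr]
      omega
  hee := by
    intro i k
    have h : fromBlocks C.e 0 u (-D.e) * fromBlocks C.e 0 u (-D.e) = 0 := by
      rw [fromBlocks_multiply, C.e_mul_e]
      simp [D.e_mul_e, hu.comm]
    have h2 := congrFun (congrFun h i) k
    rwa [Matrix.mul_apply] at h2

/-! ### Resolutions of modules -/

/-- `C` is a resolution of the module `N`. -/
structure Res (C : FC A) (N : Type) [AddCommGroup N] [Module A N] where
  /-- the augmentation -/
  pi : (C.I → A) →ₗ[A] N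
  isRes : C.IsRes
  low : ∀ (q : ℤ) (x : C.I → A), q ≠ 0 → InDeg C.deg q x → pi x = 0
  surj : Function.Surjective pi
  zero : ∀ y : C.I → A, pi (y ᵥ* C.e) = 0
  ker : ∀ x : C.I → A, InDeg C.deg 0 x → pi x = 0 → ∃ y : C.I → A, x = y ᵥ* C.e

/-- `N` has a resolution whose dual is exact below degree `c` (`Ext^q(N, A) = 0` for `q < c`). -/
def Gr (A : Type) [Ring A] [StarRing A] (c : ℤ) (N : Type) [AddCommGroup N] [Module A N] : Prop :=
  ∃ C : FC A, Nonempty (Res C N) ∧ ∀ q < c, C.dual.ExactAt q

/-- All submodules of `N` have a resolution whose dual is exact below degree `c`. -/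
def Tc (A : Type) [Ring A] [StarRing A] (c : ℤ) (N : Type) [AddCommGroup N] [Module A N] : Prop :=
  ∀ N' : Submodule A N, Gr A c N'

/-- Every finite module has a resolution with degrees `≥ -d`. -/
def FinRes (A : Type) [Ring A] (d : ℕ) : Prop :=
  ∀ (N : Type) [AddCommGroup N] [Module A N], Module.Finite A N →
    ∃ C : FC A, Nonempty (Res C N) ∧ ∀ i, -(d : ℤ) ≤ C.deg i

/-- Noetherian, finite free resolutions of length at most `d`, and the Auslander condition. -/
structure Aus (A : Type) [Ring A] [StarRing A] (d : ℕ) : Prop where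
  noeth : IsNoetherianRing A
  fin : FinRes A d
  aus : ∀ C : FC A, C.IsRes → ∀ c : ℤ, 0 ≤ c → Tc A c (C.dual.H c)

end Complexes

/-! ### Laurent extensions -/

section Laurent

variable {S : Type} [Ring S] [StarRing S]

/-- The subring is closed under the involution. -/
class StarSub (S0 : Subring S) : Prop where
  star_mem : ∀ a ∈ S0, star a ∈ S0

/-- The involution of the subring. -/
instance instStarSub (S0 : Subring S) [StarSub S0] : StarRing S0 where
  star a := ⟨star (a : S), StarSub.star_mem a.1 a.2⟩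
  star_involutive a := Subtype.ext (star_star (a : S))
  star_mul a b := Subtype.ext (star_mul (a : S) (b : S))
  star_add a b := Subtype.ext (star_add (a : S) (b : S))

theorem coe_star (S0 : Subring S) [StarSub S0] (a : S0) : ((star a : S0) : S) = star (a : S) := rfl

/-- `S = S0[t, 1/t; σ]`: `t` is a unit with `t^* = t⁻¹`, `t S0 t⁻¹ = S0`, and every element of `S` is
`∑ t^k a_k` with unique `a_k ∈ S0`, almost all zero. -/
structure Lau (S0 : Subring S) where
  /-- the variable -/
  t : Sˣ
  star_t : star (t : S) = ((t⁻¹ : Sˣ) : S)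
  conj_mem : ∀ a ∈ S0, (t : S) * a * ((t⁻¹ : Sˣ) : S) ∈ S0
  conj_mem' : ∀ a ∈ S0, ((t⁻¹ : Sˣ) : S) * a * (t : S) ∈ S0
  bij : Function.Bijective (fun f : ℤ →₀ S0 => f.sum fun k a => ((t ^ k : Sˣ) : S) * (a : S))

variable {S0 : Subring S}

/-- The automorphism `σ(a) = t a t⁻¹` of `S0`. -/
def Lau.sg (L : Lau S0) : S0 ≃+* S0 where
  toFun a := ⟨(L.t : S) * a * ((L.t⁻¹ : Sˣ) : S), L.conj_mem a a.2⟩
  invFun a := ⟨((L.t⁻¹ : Sˣ) : S) * a * (L.t : S), L.conj_mem' a a.2⟩
  left_inv a := Subtype.ext (by simp [mul_assoc])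
  right_inv a := Subtype.ext (by simp [mul_assoc])
  map_mul' a b := Subtype.ext (by simp [mul_assoc])
  map_add' a b := Subtype.ext (by simp [mul_add, add_mul])

theorem Lau.coe_sg (L : Lau S0) (a : S0) :
    ((L.sg a : S0) : S) = (L.t : S) * a * ((L.t⁻¹ : Sˣ) : S) := rfl

theorem Lau.coe_sg_symm (L : Lau S0) (a : S0) :
    ((L.sg.symm a : S0) : S) = ((L.t⁻¹ : Sˣ) : S) * a * (L.t : S) := rfl

/-- The additive bijection `(a_k) ↦ ∑ t^k a_k`. -/
noncomputable def Lau.val (L : Lau S0) : (ℤ →₀ S0) ≃+ S :=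
  AddEquiv.ofBijective
    ({ toFun := fun f : ℤ →₀ S0 => f.sum fun k a => ((L.t ^ k : Sˣ) : S) * (a : S)
       map_zero' := Finsupp.sum_zero_index
       map_add' := fun f g => Finsupp.sum_add_index' (fun k => by simp)
        (fun k a b => by simp [mul_add]) } : (ℤ →₀ S0) →+ S) L.bij

/-- The coefficients `a_k` of an element of `S`. -/
noncomputable def Lau.co (L : Lau S0) (s : S) : ℤ →₀ S0 := L.val.symm s

/-- The coefficient rows of a row over `S`. -/
noncomputable def Lau.cor (L : Lau S0) {I : Type} (x : I → S) (k : ℤ) : I → S0 :=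
  fun i => L.co (x i) k

/-- Base change of a complex from `S0` to `S`. -/
def bc (C : FC S0) : FC S := C.map S0.subtype

theorem bc_dual [StarSub S0] (C : FC S0) : (bc C).dual = bc C.dual := rfl

variable {M : Type} [AddCommGroup M] [Module S M]

/-- The `S0`-submodule `t^k N`. -/
def Lau.tr (L : Lau S0) (k : ℤ) (N : Submodule S0 M) : Submodule S0 M where
  carrier := {m | ((L.t ^ (-k) : Sˣ) : S) • m ∈ N}
  add_mem' := by
    intro x y hx hy
    simp only [Set.mem_ofPred_eq, smul_add] at *
    exact N.add_mem hx hy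
  zero_mem' := by simp
  smul_mem' := by
    intro a x hx
    have key : ∀ (n : ℕ) (b : S0), (((L.t ^ n : Sˣ) : S) * b = ((L.sg ^[n] b : S0) : S) * ((L.t ^ n : Sˣ) : S)) ∧
        (((L.t⁻¹ ^ n : Sˣ) : S) * b = ((L.sg.symm ^[n] b : S0) : S) * ((L.t⁻¹ ^ n : Sˣ) : S)) := by
      intro n
      induction n with
      | zero => intro b; simp
      | succ n ih =>
        intro b
        constructor
        · rw [pow_succ, Function.iterate_succ_apply, Units.val_mul, mul_assoc]
          have h1 : (L.t : S) * (b : S) = ((L.sg b : S0) : S) * (L.t : S) := by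
            rw [L.coe_sg]; simp [mul_assoc]
          rw [h1, ← mul_assoc, (ih _).1, mul_assoc]
        · rw [pow_succ, Function.iterate_succ_apply, Units.val_mul, mul_assoc]
          have h1 : ((L.t⁻¹ : Sˣ) : S) * (b : S) = ((L.sg.symm b : S0) : S) * ((L.t⁻¹ : Sˣ) : S) := by
            rw [L.coe_sg_symm]; simp [mul_assoc]
          rw [h1, ← mul_assoc, (ih _).2, mul_assoc]
    have : ∃ b : S0, ((L.t ^ (-k) : Sˣ) : S) * (a : S) = (b : S) * ((L.t ^ (-k) : Sˣ) : S) := by
      rcases Int.eq_nat_or_neg (-k) with ⟨n, hn | hn⟩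
      · rw [hn]; exact ⟨_, by simpa using (key n a).1⟩
      · rw [hn]
        refine ⟨L.sg.symm ^[n] a, ?_⟩
        have := (key n a).2
        rwa [inv_pow, ← zpow_natCast, ← _root_.zpow_neg] at this
    obtain ⟨b, hb⟩ := this
    simp only [Set.mem_ofPred_eq] at *
    have h2 : ((L.t ^ (-k) : Sˣ) : S) • (a • x) = b • (((L.t ^ (-k) : Sˣ) : S) • x) := by
      rw [Subring.smul_def, Subring.smul_def, smul_smul, smul_smul, hb]
    rw [h2]
    exact N.smul_mem b hx

theorem Lau.mem_tr (L : Lau S0) (k : ℤ) (N : Submodule S0 M) (m : M) :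
    m ∈ L.tr k N ↔ ((L.t ^ (-k) : Sˣ) : S) • m ∈ N := Iff.rfl

/-- `N' = N ∩ t⁻¹ N`. -/
def Lau.pr (L : Lau S0) (N : Submodule S0 M) : Submodule S0 M := N ⊓ L.tr (-1) N

/-- The property `(X)` of `N`: the relations `∑ t^k n_k = 0` between elements of `N` are generated by
those of `N'`. -/
def Lau.PX (L : Lau S0) (N : Submodule S0 M) : Prop :=
  ∀ n : ℤ →₀ M, (∀ k, n k ∈ N) → (n.sum fun k m => ((L.t ^ k : Sˣ) : S) • m) = 0 →
    ∃ n' : ℤ →₀ M, (∀ k, n' k ∈ L.pr N) ∧ ∀ k, n k = (L.t : S) • n' (k + 1) - n' k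

/-- `N` generates `M` over `S`. -/
def Gen (N : Submodule S0 M) : Prop := Submodule.span S (N : Set M) = ⊤

end Laurent

end Pool.Agent.Lib.MP8a3537.AUL
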