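import Pool.Agent.Lib.MP_8a3537_gt.AUL.Spec

/-!
# MP_8a3537_gt, folder AUL: module KYA (the module part of the key lemma)
-/

set_option linter.all false

namespace Pool.Agent.Lib.MP8a3537.AUL

open Matrix

namespace KYAM

theorem injQ {R P Q : Type} [Ring R] [AddCommGroup P] [Module R P] [AddCommGroup Q] [Module R Q]
    (f : P →ₗ[R] Q) (p : Submodule R P) (q : Submodule R Q) (h : ∀ x, x ∈ p ↔ f x ∈ q) :
    ∃ g : (P ⧸ p) →ₗ[R] (Q ⧸ q), Function.Injective g := by
  refine ⟨p.mapQ q f (fun x hx => (h x).1 hx), ?_⟩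
  rw [injective_iff_map_eq_zero]
  intro a
  induction a using Submodule.Quotient.induction_on with
  | _ x =>
    intro hx
    rw [Submodule.mapQ_apply, Submodule.Quotient.mk_eq_zero] at hx
    rw [Submodule.Quotient.mk_eq_zero]
    exact (h x).2 hx

theorem surQ {R P Q : Type} [Ring R] [AddCommGroup P] [Module R P] [AddCommGroup Q] [Module R Q]
    (f : P →ₗ[R] Q) (p : Submodule R P) (hf : Function.Surjective f) (h : ∀ x ∈ p, f x = 0) :
    ∃ g : (P ⧸ p) →ₗ[R] Q, Function.Surjective g := by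
  refine ⟨p.liftQ f (fun x hx => h x hx), ?_⟩
  intro y
  obtain ⟨x, hx⟩ := hf y
  exact ⟨Submodule.Quotient.mk x, by rw [Submodule.liftQ_apply, hx]⟩

end KYAM

open KYAM

theorem specKYA (hTCS : SpecTCS) (hTCE : SpecTCE) (hEXN : SpecEXN) (hLAT : SpecLAT) : SpecKYA := by
  intro S _ _ S0 _ L d hN0 hNS hF M _ _ hM Y hYfg hYgen c hc1 hcp hcm X
  haveI := hM
  haveI := hNS
  haveI := hN0
  haveI : IsNoetherian S M := isNoetherian_of_isNoetherianRing_of_finite S M
  haveI : Module.Finite S X := Module.Finite.of_fg (IsNoetherian.noetherian X)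
  -- the inclusion of X, linear over S0
  let iX : X →ₗ[S0] M :=
    { toFun := fun x => (x : M)
      map_add' := fun _ _ => rfl
      map_smul' := fun _ _ => rfl }
  have hiX : Function.Injective iX := fun a b h => Subtype.ext h
  let Y' : Submodule S0 X := Y.comap iX
  haveI : Module.Finite S0 Y := Module.Finite.of_fg hYfg
  haveI : IsNoetherian S0 Y := isNoetherian_of_isNoetherianRing_of_finite S0 Y
  have hY'fg : Y'.FG := by
    let g : Y' →ₗ[S0] Y := LinearMap.codRestrict Y (iX.comp Y'.subtype) (fun y => y.2)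
    have hg : Function.Injective g := by
      intro a b h
      have h1 : iX (a : X) = iX (b : X) := congrArg (fun z : Y => (z : M)) h
      exact Subtype.ext (hiX h1)
    haveI : Module.Finite S0 Y' := Module.Finite.of_injective g hg
    exact Module.Finite.iff_fg.1 this
  obtain ⟨N, hNfg, hYN, hNgen, hNX⟩ := hEXN S S0 L hNS X inferInstance Y' hY'fg
  refine ⟨N, hNfg, hNgen, hNX, ?_, ?_⟩
  · -- `T_(c-1)` for N
    let NM : Submodule S0 M := N.map iX
    have h1 := (hLAT S S0 L d hN0 hF M Y hYfg hYgen (c - 1) NM (hNfg.map iX)).1 hc1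
    let f : N →ₗ[S0] NM := LinearMap.codRestrict NM (iX.comp N.subtype)
      (fun x => Submodule.mem_map_of_mem x.2)
    refine (hTCS S0 (c - 1) N NM f).1 ?_ h1
    intro a b h
    have h2 : iX (a : X) = iX (b : X) := congrArg (fun z : NM => (z : M)) h
    exact Subtype.ext (hiX h2)
  · haveI : Module.Finite S0 N := Module.Finite.of_fg hNfg
    -- the image of Y'
    let P : Submodule S0 N := (L.pr N).submoduleOf N
    let inc : Y' →ₗ[S0] N := Submodule.inclusion hYN
    let fK : Y' →ₗ[S0] (N ⧸ P) := P.mkQ.comp inc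
    let K : Submodule S0 (N ⧸ P) := LinearMap.range fK
    refine hTCE S0 d hN0 hF c (N ⧸ P) K inferInstance ?_ ?_
    · -- `T_c(K)`
      let q : Submodule S0 Y := (Y ⊓ L.tr (-1) Y).submoduleOf Y
      let q' : Submodule S0 Y' := (Y' ⊓ L.tr (-1) Y').submoduleOf Y'
      let g : Y' →ₗ[S0] Y := LinearMap.codRestrict Y (iX.comp Y'.subtype) (fun y => y.2)
      obtain ⟨g1, hg1⟩ := injQ g q' q (by
        intro x
        have e1 : x ∈ q' ↔ (x : X) ∈ Y' ∧ (x : X) ∈ L.tr (-1) Y' := Iff.rfl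
        have e2 : g x ∈ q ↔ ((g x : Y) : M) ∈ Y ∧ ((g x : Y) : M) ∈ L.tr (-1) Y := Iff.rfl
        rw [e1, e2, Lau.mem_tr, Lau.mem_tr]
        exact Iff.rfl)
      have h1 : Tc S0 c (Y' ⧸ q') := (hTCS S0 c _ _ g1).1 hg1 hcm
      obtain ⟨g2, hg2⟩ := surQ fK.rangeRestrict q' fK.surjective_rangeRestrict (by
        intro x hx
        apply Subtype.ext
        show P.mkQ (inc x) = 0
        rw [Submodule.mkQ_apply, Submodule.Quotient.mk_eq_zero]
        show (x : X) ∈ L.pr N
        have hx' : (x : X) ∈ Y' ∧ (x : X) ∈ L.tr (-1) Y' := hx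
        refine ⟨hYN hx'.1, ?_⟩
        have h3 := (Lau.mem_tr L (-1) Y' (x : X)).1 hx'.2
        exact (Lau.mem_tr L (-1) N (x : X)).2 (hYN h3))
      exact (hTCS S0 c _ _ g2).2.1 hg2 h1
    · -- the quotient
      let NY : Submodule S0 M := N.map iX ⊔ Y
      have hNY : NY.FG := (hNfg.map iX).sup hYfg
      have h1 := (hLAT S S0 L d hN0 hF M Y hYfg hYgen c NY hNY).2 le_sup_right hcp hcm
      let f : N →ₗ[S0] NY := LinearMap.codRestrict NY (iX.comp N.subtype)
        (fun x => (le_sup_left : N.map iX ≤ NY) (Submodule.mem_map_of_mem x.2))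
      obtain ⟨g1, hg1⟩ := injQ f (Y'.submoduleOf N) (Y.submoduleOf NY) (by
        intro x
        exact Iff.rfl)
      have h2 : Tc S0 c (N ⧸ Y'.submoduleOf N) := (hTCS S0 c _ _ g1).1 hg1 h1
      obtain ⟨g2, hg2⟩ := surQ (K.mkQ.comp P.mkQ) (Y'.submoduleOf N)
        ((Submodule.mkQ_surjective K).comp (Submodule.mkQ_surjective P)) (by
          intro x hx
          rw [LinearMap.comp_apply, Submodule.mkQ_apply K, Submodule.Quotient.mk_eq_zero]
          exact ⟨⟨(x : X), hx⟩, rfl⟩)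
      exact (hTCS S0 c _ _ g2).2.1 hg2 h2

end Pool.Agent.Lib.MP8a3537.AUL
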