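import Pool.Agent.Lib.MP_8a3537_gt.AUL.POL

/-!
# Group rings of poly-infinite-cyclic groups over any regular base ring
-/

namespace Pool.Agent.Lib.MP8a3537.AUL

/-- The general form: `R` any ring with involution with `Aus R d`. -/
theorem polG (hSEM : SpecSEM) (hSTP : SpecSTP) (hGRP : SpecGRP) (R H : Type) [Ring R] [StarRing R]
    [Group H] (d0 : ℕ) (h0 : Aus R d0) (hH : PolyZ H) : ∃ d, Aus (MonoidAlgebra R H) d := by
  induction hH with
  | one H hs =>
    refine ⟨d0, ?_⟩
    refine (hSEM R (MonoidAlgebra R H) (RingEquiv.ofBijective _ (POLM.bij R H)) ?_).2 d0 h0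
    intro a
    change MonoidAlgebra.single (1 : H) (star a) = star (MonoidAlgebra.single (1 : H) a)
    rw [UV.star_single, inv_one]
  | step H N t hN hext ih =>
    obtain ⟨d, hd⟩ := ih
    obtain ⟨hss, ⟨L⟩, σ, hσ⟩ := hGRP R H N t hext
    exact ⟨d + 1, hSTP (MonoidAlgebra R H) (gsub R N) L d
      ((hSEM (MonoidAlgebra R N) (gsub R N) σ hσ).2 d hd)⟩

end Pool.Agent.Lib.MP8a3537.AUL
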