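import Pool.Agent.Lib.MP_8a3537_gt.AUL.Defs
import Pool.Agent.Lib.MP_8a3537_gt.UV.Spec
import Pool.Agent.Lib.MP_8a3537_gt.AU.Defs

/-!
# The Auslander condition for Laurent extensions: Specs

Paper: `/team-store/8a3537_AUL_laurent_h76.md`. Every module `XXX` is a file
`Pool/Agent/Lib/MP_8a3537_gt/AUL/XXX.lean` which imports this file and proves
`theorem specXXX (hypotheses = deps) : SpecXXX` in the namespace `Pool.Agent.Lib.MP8a3537.AUL`, with
its auxiliary declarations in the namespace `XXXM`.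

ALL modules are left modules and all types are in `Type`. A complex `C : FC A` has rows `x : C.I → A`
and the differential `x ↦ x ᵥ* C.e`. `InDeg C.deg q x`: the row `x` is supported in degree `q`;
`part C.deg q x`: its part of degree `q` (useful: `part q (y ᵥ* C.e) = (part (q-1) y) ᵥ* C.e`).
`C.dual` has the same index set, degrees `-deg`, and `C.dual.e = C.eᴴ`.
-/

namespace Pool.Agent.Lib.MP8a3537.AUL

open Matrix

/-! ## Part 1: complexes over a ring -/

/-- **LFT** (size 120, no deps): lifting of a module map to the resolutions.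

PROOF. Claim for all `n : ℕ`: there is `u` with `u i j ≠ 0 → D.deg j = C.deg i`, the rows of
`C.e * u` and `u * D.e` agree at all `i` with `-n ≤ C.deg i`, and `s.pi (u i) = f (r.pi (single i 1))`
for the `i` of degree `0`. `n = 0`: for `C.deg i = 0` choose a preimage of `f (r.pi (single i 1))`
under `s.pi` and take its part of degree `0` (`s.low`); both rows vanish because there is nothing in
degree `1`. `n → n + 1`: for `C.deg i = -n-1` the row `v = ∑ j, C.e i j • u j` has degree `-n`;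
if `n > 0` then `v ᵥ* D.e = 0` (induction hypothesis for the rows `j` of degree `-n` and `C.hee`),
and `D` is exact in degree `-n < 0`; if `n = 0` then `s.pi v = f (r.pi (single i 1 ᵥ* C.e)) = 0`
(`r.zero`), `s.ker`. So `v = y ᵥ* D.e`; new row `u i = part (-n-1) y`. For large `n` this is a chain
map; `s.pi (x ᵥ* u) = f (r.pi x)`: both sides are linear in `x`, take `x = single i 1`; for
`C.deg i ≠ 0` both vanish (`low`). -/
def SpecLFT : Prop :=
  ∀ (A : Type) [Ring A] (C D : FC A) (X Y : Type) [AddCommGroup X] [Module A X]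
    [AddCommGroup Y] [Module A Y] (r : Res C X) (s : Res D Y) (f : X →ₗ[A] Y),
    ∃ u : Matrix C.I D.I A, IsChain C D u ∧ ∀ x, s.pi (x ᵥ* u) = f (r.pi x)

/-- **HTP** (size 120, no deps): a chain map which induces zero is null-homotopic.

PROOF. As in LFT, descending induction on the degree of the rows: `h i` of degree `C.deg i - 1` with
`h i ᵥ* D.e = u i - ∑ j, C.e i j • h j =: v`. `v` has degree `C.deg i`; if `C.deg i < 0` then
`v ᵥ* D.e = u i ᵥ* D.e - ∑ j, C.e i j • (u j - ∑ k, C.e j k • h k) = 0` (`hu.comm`, `C.hee`), exactness.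
If `C.deg i = 0` the sum is empty and `s.pi (u i) = 0`: `s.ker`. -/
def SpecHTP : Prop :=
  ∀ (A : Type) [Ring A] (C D : FC A) (Y : Type) [AddCommGroup Y] [Module A Y] (s : Res D Y)
    (u : Matrix C.I D.I A), IsChain C D u → (∀ i, C.deg i ≤ 0) → (∀ x, s.pi (x ᵥ* u) = 0) →
    ∃ h : Matrix C.I D.I A, (∀ i j, h i j ≠ 0 → D.deg j = C.deg i - 1) ∧
      u = C.e * h + h * D.e

/-- **IND** (size 150, deps LFT, HTP): two resolutions of the same module have the same dual
cohomology.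

PROOF. `u : C → D`, `v : D → C` lifts of the identity (LFT). `v * u - 1 : D → D` induces `0`:
`v * u = 1 + D.e * h + h * D.e` (HTP), and the same for `u * v`. Dual maps: `y ↦ y ᵥ* uᴴ` from
`D.dual` to `C.dual`, `y ↦ y ᵥ* vᴴ` back, composition `y ᵥ* (v * u)ᴴ = y + (y ᵥ* hᴴ) ᵥ* D.eᴴ` if
`y ᵥ* D.eᴴ = 0`. Both statements follow (for the first: `y ᵥ* uᴴ = z ᵥ* C.eᴴ`, so
`y ᵥ* uᴴ ᵥ* vᴴ = (z ᵥ* vᴴ) ᵥ* D.eᴴ`). The linear equivalence is built with `Submodule.mapQ` or
`Submodule.liftQ` from the two maps on cocycles. -/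
def SpecIND : Prop :=
  ∀ (A : Type) [Ring A] [StarRing A] (C D : FC A) (X : Type) [AddCommGroup X] [Module A X],
    Res C X → Res D X →
    (∀ q, C.dual.ExactAt q → D.dual.ExactAt q) ∧ ∀ q, Nonempty (C.dual.H q ≃ₗ[A] D.dual.H q)

/-- **CON** (size 120, no deps): the cone of a lift of an inclusion resolves the quotient.

PROOF. Augmentation: `z ↦ [r.pi (fun i => z (inl i))]`. Degrees `≤ 0`. `low`, `surj`, `zero` (a row
`(x, x')` is mapped to `(x ᵥ* C.e + x' ᵥ* u, -(x' ᵥ* D.e))`, and `r.pi (x' ᵥ* u) = s.pi x' ∈ K`): clear.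
`ker`: `z = (x, x')` of degree `0`: `x'` has degree `1` in `D`, so `x' = 0`; `r.pi x ∈ K`:
`r.pi x = s.pi z'` with `z'` of degree `0` (part of degree 0), `r.pi (x - z' ᵥ* u) = 0`:
`x - z' ᵥ* u = y ᵥ* C.e`; and `z' ᵥ* D.e = 0` (nothing in degree `1`). Exactness in degree `q < 0`:
`(x, x')`, `x'` of degree `q + 1` in `D`, `x' ᵥ* D.e = 0`, `x ᵥ* C.e + x' ᵥ* u = 0`. If `q + 1 < 0`:
`x' = z' ᵥ* D.e`. If `q + 1 = 0`: `0 = r.pi (x ᵥ* C.e + x' ᵥ* u) = s.pi x'`, so `x' = z' ᵥ* D.e` too. Then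
`x + z' ᵥ* u` is a cocycle of degree `q < 0` of `C` (`z'` of degree `q`): `= y ᵥ* C.e`;
`(x, x') = (y, -z') ᵥ* e`. -/
def SpecCON : Prop :=
  ∀ (A : Type) [Ring A] (C D : FC A) (X : Type) [AddCommGroup X] [Module A X] (K : Submodule A X)
    (r : Res C X) (s : Res D K) (u : Matrix D.I C.I A) (hu : IsChain D C u),
    (∀ x, r.pi (x ᵥ* u) = (s.pi x : X)) → Nonempty (Res (cone C D u hu) (X ⧸ K))

/-- **LES** (size 180, no deps): the dual of a cone. A row of the dual of `cone C D u` is `(y, y')`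
and it is mapped to `(y ᵥ* C.eᴴ, y ᵥ* uᴴ - y' ᵥ* D.eᴴ)`; the `D`-part of degree `q` has degree `q - 1` in
`D.dual`.

PROOF. (1) `y = z ᵥ* C.eᴴ` (`z` of degree `q - 1`), then `y' - z ᵥ* uᴴ` is a cocycle of `D.dual` of
degree `q - 1` (`C.eᴴ * uᴴ = uᴴ * D.eᴴ`), so `= w' ᵥ* D.eᴴ`; `(y, y') = (z, -w') ᵥ* e`. (2) `y` a cocycle
of `C.dual` of degree `q`: `y ᵥ* uᴴ` is a cocycle of `D.dual`, `= z' ᵥ* D.eᴴ`, `z'` of degree `q - 1`:
`(y, z')` is a cocycle of the cone, so `(y, z') = (y2, z2) ᵥ* e`, `y = y2 ᵥ* C.eᴴ`. (3) `g y' = [(0, y')]`,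
`f [(y, y')] = [y]`. `ker f = range g`: if `y = z ᵥ* C.eᴴ`, `z` of degree `q - 1`, then
`[(y, y')] = [(0, y' - z ᵥ* uᴴ)]`. `g y' = 0` iff `(0, y') = (z, z') ᵥ* e` for some `z`, `z'` of degree
`q - 1`, `q - 2`. -/
def SpecLES : Prop :=
  ∀ (A : Type) [Ring A] [StarRing A] (C D : FC A) (u : Matrix D.I C.I A) (hu : IsChain D C u),
    (∀ q, C.dual.ExactAt q → D.dual.ExactAt (q - 1) → (cone C D u hu).dual.ExactAt q) ∧
    (∀ q, (cone C D u hu).dual.ExactAt q → D.dual.ExactAt q → C.dual.ExactAt q) ∧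
    (∀ q, ∃ (g : D.dual.Z (q - 1) →ₗ[A] (cone C D u hu).dual.H q)
      (f : (cone C D u hu).dual.H q →ₗ[A] C.dual.H q),
      LinearMap.ker f = LinearMap.range g ∧
      ∀ y : D.dual.Z (q - 1), g y = 0 ↔
        ∃ (z : C.I → A) (b : D.I → A), z ∈ C.dual.Z (q - 1) ∧ b ∈ D.dual.B (q - 1) ∧
          y.1 = (z ᵥ* uᴴ + b : D.I → A))

/-- **RSM** (size 60, no deps): a resolution is a resolution of a finite module.

PROOF. `X = (C.I → A) ⧸ W`, `W = {x | ∃ y, part 0 x = part 0 (y ᵥ* C.e)}`, `pi` the quotient map. -/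
def SpecRSM : Prop :=
  ∀ (A : Type) [Ring A] (C : FC A), C.IsRes →
    ∃ (X : Type) (_ : AddCommGroup X) (_ : Module A X), Module.Finite A X ∧ Nonempty (Res C X)

/-- **SEM** (size 200, no deps): transport along an isomorphism of rings with involution.

PROOF. (1) `pi y = f (r.pi (fun i => σ.symm (y i)))`; rows over `A` and over `B` correspond by `σ`,
`σ (x ᵥ* C.e) = σ x ᵥ* (C.e.map σ)`. (2) For `N' ≤ Y` take the submodule `{x | f x ∈ N'}` of `X`, its
resolution `C`, and (1) for the restriction of `f`; `(C.map σ).dual` and `C.dual.map σ` are equal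
(`Matrix.ext`, `hσ`), and `ExactAt` passes from `C.dual` to `C.dual.map σ`. (3) noetherian:
`isNoetherianRing_of_ringEquiv`. `fin`: a finite module `N` over `B` is a finite `A`-module through
`σ` (`Module.compHom N σ.toRingHom`, as a local instance), apply (1) with `f = id`. `aus`: for `C` over
`B` take `C.map σ.symm` over `A`; `C.dual.H c` and `(C.map σ.symm).dual.H c` correspond by a
`σ`-semilinear additive equivalence (rows by `σ`), then (2). -/
def SpecSEM : Prop :=
  ∀ (A B : Type) [Ring A] [StarRing A] [Ring B] [StarRing B] (σ : A ≃+* B),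
    (∀ a, σ (star a) = star (σ a)) →
    (∀ (X Y : Type) [AddCommGroup X] [Module A X] [AddCommGroup Y] [Module B Y] (f : X ≃+ Y),
      (∀ (a : A) (x : X), f (a • x) = σ a • f x) →
      (∀ (C : FC A) (r : Res C X), ∃ s : Res (C.map (σ : A →+* B)) Y,
        ∀ y, s.pi y = f (r.pi (fun i => σ.symm (y i)))) ∧
      (∀ c : ℤ, Tc A c X → Tc B c Y)) ∧
    (∀ d, Aus A d → Aus B d)

/-- **TCS** (size 150, deps LFT, CON, LES): `T_c` passes to submodules, quotients and isomorphic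
modules.

PROOF. `Gr` is invariant under linear equivalences (compose `pi`). Injective `f : X → Y`: `X' ≤ X` is
isomorphic to `X'.map f`. Surjective `f`: `Y' ≤ Y`, `X' = Y'.comap f`, `K = ker f` as a submodule of `X'`
(`(ker f).submoduleOf X'`, isomorphic to the submodule `ker f ≤ X'` of `X`), `X' / K = Y'`
(`LinearMap.quotKerEquivOfSurjective`). `Gr X'` by `C`, `Gr K` by `D` with duals exact below `c`; LFT
for the inclusion, CON, and LES (1): the dual of the cone is exact below `c`. `c' ≤ c`: clear. -/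
def SpecTCS : Prop :=
  ∀ (A : Type) [Ring A] [StarRing A] (c : ℤ) (X Y : Type) [AddCommGroup X] [Module A X]
    [AddCommGroup Y] [Module A Y] (f : X →ₗ[A] Y),
    (Function.Injective f → Tc A c Y → Tc A c X) ∧
    (Function.Surjective f → Tc A c X → Tc A c Y) ∧
    (∀ c' ≤ c, Tc A c X → Tc A c' X)

/-- **TCE** (size 120, deps LFT, CON, LES, IND, TCS): `T_c` is closed under extensions.

PROOF. `X' ≤ X`, `K' = K ⊓ X'` as a submodule of `X'`: it is isomorphic to a submodule of `K`, so it has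
a resolution `D` with dual exact below `c`; `X' / K'` embeds in `X / K`, so it has a resolution `E`
with dual exact below `c`. `X'` is finite: let `C` resolve it (`FinRes`), `u : D → C` (LFT). `cone`
resolves `X' / K'` (CON), so its dual is exact below `c` (IND with `E`). LES (2): `C.dual` is exact below
`c`. -/
def SpecTCE : Prop :=
  ∀ (A : Type) [Ring A] [StarRing A] (d : ℕ), IsNoetherianRing A → FinRes A d →
    ∀ (c : ℤ) (X : Type) [AddCommGroup X] [Module A X] (K : Submodule A X), Module.Finite A X →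
      Tc A c K → Tc A c (X ⧸ K) → Tc A c X

/-- **TCZ** (size 30, no deps): `T_c` for `c ≤ 0` is no condition.

PROOF. A resolution `C` has degrees `≤ 0`, so `C.dual` has degrees `≥ 0` and a row of degree `q < 0` is
zero. Submodules of a finite module are finite. -/
def SpecTCZ : Prop :=
  ∀ (A : Type) [Ring A] [StarRing A] (d : ℕ), IsNoetherianRing A → FinRes A d →
    ∀ (c : ℤ) (X : Type) [AddCommGroup X] [Module A X], Module.Finite A X → c ≤ 0 → Tc A c X

/-! ## Part 2: the Laurent extension -/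

/-- **LAU** (size 200, no deps): coefficients. `L.cor x k` is the `k`-th coefficient row of `x`:
`x i = ∑ k, t^k (L.cor x k i)`.

PROOF. `L.val` is an additive bijection, `L.co = L.val.symm`. To compute the coefficients of an
element it is enough to write it as `∑ t^k a_k`: `(t^k a) * t⁻¹ = t^(k-1) σ(a)`,
`(t^k a) * t = t^(k+1) σ⁻¹(a)`, `(t^k a) * b = t^k (a b)`, `t * (t^k a) = t^(k+1) a`. For the last
clause: `M` an `S`-module, `p : I → M`; write `x i` as a finite sum and exchange the sums. -/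
def SpecLAU : Prop :=
  ∀ (S : Type) [Ring S] [StarRing S] (S0 : Subring S) [StarSub S0] (L : Lau S0)
    (I J : Type) [Fintype I] [Fintype J],
    (∀ x : I → S, {k | L.cor x k ≠ 0}.Finite) ∧
    (∀ x y : I → S, (∀ k, L.cor x k = L.cor y k) → x = y) ∧
    (∀ (x y : I → S) k, L.cor (x + y) k = L.cor x k + L.cor y k) ∧
    (∀ (x y : I → S) k, L.cor (x - y) k = L.cor x k - L.cor y k) ∧
    (∀ k, L.cor (0 : I → S) k = 0) ∧
    (∀ f : ℤ → I → S0, {k | f k ≠ 0}.Finite → ∃ x : I → S, ∀ k, L.cor x k = f k) ∧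
    (∀ (x : I → S0) k, L.cor (fun i => (x i : S)) k = if k = 0 then x else 0) ∧
    (∀ (x : I → S) (m : Matrix I J S0) k,
      L.cor (x ᵥ* m.map (fun a : S0 => (a : S))) k = L.cor x k ᵥ* m) ∧
    (∀ (x : I → S) k, L.cor (fun i => x i * ((L.t⁻¹ : Sˣ) : S)) k =
      fun i => L.sg (L.cor x (k + 1) i)) ∧
    (∀ (x : I → S) k, L.cor (fun i => x i * (L.t : S)) k =
      fun i => L.sg.symm (L.cor x (k - 1) i)) ∧
    (∀ (x : I → S) k, L.cor (fun i => (L.t : S) * x i) k = L.cor x (k - 1)) ∧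
    (∀ (M : Type) [AddCommGroup M] [Module S M] (p : I → M) (x : I → S) (F : Finset ℤ),
      (∀ k, L.cor x k ≠ 0 → k ∈ F) →
      ∑ i, x i • p i = ∑ k ∈ F, ((L.t ^ k : Sˣ) : S) • ∑ i, L.cor x k i • p i)

/-- **BCE** (size 60, deps LAU): base change keeps exactness.

PROOF. A row over `S` is in degree `q` iff all its coefficient rows are; `x ᵥ* (bc C).e` has the
coefficients `L.cor x k ᵥ* C.e`. Choose `y_k` with `L.cor x k = y_k ᵥ* C.e`, `y_k = 0` if `L.cor x k = 0`,
and `y` with coefficients `y_k`. Second clause: `sg` commutes with `star` since `t^* = t⁻¹`. -/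
def SpecBCE : Prop :=
  ∀ (S : Type) [Ring S] [StarRing S] (S0 : Subring S) [StarSub S0] (L : Lau S0),
    (∀ (C : FC S0) (q : ℤ), C.ExactAt q → (bc C).ExactAt q) ∧
    (∀ a : S0, L.sg (star a) = star (L.sg a))

/-- **TWI** (size 120, deps SEM, BCE): translates.

PROOF. `m ↦ t^k m` is an additive bijection `N → t^k N` with `t^k (a m) = (t^k a t^-k)(t^k m)`; use
SEM with the ring automorphism `a ↦ t^k a t^-k` of `S0` (powers of `sg`; it is enough to treat
`k = 1` and `k = -1` and to iterate, `L.tr (k+1) N = L.tr 1 (L.tr k N)`). -/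
def SpecTWI : Prop :=
  ∀ (S : Type) [Ring S] [StarRing S] (S0 : Subring S) [StarSub S0] (L : Lau S0)
    (M : Type) [AddCommGroup M] [Module S M] (N N0 : Submodule S0 M) (k : ℤ) (c : ℤ),
    (Tc S0 c N → Tc S0 c (L.tr k N)) ∧
    (N0 ≤ N → Tc S0 c (N ⧸ N0.submoduleOf N) →
      Tc S0 c (L.tr k N ⧸ (L.tr k N0).submoduleOf (L.tr k N)))

/-- **NOE** (size 150, no deps): `S` is noetherian (Hilbert's basis theorem).

PROOF. Let `J` be a left ideal of `S`, `P = {s | co s k = 0 for k < 0}` (polynomials in `t` with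
coefficients in `S0` on the right), `M_k = {s | co s j = 0 unless 0 ≤ j ≤ k}`. `S0 * M_k ⊆ M_k`
(`a t^j = t^j σ^-j(a)`), `t M_k ⊆ M_(k+1)`. `Λ_k = {σ^k(a) | a ∈ S0, t^k a ∈ J + M_(k-1)}`, that is
`{b ∈ S0 | b t^k ∈ J + M_(k-1)}`: a left ideal of `S0`, `Λ_k ≤ σ^-1(Λ_(k+1))`; to have an increasing
sequence use `Λ_k' = {a ∈ S0 | t^k a ∈ J + M_(k-1)}`, also a left ideal of `S0` (`b t^k a` is in
`J + M_(k-1)`, `b t^k a = t^k (σ^-k(b) a)`), and `Λ'_k ≤ Λ'_(k+1)`. It is constant for `k ≥ K`. `J ∩ M_K`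
is a finitely generated `S0`-module (`M_K = ∑ S0 t^j`, a finite `S0`-module). Claim
`J ∩ M_k ⊆ S (J ∩ M_K)` for `k ≥ K`: `l = t^(k+1) a + m`, `m ∈ M_k`, `a ∈ Λ'_(k+1) = Λ'_k`,
`t^k a = l' + m'`, `l' ∈ J ∩ M_k`, `l - t l' = m + t m' ∈ J ∩ M_k`. Every `s ∈ J` has `t^j s ∈ P` for a
large `j`. -/
def SpecNOE : Prop :=
  ∀ (S : Type) [Ring S] [StarRing S] (S0 : Subring S) [StarSub S0] (_ : Lau S0),
    IsNoetherianRing S0 → IsNoetherianRing S

/-- **EXN** (size 250, deps LAU): existence of `N` with the property `(X)`.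

PROOF. Choose a finite generating set of `M` over `S`; `N0` = the `S0`-span of it and of generators
of `Y`: `Y ≤ N0`, `N0` generates `M`. Let `p : Fin m → M` be generators of `N0` over `S0`, `K` the kernel
of `S^m → M`, `x ↦ ∑ x_i p_i`: finitely generated over `S` (noetherian) by rows `κ_1, .., κ_r`; after
multiplication by powers of `t` (LAU: `L.cor (t x) k = L.cor x (k-1)`) the coefficients
`κ_(l,k) = L.cor κ_l k` vanish unless `0 ≤ k ≤ w`. `N = ∑_(0 ≤ j ≤ w) t^j N0` (`⨆ j ∈ range (w+1),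
L.tr j N0`): finitely generated (`t^j N0` is generated by the `t^j p_i`), `Y ≤ N0 ≤ N`. Let `W` be the
set of the finitely supported `n : ℤ → N` for which `n'` as in `(X)` exists. It is closed under
addition, shifts `n ↦ n(· - 1)`, and `n ↦ (σ^-k(a) n_k)_k` for `a ∈ S0` (`σ^-(k)(a) t n'_(k+1) =
t σ^-(k+1)(a) n'_(k+1)`). For `m ∈ N0` and `0 ≤ j ≤ w`, `δ_k (t^j m) - δ_(k+j) m ∈ W` (by induction on
`j`: `n' = δ_(k+1)(t^(j-1) m)` gives `δ_k (t^j m) - δ_(k+1)(t^(j-1) m)`). So `(X)` for `n : ℤ → N`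
follows from `(X)` for `n : ℤ → N0` (write `n_k = ∑_j t^j m_(k,j)`). Such an `n` is
`n_k = ∑_i L.cor x k i • p i` for a row `x ∈ S^m`, and `∑ t^k n_k = 0` says `x ∈ K`. The set of the
`x ∈ S^m` with `(∑_i L.cor x k i p_i)_k ∈ W` is an `S`-submodule (closed under `t`, `t⁻¹`, `S0`), so it
is enough that it contains `κ_l`: modulo `W`
`∑_k δ_k (κ_(l,k) p) = ∑_k δ_0 (t^k (κ_(l,k) p)) = δ_0 (∑_k t^k κ_(l,k) p) = 0`. -/
def SpecEXN : Prop :=
  ∀ (S : Type) [Ring S] [StarRing S] (S0 : Subring S) [StarSub S0] (L : Lau S0),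
    IsNoetherianRing S → ∀ (M : Type) [AddCommGroup M] [Module S M], Module.Finite S M →
      ∀ Y : Submodule S0 M, Y.FG → ∃ N : Submodule S0 M, N.FG ∧ Y ≤ N ∧ Gen N ∧ L.PX N

/-- The matrix `Φ = w t⁻¹ - u`. -/
def Lau.phi {S : Type} [Ring S] [StarRing S] {S0 : Subring S} (L : Lau S0) {I J : Type}
    (u w : Matrix I J S0) : Matrix I J S :=
  fun i j => (w i j : S) * ((L.t⁻¹ : Sˣ) : S) - (u i j : S)

/-- `C`, `D` resolve `N` and `N' = N ∩ t⁻¹ N`, `u : D → C` lifts the inclusion `N' ≤ N`, and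
`w : D → σ⁻¹(C)` lifts the inclusion `N' ≤ t⁻¹ N`. -/
structure Lau.Data {S : Type} [Ring S] [StarRing S] {S0 : Subring S} (L : Lau S0) {M : Type}
    [AddCommGroup M] [Module S M] (N : Submodule S0 M) (C D : FC S0) (r : Res C N)
    (s : Res D (L.pr N)) (u w : Matrix D.I C.I S0) : Prop where
  hu : IsChain D C u
  hw : IsChain D (C.map (L.sg.symm : S0 →+* S0)) w
  lu : ∀ x, ((r.pi (x ᵥ* u) : N) : M) = ((s.pi x : L.pr N) : M)
  lw : ∀ x, (L.t : S) • ((s.pi x : L.pr N) : M) = ((r.pi (fun j => L.sg ((x ᵥ* w) j)) : N) : M)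

/-- **MAK** (size 80, deps LFT, SEM): existence of `u` and `w`.

PROOF. `u`: LFT for the inclusion `L.pr N → N`. `w`: `n ↦ t⁻¹ n` is an additive equivalence
`N → L.tr (-1) N`, semilinear for `σ⁻¹ = L.sg.symm`; SEM (1) gives a resolution `C.map L.sg.symm` of
`L.tr (-1) N` with `pi y = t⁻¹ r.pi (σ y)`; LFT for the inclusion `L.pr N → L.tr (-1) N`. -/
def SpecMAK : Prop :=
  ∀ (S : Type) [Ring S] [StarRing S] (S0 : Subring S) [StarSub S0] (L : Lau S0)
    (M : Type) [AddCommGroup M] [Module S M] (N : Submodule S0 M) (C D : FC S0) (r : Res C N)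
    (s : Res D (L.pr N)), ∃ u w : Matrix D.I C.I S0, L.Data N C D r s u w

/-- **PHC** (size 60, no deps): `Φ` is a chain map.

PROOF. `(D.e * w) t⁻¹ = w σ⁻¹(C.e) t⁻¹ = (w t⁻¹) C.e` because `σ⁻¹(a) t⁻¹ = t⁻¹ a`. -/
def SpecPHC : Prop :=
  ∀ (S : Type) [Ring S] [StarRing S] (S0 : Subring S) [StarSub S0] (L : Lau S0) (C D : FC S0)
    (u w : Matrix D.I C.I S0), IsChain D C u → IsChain D (C.map (L.sg.symm : S0 →+* S0)) w →
    IsChain (bc D) (bc C) (L.phi u w)

/-- **CHR** (size 200, deps LAU, BCE): the characteristic resolution.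

PROOF. Augmentation: `(x, x') ↦ ∑ i, x i • r.pi (single i 1)`, equal to `∑_k t^k r.pi (L.cor x k)`.
`L.cor (z ᵥ* Φ) k = σ((L.cor z (k+1)) ᵥ* w) - L.cor z k ᵥ* u`, so `r.pi` of it is
`t s.pi(z_(k+1)) - s.pi(z_k)` (`lu`, `lw`), `z_k = L.cor z k`. `zero`: telescoping sum.
`surj`: `Gen N`. `ker`: `(x, 0)` of degree 0 with `∑ t^k n_k = 0`, `n_k = r.pi (L.cor x k)`: by `(X)`
`n_k = t n'_(k+1) - n'_k`; choose `z` with `s.pi z_k = n'_k`, `z_k` of degree `0`, finitely many non-zero; then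
`r.pi (L.cor (x - z ᵥ* Φ) k) = 0` for all `k`, so `x - z ᵥ* Φ = y ᵥ* (bc C).e` (choose `y` coefficientwise).
Exactness in degree `q < 0`, `(x, z)`: `z ᵥ* (bc D).e = 0`, `x ᵥ* (bc C).e + z ᵥ* Φ = 0`, `z` of degree
`q + 1`. If `q + 1 < 0`: `z = z' ᵥ* (bc D).e` (BCE). If `q + 1 = 0`: applying `r.pi` to the coefficients:
`t s.pi(z_(k+1)) = s.pi(z_k)` for all `k`, finitely many are non-zero, so all are zero (the largest `k`
with `s.pi(z_k) ≠ 0` would satisfy `s.pi(z_k) = t s.pi(z_(k+1)) = 0`), so again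
`z = z' ᵥ* (bc D).e`. Then as in CON: `x + z' ᵥ* Φ = y ᵥ* (bc C).e`, `(x, z) = (y, -z') ᵥ* e`. -/
def SpecCHR : Prop :=
  ∀ (S : Type) [Ring S] [StarRing S] (S0 : Subring S) [StarSub S0] (L : Lau S0)
    (M : Type) [AddCommGroup M] [Module S M] (N : Submodule S0 M), Gen N → L.PX N →
    ∀ (C D : FC S0) (r : Res C N) (s : Res D (L.pr N)) (u w : Matrix D.I C.I S0),
      L.Data N C D r s u w → ∀ hP : IsChain (bc D) (bc C) (L.phi u w),
      Nonempty (Res (cone (bc C) (bc D) (L.phi u w) hP) M)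

/-- **FNS** (size 60, deps EXN, MAK, PHC, CHR): finite free resolutions over `S`.

PROOF. EXN with `Y = ⊥`; `N`, `L.pr N` are finite `S0`-modules (`S0` noetherian), take resolutions of
length `≤ d`; the cone has degrees `≥ -(d+1)`. -/
def SpecFNS : Prop :=
  ∀ (S : Type) [Ring S] [StarRing S] (S0 : Subring S) [StarSub S0] (_ : Lau S0) (d : ℕ),
    IsNoetherianRing S0 → IsNoetherianRing S → FinRes S0 d → FinRes S (d + 1)

/-- **LAT** (size 200, deps TCS, TCE, TWI): finitely generated `S0`-submodules of `M`.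

PROOF. `Y_k = ⨆_(|j| ≤ k) t^j Y` (finitely generated). `⋃ Y_k` is an `S`-submodule containing `Y`, so it
is `M`; a finitely generated `N` is contained in some `Y_k`. (1) `T_c(Y_k)` by induction on `k`: if
`T_c(A)` and `T_c(t^j Y)` (TWI), then `T_c(A ⊔ t^j Y)`: `(A ⊔ t^j Y)/A` is a quotient of `t^j Y`
(TCE, TCS; second isomorphism theorem `LinearMap.quotientInfEquivSupQuotient`). Then `T_c(N)` by
TCS. (2) `T_c(Y_k / Y)` by induction, adding the `t^j Y` in the order `j = 1, -1, 2, -2, ..`: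
`Y ≤ A`, `t^(j-1) Y ≤ A`: `(A ⊔ t^j Y)/A` is a quotient of `t^j Y/(t^(j-1)Y ∩ t^j Y)`, which is the
translate by `t^(j-1)` of `tY/(tY ∩ Y)`, itself the translate by `t` of `Y/(Y ∩ t⁻¹ Y)` (TWI with
`N0 = Y ⊓ L.tr (-1) Y`); for negative `j`: `t^j Y/(t^(j+1)Y ∩ t^j Y)` is the translate by `t^j` of
`Y/(Y ∩ tY)`. `(A ⊔ t^j Y)/Y` is an extension of `(A ⊔ t^j Y)/A` by `A/Y`. `N/Y` embeds in `Y_k/Y`. -/
def SpecLAT : Prop :=
  ∀ (S : Type) [Ring S] [StarRing S] (S0 : Subring S) [StarSub S0] (L : Lau S0) (d : ℕ),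
    IsNoetherianRing S0 → FinRes S0 d →
    ∀ (M : Type) [AddCommGroup M] [Module S M] (Y : Submodule S0 M), Y.FG → Gen Y →
      ∀ (c : ℤ) (N : Submodule S0 M), N.FG →
        (Tc S0 c Y → Tc S0 c N) ∧
        (Y ≤ N → Tc S0 c (Y ⧸ (Y ⊓ L.tr 1 Y).submoduleOf Y) →
          Tc S0 c (Y ⧸ (Y ⊓ L.tr (-1) Y).submoduleOf Y) → Tc S0 c (N ⧸ Y.submoduleOf N))

/-- **LOC** (size 120, deps LES, BCE, EXN, MAK, PHC, CHR, TCS, LAT).

PROOF. Let `X ≤ M` be an `S`-submodule; it is finite over `S`. EXN for `X` with `Y = ⊥`: a finitely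
generated `S0`-submodule `N` of `X` with `(X)`. Its image in `M` is finitely generated, so `T_c` by
LAT (1), so `T_c(N)`, and `L.pr N ≤ N` gives `T_c(L.pr N)` (TCS). Resolutions `C`, `D` of `N` and `L.pr N`
with duals exact below `c`; MAK, PHC, CHR: `cone (bc C) (bc D) Φ` resolves `X`. `(bc C).dual = bc C.dual`
(`bc_dual`), BCE and LES (1): its dual is exact below `c`. -/
def SpecLOC : Prop :=
  ∀ (S : Type) [Ring S] [StarRing S] (S0 : Subring S) [StarSub S0] (_ : Lau S0) (d : ℕ),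
    IsNoetherianRing S0 → IsNoetherianRing S → FinRes S0 d →
    ∀ (M : Type) [AddCommGroup M] [Module S M], Module.Finite S M →
      ∀ Y : Submodule S0 M, Y.FG → Gen Y → ∀ c : ℤ, Tc S0 c Y → Tc S c M

/-- **KYA** (size 150, deps TCS, TCE, EXN, LAT): the module part of the key lemma.

PROOF. `Y' = {x ∈ X | x ∈ Y}` (an `S0`-submodule of `X`, finitely generated since `S0` is noetherian and
`Y'` embeds in `Y`). EXN for `X`, `Y'`: `N ≥ Y'`, `N' = L.pr N`. `T_(c-1)(N)`: the image of `N` in `M` is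
finitely generated: LAT (1). `T_c(N / N')`: TCE with the submodule `(N' ⊔ Y')/N'`: it is a quotient of
`Y'/(Y' ∩ t⁻¹ Y')` because `Y' ∩ t⁻¹ Y' ≤ N'`; and `Y'/(Y' ∩ t⁻¹ Y')` embeds in `Y/(Y ∩ t⁻¹ Y)` (if
`y ∈ Y'` and `t y ∈ Y` then `t y ∈ Y'`). The quotient `N/(N' ⊔ Y')` is a quotient of `N/Y'`, which
embeds in `(N ⊔ Y)/Y` (in `M`): LAT (2) for `N ⊔ Y`. -/
def SpecKYA : Prop :=
  ∀ (S : Type) [Ring S] [StarRing S] (S0 : Subring S) [StarSub S0] (L : Lau S0) (d : ℕ),
    IsNoetherianRing S0 → IsNoetherianRing S → FinRes S0 d →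
    ∀ (M : Type) [AddCommGroup M] [Module S M], Module.Finite S M →
      ∀ (Y : Submodule S0 M), Y.FG → Gen Y → ∀ c : ℤ, Tc S0 (c - 1) Y →
        Tc S0 c (Y ⧸ (Y ⊓ L.tr 1 Y).submoduleOf Y) →
        Tc S0 c (Y ⧸ (Y ⊓ L.tr (-1) Y).submoduleOf Y) →
        ∀ X : Submodule S M, ∃ N : Submodule S0 X, N.FG ∧ Gen N ∧ L.PX N ∧ Tc S0 (c - 1) N ∧
          Tc S0 c (N ⧸ (L.pr N).submoduleOf N)

/-- **KYB** (size 150, deps LAU, BCE): the complex part of the key lemma.

PROOF. Let `(y, y')` be a cocycle of degree `q` of the dual of the cone over `S`: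
`y ᵥ* (bc C).eᴴ = 0`, `y ᵥ* Φᴴ = y' ᵥ* (bc D).eᴴ`. `Φᴴ = t wᴴ - uᴴ` (entries `t * star (w i j) - star (u i j)`),
so with `y_k = L.cor y k`: `L.cor (y ᵥ* Φᴴ) k = σ⁻¹(y_(k-1)) ᵥ* wᴴ - y_k ᵥ* uᴴ = y'_k ᵥ* D.eᴴ`. Claim:
every `y_k` is `z_k ᵥ* C.eᴴ`. Induction on `k` (it holds for all small `k` since `y_k = 0`): if
`y_(k-1) = z ᵥ* C.eᴴ` then `σ⁻¹(y_(k-1)) ᵥ* wᴴ = σ⁻¹(z) ᵥ* (σ⁻¹(C.e))ᴴ ᵥ* wᴴ = (σ⁻¹(z) ᵥ* wᴴ) ᵥ* D.eᴴ`
(`hw.comm`), so `y_k ᵥ* uᴴ = (σ⁻¹(z) ᵥ* wᴴ - y'_k) ᵥ* D.eᴴ`, and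
`(y_k, part (q-1) of (σ⁻¹(z) ᵥ* wᴴ - y'_k))` is a cocycle of degree `q` of `(cone C D u).dual`, which is
exact there: `y_k = z_k ᵥ* C.eᴴ`. So `y = z ᵥ* (bc C).eᴴ` (take `z_k = 0` if `y_k = 0`, `z_k` of degree
`q - 1`); `y' - z ᵥ* Φᴴ` is a cocycle of `(bc D).dual` of degree `q - 1`, exact by BCE:
`= z' ᵥ* (bc D).eᴴ`; `(y, y') = (z, -z') ᵥ* e`. -/
def SpecKYB : Prop :=
  ∀ (S : Type) [Ring S] [StarRing S] (S0 : Subring S) [StarSub S0] (L : Lau S0) (C D : FC S0)
    (u w : Matrix D.I C.I S0) (hu : IsChain D C u)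
    (_ : IsChain D (C.map (L.sg.symm : S0 →+* S0)) w) (hP : IsChain (bc D) (bc C) (L.phi u w))
    (q : ℤ), (cone C D u hu).dual.ExactAt q → D.dual.ExactAt (q - 1) →
    (cone (bc C) (bc D) (L.phi u w) hP).dual.ExactAt q

/-- **KEY** (size 120, deps IND, CON, TCS, MAK, PHC, CHR, KYA, KYB).

PROOF. For an `S`-submodule `X ≤ M` take `N` from KYA, resolutions `C`, `D` of `N`, `L.pr N` (`FinRes`,
both are finite over `S0`), `u`, `w` (MAK). `D` also resolves `(L.pr N).submoduleOf N` (linear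
equivalence), so `cone C D u` resolves `N ⧸ (L.pr N).submoduleOf N` (CON), which has `T_c`: by IND its
dual is exact below `c`. `T_(c-1)(L.pr N)` (TCS), so `D.dual` is exact below `c - 1` (IND). KYB: the dual
of `cone (bc C) (bc D) Φ`, a resolution of `X` by CHR, is exact below `c`. -/
def SpecKEY : Prop :=
  ∀ (S : Type) [Ring S] [StarRing S] (S0 : Subring S) [StarSub S0] (L : Lau S0) (d : ℕ),
    IsNoetherianRing S0 → IsNoetherianRing S → FinRes S0 d →
    ∀ (M : Type) [AddCommGroup M] [Module S M], Module.Finite S M →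
      ∀ (Y : Submodule S0 M), Y.FG → Gen Y → ∀ c : ℤ, Tc S0 (c - 1) Y →
        Tc S0 c (Y ⧸ (Y ⊓ L.tr 1 Y).submoduleOf Y) →
        Tc S0 c (Y ⧸ (Y ⊓ L.tr (-1) Y).submoduleOf Y) → Tc S c M

/-- **ACH** (size 100, deps LAU, TCS, LOC): `T_c` for the cohomology of a base change.

PROOF. `M = (bc C).dual.H c`, `Y` = the set of the classes of the cocycles `x : C.I → S` of the form
`x i = (x0 i : S)`, `x0` a cocycle of `C.dual` over `S0`. It is the image of the `S0`-module
`C.dual.Z c`, and coboundaries go to `0`, so it is a quotient of `C.dual.H c`: `T_c(Y)` (TCS), and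
finitely generated (`S0` noetherian). It generates `M`: `x = ∑_k t^k x_k` with `x_k = L.cor x k`
cocycles over `S0` (LAU). LOC. -/
def SpecACH : Prop :=
  ∀ (S : Type) [Ring S] [StarRing S] (S0 : Subring S) [StarSub S0] (_ : Lau S0) (d : ℕ),
    IsNoetherianRing S0 → IsNoetherianRing S → FinRes S0 d →
    ∀ (C : FC S0) (c : ℤ), Tc S0 c (C.dual.H c) → Tc S c ((bc C).dual.H c)

/-- **ACX** (size 200, deps LAU, LES, TCS, KEY): `T_c` for the cokernel.

PROOF. `M = range g`, a finite `S`-module. `Y` = the set of the `g y`, `y` a cocycle of `(bc D).dual` of degree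
`c - 1` with entries in `S0`: an `S0`-submodule of `M`, the image of `D.dual.Z (c - 1)`;
coboundaries are mapped to `0` (`hg` with `z = 0`). So `Y` is a quotient of `D.dual.H (c - 1)`:
`T_(c-1)(Y)`; `Y.FG`; `Gen Y` (LAU: `y = ∑ t^k y_k`). For a cocycle `y` of `C.dual` over `S0` of
degree `c - 1` the row `y ᵥ* Φᴴ = t (σ⁻¹(y) ᵥ* wᴴ) - y ᵥ* uᴴ` is killed by `g` (`hg`), so
`g (y ᵥ* uᴴ) = t g (σ⁻¹(y) ᵥ* wᴴ)` [(`σ⁻¹(y) t⁻¹ = t⁻¹ y`), both rows are cocycles of `D.dual` over `S0`]. So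
`U = {g (y ᵥ* uᴴ)} ≤ Y ⊓ tY` and `V = {g (σ⁻¹(y) ᵥ* wᴴ)} ≤ Y ⊓ t⁻¹ Y`. `Y/(Y ⊓ tY)` is a quotient of
`D.dual.Z (c-1) / (B + im uᴴ)`, which by LES (3) for `cone C D u` is isomorphic to `range g'`, a
submodule of `(cone C D u).dual.H c`, which has `T_c` by hypothesis. The same for
`Y/(Y ⊓ t⁻¹ Y)` and `cone (C.map σ⁻¹) D w` (its cocycles are the `σ⁻¹(y)`). KEY. -/
def SpecACX : Prop :=
  ∀ (S : Type) [Ring S] [StarRing S] (S0 : Subring S) [StarSub S0] (L : Lau S0) (d : ℕ),
    IsNoetherianRing S0 → IsNoetherianRing S → FinRes S0 d →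
    ∀ (C D : FC S0) (u w : Matrix D.I C.I S0) (hu : IsChain D C u)
      (hw : IsChain D (C.map (L.sg.symm : S0 →+* S0)) w) (c : ℤ),
      Tc S0 (c - 1) (D.dual.H (c - 1)) → Tc S0 c ((cone C D u hu).dual.H c) →
      Tc S0 c ((cone (C.map (L.sg.symm : S0 →+* S0)) D w hw).dual.H c) →
      ∀ (X : Type) [AddCommGroup X] [Module S X] (g : (bc D).dual.Z (c - 1) →ₗ[S] X),
        Function.Surjective g →
        (∀ y : (bc D).dual.Z (c - 1), g y = 0 ↔
          ∃ (z : C.I → S) (b : D.I → S), z ∈ (bc C).dual.Z (c - 1) ∧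
            b ∈ (bc D).dual.B (c - 1) ∧ y.1 = (z ᵥ* (L.phi u w)ᴴ + b : D.I → S)) →
        Tc S c X

/-- **ACQ** (size 150, deps IND, CON, LES, RSM, SEM, TCS, TCE, TCZ, EXN, MAK, PHC, CHR, FNS, ACH,
ACX): the Auslander condition for `S`.

PROOF. `E` a resolution over `S`, of the finite module `M` (RSM). `c = 0`: TCZ with `FinRes S (d+1)` (FNS).
`c ≥ 1`: EXN with `Y = ⊥`: `N`; resolutions `C`, `D` of `N`, `L.pr N`; `u`, `w` (MAK), `K = cone (bc C) (bc D) Φ`
resolves `M` (CHR). IND: `E.dual.H c` is isomorphic to `K.dual.H c`. LES (3) for `K`: `g`, `f`; `TCE`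
(over `S`) with the submodule `ker f = range g` of `K.dual.H c` (a finite `S`-module): the quotient
embeds in `(bc C).dual.H c`, `T_c` by ACH and `Aus.aus` for `C`; `range g` has `T_c` by ACX: `D` is a
resolution, `c - 1 ≥ 0`; `cone C D u` is a resolution of `N / N'` (CON; `D` also resolves
`(L.pr N).submoduleOf N`) and `cone (C.map σ⁻¹) D w` a resolution of `t⁻¹N / N'` (SEM (1), CON), so
`Aus.aus` applies to both. -/
def SpecACQ : Prop :=
  ∀ (S : Type) [Ring S] [StarRing S] (S0 : Subring S) [StarSub S0] (_ : Lau S0) (d : ℕ),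
    Aus S0 d → IsNoetherianRing S → ∀ E : FC S, E.IsRes → ∀ c : ℤ, 0 ≤ c →
      Tc S c (E.dual.H c)

/-- **STP** (size 20, deps NOE, FNS, ACQ). -/
def SpecSTP : Prop :=
  ∀ (S : Type) [Ring S] [StarRing S] (S0 : Subring S) [StarSub S0] (_ : Lau S0) (d : ℕ),
    Aus S0 d → Aus S (d + 1)

/-! ## Part 3: principal ideal domains and group rings -/

/-- The complex `R^m → R^n` in degrees `-1` and `0`. -/
def two {R : Type} [Ring R] {m n : ℕ} (E : Matrix (Fin m) (Fin n) R) : FC R where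
  I := Fin n ⊕ Fin m
  fin := inferInstance
  dec := inferInstance
  deg := Sum.elim (fun _ => 0) (fun _ => -1)
  e := fromBlocks 0 0 E 0
  he := by
    rintro (i | i) (j | j) h
    · exact absurd rfl h
    · exact absurd rfl h
    · simp
    · exact absurd rfl h
  hee := by
    intro i k
    have h : (fromBlocks 0 0 E 0 : Matrix (Fin n ⊕ Fin m) (Fin n ⊕ Fin m) R) *
        fromBlocks 0 0 E 0 = 0 := by
      rw [fromBlocks_multiply]
      simp
    have h2 := congrFun (congrFun h i) k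
    rwa [Matrix.mul_apply] at h2

/-- **PIF** (size 120, no deps): resolutions of length one over a principal ideal domain.

PROOF. `R^n → N` onto, the kernel is free of finite rank `m` (`Submodule.nonempty_basis_of_pid`), the
rows of `E` are a basis of the kernel. -/
def SpecPIF : Prop :=
  ∀ (R : Type) [CommRing R] [IsDomain R] [IsPrincipalIdealRing R]
    (N : Type) [AddCommGroup N] [Module R N], Module.Finite R N →
    ∃ (n m : ℕ) (E : Matrix (Fin m) (Fin n) R), (∀ z : Fin m → R, z ᵥ* E = 0 → z = 0) ∧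
      Nonempty (Res (two E) N)

/-- **PIT** (size 80, no deps): the cokernel of the dual is torsion.

PROOF. Over the fraction field `K` the rows of `E` are linearly independent (clear denominators), so
`E F = 1` for a matrix `F` over `K` (`Matrix.exists_rightInverse...` or by linear algebra: `vecMulLinear` is
injective, take a left inverse); clearing denominators `E F' = r` with `r ≠ 0` in `R`. Apply the
conjugate transpose: `F'ᴴ Eᴴ = star r`; `x = y ᵥ* F'ᴴ`. -/
def SpecPIT : Prop :=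
  ∀ (R : Type) [CommRing R] [IsDomain R] [StarRing R] (m n : ℕ) (E : Matrix (Fin m) (Fin n) R),
    (∀ z : Fin m → R, z ᵥ* E = 0 → z = 0) →
    ∃ r : R, r ≠ 0 ∧ ∀ y : Fin m → R, ∃ x : Fin n → R, r • y = x ᵥ* Eᴴ

/-- **PID** (size 200, deps IND, RSM, TCZ, PIF, PIT): a principal ideal domain is Auslander regular.

PROOF. `FinRes R 1` by PIF. `aus`: let `C` be a resolution, `X` finite, resolved by `C` (RSM) and by
`two E` (PIF). `C.dual.H c = (two E).dual.H c` (IND). `c = 0`: TCZ. `c ≥ 2`: `(two E).dual` has no rows of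
degree `c`, so the module is zero and its submodule is resolved by the zero complex (index set
`Empty`, or `two` with `m = n = 0`). `c = 1`: a submodule `N` of `(two E).dual.H 1` is killed by some
`r ≠ 0` (PIT: the rows of degree `1` of the dual are the `(0, y)`, `y : Fin m → R`, and `(x, 0)` is mapped
to `(0, x ᵥ* Eᴴ)`). Let `two F` resolve `N` (PIF). Exactness of `(two F).dual` in degree `0`:
`x ᵥ* Fᴴ = 0`, `x : Fin n → R`. Since `r N = 0` every `r • single i 1` is `z ᵥ* F` (`ker` in degree `0`),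
and `F *ᵥ (star x) = 0` (star of `x ᵥ* Fᴴ = 0`) gives `r * star (x i) = z ⬝ᵥ F *ᵥ star x = 0`: `x = 0`. In
degrees `< 0` there are no rows. -/
def SpecPID : Prop :=
  ∀ (R : Type) [CommRing R] [IsDomain R] [IsPrincipalIdealRing R] [StarRing R], Aus R 1

/-- The subring `R[N]` of `R[H]`. -/
noncomputable def gsub (R : Type) {H : Type} [Ring R] [Group H] (N : Subgroup H) :
    Subring (MonoidAlgebra R H) := (UV.emb R N).range

/-- `H = N ⟨t⟩`, `t` of infinite order modulo the normal subgroup `N`. -/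
def IsExt {H : Type} [Group H] (N : Subgroup H) (t : H) : Prop :=
  N.Normal ∧ (∀ h : H, ∃ k : ℤ, t ^ (-k) * h ∈ N) ∧ ∀ k : ℤ, t ^ k ∈ N → k = 0

/-- Poly-infinite-cyclic groups. -/
inductive PolyZ : (H : Type) → [Group H] → Prop
  | one (H : Type) [Group H] : Subsingleton H → PolyZ H
  | step (H : Type) [Group H] (N : Subgroup H) (t : H) : PolyZ N → IsExt N t → PolyZ H

/-- **GRP** (size 200, no deps): group rings are Laurent extensions.

PROOF. The involution of `R[H]` is `star x = conj x` (`UV.star_def`, `UV.star_single`), it maps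
`emb x` to `emb (star x)`. `Lau`: the unit is `single t 1` (inverse `single t⁻¹ 1`);
`t (single n r) t⁻¹ = single (t n t⁻¹) r`. Every element is uniquely `∑ t^k a_k`, `a_k ∈ R[N]`:
`x = ∑_h single h (x h)`, `h = t^k n` with unique `k : ℤ`, `n ∈ N`; the coefficient of `t^k a_k` at `h` is
`a_k(t^(-k) h)` if `t^(-k) h ∈ N` and `0` otherwise. `σ` = `UV.emb` onto its range (it is injective:
`MonoidAlgebra.mapDomain_injective`). -/
def SpecGRP : Prop :=
  ∀ (R H : Type) [Ring R] [StarRing R] [Group H] (N : Subgroup H) (t : H), IsExt N t →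
    ∃ _ : StarSub (gsub R N), Nonempty (Lau (gsub R N)) ∧
      ∃ σ : MonoidAlgebra R N ≃+* gsub R N, ∀ a, σ (star a) = star (σ a)

/-- **POL** (size 60, deps SEM, STP, PID, GRP).

PROOF. Induction on `PolyZ H`. Trivial group: `MonoidAlgebra R H ≃+* R` (`x ↦ x.coeff 1`), compatible with
the involutions; SEM (2). Step: GRP, SEM (2), STP. -/
def SpecPOL : Prop :=
  ∀ (R H : Type) [CommRing R] [IsDomain R] [IsPrincipalIdealRing R] [StarRing R] [Group H],
    PolyZ H → ∃ d, Aus (MonoidAlgebra R H) d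

/-! ## Part 4: the bridge to `AU.AuslanderRegular` (right modules, columns) -/

/-- The complex of columns. -/
def toAU {A : Type} [Ring A] [StarRing A] (C : FC A) : AU.FC A where
  I := C.I
  ft := C.fin
  de := C.dec
  deg := C.deg
  d := C.eᴴ
  hd := by
    intro i j h
    apply C.he j i
    intro h0
    apply h
    rw [conjTranspose_apply, h0, star_zero]
  dd := by rw [← conjTranspose_mul, C.e_mul_e, conjTranspose_zero]

/-- The complex of rows. -/
def ofAU {A : Type} [Ring A] [StarRing A] (P : AU.FC A) : FC A where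
  I := P.I
  fin := P.ft
  dec := P.de
  deg := P.deg
  e := P.dᴴ
  he := by
    intro i j h
    apply P.hd j i
    intro h0
    apply h
    rw [conjTranspose_apply, h0, star_zero]
  hee := by
    intro i k
    have h : P.dᴴ * P.dᴴ = 0 := by rw [← conjTranspose_mul, P.dd, conjTranspose_zero]
    have h2 := congrFun (congrFun h i) k
    rwa [Matrix.mul_apply] at h2

/-- The rows `x` whose column `x^*` is in `Z`. -/
def sR {A : Type} [Ring A] [StarRing A] {m : Type} (Z : Submodule Aᵐᵒᵖ (m → A)) :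
    Submodule A (m → A) where
  carrier := {x | star x ∈ Z}
  add_mem' := by
    intro x y hx hy
    simp only [Set.mem_ofPred_eq, star_add] at *
    exact Z.add_mem hx hy
  zero_mem' := by simp
  smul_mem' := by
    intro a x hx
    simp only [Set.mem_ofPred_eq] at *
    have h : star (a • x) = MulOpposite.op (star a) • star x := by
      ext i
      simp
    rw [h]
    exact Z.smul_mem _ hx

/-- **BRL** (size 150, no deps): resolutions of `Z / B`.

PROOF. `x ↦ star x` exchanges rows and columns: `star (x ᵥ* C.e) = C.eᴴ *ᵥ star x`. For `j` of degree `0`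
choose `g_j ∈ sR Z` representing `r.pi (single j 1)`; `g k j = star (g_j k)` for `C.deg j = 0` and
`g k j = 0` otherwise. Then `star (g *ᵥ y)` represents `r.pi (star y)`. `res`: `(toAU C).IsRes` from
`r.isRes` (`ExBelow 0` by decomposition into homogeneous parts). -/
def SpecBRL : Prop :=
  ∀ (A : Type) [Ring A] [StarRing A] (m : Type) [Fintype m] (B Z : Submodule Aᵐᵒᵖ (m → A)),
    B ≤ Z → ∀ (C : FC A), Res C (sR Z ⧸ (sR B).submoduleOf (sR Z)) →
      ∃ g : Matrix m C.I A, (toAU C).Resolves B Z g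

/-- **BRF** (size 40, deps BRL). PROOF. `Z = ⊤`, `B = AU.rng M`; the quotient is finite: `FinRes`. -/
def SpecBRF : Prop :=
  ∀ (A : Type) [Ring A] [StarRing A] (d : ℕ), FinRes A d →
    ∀ (m n : ℕ) (M : Matrix (Fin m) (Fin n) A),
      ∃ (C : AU.FC A) (g : Matrix (Fin m) C.I A), C.Resolves (AU.rng M) ⊤ g

/-- **BRI** (size 100, deps IND, RSM).

PROOF. `ofAU P` is a resolution (`P.ExBelow 0` gives exactness in every degree `q < 0`), of a finite
module `X` (RSM), also resolved by `C` with degrees `≥ -d`. `C.dual` has no rows of degree `> d`, so it is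
exact there; IND: `(ofAU P).dual` is exact in all degrees `q > d`. A column `x` supported in degrees
`> d` with `P.dual.d *ᵥ x = 0` is the sum of its homogeneous parts, each is killed by `d`, and
`star` of them are cocycles of `(ofAU P).dual` (`(ofAU P).dual.e = P.d`, `P.dual.d = P.dᴴ`). -/
def SpecBRI : Prop :=
  ∀ (A : Type) [Ring A] [StarRing A] (d : ℕ), Aus A d →
    ∀ P : AU.FC A, P.IsRes → P.dual.ExAbove d

/-- **BRA** (size 120, deps BRL).

PROOF. `ofAU P` is a resolution. `sR (P.dual.Cy c) = (ofAU P).dual.Z c`,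
`sR (P.dual.Bd c) = (ofAU P).dual.B c` (as sets of rows). `sR Z / sR B` is isomorphic to the submodule
of `(ofAU P).dual.H c` which is the image of `sR Z`; `Aus.aus` gives a resolution `C` with
`C.dual` exact below `c`, transported to `sR Z ⧸ (sR B).submoduleOf (sR Z)`; BRL; `(toAU C).dual.ExBelow c`
by homogeneous parts (`star` of the rows). -/
def SpecBRA : Prop :=
  ∀ (A : Type) [Ring A] [StarRing A] (d : ℕ), Aus A d →
    ∀ P : AU.FC A, P.IsRes → ∀ (c : ℕ) (Z : Submodule Aᵐᵒᵖ (P.dual.I → A)),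
      P.dual.Bd c ≤ Z → Z ≤ P.dual.Cy c →
      ∃ (Q : AU.FC A) (g : Matrix P.dual.I Q.I A), Q.Resolves (P.dual.Bd c) Z g ∧ Q.dual.ExBelow c

/-- **BRG** (size 20, deps BRF, BRI, BRA). -/
def SpecBRG : Prop :=
  ∀ (A : Type) [Ring A] [StarRing A] (d : ℕ), Aus A d → AU.AuslanderRegular A

/-- The final statement. -/
def SpecFinal : Prop :=
  ∀ (R H : Type) [CommRing R] [IsDomain R] [IsPrincipalIdealRing R] [StarRing R] [Group H],
    PolyZ H → AU.AuslanderRegular (MonoidAlgebra R H)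

end Pool.Agent.Lib.MP8a3537.AUL
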